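import Pool.Agent.DEN.Defs

/-!
Project DEN: the charge `e` and its commutation with one step. Constants: `Q ^ 4 = -1`, `s = Q ^ 2`,
`x ^ 2 (1 - Q) (1 + Q ^ 3) = 1` (`Q⁻¹ = - Q ^ 3`), `zr = x (1 + Q ^ 3)`, `zl = x (1 - Q)`.
-/

namespace Pool.Agent.DEN

section Alg

variable {A : Type*} [CommRing A]

/-- `K = diag (1, Q, Q⁻¹)`. -/
def kq (Q : A) : Sp → A
  | .zero => 1
  | .pos => Q
  | .neg => -Q ^ 3

/-- `K` on a queue. -/
def KQ (Q : A) (l : List Sp) : A := (l.map (kq Q)).prod

/-- The charge on one leg: `- ↦ 0 ↦ zr +`. -/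
def ee (zr : A) (g : Sp → A) : Sp → A
  | .neg => g .zero
  | .zero => zr * g .pos
  | .pos => 0

/-- The charge on a queue with alternating legs, `t = true`: the first leg is a right leg (factor `zr`),
`t = false`: it is a left leg (factor `zl`). -/
def eh (Q zr zl : A) : Bool → (List Sp → A) → List Sp → A
  | _, _, [] => 0
  | t, f, a :: l => (if t then zr else zl) * ee zr (fun b => f (b :: l)) a +
      kq Q a * eh Q zr zl (!t) (fun l' => f (a :: l')) l

/-- The constants. -/
structure Cst (s x Q zr zl : A) : Prop where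
  q4 : Q ^ 4 = -1
  hs : s = Q ^ 2
  hx : x ^ 2 * ((1 - Q) * (1 + Q ^ 3)) = 1
  hr : zr = x * (1 + Q ^ 3)
  hl : zl = x * (1 - Q)

variable {s x Q zr zl : A}

theorem ee_add (g h : Sp → A) (v : Sp) : ee zr (fun b => g b + h b) v = ee zr g v + ee zr h v := by
  cases v <;> simp [ee, mul_add]

theorem ee_smul (r : A) (g : Sp → A) (v : Sp) : ee zr (fun b => r * g b) v = r * ee zr g v := by
  cases v <;> simp [ee, mul_left_comm]

theorem ee_kq (h4 : Q ^ 4 = -1) (g : Sp → A) (v : Sp) :
    ee zr (fun b => kq Q b * g b) v = Q * (kq Q v * ee zr g v) := by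
  cases v
  · simp [ee, kq]; ring
  · simp [ee, kq]; linear_combination g .zero * h4
  · simp [ee, kq]

theorem eh_add (l : List Sp) : ∀ (t : Bool) (f g : List Sp → A),
    eh Q zr zl t (fun l => f l + g l) l = eh Q zr zl t f l + eh Q zr zl t g l := by
  induction l with
  | nil => intro t f g; simp [eh]
  | cons a l ih =>
    intro t f g
    simp only [eh]
    rw [ee_add (fun b => f (b :: l)) (fun b => g (b :: l)), ih]
    ring

theorem eh_smul (r : A) (l : List Sp) : ∀ (t : Bool) (f : List Sp → A),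
    eh Q zr zl t (fun l => r * f l) l = r * eh Q zr zl t f l := by
  induction l with
  | nil => intro t f; simp [eh]
  | cons a l ih =>
    intro t f
    simp only [eh]
    rw [ee_smul r (fun b => f (b :: l)), ih]
    ring

theorem KQ_nil : KQ Q [] = 1 := rfl

theorem KQ_cons (a : Sp) (l : List Sp) : KQ Q (a :: l) = kq Q a * KQ Q l := by
  simp [KQ]

theorem eh_KQ (h4 : Q ^ 4 = -1) (l : List Sp) : ∀ (t : Bool) (f : List Sp → A),
    eh Q zr zl t (fun l => KQ Q l * f l) l = Q * (KQ Q l * eh Q zr zl t f l) := by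
  induction l with
  | nil => intro t f; simp [eh]
  | cons a l ih =>
    intro t f
    simp only [eh, KQ_cons]
    have h1 : (fun b => kq Q b * KQ Q l * f (b :: l)) =
        fun b => kq Q b * (KQ Q l * f (b :: l)) := by funext b; ring
    have h2 : (fun l' => kq Q a * KQ Q l' * f (a :: l')) =
        fun l' => kq Q a * (KQ Q l' * f (a :: l')) := by funext b; ring
    rw [h1, ee_kq h4, ee_smul, h2, eh_smul, ih]
    ring

/-- the charge on a concatenation -/
theorem eh_append (c : List Sp) : ∀ (t : Bool) (f : List Sp → A) (d : List Sp),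
    eh Q zr zl t f (c ++ d) = eh Q zr zl t (fun c' => f (c' ++ d)) c +
      KQ Q c * eh Q zr zl (xor t (decide (c.length % 2 = 1))) (fun d' => f (c ++ d')) d := by
  induction c with
  | nil => intro t f d; simp [eh, KQ_nil]
  | cons a c ih =>
    intro t f d
    simp only [List.cons_append, eh, ih, KQ_cons, List.length_cons]
    have : (xor (!t) (decide (c.length % 2 = 1))) = (xor t (decide ((c.length + 1) % 2 = 1))) := by
      rcases Nat.mod_two_eq_zero_or_one c.length with h | h
      · have h' : (c.length + 1) % 2 = 1 := by omega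
        cases t <;> simp [h, h']
      · have h' : (c.length + 1) % 2 = 0 := by omega
        cases t <;> simp [h, h']
    rw [this]
    ring

/-- operators in two variables commute -/
theorem eh_ee (l : List Sp) (t : Bool) (H : List Sp → Sp → A) (v : Sp) :
    eh Q zr zl t (fun c => ee zr (fun w => H c w) v) l =
      ee zr (fun w => eh Q zr zl t (fun c => H c w) l) v := by
  cases v
  · simp only [ee]; exact eh_smul zr l t _
  · simp only [ee]
  · simp only [ee]
    have := eh_smul (Q := Q) (zr := zr) (zl := zl) 0 l t (fun _ => (0 : A))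
    simpa using this

/-- charge on the vertical edge and the rest, before the rest -/
def EA (Q zr zl : A) (H : List Sp → Sp → A) (c : List Sp) (v : Sp) : A :=
  ee zr (fun w => H c w) v + kq Q v * eh Q zr zl true (fun c' => H c' v) c

/-- charge on the rest and the vertical edge, after the rest -/
def EB (Q zr zl : A) (H : List Sp → Sp → A) (c : List Sp) (v : Sp) : A :=
  eh Q zr zl true (fun c' => H c' v) c + KQ Q c * ee zr (fun w => H c w) v

theorem EA_sq (h4 : Q ^ 4 = -1) (H : List Sp → Sp → A) (c : List Sp) (v : Sp) :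
    EA Q zr zl (EA Q zr zl H) c v =
      ee zr (fun w => ee zr (fun w' => H c w') w) v +
      (1 + Q) * (kq Q v * ee zr (fun w => eh Q zr zl true (fun c' => H c' w) c) v) +
      kq Q v ^ 2 * eh Q zr zl true (fun c' => eh Q zr zl true (fun c'' => H c'' v) c') c := by
  unfold EA
  rw [ee_add, ee_kq h4, eh_add, eh_ee, eh_smul]
  ring

theorem EB_sq (h4 : Q ^ 4 = -1) (H : List Sp → Sp → A) (c : List Sp) (v : Sp) :
    EB Q zr zl (EB Q zr zl H) c v =
      KQ Q c ^ 2 * ee zr (fun w => ee zr (fun w' => H c w') w) v +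
      (1 + Q) * (KQ Q c * ee zr (fun w => eh Q zr zl true (fun c' => H c' w) c) v) +
      eh Q zr zl true (fun c' => eh Q zr zl true (fun c'' => H c'' v) c') c := by
  unfold EB
  rw [ee_add, eh_add, eh_KQ h4, eh_ee, ee_smul]
  ring

/-- `Q` as a unit -/
def uQ (h4 : Q ^ 4 = -1) : Aˣ where
  val := Q
  inv := -Q ^ 3
  val_inv := by linear_combination -h4
  inv_val := by linear_combination -h4

theorem kq_u (h4 : Q ^ 4 = -1) (v : Sp) : kq Q v = ((uQ h4) ^ (ch v) : Aˣ) := by
  cases v
  · simp [kq, ch]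
  · simp [kq, ch, uQ]
  · simp [kq, ch, uQ]

theorem KQ_u (h4 : Q ^ 4 = -1) (c : List Sp) : KQ Q c = ((uQ h4) ^ (chg c) : Aˣ) := by
  induction c with
  | nil => simp [KQ, chg]
  | cons a c ih =>
    have : chg (a :: c) = ch a + chg c := by simp [chg]
    rw [KQ_cons, ih, kq_u h4, this, zpow_add, Units.val_mul]

theorem kq_chg (h4 : Q ^ 4 = -1) (v : Sp) (c : List Sp) (n : ℤ) (h0 : ch v + chg c = n) :
    kq Q v * KQ Q c = ((uQ h4) ^ n : Aˣ) := by
  rw [kq_u h4, KQ_u h4, ← Units.val_mul, ← zpow_add, h0]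

/-! ### The lower vertex -/

theorem SS_add (g h : Sp → A) (a b : Sp) :
    SS s x (fun v => g v + h v) a b = SS s x g a b + SS s x h a b := by
  cases a <;> cases b <;> simp [SS] <;> ring

theorem SS_smul (r : A) (g : Sp → A) (a b : Sp) :
    SS s x (fun v => r * g v) a b = r * SS s x g a b := by
  cases a <;> cases b <;> simp [SS] <;> ring

theorem eh_zero (l : List Sp) (t : Bool) : eh Q zr zl t (fun _ => (0 : A)) l = 0 := by
  have := eh_smul (Q := Q) (zr := zr) (zl := zl) 0 l t (fun _ => (0 : A))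
  simpa using this

theorem SS_eh (t : Bool) (c : List Sp) (H : List Sp → Sp → A) (a b : Sp) :
    eh Q zr zl t (fun c' => SS s x (H c') a b) c =
      SS s x (fun v => eh Q zr zl t (fun c' => H c' v) c) a b := by
  cases a <;> cases b <;> simp only [SS]
  all_goals first
    | exact eh_smul _ c t _
    | exact eh_zero c t

theorem SS_kq (h4 : Q ^ 4 = -1) (g : Sp → A) (a b : Sp) :
    SS s x (fun v => kq Q v * g v) a b = kq Q a * kq Q b * SS s x g a b := by
  cases a <;> cases b <;> simp [SS, kq]
  all_goals first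
    | ring1
    | linear_combination x * g 0 * h4
    | linear_combination -x * s * g 0 * h4

theorem Cst.f2 (hc : Cst s x Q zr zl) : zl * zr = 1 := by
  rw [hc.hl, hc.hr]; linear_combination hc.hx

theorem Cst.f1 (hc : Cst s x Q zr zl) : x * (zl + zr) = 1 := by
  rw [hc.hl, hc.hr]; linear_combination hc.hx + x ^ 2 * hc.q4

theorem Cst.f3 (hc : Cst s x Q zr zl) : zl = -Q * zr := by
  rw [hc.hl, hc.hr]; linear_combination x * hc.q4

theorem Cst.f4 (hc : Cst s x Q zr zl) : zr ^ 2 = Q ^ 3 := by
  have h1 := hc.f2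
  have h3 := hc.f3
  linear_combination Q ^ 3 * h1 - Q ^ 3 * zr * h3 + zr ^ 2 * hc.q4

theorem SS_ee (hc : Cst s x Q zr zl) (g : Sp → A) (a b : Sp) :
    SS s x (ee zr g) a b = zr * ee zr (fun a' => SS s x g a' b) a +
      kq Q a * (zl * ee zr (fun b' => SS s x g a b') b) := by
  have f1 := hc.f1
  have f2 := hc.f2
  have f3 := hc.f3
  have f4 := hc.f4
  have h4 := hc.q4
  have hs := hc.hs
  have hr := hc.hr
  have hl := hc.hl
  cases a <;> cases b <;> simp [SS, kq, ee]
  · linear_combination -zr * g 1 * f1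
  · linear_combination g 0 * (x * s * f4 + x * Q ^ 3 * hs - hl + x * Q * h4)
  · linear_combination g 0 * (-1 * hr + Q ^ 3 * x * f2)
  · linear_combination g (-1) * (Q ^ 3 * x * f3 - x * zr * h4)
  · ring
  · linear_combination g 1 * (-x * zr * hs - x * Q * f3)

/-! ### The upper vertex -/

/-- the upper vertex as a function of the last two legs -/
def U2 (s x : A) (φ : Sp → Sp → A) : Sp → A
  | .zero => φ .zero .zero + x * φ .pos .neg + x * s * φ .neg .pos
  | .pos => x * φ .pos .zero + x * φ .zero .pos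
  | .neg => x * φ .neg .zero + x * φ .zero .neg

theorem UU_U2 (f : List Sp → A) (c : List Sp) (v : Sp) :
    UU s x f c v = U2 s x (fun p q => f (c ++ [p, q])) v := by
  cases v <;> simp [UU, UO, U2]
  all_goals ring

theorem U2_kq (h4 : Q ^ 4 = -1) (φ : Sp → Sp → A) (v : Sp) :
    kq Q v * U2 s x φ v = U2 s x (fun p q => kq Q p * (kq Q q * φ p q)) v := by
  cases v <;> simp [U2, kq]
  · linear_combination (x * φ 1 (-1) + x * s * φ (-1) 1) * h4
  · ring
  · ring

theorem U2_ee (hc : Cst s x Q zr zl) (φ : Sp → Sp → A) (v : Sp) :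
    ee zr (U2 s x φ) v = U2 s x (fun p q => zl * ee zr (fun p' => φ p' q) p +
      kq Q p * (zr * ee zr (fun q' => φ p q') q)) v := by
  have f1 := hc.f1
  have f2 := hc.f2
  have f3 := hc.f3
  have f4 := hc.f4
  have h4 := hc.q4
  have hs := hc.hs
  have hr := hc.hr
  have hl := hc.hl
  cases v <;> simp [U2, kq, ee]
  · linear_combination φ 1 0 * (-zr * hl) + φ 0 1 * (-zr * hr - x * s * f3 + x * zr * Q * hs)
  · linear_combination φ 0 0 * (-1 * f1) + φ 1 (-1) * (-x * f2) +
      φ (-1) 1 * (x * Q ^ 3 * f4 + x * hs + x * Q ^ 2 * h4)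
  · linear_combination φ 1 1 * (-x * zr * f3)

theorem U2_add (φ ψ : Sp → Sp → A) (v : Sp) :
    U2 s x (fun p q => φ p q + ψ p q) v = U2 s x φ v + U2 s x ψ v := by
  cases v <;> simp [U2] <;> ring

theorem U2_smul (r : A) (φ : Sp → Sp → A) (v : Sp) :
    U2 s x (fun p q => r * φ p q) v = r * U2 s x φ v := by
  cases v <;> simp [U2] <;> ring

theorem U2_eh (t : Bool) (c : List Sp) (H : List Sp → Sp → Sp → A) (v : Sp) :
    eh Q zr zl t (fun c' => U2 s x (H c') v) c =
      U2 s x (fun p q => eh Q zr zl t (fun c' => H c' p q) c) v := by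
  cases v <;> simp only [U2, eh_add, eh_smul]

/-! ### One step -/

theorem eh_SS (hc : Cst s x Q zr zl) (H : List Sp → Sp → A) (f : List Sp → A)
    (hf : ∀ a b c, f (a :: b :: c) = SS s x (H c) a b) (a b : Sp) (c : List Sp) :
    eh Q zr zl true f (a :: b :: c) = SS s x (EA Q zr zl H c) a b := by
  have e1 : eh Q zr zl true f (a :: b :: c) = zr * ee zr (fun a' => SS s x (H c) a' b) a +
      kq Q a * (zl * ee zr (fun b' => SS s x (H c) a b') b +
        kq Q b * eh Q zr zl true (fun c' => SS s x (H c') a b) c) := by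
    simp only [eh, hf]
    simp
  have e2 : SS s x (EA Q zr zl H c) a b = SS s x (ee zr (H c)) a b +
      SS s x (fun v => kq Q v * eh Q zr zl true (fun c' => H c' v) c) a b :=
    SS_add (ee zr (H c)) (fun v => kq Q v * eh Q zr zl true (fun c' => H c' v) c) a b
  rw [e1, e2, SS_ee hc, SS_kq hc.q4, SS_eh]
  ring

theorem UU_eh (hc : Cst s x Q zr zl) (f : List Sp → A) (c : List Sp) (hl : c.length % 2 = 1)
    (v : Sp) : UU s x (eh Q zr zl true f) c v = EB Q zr zl (UU s x f) c v := by
  have e1 : ∀ p q, eh Q zr zl true f (c ++ [p, q]) =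
      eh Q zr zl true (fun c' => f (c' ++ [p, q])) c +
        KQ Q c * (zl * ee zr (fun p' => f (c ++ [p', q])) p +
          kq Q p * (zr * ee zr (fun q' => f (c ++ [p, q'])) q)) := by
    intro p q
    rw [eh_append]
    simp [hl, eh]
  rw [UU_U2]
  simp only [e1]
  rw [U2_add, U2_smul, ← U2_ee hc, ← U2_eh]
  unfold EB
  simp only [UU_U2]

theorem TT_hf (tw : Sp → A) (f : List Sp → A) (a b : Sp) (c : List Sp) :
    TT s x tw f (a :: b :: c) = SS s x (fun v => tw v * UU s x f c v) a b := rfl

/-- a relation between functions on the relevant charges gives a relation below the lower vertex -/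
theorem SS_congr (g h : Sp → A) (a b : Sp) (hgh : ∀ v, ch v = ch a + ch b → g v = h v) :
    SS s x g a b = SS s x h a b := by
  cases a <;> cases b <;> simp only [SS]
  all_goals rw [hgh _ (by simp [ch])]

theorem chg_cons (a : Sp) (l : List Sp) : chg (a :: l) = ch a + chg l := by simp [chg]

theorem eh_congr (l : List Sp) : ∀ (t : Bool) (f g : List Sp → A),
    (∀ l' : List Sp, l'.length = l.length → f l' = g l') →
    eh Q zr zl t f l = eh Q zr zl t g l := by
  induction l with
  | nil => intro t f g _; rfl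
  | cons a l ih =>
    intro t f g h
    have h1 : (fun b => f (b :: l)) = fun b => g (b :: l) := by
      funext b; exact h _ (by simp)
    simp only [eh]
    rw [h1, ih _ (fun l' => f (a :: l')) (fun l' => g (a :: l')) (fun l' hl' => h _ (by simp [hl']))]

theorem UU_eh2 (hc : Cst s x Q zr zl) (f : List Sp → A) (c : List Sp) (hl : c.length % 2 = 1)
    (v : Sp) : UU s x (eh Q zr zl true (eh Q zr zl true f)) c v =
      EB Q zr zl (EB Q zr zl (UU s x f)) c v := by
  rw [UU_eh hc _ c hl]
  unfold EB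
  rw [eh_congr c true (fun c' => UU s x (eh Q zr zl true f) c' v)
    (fun c' => EB Q zr zl (UU s x f) c' v) (fun c' hc' => UU_eh hc f c' (by omega) v)]
  have h2 : (fun w => UU s x (eh Q zr zl true f) c w) = fun w => EB Q zr zl (UU s x f) c w := by
    funext w; exact UU_eh hc f c hl w
  rw [h2]
  rfl

theorem eh2_TT (hc : Cst s x Q zr zl) (tw : Sp → A) (f : List Sp → A) (a b : Sp) (c : List Sp) :
    eh Q zr zl true (eh Q zr zl true (TT s x tw f)) (a :: b :: c) =
      SS s x (EA Q zr zl (EA Q zr zl (fun c v => tw v * UU s x f c v)) c) a b := by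
  have h1 : ∀ a b c, eh Q zr zl true (TT s x tw f) (a :: b :: c) =
      SS s x (EA Q zr zl (fun c v => tw v * UU s x f c v) c) a b :=
    fun a b c => eh_SS hc (fun c v => tw v * UU s x f c v) _ (TT_hf tw f) a b c
  exact eh_SS hc _ _ h1 a b c

theorem twS_kq (hc : Cst s x Q zr zl) (v : Sp) : twS s v = kq Q v ^ 2 := by
  have h4 := hc.q4
  have hs := hc.hs
  cases v <;> simp [twS, kq]
  · linear_combination -hs - Q ^ 2 * h4
  · linear_combination hs

theorem twC_kq (hc : Cst s x Q zr zl) (v : Sp) : kq Q v ^ 2 * twC s v = 1 := by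
  have h4 := hc.q4
  have hs := hc.hs
  cases v <;> simp [twC, kq]
  · linear_combination Q ^ 6 * hs + (Q ^ 4 - 1) * h4
  · linear_combination -Q ^ 2 * hs - h4

theorem ee_twC (hc : Cst s x Q zr zl) (g : Sp → A) (v : Sp) :
    ee zr (fun w => twC s w * g w) v = -Q ^ 2 * (twC s v * ee zr g v) := by
  have h4 := hc.q4
  have hs := hc.hs
  cases v <;> simp [twC, ee]
  · linear_combination (zr * g 1) * hs
  · linear_combination Q ^ 2 * g 0 * hs + g 0 * h4

theorem eh_one (f : List Sp → A) (a : Sp) (h : chg [a] = 0) :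
    eh Q zr zl true (eh Q zr zl true f) [a] = 0 := by
  cases a <;> simp [chg, ch] at h
  simp [eh, ee]

/-- First commutation relation: `e² W_s = W_1 e²` on charge `0`. -/
theorem e2a (hc : Cst s x Q zr zl) (f : List Sp → A) (l : List Sp) (hl : l.length % 2 = 1) (h0 : chg l = 0) :
    TT s x (twS s) (eh Q zr zl true (eh Q zr zl true f)) l =
      eh Q zr zl true (eh Q zr zl true (TT s x tw1 f)) l := by
  have h4 := hc.q4
  rcases l with _ | ⟨a, _ | ⟨b, c⟩⟩
  · simp [TT, eh]
  · rw [eh_one _ a h0]
    rfl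
  · have hcl : c.length % 2 = 1 := by simp only [List.length_cons] at hl; omega
    rw [eh2_TT hc, TT_hf]
    apply SS_congr
    intro v hv
    rw [UU_eh2 hc f c hcl, EB_sq h4, EA_sq h4, twS_kq hc]
    have h1 : kq Q v * KQ Q c = 1 := by
      rw [kq_chg h4 v c 0 (by rw [hv]; rw [chg_cons, chg_cons] at h0; omega)]
      simp
    simp only [tw1, one_mul]
    set T1 := ee zr (fun w => ee zr (fun w' => UU s x f c w') w) v
    set T2 := ee zr (fun w => eh Q zr zl true (fun c' => UU s x f c' w) c) v
    set T3 := eh Q zr zl true (fun c' => eh Q zr zl true (fun c'' => UU s x f c'' v) c') c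
    linear_combination (T1 * (kq Q v * KQ Q c + 1) + (1 + Q) * kq Q v * T2) * h1

/-- Second commutation relation: `e² W_1 = W_(1/s) e²` on charge `-2`. -/
theorem e2b (hc : Cst s x Q zr zl) (f : List Sp → A) (l : List Sp) (hl : l.length % 2 = 1) (h0 : chg l = -2) :
    eh Q zr zl true (eh Q zr zl true (TT s x (twC s) f)) l =
      TT s x tw1 (eh Q zr zl true (eh Q zr zl true f)) l := by
  have h4 := hc.q4
  rcases l with _ | ⟨a, _ | ⟨b, c⟩⟩
  · simp [TT, eh]
  · exfalso
    cases a <;> simp [chg, ch] at h0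
  · have hcl : c.length % 2 = 1 := by simp only [List.length_cons] at hl; omega
    rw [eh2_TT hc, TT_hf]
    apply SS_congr
    intro v hv
    rw [UU_eh2 hc f c hcl, EB_sq h4, EA_sq h4]
    have h1 : kq Q v * KQ Q c = -Q ^ 2 := by
      rw [kq_chg h4 v c (-2) (by rw [hv]; rw [chg_cons, chg_cons] at h0; omega)]
      have : ((uQ h4) ^ (-2 : ℤ) : Aˣ) = (uQ h4)⁻¹ ^ 2 := by
        rw [zpow_neg, inv_pow]; rfl
      rw [this, Units.val_pow_eq_pow_val]
      have h5 : (((uQ h4)⁻¹ : Aˣ) : A) = -Q ^ 3 := rfl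
      rw [h5]
      linear_combination Q ^ 2 * h4
    have h2 := twC_kq hc v
    have g1 : ∀ w, ee zr (fun w' => twC s w' * UU s x f c w') w =
        twC s w * (-Q ^ 2 * ee zr (fun w' => UU s x f c w') w) := by
      intro w; rw [ee_twC hc (fun w' => UU s x f c w')]; ring
    have g2 : ∀ w, eh Q zr zl true (fun c' => twC s w * UU s x f c' w) c =
        twC s w * eh Q zr zl true (fun c' => UU s x f c' w) c := by
      intro w; rw [eh_smul]
    have g3 : ∀ c', eh Q zr zl true (fun c'' => twC s v * UU s x f c'' v) c' =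
        twC s v * eh Q zr zl true (fun c'' => UU s x f c'' v) c' := by
      intro c'; rw [eh_smul]
    simp only [g1, g2, g3]
    rw [ee_twC hc, ee_twC hc, eh_smul, ee_smul]
    simp only [tw1, one_mul]
    set T1 := ee zr (fun w => ee zr (fun w' => UU s x f c w') w) v
    set T2 := ee zr (fun w => eh Q zr zl true (fun c' => UU s x f c' w) c) v
    set T3 := eh Q zr zl true (fun c' => eh Q zr zl true (fun c'' => UU s x f c'' v) c') c
    set k := kq Q v
    set K := KQ Q c
    set τ := twC s v
    have h6 : K = -Q ^ 2 * k * τ := by linear_combination k * τ * h1 - K * h2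
    rw [h6]
    linear_combination (-Q ^ 4 * τ * T1 + T3) * h2

end Alg

end Pool.Agent.DEN
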