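import Pool.Agent.DEN.Exp

/-!
Project DEN: the runs from the vacuum to one arc are self-avoiding paths of `G_k`.
-/

namespace Pool.Agent.DEN

open Pat

namespace ArcPath

/-- The used legs of a pattern. -/
def usd : Pat → List Bool
  | .nil => []
  | .emp p => false :: usd p
  | .arc p q => true :: (usd p ++ true :: usd q)

theorem usd_app (p q : Pat) : usd (app p q) = usd p ++ usd q := by
  induction p with
  | nil => simp [app, usd]
  | emp p ih => simp [app, usd, ih]
  | arc p p' _ ih => simp [app, usd, ih]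

theorem usd_zeros (n : ℕ) : usd (zeros n) = List.replicate n false := by
  induction n with
  | zero => simp [zeros, usd]
  | succ n ih => simp [zeros, usd, ih, List.replicate_succ]

theorem usd_single (i d r : ℕ) : usd (single i d r) =
    List.replicate i false ++ true :: (List.replicate d false ++ true :: List.replicate r false) := by
  simp [single, usd_app, usd, usd_zeros]

theorem usd_step (o : O) (p p' : Pat) (h : step o p = some p') :
    usd p' = (usd p).drop 2 ++ [o.1, o.2] ∧ 2 ≤ (usd p).length := by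
  obtain ⟨o1, o2⟩ := o
  rcases p with _ | (_ | p | ⟨p, q⟩) | ⟨_ | p | ⟨b1, b2⟩, b3⟩
  · simp [step] at h
  · simp [step] at h
  · cases o1 <;> cases o2 <;> simp [step, outp] at h <;> subst h <;> simp [usd, usd_app]
  · cases o1 <;> cases o2 <;> simp [step] at h <;> subst h <;> simp [usd, usd_app]
  · simp [step] at h
  · cases o1 <;> cases o2 <;> simp [step] at h <;> subst h <;> simp [usd, usd_app]
  · cases o1 <;> cases o2 <;> simp [step, outp] at h <;> subst h <;> simp [usd, usd_app]

/-- The list of all the upper legs. -/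
def flat (F : List O) : List Bool := F.flatMap (fun o => [o.1, o.2])

theorem usd_run (F : List O) : ∀ (p : Pat) (r : Pat × ℕ), run F p = some r →
    usd r.1 = (usd p ++ flat F).drop (2 * F.length) := by
  induction F with
  | nil =>
    intro p r h
    simp only [run, Option.some.injEq] at h
    subst h
    simp [flat]
  | cons o F ih =>
    intro p r h
    unfold run at h
    cases hs : step o p with
    | none => simp [hs] at h
    | some p' =>
      rw [hs] at h
      simp only at h
      cases hr : run F p' with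
      | none => simp [hr] at h
      | some r' =>
        rw [hr] at h
        simp only [Option.some.injEq] at h
        subst h
        obtain ⟨h1, h2⟩ := usd_step o p p' hs
        simp only
        rw [ih p' r' hr, h1]
        have e : (usd p ++ flat (o :: F)).drop (2 * (o :: F).length) =
            ((usd p ++ flat (o :: F)).drop 2).drop (2 * F.length) := by
          rw [List.drop_drop]
          congr 1
          simp only [List.length_cons]
          ring
        rw [e]
        congr 1
        rw [List.drop_append_of_le_length h2]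
        simp [flat]

theorem flat_get (F : List O) : ∀ t : ℕ, (flat F)[2 * t]? = (F[t]?).map Prod.fst ∧
    (flat F)[2 * t + 1]? = (F[t]?).map Prod.snd := by
  induction F with
  | nil => intro t; simp [flat]
  | cons o F ih =>
    intro t
    cases t with
    | zero => simp [flat]
    | succ t =>
      have h := ih t
      have e1 : 2 * (t + 1) = 2 * t + 1 + 1 := by ring
      simp only [flat, List.flatMap_cons] at h ⊢
      rw [e1]
      simpa using h

theorem supp_inl (n : ℕ) (F : List O) (j : ℕ) (h : (Sum.inl j : Ed) ∈ supp n F) :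
    ∃ t, t < F.length ∧ (((F.getD t (false, false)).1 = true ∧ j = 2 * t + n) ∨
      ((F.getD t (false, false)).2 = true ∧ j = 2 * t + n + 1)) := by
  simp only [supp, Finset.mem_union, Finset.mem_image, Finset.mem_filter, Finset.mem_range] at h
  rcases h with (⟨t, ⟨h1, h2⟩, h3⟩ | ⟨t, ⟨h1, h2⟩, h3⟩) | ⟨t, _, h3⟩
  · exact ⟨t, h1, Or.inl ⟨h2, (Sum.inl.inj h3).symm⟩⟩
  · exact ⟨t, h1, Or.inr ⟨h2, (Sum.inl.inj h3).symm⟩⟩
  · simp at h3

theorem supp_inr (n : ℕ) (F : List O) (j : ℕ) (h : (Sum.inr j : Ed) ∈ supp n F) : j < F.length := by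
  simp only [supp, Finset.mem_union, Finset.mem_image, Finset.mem_filter, Finset.mem_range] at h
  rcases h with (⟨t, _, h3⟩ | ⟨t, _, h3⟩) | ⟨t, ⟨h1, _⟩, h3⟩
  · simp at h3
  · simp at h3
  · have := Sum.inr.inj h3
    omega

theorem mem_supp_1 (n : ℕ) (F : List O) (t : ℕ) (ht : t < F.length) :
    (Sum.inl (2 * t + n) : Ed) ∈ supp n F ↔ (F.getD t (false, false)).1 = true := by
  constructor
  · intro h
    obtain ⟨t', h1, h2 | h2⟩ := supp_inl n F _ h
    · have : t = t' := by omega
      subst this
      exact h2.1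
    · omega
  · intro h
    simp only [supp, Finset.mem_union, Finset.mem_image, Finset.mem_filter, Finset.mem_range]
    exact Or.inl (Or.inl ⟨t, ⟨ht, h⟩, rfl⟩)

theorem mem_supp_2 (n : ℕ) (F : List O) (t : ℕ) (ht : t < F.length) :
    (Sum.inl (2 * t + n + 1) : Ed) ∈ supp n F ↔ (F.getD t (false, false)).2 = true := by
  constructor
  · intro h
    obtain ⟨t', h1, h2 | h2⟩ := supp_inl n F _ h
    · omega
    · have : t = t' := by omega
      subst this
      exact h2.1
  · intro h
    simp only [supp, Finset.mem_union, Finset.mem_image, Finset.mem_filter, Finset.mem_range]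
    exact Or.inl (Or.inr ⟨t, ⟨ht, h⟩, rfl⟩)

theorem supp_inj (n : ℕ) (F F' : List O) (hl : F.length = F'.length) (h : supp n F = supp n F') : F = F' := by
  apply List.ext_getElem hl
  intro t h1 h2
  have e1 := mem_supp_1 n F t h1
  have e2 := mem_supp_1 n F' t h2
  have e3 := mem_supp_2 n F t h1
  have e4 := mem_supp_2 n F' t h2
  rw [h] at e1 e3
  have g1 : F.getD t (false, false) = F[t] := by simp [List.getD_eq_getElem?_getD, h1]
  have g2 : F'.getD t (false, false) = F'[t] := by simp [List.getD_eq_getElem?_getD, h2]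
  rw [g1] at e1 e3
  rw [g2] at e2 e4
  have a1 : F[t].1 = F'[t].1 := by
    rw [Bool.eq_iff_iff]
    exact e1.symm.trans e2
  have a2 : F[t].2 = F'[t].2 := by
    rw [Bool.eq_iff_iff]
    exact e3.symm.trans e4
  exact Prod.ext a1 a2

/-- The upper legs used by a run are the used legs of the last pattern. -/
theorem supp_top (n : ℕ) (F : List O) (r : Pat × ℕ) (h : run F (zeros n) = some r) (j : ℕ)
    (hj : 2 * F.length ≤ j) (hS : (Sum.inl j : Ed) ∈ supp n F) : (usd r.1)[j - 2 * F.length]? = some true := by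
  rw [usd_run F _ r h, List.getElem?_drop, usd_zeros]
  have e : 2 * F.length + (j - 2 * F.length) = j := by omega
  rw [e]
  obtain ⟨t, h1, h2 | h2⟩ := supp_inl n F _ hS
  · rw [List.getElem?_append_right (by simp; omega)]
    have e : j - (List.replicate n false).length = 2 * t := by simp; omega
    rw [e, (flat_get F t).1]
    have h3 := h2.1
    rw [List.getD_eq_getElem?_getD] at h3
    rw [List.getElem?_eq_getElem h1] at h3 ⊢
    simpa using h3
  · rw [List.getElem?_append_right (by simp; omega)]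
    have e : j - (List.replicate n false).length = 2 * t + 1 := by simp; omega
    rw [e, (flat_get F t).2]
    have h3 := h2.1
    rw [List.getD_eq_getElem?_getD] at h3
    rw [List.getElem?_eq_getElem h1] at h3 ⊢
    simpa using h3

theorem single_top (i d r m : ℕ) (h : (usd (single i d r))[m]? = some true) : m = i ∨ m = i + d + 1 := by
  rw [usd_single] at h
  by_cases h1 : m < i
  · rw [List.getElem?_append_left (by simpa using h1)] at h
    simp [h1] at h
  · by_cases h2 : m = i
    · exact Or.inl h2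
    · right
      rw [List.getElem?_append_right (by simp; omega)] at h
      have e : m - (List.replicate i false).length = (m - i - 1) + 1 := by simp; omega
      rw [e, List.getElem?_cons_succ] at h
      by_cases h3 : m - i - 1 < d
      · rw [List.getElem?_append_left (by simpa using h3)] at h
        simp [h3] at h
      · by_cases h4 : m - i - 1 = d
        · omega
        · rw [List.getElem?_append_right (by simp; omega)] at h
          have e : m - i - 1 - (List.replicate d false).length = (m - i - 1 - d - 1) + 1 := by simp; omega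
          rw [e, List.getElem?_cons_succ] at h
          simp [List.getElem?_replicate] at h

/-- Distinct vertices with a common edge are adjacent. -/
theorem adj_of_inc (k : ℕ) (v w : Vx) (i j : Fin 3) (hvw : v ≠ w)
    (h : ginc (2 * k + 1) v i = ginc (2 * k + 1) w j) : GAdj k v w := by
  rcases v with t | t <;> rcases w with t' | t' <;> fin_cases i <;> fin_cases j <;>
    simp [ginc, GAdj] at h hvw ⊢ <;> omega

/-- Distinct vertices have at most one common edge. -/
theorem inc_unique (k : ℕ) (hk : 1 ≤ k) (v w : Vx) (i j i' j' : Fin 3) (hvw : v ≠ w)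
    (h : ginc (2 * k + 1) v i = ginc (2 * k + 1) w j) (h' : ginc (2 * k + 1) v i' = ginc (2 * k + 1) w j') :
    i = i' := by
  rcases v with t | t <;> rcases w with t' | t' <;> fin_cases i <;> fin_cases j <;>
    simp [ginc] at h hvw <;> fin_cases i' <;> fin_cases j' <;> simp [ginc] at h' ⊢ <;> omega

/-- The chain of the vertices. -/
theorem chn_chain (k : ℕ) (e1 : Ed) : ∀ (γ : List (Vx × Fin 3 × Fin 3)) (e0 : Ed),
    Chn (ginc (2 * k + 1)) e0 γ e1 → (γ.map (fun p => p.1)).Nodup → (γ.map (fun p => p.1)).IsChain (GAdj k) := by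
  intro γ
  induction γ with
  | nil => intro e0 _ _; simp
  | cons p γ ih =>
    intro e0 hc hnd
    cases γ with
    | nil => simp
    | cons q γ =>
      simp only [List.map_cons, List.isChain_cons_cons]
      obtain ⟨_, _, h3⟩ := hc
      constructor
      · apply adj_of_inc k p.1 q.1 p.2.2 q.2.1
        · simp only [List.map_cons, List.nodup_cons, List.mem_cons, not_or] at hnd
          exact hnd.1.1
        · exact h3.1.symm
      · have := ih _ h3 (by simp only [List.map_cons] at hnd ⊢; exact (List.nodup_cons.1 hnd).2)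
        simpa using this

/-- The vertices and the last edge determine the edges. -/
theorem chn_det (k : ℕ) (hk : 1 ≤ k) (e1 : Ed) : ∀ (γ γ' : List (Vx × Fin 3 × Fin 3)) (e0 e0' : Ed),
    Chn (ginc (2 * k + 1)) e0 γ e1 → Chn (ginc (2 * k + 1)) e0' γ' e1 → (γ.map (fun p => p.1)).Nodup →
    γ.map (fun p => p.1) = γ'.map (fun p => p.1) →
    γ.map (fun p => ginc (2 * k + 1) p.1 p.2.2) = γ'.map (fun p => ginc (2 * k + 1) p.1 p.2.2) := by
  intro γ
  induction γ with
  | nil =>
    intro γ' e0 e0' _ _ _ h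
    cases γ' with
    | nil => rfl
    | cons => simp at h
  | cons p γ ih =>
    intro γ' e0 e0' hc hc' hnd h
    cases γ' with
    | nil => simp at h
    | cons p' γ' =>
      simp only [List.map_cons, List.cons.injEq] at h
      obtain ⟨_, _, h3⟩ := hc
      obtain ⟨_, _, h3'⟩ := hc'
      have hnd' : (γ.map (fun p => p.1)).Nodup := by
        simp only [List.map_cons] at hnd
        exact (List.nodup_cons.1 hnd).2
      have hrest := ih γ' _ _ h3 h3' hnd' h.2
      simp only [List.map_cons, List.cons.injEq]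
      refine ⟨?_, hrest⟩
      cases γ with
      | nil =>
        cases γ' with
        | nil =>
          have a : ginc (2 * k + 1) p.1 p.2.2 = e1 := h3
          have b : ginc (2 * k + 1) p'.1 p'.2.2 = e1 := h3'
          rw [a, b]
        | cons => simp at h
      | cons q γ =>
        cases γ' with
        | nil => simp at h
        | cons q' γ' =>
          have a : ginc (2 * k + 1) p.1 p.2.2 = ginc (2 * k + 1) q.1 q.2.1 := h3.1.symm
          have b : ginc (2 * k + 1) p'.1 p'.2.2 = ginc (2 * k + 1) q'.1 q'.2.1 := h3'.1.symm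
          have hq : q.1 = q'.1 := by
            have := h.2
            simp only [List.map_cons, List.cons.injEq] at this
            exact this.1
          rw [← h.1, ← hq] at b
          have hne : p.1 ≠ q.1 := by
            simp only [List.map_cons, List.nodup_cons, List.mem_cons, not_or] at hnd
            exact hnd.1.1
          rw [← h.1, inc_unique k hk p.1 q.1 _ _ _ _ hne a b]

/-- The first vertex. -/
theorem chn_head (inc : Vx → Fin 3 → Ed) (e0 e1 : Ed) (γ : List (Vx × Fin 3 × Fin 3)) (hγ : γ ≠ [])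
    (hc : Chn inc e0 γ e1) : ∃ p ∈ γ, (γ.map (fun p => p.1)).head? = some p.1 ∧ inc p.1 p.2.1 = e0 := by
  cases γ with
  | nil => exact absurd rfl hγ
  | cons p γ => exact ⟨p, by simp, by simp, hc.1⟩

/-- The last vertex. -/
theorem chn_last (inc : Vx → Fin 3 → Ed) (e1 : Ed) : ∀ (γ : List (Vx × Fin 3 × Fin 3)) (e0 : Ed), γ ≠ [] →
    Chn inc e0 γ e1 → ∃ p ∈ γ, (γ.map (fun p => p.1)).getLast? = some p.1 ∧ inc p.1 p.2.2 = e1 := by
  intro γ
  induction γ with
  | nil => intro e0 h _; exact absurd rfl h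
  | cons p γ ih =>
    intro e0 _ hc
    cases γ with
    | nil => exact ⟨p, by simp, by simp, hc.2.2⟩
    | cons q γ =>
      obtain ⟨r, h1, h2, h3⟩ := ih _ (by simp) hc.2.2
      refine ⟨r, List.mem_cons_of_mem _ h1, ?_, h3⟩
      rw [← h2]
      simp [List.getLast?_cons_cons]

/-- The vertex below an upper leg. -/
theorem leg_vertex (n N j : ℕ) (v : Vx) (i : Fin 3) (hv : v.tm < N) (hj : 2 * N ≤ j)
    (h : ginc n v i = Sum.inl j) : ∃ A, v = .u A ∧ (j = 2 * A + n ∨ j = 2 * A + n + 1) := by
  rcases v with t | t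
  · simp only [Vx.tm] at hv
    fin_cases i <;> simp [ginc] at h <;> omega
  · refine ⟨t, rfl, ?_⟩
    fin_cases i <;> simp [ginc] at h <;> omega

theorem leg_exists (n N : ℕ) (F : List O) (hF : F.length = N) (j : ℕ) (hj : 2 * N ≤ j)
    (h : (Sum.inl j : Ed) ∈ supp n F) : ∃! v, v ∈ VV N ∧ ∃ i, ginc n v i = Sum.inl j := by
  obtain ⟨t, h1, h2⟩ := supp_inl n F j h
  refine ⟨.u t, ⟨(mem_VV _ _).2 (by simp only [Vx.tm]; omega), ?_⟩, ?_⟩
  · rcases h2 with ⟨_, h2⟩ | ⟨_, h2⟩
    · exact ⟨1, by simp [ginc, h2]⟩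
    · exact ⟨2, by simp [ginc, h2]⟩
  · rintro w ⟨hw, i, hi⟩
    obtain ⟨A, hA, hA'⟩ := leg_vertex n N j w i ((mem_VV _ _).1 hw) hj hi
    rw [hA]
    congr 1
    omega

/-- The path of one run. -/
theorem one_path (k : ℕ) (hk : 1 ≤ k) (N i d r : ℕ) (h : i + d + r + 2 = 2 * k + 1) (F : List O)
    (hF : F.length = N) (c : ℕ) (hr : run F (zeros (2 * k + 1)) = some (single i d r, c)) :
    ∃ γ : List (Vx × Fin 3 × Fin 3), γ ≠ [] ∧
      Chn (ginc (2 * k + 1)) (Sum.inl (2 * N + i)) γ (Sum.inl (2 * N + i + d + 1)) ∧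
      (γ.map (fun p => p.1)).Nodup ∧ (∀ p ∈ γ, p.1.tm < N) ∧
      (∀ e, e ∈ supp (2 * k + 1) F ↔ e ∈ pedges (ginc (2 * k + 1)) (Sum.inl (2 * N + i)) γ) ∧ γ.length = c := by
  obtain ⟨hodd, hc⟩ := exp_arc k hk F i d r c h hr
  rw [hF] at hodd hc
  obtain ⟨σ, hσ⟩ : (FLs (ginc (2 * k + 1)) gsg (VV N) (supp (2 * k + 1) F) (Sum.inl (2 * N + i))
      (Sum.inl (2 * N + i + d + 1)) .pos .neg).Nonempty := by
    by_contra hne
    rw [Set.not_nonempty_iff_eq_empty] at hne
    rw [hne] at hodd
    simp at hodd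
  obtain ⟨_, hσ2, hσ3, hσ4⟩ := hσ
  have m0 : (Sum.inl (2 * N + i) : Ed) ∈ supp (2 * k + 1) F := by
    rw [← hσ2, hσ3]
    decide
  have m1 : (Sum.inl (2 * N + i + d + 1) : Ed) ∈ supp (2 * k + 1) F := by
    rw [← hσ2, hσ4]
    decide
  obtain ⟨γ, g1, g2, g3, g4, g5, g6⟩ := net_A (ginc (2 * k + 1)) gsg (gk_ok (2 * k + 1) (by omega)) (VV N)
    (supp (2 * k + 1) F) (Sum.inl (2 * N + i)) (Sum.inl (2 * N + i + d + 1)) .pos .neg (by decide) (by decide)
    (by intro he; have := Sum.inl.inj he; omega)
    (leg_exists _ N F hF _ (by omega) m0) (leg_exists _ N F hF _ (by omega) m1)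
    (by
      intro e he hne0 hne1
      rcases e with j | t
      · obtain ⟨t, h1, h2⟩ := supp_inl _ F j he
        have hj : j < 2 * N := by
          by_contra hj
          have h3 := supp_top _ F _ hr j (by omega) he
          rcases single_top _ _ _ _ h3 with h4 | h4
          · exact hne0 (by rw [hF] at h4; congr 1; omega)
          · exact hne1 (by rw [hF] at h4; congr 1; omega)
        refine ⟨.u t, (mem_VV _ _).2 (by simp only [Vx.tm]; omega), .s (j / 2),
          (mem_VV _ _).2 (by simp only [Vx.tm]; omega), by simp, ?_, ?_⟩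
        · rcases h2 with ⟨_, h2⟩ | ⟨_, h2⟩
          · exact ⟨1, by simp [ginc, h2]⟩
          · exact ⟨2, by simp [ginc, h2]⟩
        · rcases Nat.even_or_odd' j with ⟨m, hm | hm⟩
          · exact ⟨0, by simp [ginc]; omega⟩
          · exact ⟨1, by simp [ginc]; omega⟩
      · have ht := supp_inr _ F t he
        exact ⟨.u t, (mem_VV _ _).2 (by simp only [Vx.tm]; omega), .s t,
          (mem_VV _ _).2 (by simp only [Vx.tm]; omega), by simp, ⟨0, by simp [ginc]⟩, ⟨2, by simp [ginc]⟩⟩)
    hodd
  exact ⟨γ, g1, g2, g3, fun p hp => (mem_VV _ _).1 (g4 p hp), g5, g6.trans hc.symm⟩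

end ArcPath

open ArcPath in
theorem arc_path (k : ℕ) (hk : 1 ≤ k) (x : ℝ) (hx : 0 ≤ x) (N i d r : ℕ) (h : i + d + r + 2 = 2 * k + 1) :
    ∃ P : Finset (List Vx),
      (∀ l ∈ P, l.IsChain (GAdj k) ∧ l.Nodup ∧ (∀ v ∈ l, v.tm < N) ∧
        ∃ A B, l.head? = some (.u A) ∧ l.getLast? = some (.u B) ∧
          (2 * N + i = 2 * A + (2 * k + 1) ∨ 2 * N + i = 2 * A + (2 * k + 1) + 1) ∧
          (2 * N + i + d + 1 = 2 * B + (2 * k + 1) ∨ 2 * N + i + d + 1 = 2 * B + (2 * k + 1) + 1)) ∧
      Rm x N (zeros (2 * k + 1)) (single i d r) ≤ ∑ l ∈ P, x ^ l.length := by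
  classical
  have key : ∀ F : List O, ∃ γ : List (Vx × Fin 3 × Fin 3), F.length = N →
      ∀ c, run F (zeros (2 * k + 1)) = some (single i d r, c) → γ ≠ [] ∧
      Chn (ginc (2 * k + 1)) (Sum.inl (2 * N + i)) γ (Sum.inl (2 * N + i + d + 1)) ∧
      (γ.map (fun p => p.1)).Nodup ∧ (∀ p ∈ γ, p.1.tm < N) ∧
      (∀ e, e ∈ supp (2 * k + 1) F ↔ e ∈ pedges (ginc (2 * k + 1)) (Sum.inl (2 * N + i)) γ) ∧ γ.length = c := by
    intro F
    by_cases hF : F.length = N ∧ ∃ c, run F (zeros (2 * k + 1)) = some (single i d r, c)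
    · obtain ⟨hF, c, hc⟩ := hF
      obtain ⟨γ, hγ⟩ := one_path k hk N i d r h F hF c hc
      refine ⟨γ, fun _ c' hc' => ?_⟩
      rw [hc] at hc'
      simp only [Option.some.injEq, Prod.mk.injEq, true_and] at hc'
      rw [← hc']
      exact hγ
    · exact ⟨[], fun h1 c hc => absurd ⟨h1, c, hc⟩ hF⟩
  choose G hG using key
  let T : Finset (List O) := (LL O N).filter
    (fun F => ∃ c, run F (zeros (2 * k + 1)) = some (single i d r, c))
  have hT : ∀ F ∈ T, F.length = N ∧ ∃ c, run F (zeros (2 * k + 1)) = some (single i d r, c) := by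
    intro F hF
    have := Finset.mem_filter.1 hF
    exact ⟨(mem_LL N F).1 this.1, this.2⟩
  have hinj : ∀ F ∈ T, ∀ F' ∈ T, (G F).map (fun p => p.1) = (G F').map (fun p => p.1) → F = F' := by
    intro F hF F' hF' he
    obtain ⟨h1, c, hc⟩ := hT F hF
    obtain ⟨h1', c', hc'⟩ := hT F' hF'
    obtain ⟨_, a2, a3, _, a5, _⟩ := hG F h1 c hc
    obtain ⟨_, b2, b3, _, b5, _⟩ := hG F' h1' c' hc'
    apply supp_inj (2 * k + 1) F F' (h1.trans h1'.symm)
    ext e
    rw [a5, b5, pedges, pedges, chn_det k hk _ _ _ _ _ a2 b2 a3 he]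
  refine ⟨T.image (fun F => (G F).map (fun p => p.1)), ?_, ?_⟩
  · intro l hl
    obtain ⟨F, hF, rfl⟩ := Finset.mem_image.1 hl
    obtain ⟨h1, c, hc⟩ := hT F hF
    obtain ⟨a1, a2, a3, a4, a5, a6⟩ := hG F h1 c hc
    refine ⟨chn_chain k _ _ _ a2 a3, a3, ?_, ?_⟩
    · intro v hv
      obtain ⟨p, hp, rfl⟩ := List.mem_map.1 hv
      exact a4 p hp
    · obtain ⟨p, p1, p2, p3⟩ := chn_head _ _ _ _ a1 a2
      obtain ⟨q, q1, q2, q3⟩ := ArcPath.chn_last _ _ _ _ a1 a2
      obtain ⟨A, hA, hA'⟩ := leg_vertex _ N _ _ _ (a4 p p1) (by omega) p3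
      obtain ⟨B, hB, hB'⟩ := leg_vertex _ N _ _ _ (a4 q q1) (by omega) q3
      exact ⟨A, B, by rw [p2, hA], by rw [q2, hB], hA', hB'⟩
  · rw [Finset.sum_image hinj, Rm, Finset.sum_filter]
    apply le_of_eq
    apply Finset.sum_congr rfl
    intro F hF
    have h1 := (mem_LL N F).1 hF
    cases hr : run F (zeros (2 * k + 1)) with
    | none => simp
    | some r' =>
      obtain ⟨q, c⟩ := r'
      by_cases hq : q = single i d r
      · subst hq
        have := hG F h1 c hr
        simp [this.2.2.2.2.2]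
      · simp [hq]

end Pool.Agent.DEN
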