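import Pool.Agent.DEN.Runs

/-!
Project DEN: submultiplicativity of the masses of arc systems; the vacuum mass is bounded if the masses of the single
arcs are.
-/

set_option linter.all false

namespace Pool.Agent.DEN

open Pat

/-- A pattern with two-coloured arcs. -/
inductive Col_CP
  | nil : Col_CP
  | emp (p : Col_CP) : Col_CP
  | arc (c : Bool) (p q : Col_CP) : Col_CP

/-- Forget the colours. -/
def Col_fg : Col_CP → Pat
  | .nil => .nil
  | .emp p => .emp (Col_fg p)
  | .arc _ p q => .arc (Col_fg p) (Col_fg q)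

/-- Keep the arcs of colour `c` only. -/
def Col_pr (c : Bool) : Col_CP → Pat
  | .nil => .nil
  | .emp p => .emp (Col_pr c p)
  | .arc c' p q =>
    if c' = c then .arc (Col_pr c p) (Col_pr c q) else .emp (app (Col_pr c p) (.emp (Col_pr c q)))

/-- Concatenation. -/
def Col_app : Col_CP → Col_CP → Col_CP
  | .nil, r => r
  | .emp p, r => .emp (Col_app p r)
  | .arc c p q, r => .arc c p (Col_app q r)

theorem Col_assoc (p q r : Pat) : app (app p q) r = app p (app q r) := by
  induction p with
  | nil => rfl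
  | emp p ih => simp only [app, ih]
  | arc a b _ ih => simp only [app, ih]

theorem Col_fg_app (p q : Col_CP) : Col_fg (Col_app p q) = app (Col_fg p) (Col_fg q) := by
  induction p with
  | nil => rfl
  | emp p ih => simp only [Col_app, Col_fg, app, ih]
  | arc c a b _ ih => simp only [Col_app, Col_fg, app, ih]

theorem Col_pr_app (c : Bool) (p q : Col_CP) : Col_pr c (Col_app p q) = app (Col_pr c p) (Col_pr c q) := by
  induction p with
  | nil => rfl
  | emp p ih => simp only [Col_app, Col_pr, app, ih]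
  | arc c' a b _ ih =>
    simp only [Col_app, Col_pr, ih]
    split_ifs
    · simp only [app]
    · simp only [app, Col_assoc]

theorem Col_split (a b : Pat) (q : Col_CP) (h : Col_fg q = app a b) :
    ∃ qa qb, q = Col_app qa qb ∧ Col_fg qa = a ∧ Col_fg qb = b := by
  induction a generalizing q with
  | nil => exact ⟨.nil, q, rfl, rfl, h⟩
  | emp a ih =>
    rcases q with _ | q | ⟨c, q1, q2⟩
    · simp [Col_fg, app] at h
    · simp only [Col_fg, app, Pat.emp.injEq] at h
      obtain ⟨qa, qb, rfl, ha, hb⟩ := ih q h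
      exact ⟨.emp qa, qb, rfl, by simp only [Col_fg, ha], hb⟩
    · simp [Col_fg, app] at h
  | arc a1 a2 _ ih =>
    rcases q with _ | q | ⟨c, q1, q2⟩
    · simp [Col_fg, app] at h
    · simp [Col_fg, app] at h
    · simp only [Col_fg, app, Pat.arc.injEq] at h
      obtain ⟨qa, qb, rfl, ha, hb⟩ := ih q2 h.2
      exact ⟨.arc c q1 qa, qb, rfl, by simp only [Col_fg, ha, h.1], hb⟩

theorem Col_nil (q : Col_CP) (h : Col_fg q = .nil) : q = .nil := by
  rcases q with _ | q | ⟨c, q1, q2⟩
  · rfl
  · simp [Col_fg] at h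
  · simp [Col_fg] at h

theorem Col_emp (a : Pat) (q : Col_CP) (h : Col_fg q = .emp a) : ∃ q', q = .emp q' ∧ Col_fg q' = a := by
  rcases q with _ | q | ⟨c, q1, q2⟩
  · simp [Col_fg] at h
  · exact ⟨q, rfl, by simpa [Col_fg] using h⟩
  · simp [Col_fg] at h

theorem Col_arc (a b : Pat) (q : Col_CP) (h : Col_fg q = .arc a b) :
    ∃ c q1 q2, q = .arc c q1 q2 ∧ Col_fg q1 = a ∧ Col_fg q2 = b := by
  rcases q with _ | q | ⟨c, q1, q2⟩
  · simp [Col_fg] at h
  · simp [Col_fg] at h
  · exact ⟨c, q1, q2, rfl, by simpa [Col_fg] using h⟩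

/-- Union of two choices. -/
def Col_or (o1 o2 : O) : O := (o1.1 || o2.1, o1.2 || o2.2)

theorem Col_step (o : O) (p' : Pat) (q : Col_CP) (h : step o p' = some (Col_fg q)) :
    ∃ p : Col_CP, Col_fg p = p' ∧ ∃ o1 o2 : O, step o1 (Col_pr true p) = some (Col_pr true q) ∧
      step o2 (Col_pr false p) = some (Col_pr false q) ∧ o = Col_or o1 o2 ∧
      cost o p' = cost o1 (Col_pr true p) + cost o2 (Col_pr false p) := by
  obtain ⟨o1, o2⟩ := o
  rcases p' with _ | a | ⟨a, b⟩
  · simp [step] at h
  · rcases a with _ | a | ⟨a, b⟩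
    · simp [step] at h
    · cases o1 <;> cases o2 <;> simp [step, outp] at h
      · obtain ⟨qa, qb, rfl, rfl, hb⟩ := Col_split _ _ _ h.symm
        obtain ⟨q1, rfl, h1⟩ := Col_emp _ _ hb
        obtain ⟨q2, rfl, h2⟩ := Col_emp _ _ h1
        obtain rfl := Col_nil _ h2
        refine ⟨.emp (.emp qa), rfl, (false, false), (false, false), ?_, ?_, rfl, ?_⟩
        · simp [step, outp, Col_pr, Col_pr_app]
        · simp [step, outp, Col_pr, Col_pr_app]
        · simp [cost, Col_pr]
      · obtain ⟨qa, qb, rfl, rfl, hb⟩ := Col_split _ _ _ h.symm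
        obtain ⟨c, q1, q2, rfl, h1, h2⟩ := Col_arc _ _ _ hb
        obtain rfl := Col_nil _ h1
        obtain rfl := Col_nil _ h2
        cases c
        · refine ⟨.emp (.emp qa), rfl, (false, false), (true, true), ?_, ?_, rfl, ?_⟩
          · simp [step, outp, Col_pr, Col_pr_app, app]
          · simp [step, outp, Col_pr, Col_pr_app]
          · simp [cost, Col_pr]
        · refine ⟨.emp (.emp qa), rfl, (true, true), (false, false), ?_, ?_, rfl, ?_⟩
          · simp [step, outp, Col_pr, Col_pr_app, app]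
          · simp [step, outp, Col_pr, Col_pr_app, app]
          · simp [cost, Col_pr]
    · cases o1 <;> cases o2 <;> simp [step] at h
      · obtain ⟨qa, qb, rfl, rfl, hb⟩ := Col_split _ _ _ h.symm
        obtain ⟨c, q1, q2, rfl, h1, h2⟩ := Col_arc _ _ _ hb
        obtain rfl := Col_nil _ h2
        obtain ⟨q3, q4, rfl, rfl, h3⟩ := Col_split _ _ _ h1
        obtain ⟨q5, rfl, h4⟩ := Col_emp _ _ h3
        obtain rfl := Col_nil _ h4
        refine ⟨.emp (.arc c qa q3), rfl, if c then (false, true) else (false, false),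
          if c then (false, false) else (false, true), ?_, ?_, ?_, ?_⟩
        · cases c <;> simp [step, outp, Col_pr, Col_pr_app, app, Col_assoc]
        · cases c <;> simp [step, outp, Col_pr, Col_pr_app, app, Col_assoc]
        · cases c <;> rfl
        · cases c <;> simp [cost, Col_pr]
      · obtain ⟨qa, qb, rfl, rfl, hb⟩ := Col_split _ _ _ h.symm
        obtain ⟨c, q1, q2, rfl, rfl, h2⟩ := Col_arc _ _ _ hb
        obtain ⟨q5, rfl, h4⟩ := Col_emp _ _ h2
        obtain rfl := Col_nil _ h4
        refine ⟨.emp (.arc c qa q1), rfl, if c then (true, false) else (false, false),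
          if c then (false, false) else (true, false), ?_, ?_, ?_, ?_⟩
        · cases c <;> simp [step, outp, Col_pr, Col_pr_app, app, Col_assoc]
        · cases c <;> simp [step, outp, Col_pr, Col_pr_app, app, Col_assoc]
        · cases c <;> rfl
        · cases c <;> simp [cost, Col_pr]
  · rcases a with _ | a | ⟨a, d⟩
    · simp [step] at h
    · cases o1 <;> cases o2 <;> simp [step] at h
      · obtain ⟨qa, qb, rfl, rfl, hb⟩ := Col_split _ _ _ h.symm
        obtain ⟨c, q1, q2, rfl, h1, h2⟩ := Col_arc _ _ _ hb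
        obtain rfl := Col_nil _ h2
        obtain ⟨q3, q4, rfl, rfl, h3⟩ := Col_split _ _ _ h1
        obtain ⟨q5, rfl, h4⟩ := Col_emp _ _ h3
        obtain rfl := Col_nil _ h4
        refine ⟨.arc c (.emp qa) q3, rfl, if c then (false, true) else (false, false),
          if c then (false, false) else (false, true), ?_, ?_, ?_, ?_⟩
        · cases c <;> simp [step, outp, Col_pr, Col_pr_app, app, Col_assoc]
        · cases c <;> simp [step, outp, Col_pr, Col_pr_app, app, Col_assoc]
        · cases c <;> rfl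
        · cases c <;> simp [cost, Col_pr, app]
      · obtain ⟨qa, qb, rfl, rfl, hb⟩ := Col_split _ _ _ h.symm
        obtain ⟨c, q1, q2, rfl, rfl, h2⟩ := Col_arc _ _ _ hb
        obtain ⟨q5, rfl, h4⟩ := Col_emp _ _ h2
        obtain rfl := Col_nil _ h4
        refine ⟨.arc c (.emp qa) q1, rfl, if c then (true, false) else (false, false),
          if c then (false, false) else (true, false), ?_, ?_, ?_, ?_⟩
        · cases c <;> simp [step, outp, Col_pr, Col_pr_app, app, Col_assoc]
        · cases c <;> simp [step, outp, Col_pr, Col_pr_app, app, Col_assoc]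
        · cases c <;> rfl
        · cases c <;> simp [cost, Col_pr, app]
    · cases o1 <;> cases o2 <;> simp [step, outp] at h
      · obtain ⟨qa, qb, rfl, rfl, hb⟩ := Col_split _ _ _ h.symm
        obtain ⟨c, q1, q2, rfl, rfl, h2⟩ := Col_arc _ _ _ hb
        obtain ⟨q3, q4, rfl, rfl, h3⟩ := Col_split _ _ _ h2
        obtain ⟨q5, rfl, h4⟩ := Col_emp _ _ h3
        obtain ⟨q6, rfl, h5⟩ := Col_emp _ _ h4
        obtain rfl := Col_nil _ h5
        refine ⟨.arc c (.arc c qa q1) q3, rfl, (false, false), (false, false), ?_, ?_, rfl, ?_⟩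
        · cases c <;> simp [step, outp, Col_pr, Col_pr_app, app, Col_assoc]
        · cases c <;> simp [step, outp, Col_pr, Col_pr_app, app, Col_assoc]
        · cases c <;> simp [cost, Col_pr, app]
      · obtain ⟨qa, qb, rfl, rfl, hb⟩ := Col_split _ _ _ h.symm
        obtain ⟨c, q1, q2, rfl, rfl, h2⟩ := Col_arc _ _ _ hb
        obtain ⟨q3, q4, rfl, rfl, h3⟩ := Col_split _ _ _ h2
        obtain ⟨c2, q5, q6, rfl, h4, h5⟩ := Col_arc _ _ _ h3
        obtain rfl := Col_nil _ h4
        obtain rfl := Col_nil _ h5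
        refine ⟨.arc c (.arc c qa q1) q3, rfl, if c2 then (true, true) else (false, false),
          if c2 then (false, false) else (true, true), ?_, ?_, ?_, ?_⟩
        · cases c <;> cases c2 <;> simp [step, outp, Col_pr, Col_pr_app, app, Col_assoc]
        · cases c <;> cases c2 <;> simp [step, outp, Col_pr, Col_pr_app, app, Col_assoc]
        · cases c2 <;> rfl
        · cases c <;> cases c2 <;> simp [cost, Col_pr, app]

theorem Col_zeros (n : ℕ) (q : Col_CP) (h : Col_fg q = zeros n) (c : Bool) : Col_pr c q = zeros n := by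
  induction n generalizing q with
  | zero => rw [Col_nil q h]; rfl
  | succ n ih =>
    obtain ⟨q', rfl, h'⟩ := Col_emp _ _ h
    simp only [Col_pr, zeros, ih q' h']

theorem Col_run (F : List O) (p' : Pat) (q : Col_CP) (c : ℕ) (h : run F p' = some (Col_fg q, c)) :
    ∃ p : Col_CP, Col_fg p = p' ∧ ∃ (F1 F2 : List O) (c1 c2 : ℕ),
      run F1 (Col_pr true p) = some (Col_pr true q, c1) ∧
      run F2 (Col_pr false p) = some (Col_pr false q, c2) ∧ F = List.zipWith Col_or F1 F2 ∧
      F1.length = F.length ∧ F2.length = F.length ∧ c = c1 + c2 := by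
  induction F generalizing p' c with
  | nil =>
    simp only [run, Option.some.injEq, Prod.mk.injEq] at h
    exact ⟨q, h.1.symm, [], [], 0, 0, rfl, rfl, rfl, rfl, rfl, h.2.symm⟩
  | cons o F ih =>
    rcases h1 : step o p' with _ | p2
    · simp [run, h1] at h
    · rcases h2 : run F p2 with _ | ⟨r, c'⟩
      · simp [run, h1, h2] at h
      · simp only [run, h1, h2, Option.some.injEq, Prod.mk.injEq] at h
        obtain ⟨hr, hc⟩ := h
        rw [hr] at h2
        obtain ⟨p3, rfl, F1, F2, c1, c2, g1, g2, g3, g4, g5, g6⟩ := ih p2 c' h2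
        obtain ⟨p, hp, o1, o2, k1, k2, k3, k4⟩ := Col_step o p' p3 h1
        refine ⟨p, hp, o1 :: F1, o2 :: F2, c1 + cost o1 (Col_pr true p), c2 + cost o2 (Col_pr false p),
          ?_, ?_, ?_, ?_, ?_, ?_⟩
        · simp only [run, k1, g1]
        · simp only [run, k2, g2]
        · rw [List.zipWith_cons_cons, ← g3, ← k3]
        · simp [g4]
        · simp [g5]
        · omega

/-- Submultiplicativity. -/
theorem Col_mul (n : ℕ) (x : ℝ) (hx : 0 ≤ x) (N : ℕ) (q : Col_CP) :
    Rm x N (zeros n) (Col_fg q) ≤ Rm x N (zeros n) (Col_pr true q) * Rm x N (zeros n) (Col_pr false q) := by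
  classical
  -- the good lists
  have key : ∀ F : List O, ∀ c : ℕ, run F (zeros n) = some (Col_fg q, c) → ∃ G : List O × List O,
      F = List.zipWith Col_or G.1 G.2 ∧ G.1.length = F.length ∧ G.2.length = F.length ∧
      ∃ c1 c2, run G.1 (zeros n) = some (Col_pr true q, c1) ∧ run G.2 (zeros n) = some (Col_pr false q, c2) ∧
        c = c1 + c2 := by
    intro F c h
    obtain ⟨p, hp, F1, F2, c1, c2, g1, g2, g3, g4, g5, g6⟩ := Col_run F _ q c h
    rw [Col_zeros n p hp] at g1 g2
    exact ⟨(F1, F2), g3, g4, g5, c1, c2, g1, g2, g6⟩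
  let w : Pat → List O → ℝ := fun p F => match run F (zeros n) with
    | none => 0
    | some r => if r.1 = p then x ^ r.2 else 0
  have hw0 : ∀ p F, 0 ≤ w p F := by
    intro p F
    simp only [w]
    rcases run F (zeros n) with _ | r
    · exact le_refl _
    · dsimp only
      split_ifs
      · exact pow_nonneg hx _
      · exact le_refl _
  have hR : ∀ p, Rm x N (zeros n) p = ∑ F ∈ LL O N, w p F := fun p => rfl
  rw [hR, hR, hR, Finset.sum_mul_sum, ← Finset.sum_product']
  let S := (LL O N).filter fun F => ∃ c, run F (zeros n) = some (Col_fg q, c)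
  have h1 : ∑ F ∈ LL O N, w (Col_fg q) F = ∑ F ∈ S, w (Col_fg q) F := by
    symm
    apply Finset.sum_filter_of_ne
    intro F _ hF
    simp only [w] at hF
    rcases h : run F (zeros n) with _ | r
    · simp [h] at hF
    · simp only [h] at hF
      by_cases hr : r.1 = Col_fg q
      · exact ⟨r.2, by rw [← hr]⟩
      · simp [hr] at hF
  rw [h1]
  have hS : ∀ F ∈ S, ∃ G : List O × List O,
      F = List.zipWith Col_or G.1 G.2 ∧ G.1.length = F.length ∧ G.2.length = F.length ∧
      w (Col_fg q) F = w (Col_pr true q) G.1 * w (Col_pr false q) G.2 := by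
    intro F hF
    obtain ⟨c, hc⟩ := (Finset.mem_filter.1 hF).2
    obtain ⟨G, g1, g2, g3, c1, c2, k1, k2, k3⟩ := key F c hc
    refine ⟨G, g1, g2, g3, ?_⟩
    simp only [w, hc, k1, k2, if_true]
    rw [k3, pow_add]
  choose! G hG1 hG2 hG3 hG4 using hS
  calc ∑ F ∈ S, w (Col_fg q) F = ∑ F ∈ S, w (Col_pr true q) (G F).1 * w (Col_pr false q) (G F).2 :=
        Finset.sum_congr rfl fun F hF => hG4 F hF
    _ = ∑ P ∈ S.image G, w (Col_pr true q) P.1 * w (Col_pr false q) P.2 := by
        rw [Finset.sum_image]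
        intro F hF F' hF' h
        rw [hG1 F hF, hG1 F' hF', h]
    _ ≤ ∑ P ∈ LL O N ×ˢ LL O N, w (Col_pr true q) P.1 * w (Col_pr false q) P.2 := by
        apply Finset.sum_le_sum_of_subset_of_nonneg
        · intro P hP
          obtain ⟨F, hF, rfl⟩ := Finset.mem_image.1 hP
          have hl := (mem_LL N F).1 (Finset.mem_filter.1 hF).1
          rw [Finset.mem_product, mem_LL, mem_LL, hG2 F hF, hG3 F hF]
          exact ⟨hl, hl⟩
        · intro P _ _
          exact mul_nonneg (hw0 _ _) (hw0 _ _)

/-- Number of arcs. -/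
def Col_na : Pat → ℕ
  | .nil => 0
  | .emp p => Col_na p
  | .arc p q => Col_na p + Col_na q + 1

/-- All arcs of the colour `false`. -/
def Col_cl : Pat → Col_CP
  | .nil => .nil
  | .emp p => .emp (Col_cl p)
  | .arc p q => .arc false (Col_cl p) (Col_cl q)

theorem Col_fg_cl (p : Pat) : Col_fg (Col_cl p) = p := by
  induction p with
  | nil => rfl
  | emp p ih => simp only [Col_cl, Col_fg, ih]
  | arc p q ihp ihq => simp only [Col_cl, Col_fg, ihp, ihq]

theorem Col_pr_cl (p : Pat) : Col_pr false (Col_cl p) = p := by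
  induction p with
  | nil => rfl
  | emp p ih => simp only [Col_cl, Col_pr, ih]
  | arc p q ihp ihq => simp only [Col_cl, Col_pr, ihp, ihq, if_true]

theorem Col_app_zeros (a b : ℕ) : app (zeros a) (zeros b) = zeros (a + b) := by
  induction a with
  | zero => rw [Nat.zero_add]; rfl
  | succ a ih => rw [Nat.succ_add]; simp only [zeros, app, ih]

theorem Col_pr_cl' (p : Pat) : Col_pr true (Col_cl p) = zeros p.len := by
  induction p with
  | nil => rfl
  | emp p ih => simp only [Col_cl, Col_pr, ih, Pat.len, zeros]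
  | arc p q ihp ihq =>
    simp only [Col_cl, Col_pr, ihp, ihq, Pat.len]
    rw [if_neg (by decide)]
    have : app (zeros p.len) (Pat.emp (zeros q.len)) = zeros (p.len + (q.len + 1)) := Col_app_zeros _ (q.len + 1)
    rw [this]
    rfl

/-- Split off one arc. -/
theorem Col_first (p : Pat) (h : Runs_noarc p = false) :
    ∃ q : Col_CP, Col_fg q = p ∧ (∃ i d r, i + d + r + 2 = p.len ∧ Col_pr true q = single i d r) ∧
      (Col_pr false q).len = p.len ∧ Col_na (Col_pr false q) < Col_na p := by
  induction p with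
  | nil => simp [Runs_noarc] at h
  | emp p ih =>
    obtain ⟨q, h1, ⟨i, d, r, h2, h3⟩, h4, h5⟩ := ih h
    refine ⟨.emp q, by simp only [Col_fg, h1], ⟨i + 1, d, r, ?_, ?_⟩, ?_, ?_⟩
    · simp only [Pat.len]; omega
    · simp only [Col_pr, h3, single, zeros, app]
    · simp only [Col_pr, Pat.len, h4]
    · simpa only [Col_pr, Col_na] using h5
  | arc a b _ _ =>
    refine ⟨.arc true (Col_cl a) (Col_cl b), by simp only [Col_fg, Col_fg_cl], ⟨0, a.len, b.len, ?_, ?_⟩, ?_, ?_⟩
    · simp only [Pat.len]; omega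
    · simp only [Col_pr, if_true, Col_pr_cl', single, zeros, app]
    · simp only [Col_pr, Col_pr_cl]
      rw [if_neg (by decide)]
      simp only [Pat.len, Runs_len_app]
      omega
    · simp only [Col_pr, Col_pr_cl]
      rw [if_neg (by decide)]
      have : ∀ u v : Pat, Col_na (app u v) = Col_na u + Col_na v := by
        intro u v
        induction u with
        | nil => simp [app, Col_na]
        | emp u ih => simpa only [app, Col_na] using ih
        | arc u w _ ih => simp only [app, Col_na, ih]; omega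
      simp only [Col_na, this]
      omega

theorem Col_Rm_bdd (n : ℕ) (hn : 2 ≤ n) (x : ℝ) (hx : 0 ≤ x)
    (hA : ∃ C : ℝ, ∀ N i d r, i + d + r + 2 = n → Rm x N (zeros n) (single i d r) ≤ C) (m : ℕ) :
    ∀ p : Pat, p.len = n → Col_na p ≤ m → ∃ C : ℝ, ∀ N, Rm x N (zeros n) p ≤ C := by
  obtain ⟨C, hC⟩ := hA
  have h0 : ∀ N p, 0 ≤ Rm x N (zeros n) p := by
    intro N p
    refine Finset.sum_nonneg fun F _ => ?_
    rcases run F (zeros n) with _ | r
    · exact le_refl _
    · dsimp only
      split_ifs
      · exact pow_nonneg hx _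
      · exact le_refl _
  induction m with
  | zero =>
    intro p hp hm
    by_cases hq : Runs_noarc p = true
    · refine ⟨1, fun N => le_of_eq ?_⟩
      rw [(Runs_noarc_iff p).2 hq, hp]
      have := Runs_sum_run x N (zeros n) (by rw [Runs_len_zeros]; exact hn)
      rw [Runs_len_zeros, Runs_noarc_zeros, if_pos rfl] at this
      exact this
    · obtain ⟨q, _, _, _, h5⟩ := Col_first p (by simpa using hq)
      omega
  | succ m ih =>
    intro p hp hm
    by_cases hq : Runs_noarc p = true
    · refine ⟨1, fun N => le_of_eq ?_⟩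
      rw [(Runs_noarc_iff p).2 hq, hp]
      have := Runs_sum_run x N (zeros n) (by rw [Runs_len_zeros]; exact hn)
      rw [Runs_len_zeros, Runs_noarc_zeros, if_pos rfl] at this
      exact this
    · obtain ⟨q, h1, ⟨i, d, r, h2, h3⟩, h4, h5⟩ := Col_first p (by simpa using hq)
      obtain ⟨C', hC'⟩ := ih (Col_pr false q) (by omega) (by omega)
      refine ⟨C * C', fun N => ?_⟩
      have := Col_mul n x hx N q
      rw [h1, h3] at this
      refine this.trans (mul_le_mul (hC N i d r (by omega)) (hC' N) (h0 _ _) ?_)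
      exact (h0 N (single i d r)).trans (hC N i d r (by omega))

/-- A finite set containing all patterns with at most `n` legs. -/
def Col_fin : ℕ → Finset Pat
  | 0 => {.nil}
  | n + 1 => {.nil} ∪ (Col_fin n).image .emp ∪ ((Col_fin n) ×ˢ (Col_fin n)).image fun p => .arc p.1 p.2

theorem Col_mem_fin (n : ℕ) (p : Pat) (h : p.len ≤ n) : p ∈ Col_fin n := by
  induction n generalizing p with
  | zero =>
    rcases p with _ | p | ⟨p, q⟩
    · simp [Col_fin]
    · simp [Pat.len] at h
    · simp [Pat.len] at h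
  | succ n ih =>
    rcases p with _ | p | ⟨p, q⟩
    · simp [Col_fin]
    · simp only [Pat.len] at h
      simp only [Col_fin, Finset.mem_union, Finset.mem_image]
      exact Or.inl (Or.inr ⟨p, ih p (by omega), rfl⟩)
    · simp only [Pat.len] at h
      simp only [Col_fin, Finset.mem_union, Finset.mem_image]
      exact Or.inr ⟨(p, q), Finset.mem_product.2 ⟨ih p (by omega), ih q (by omega)⟩, rfl⟩

/-- The vacuum mass is bounded as soon as the masses of the single arcs are. -/
theorem Y_bounded (n : ℕ) (hn : 2 ≤ n) (x : ℝ) (hx : 0 ≤ x)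
    (hA : ∃ C : ℝ, ∀ N i d r, i + d + r + 2 = n → Rm x N (zeros n) (single i d r) ≤ C) :
    ∃ C : ℝ, ∀ N, Y x N (zeros n) ≤ C := by
  classical
  have hb : ∀ p : Pat, ∃ C : ℝ, p.len = n → ∀ N, Rm x N (zeros n) p ≤ C := by
    intro p
    by_cases hp : p.len = n
    · obtain ⟨C, hC⟩ := Col_Rm_bdd n hn x hx hA (Col_na p) p hp le_rfl
      exact ⟨C, fun _ => hC⟩
    · exact ⟨0, fun h => absurd h hp⟩
  choose C hC using hb
  let T := (Col_fin n).filter fun p => p.len = n
  refine ⟨∑ p ∈ T, C p, fun N => ?_⟩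
  have h1 : Y x N (zeros n) = ∑ p ∈ T, Rm x N (zeros n) p := by
    unfold Y Rm
    rw [Finset.sum_comm]
    refine Finset.sum_congr rfl fun F _ => ?_
    rcases h : run F (zeros n) with _ | r
    · simp
    · dsimp only
      rw [Finset.sum_ite_eq, if_pos]
      have hl := run_len F (zeros n) r h
      rw [Runs_len_zeros] at hl
      exact Finset.mem_filter.2 ⟨Col_mem_fin n _ hl.le, hl⟩
  rw [h1]
  exact Finset.sum_le_sum fun p hp => hC p (Finset.mem_filter.1 hp).2 N

end Pool.Agent.DEN
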