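import Pool.Agent.DEN.Slant
import Pool.Agent.DEN.ArcPath

/-!
Project DEN: the single arcs of the half cylinder lift to walks in the slanted half plane, so their masses are bounded.
-/

namespace Pool.Agent.DEN

open Pat Pool.Agent.Hhelper14.SAW

/-- Displacement in the plane along an edge of `G_k`. -/
def dsp (k : ℕ) : Vx → Vx → ℤ × ℤ
  | .s t, .u t' => if t = t' then (-1, 0) else if t = t' + k then (0, 1) else (1, -1)
  | .u t', .s t => if t = t' then (1, 0) else if t = t' + k then (0, -1) else (-1, 1)
  | _, _ => (0, 0)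

/-- Lift of a path, starting at `z`. -/
def lft (k : ℕ) : ℤ × ℤ → List Vx → List (ℤ × ℤ)
  | _, [] => []
  | z, [_] => [z]
  | z, v :: w :: l => z :: lft k (z + dsp k v w) (w :: l)

namespace Lift

/-- The vertex `v` of `G_k` is at the position `z`, if `s t1` is at the origin. -/
def Loc (k t1 : ℕ) (z : ℤ × ℤ) : Vx → Prop
  | .s t => (z.1 - z.2) % 3 = 0 ∧ FF k z = 3 * ((t1 : ℤ) - t)
  | .u t => (z.1 - z.2) % 3 = 2 ∧ FF k z = 3 * ((t1 : ℤ) - t) - (2 * k + 1)

theorem Loc_unique {k t1 : ℕ} {z : ℤ × ℤ} {v w : Vx} (h : Loc k t1 z v) (h' : Loc k t1 z w) : v = w := by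
  rcases v with t | t <;> rcases w with t' | t' <;> simp only [Loc] at h h'
  · congr 1; omega
  · omega
  · omega
  · congr 1; omega

theorem Loc_step {k t1 : ℕ} {z : ℤ × ℤ} {v w : Vx} (h : Loc k t1 z v) (hvw : GAdj k v w) :
    Loc k t1 (z + dsp k v w) w ∧ Adj (z + dsp k v w) z := by
  obtain ⟨a, b⟩ := z
  rcases v with t | t <;> rcases w with t' | t'
  · exact absurd hvw (by simp [GAdj])
  · simp only [GAdj] at hvw
    simp only [Loc, FF_mul] at h
    simp only [dsp]
    split_ifs with h1 h2
    · refine ⟨⟨?_, ?_⟩, ?_, ?_, ?_⟩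
      · simp only [Prod.mk_add_mk]; omega
      · simp only [Prod.mk_add_mk, FF_mul]
        have e : (k : ℤ) * (a + -1) = (k : ℤ) * a - k := by ring
        rw [e]
        simp only [add_zero]
        generalize (k : ℤ) * a = ka at *
        generalize (k : ℤ) * b = kb at *
        omega
      · simp only [hon, Prod.mk_add_mk]; omega
      · simp only [hon]; omega
      · simp [U]
    · refine ⟨⟨?_, ?_⟩, ?_, ?_, ?_⟩
      · simp only [Prod.mk_add_mk]; omega
      · simp only [Prod.mk_add_mk, FF_mul]
        have e : (k : ℤ) * (b + 1) = (k : ℤ) * b + k := by ring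
        rw [e]
        simp only [add_zero]
        generalize (k : ℤ) * a = ka at *
        generalize (k : ℤ) * b = kb at *
        omega
      · simp only [hon, Prod.mk_add_mk]; omega
      · simp only [hon]; omega
      · simp [U]
    · have h3 : t = t' + k + 1 := by omega
      refine ⟨⟨?_, ?_⟩, ?_, ?_, ?_⟩
      · simp only [Prod.mk_add_mk]; omega
      · simp only [Prod.mk_add_mk, FF_mul]
        have e : (k : ℤ) * (a + 1) = (k : ℤ) * a + k := by ring
        have e' : (k : ℤ) * (b + -1) = (k : ℤ) * b - k := by ring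
        rw [e, e']
        generalize (k : ℤ) * a = ka at *
        generalize (k : ℤ) * b = kb at *
        omega
      · simp only [hon, Prod.mk_add_mk]; omega
      · simp only [hon]; omega
      · simp [U]
  · simp only [GAdj] at hvw
    simp only [Loc, FF_mul] at h
    simp only [dsp]
    split_ifs with h1 h2
    · refine ⟨⟨?_, ?_⟩, ?_, ?_, ?_⟩
      · simp only [Prod.mk_add_mk]; omega
      · simp only [Prod.mk_add_mk, FF_mul]
        have e : (k : ℤ) * (a + 1) = (k : ℤ) * a + k := by ring
        rw [e]
        simp only [add_zero]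
        generalize (k : ℤ) * a = ka at *
        generalize (k : ℤ) * b = kb at *
        omega
      · simp only [hon, Prod.mk_add_mk]; omega
      · simp only [hon]; omega
      · simp [U]
    · refine ⟨⟨?_, ?_⟩, ?_, ?_, ?_⟩
      · simp only [Prod.mk_add_mk]; omega
      · simp only [Prod.mk_add_mk, FF_mul]
        have e : (k : ℤ) * (b + -1) = (k : ℤ) * b - k := by ring
        rw [e]
        simp only [add_zero]
        generalize (k : ℤ) * a = ka at *
        generalize (k : ℤ) * b = kb at *
        omega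
      · simp only [hon, Prod.mk_add_mk]; omega
      · simp only [hon]; omega
      · simp [U]
    · have h3 : t' = t + k + 1 := by omega
      refine ⟨⟨?_, ?_⟩, ?_, ?_, ?_⟩
      · simp only [Prod.mk_add_mk]; omega
      · simp only [Prod.mk_add_mk, FF_mul]
        have e : (k : ℤ) * (a + -1) = (k : ℤ) * a - k := by ring
        have e' : (k : ℤ) * (b + 1) = (k : ℤ) * b + k := by ring
        rw [e, e']
        generalize (k : ℤ) * a = ka at *
        generalize (k : ℤ) * b = kb at *
        omega
      · simp only [hon, Prod.mk_add_mk]; omega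
      · simp only [hon]; omega
      · simp [U]
  · exact absurd hvw (by simp [GAdj])

theorem lft_loc {k t1 : ℕ} : ∀ (l : List Vx) (z : ℤ × ℤ), l.IsChain (GAdj k) →
    (∀ v ∈ l.head?, Loc k t1 z v) → List.Forall₂ (Loc k t1) (lft k z l) l ∧
      (lft k z l).IsChain (fun x y => Adj y x) ∧ ∀ x ∈ (lft k z l).head?, x = z := by
  intro l
  induction l with
  | nil => intro z _ _; exact ⟨List.Forall₂.nil, List.IsChain.nil, by simp [lft]⟩
  | cons v l ih =>
    intro z hc hz
    have hv : Loc k t1 z v := hz v (by simp)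
    cases l with
    | nil =>
      exact ⟨List.Forall₂.cons hv List.Forall₂.nil, List.isChain_singleton _, by simp [lft]⟩
    | cons w l =>
      rw [List.isChain_cons] at hc
      have hvw : GAdj k v w := hc.1 w (by simp)
      obtain ⟨h1, h2⟩ := Loc_step hv hvw
      obtain ⟨h3, h4, h5⟩ := ih (z + dsp k v w) hc.2 (by
        intro v' hv'
        simp only [List.head?_cons, Option.mem_def, Option.some.injEq] at hv'
        rw [← hv']
        exact h1)
      refine ⟨List.Forall₂.cons hv h3, ?_, by simp [lft]⟩
      simp only [lft]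
      rw [List.isChain_cons]
      refine ⟨fun y hy => ?_, h4⟩
      rw [h5 y hy]
      exact h2

theorem forall2_nodup {k t1 : ℕ} : ∀ {a : List (ℤ × ℤ)} {b : List Vx}, List.Forall₂ (Loc k t1) a b →
    b.Nodup → a.Nodup := by
  intro a b h
  induction h with
  | nil => intro _; exact List.nodup_nil
  | @cons x v a b hx hab ih =>
    intro hb
    rw [List.nodup_cons] at hb ⊢
    refine ⟨fun hm => hb.1 ?_, ih hb.2⟩
    have key : ∀ {a : List (ℤ × ℤ)} {b : List Vx}, List.Forall₂ (Loc k t1) a b → x ∈ a → v ∈ b := by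
      intro a b hab
      induction hab with
      | nil => intro hm; simp at hm
      | @cons y w a b hy _ ih =>
        intro hm
        rcases List.mem_cons.1 hm with h | h
        · rw [← h] at hy
          rw [Loc_unique hx hy]
          simp
        · exact List.mem_cons_of_mem _ (ih h)
    exact key hab hm

theorem forall2_unique {k t1 : ℕ} : ∀ {a : List (ℤ × ℤ)} {b b' : List Vx}, List.Forall₂ (Loc k t1) a b →
    List.Forall₂ (Loc k t1) a b' → b = b' := by
  intro a b b' h
  induction h generalizing b' with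
  | nil => intro h'; cases h'; rfl
  | @cons x v a b hx hab ih =>
    intro h'
    cases h' with
    | cons hx' hab' => rw [Loc_unique hx hx', ih hab']

theorem forall2_mem {k t1 : ℕ} {x : ℤ × ℤ} : ∀ {a : List (ℤ × ℤ)} {b : List Vx}, List.Forall₂ (Loc k t1) a b →
    x ∈ a → ∃ v ∈ b, Loc k t1 x v := by
  intro a b hab
  induction hab with
  | nil => intro hm; simp at hm
  | @cons y w a b hy _ ih =>
    intro hm
    rcases List.mem_cons.1 hm with h | h
    · exact ⟨w, by simp, by rw [h]; exact hy⟩
    · obtain ⟨v, h1, h2⟩ := ih h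
      exact ⟨v, List.mem_cons_of_mem _ h1, h2⟩

/-- The lifted walk. -/
def wk (k t1 t2 : ℕ) (l : List Vx) : List (ℤ × ℤ) :=
  (lft k o (.s t1 :: (l ++ [.s t2]))).reverse ++ [o']

theorem loc_o (k t1 : ℕ) : Loc k t1 o (.s t1) := by
  simp [Loc, FF, o]

theorem wk_spec {k N A B t1 t2 : ℕ} (ht1 : t1 = A + k ∨ t1 = A + k + 1)
    (ht2 : t2 = B + k ∨ t2 = B + k + 1) (h1 : N ≤ t1) (h2 : N ≤ t2) (h12 : t1 < t2) (h3 : t2 + 1 ≤ N + k)
    {l : List Vx} (hc : l.IsChain (GAdj k)) (hnd : l.Nodup) (hN : ∀ v ∈ l, v.tm < N)
    (hA : l.head? = some (.u A)) (hB : l.getLast? = some (.u B)) :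
    List.Forall₂ (Loc k t1) (lft k o (.s t1 :: (l ++ [.s t2]))) (.s t1 :: (l ++ [.s t2])) ∧
    IsSaw (Hp k (N + k - t1)) (l.length + 1) (wk k t1 t2 l) ∧ (wk k t1 t2 l).headI ≠ o ∧
    ((wk k t1 t2 l).headI.1 - (wk k t1 t2 l).headI.2) % 3 = 0 ∧
    FF k (wk k t1 t2 l).headI ≤ 3 * (k : ℤ) - 3 * ((N + k - t1 : ℕ) : ℤ) ∧
    (wk k t1 t2 l).length = l.length + 3 := by
  have hchain : (Vx.s t1 :: (l ++ [Vx.s t2])).IsChain (GAdj k) := by
    rw [List.isChain_cons]
    constructor
    · intro y hy
      have : y = .u A := by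
        have h4 : (l ++ [Vx.s t2]).head? = some (.u A) := by
          rw [List.head?_append, hA]; rfl
        rw [h4] at hy
        simpa using hy.symm
      rw [this]
      simp only [GAdj]
      omega
    · rw [List.isChain_append]
      refine ⟨hc, List.isChain_singleton _, ?_⟩
      intro x hx y hy
      rw [hB] at hx
      simp only [Option.mem_def, Option.some.injEq, List.head?_cons] at hx hy
      rw [← hx, ← hy]
      simp only [GAdj]
      omega
  have hnodup : (Vx.s t1 :: (l ++ [Vx.s t2])).Nodup := by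
    rw [List.nodup_cons]
    constructor
    · intro hm
      rcases List.mem_append.1 hm with h | h
      · have := hN _ h
        simp only [Vx.tm] at this
        omega
      · simp only [List.mem_singleton, Vx.s.injEq] at h
        omega
    · rw [List.nodup_append]
      refine ⟨hnd, by simp, ?_⟩
      intro a ha b hb hab
      simp only [List.mem_singleton] at hb
      have := hN _ ha
      rw [hab, hb] at this
      simp only [Vx.tm] at this
      omega
  obtain ⟨g1, g2, g3⟩ := lft_loc (k := k) (t1 := t1) _ o hchain (by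
    intro v hv
    simp only [List.head?_cons, Option.mem_def, Option.some.injEq] at hv
    rw [← hv]
    exact loc_o k t1)
  refine ⟨g1, ?_⟩
  obtain ⟨W, hW⟩ : ∃ W, W = lft k o (Vx.s t1 :: (l ++ [Vx.s t2])) := ⟨_, rfl⟩
  have hwk : wk k t1 t2 l = W.reverse ++ [o'] := by rw [wk, ← hW]
  rw [← hW] at g1 g2 g3
  have hlen : W.length = l.length + 2 := by
    rw [g1.length_eq]; simp
  -- the first vertex
  obtain ⟨W', hW'⟩ : ∃ W', W = o :: W' := by
    cases W with
    | nil => simp at hlen
    | cons x W' => exact ⟨W', by rw [g3 x (by simp)]⟩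
  -- the last vertex
  have grev := List.forall₂_reverse_iff.2 g1
  have hrev : (Vx.s t1 :: (l ++ [Vx.s t2])).reverse = Vx.s t2 :: (l.reverse ++ [Vx.s t1]) := by simp
  rw [hrev] at grev
  obtain ⟨x, V, hx, hV, hVW⟩ := List.forall₂_cons_right_iff.1 grev
  have hhead : (wk k t1 t2 l).headI = x := by rw [hwk, hVW]; rfl
  have hxo : x ≠ o := by
    intro h
    rw [h] at hx
    have := Loc_unique hx (loc_o k t1)
    simp only [Vx.s.injEq] at this
    omega
  have hHp : ∀ y ∈ W, Hp k (N + k - t1) y := by
    intro y hy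
    obtain ⟨v, hv, hyv⟩ := forall2_mem g1 hy
    have hcase : (∃ t, v = .s t ∧ t + 1 ≤ N + k) ∨ (∃ t, v = .u t ∧ t < N) := by
      rcases List.mem_cons.1 hv with h | h
      · exact Or.inl ⟨t1, h, by omega⟩
      · rcases List.mem_append.1 h with h | h
        · have := hN _ h
          rcases v with t | t
          · exact Or.inl ⟨t, rfl, by simp only [Vx.tm] at this; omega⟩
          · exact Or.inr ⟨t, rfl, this⟩
        · exact Or.inl ⟨t2, by simpa using h, h3⟩
    have hcast : ((N + k - t1 : ℕ) : ℤ) = N + k - t1 := by omega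
    unfold Hp
    rw [hcast]
    rcases hcase with ⟨t, rfl, ht⟩ | ⟨t, rfl, ht⟩
    · left
      simp only [Loc] at hyv
      refine ⟨hyv.1, ?_⟩
      rw [hyv.2]
      omega
    · right
      simp only [Loc] at hyv
      refine ⟨hyv.1, ?_⟩
      rw [hyv.2]
      omega
  have ho' : o' ∉ W := by
    intro h
    obtain ⟨v, hv, hyv⟩ := forall2_mem g1 h
    have : v = .u t1 := by
      refine Loc_unique hyv ?_
      simp [Loc, FF, o']
    rw [this] at hv
    rcases List.mem_cons.1 hv with h | h
    · simp at h
    · rcases List.mem_append.1 h with h | h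
      · have := hN _ h
        simp only [Vx.tm] at this
        omega
      · simp at h
  have hWnd : W.Nodup := forall2_nodup g1 hnodup
  refine ⟨⟨?_, ?_, ?_, ?_⟩, ?_, ?_, ?_, ?_⟩
  · rw [hwk]; simp [hlen]
  · rw [hwk, List.nodup_append]
    refine ⟨List.nodup_reverse.2 hWnd, by simp, ?_⟩
    intro a ha b hb hab
    simp only [List.mem_singleton] at hb
    rw [List.mem_reverse] at ha
    rw [hab, hb] at ha
    exact ho' ha
  · rw [hwk]
    show List.IsChain Adj _
    rw [List.isChain_append]
    refine ⟨List.isChain_reverse.2 g2, List.isChain_singleton _, ?_⟩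
    intro a ha b hb
    rw [hW'] at ha
    simp only [List.reverse_cons, List.getLast?_append, List.getLast?_singleton, Option.mem_def,
      Option.some_or, Option.some.injEq, List.head?_cons] at ha hb
    rw [← ha, ← hb]
    refine ⟨by decide, by decide, by decide⟩
  · refine ⟨W'.reverse, ?_, ?_⟩
    · rw [hwk, hW']; simp
    · intro y hy
      refine hHp y ?_
      rw [hW']
      simp only [List.mem_append, List.mem_reverse, List.mem_singleton] at hy
      rcases hy with hy | hy
      · exact List.mem_cons_of_mem _ hy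
      · rw [hy]; simp
  · rw [hhead]; exact hxo
  · rw [hhead]; exact hx.1
  · rw [hhead, hx.2]
    have hcast : ((N + k - t1 : ℕ) : ℤ) = N + k - t1 := by omega
    rw [hcast]
    omega
  · rw [hwk]; simp [hlen]

end Lift

open Lift in
theorem arcs_bounded (k : ℕ) (hk : 2 ≤ k) : ∃ C : ℝ, ∀ N i d r, i + d + r + 2 = 2 * k + 1 →
    Rm xc N (zeros (2 * k + 1)) (single i d r) ≤ C := by
  classical
  have hx := xc_pos
  refine ⟨3 / xc ^ 2 + xc, fun N i d r h => ?_⟩
  have hC : 0 ≤ 3 / xc ^ 2 := by positivity
  obtain ⟨P, hP, hR⟩ := arc_path k (by omega) xc hx.le N i d r h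
  refine hR.trans ?_
  rcases P.eq_empty_or_nonempty with hPe | ⟨l0, hl0⟩
  · rw [hPe, Finset.sum_empty]
    positivity
  obtain ⟨-, -, htm0, A, B, hA0, hB0, hA1, hB1⟩ := hP l0 hl0
  -- the ends are the same for all paths
  have hends : ∀ l ∈ P, l.head? = some (.u A) ∧ l.getLast? = some (.u B) := by
    intro l hl
    obtain ⟨-, -, -, A', B', hA', hB', hA1', hB1'⟩ := hP l hl
    have e1 : A' = A := by omega
    have e2 : B' = B := by omega
    rw [hA', hB', e1, e2]
    exact ⟨rfl, rfl⟩
  have hAN : A < N := by
    have := htm0 (.u A) (List.mem_of_mem_head? (by rw [hA0]; rfl))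
    simpa [Vx.tm] using this
  have hBN : B < N := by
    have := htm0 (.u B) (List.mem_of_mem_getLast? (by rw [hB0]; rfl))
    simpa [Vx.tm] using this
  rcases Nat.lt_or_ge A B with hAB | hAB
  · -- the lifted walks
    obtain ⟨t1, ht1⟩ : ∃ t1, t1 = max (A + k) N := ⟨_, rfl⟩
    obtain ⟨t2, ht2⟩ : ∃ t2, t2 = min (B + k + 1) (N + k - 1) := ⟨_, rfl⟩
    have hspec : ∀ l ∈ P, _ := fun l hl => wk_spec (k := k) (N := N) (A := A) (B := B) (t1 := t1) (t2 := t2)
      (by omega) (by omega) (by omega) (by omega) (by omega) (by omega) (hP l hl).1 (hP l hl).2.1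
      (hP l hl).2.2.1 (hends l hl).1 (hends l hl).2
    have hinj : ∀ l ∈ P, ∀ l' ∈ P, wk k t1 t2 l = wk k t1 t2 l' → l = l' := by
      intro l hl l' hl' hll
      unfold wk at hll
      have h1 := List.append_cancel_right hll
      rw [List.reverse_inj] at h1
      have h2 := (hspec l hl).1
      rw [h1] at h2
      have h3 := forall2_unique h2 (hspec l' hl').1
      simp only [List.cons.injEq, true_and] at h3
      exact List.append_cancel_right h3
    have hs := slant_sum k (N + k - t1) hk (by omega) (by omega) (P.image (wk k t1 t2)) (by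
      intro w hw
      obtain ⟨l, hl, rfl⟩ := Finset.mem_image.1 hw
      obtain ⟨-, g2, g3, g4, g5, -⟩ := hspec l hl
      exact ⟨⟨_, g2⟩, g3, g4, g5⟩)
    rw [Finset.sum_image hinj] at hs
    have hsum : ∑ l ∈ P, xc ^ l.length * xc ^ 2 ≤ 3 := by
      refine le_trans (le_of_eq (Finset.sum_congr rfl fun l hl => ?_)) hs
      rw [(hspec l hl).2.2.2.2.2, ← pow_add]
      rfl
    rw [← Finset.sum_mul] at hsum
    have h1 : ∑ l ∈ P, xc ^ l.length ≤ 3 / xc ^ 2 := by
      rw [le_div_iff₀ (by positivity)]
      exact hsum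
    linarith
  · have hAB' : A = B := by omega
    have hsub : P ⊆ {[Vx.u A]} := by
      intro l hl
      rw [Finset.mem_singleton]
      obtain ⟨h1, h2⟩ := hends l hl
      have hnd := (hP l hl).2.1
      cases l with
      | nil => simp at h1
      | cons v l =>
        simp only [List.head?_cons, Option.some.injEq] at h1
        cases l with
        | nil => rw [h1]
        | cons w l =>
          exfalso
          rw [List.nodup_cons] at hnd
          apply hnd.1
          rw [h1, hAB']
          rw [List.getLast?_cons_cons] at h2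
          exact List.mem_of_mem_getLast? (by rw [h2]; rfl)
    calc ∑ l ∈ P, xc ^ l.length ≤ ∑ l ∈ {[Vx.u A]}, xc ^ l.length :=
          Finset.sum_le_sum_of_subset_of_nonneg hsub fun _ _ _ => by positivity
      _ = xc := by simp
      _ ≤ 3 / xc ^ 2 + xc := by linarith

end Pool.Agent.DEN
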