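import Pool.Agent.DEN.Alg

/-!
Project DEN: the linear algebra of the hole. `R` = lower half (a linear functional of functions of the queue),
`G` = upper half (a function of the queue `c ++ [a, b]`, the last two legs are the upper legs of the removed vertex).
-/

namespace Pool.Agent.DEN

section Hole

variable {A : Type*} [CommRing A] {s x Q zr zl : A}

/-- A linear functional. -/
structure Lin (R : (List Sp → A) → A) : Prop where
  add : ∀ f g, R (fun l => f l + g l) = R f + R g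
  smul : ∀ (c : A) f, R (fun l => c * f l) = c * R f

/-- The six error terms. -/
def Err (s x Q zr zl : A) (R : (List Sp → A) → A) (G : List Sp → A) : A :=
  let E := eh Q zr zl true
  let EEG := E (E G)
  let Gm : List Sp → A := fun c => G (c ++ [.neg, .neg])
  let FG : List Sp → A := fun c => zl * G (c ++ [.zero, .neg]) + zr * (-Q ^ 3) * G (c ++ [.neg, .zero])
  let FE : List Sp → A := fun c => zl * EEG (c ++ [.zero, .neg]) + zr * (-Q ^ 3) * EEG (c ++ [.neg, .zero])
  let Em : List Sp → A := fun c => EEG (c ++ [.neg, .neg]);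
  (1 - Q ^ 3) * R (E (E (Sv s x .pos (E Gm)))) - (Q * (1 + Q)) * R (Sv s x .pos (E Em))
    - zr * R (E (E (Sv s x .zero Gm))) + (1 + Q - Q ^ 3) * R (E (E (Sv s x .pos FG)))
    + Q ^ 2 * R (Sv s x .pos FE) - (1 + Q - Q ^ 3) * zr * R (Sv s x .zero Em)

/-! ### The lower vertex with a given spin of the vertical edge -/

theorem Sv_eq (v : Sp) (g : List Sp → A) (a b : Sp) (c : List Sp) :
    Sv s x v g (a :: b :: c) = SS s x (fun w => if w = v then g c else 0) a b := rfl

theorem Sv_add (v : Sp) (g h : List Sp → A) (l : List Sp) :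
    Sv s x v (fun c => g c + h c) l = Sv s x v g l + Sv s x v h l := by
  rcases l with _ | ⟨a, _ | ⟨b, c⟩⟩
  · simp [Sv]
  · simp [Sv]
  · rw [Sv_eq, Sv_eq, Sv_eq, ← SS_add]
    congr 1
    funext w
    split_ifs <;> simp

theorem Sv_smul (r : A) (v : Sp) (g : List Sp → A) (l : List Sp) :
    Sv s x v (fun c => r * g c) l = r * Sv s x v g l := by
  rcases l with _ | ⟨a, _ | ⟨b, c⟩⟩
  · simp [Sv]
  · simp [Sv]
  · rw [Sv_eq, Sv_eq, ← SS_smul]
    congr 1
    funext w
    split_ifs <;> simp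

theorem Sv_congr (n : ℕ) (v : Sp) (g h : List Sp → A)
    (hgh : ∀ c : List Sp, c.length + 2 = n → ch v + chg c = 0 → g c = h c) (l : List Sp)
    (hl : l.length = n) (h0 : chg l = 0) : Sv s x v g l = Sv s x v h l := by
  rcases l with _ | ⟨a, _ | ⟨b, c⟩⟩
  · simp [Sv]
  · simp [Sv]
  · rw [Sv_eq, Sv_eq]
    apply SS_congr
    intro w hw
    by_cases hwv : w = v
    · rw [if_pos hwv, if_pos hwv]
      subst hwv
      apply hgh c (by simpa using hl)
      rw [chg_cons, chg_cons] at h0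
      omega
    · rw [if_neg hwv, if_neg hwv]

theorem EE_Sv (hc : Cst s x Q zr zl) (v : Sp) (g : List Sp → A) (a b : Sp) (c : List Sp) :
    eh Q zr zl true (eh Q zr zl true (Sv s x v g)) (a :: b :: c) =
      SS s x (EA Q zr zl (EA Q zr zl (fun c w => if w = v then g c else 0)) c) a b := by
  have h1 : ∀ a b c, eh Q zr zl true (Sv s x v g) (a :: b :: c) =
      SS s x (EA Q zr zl (fun c w => if w = v then g c else 0) c) a b :=
    fun a b c => eh_SS hc _ _ (Sv_eq v g) a b c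
  exact eh_SS hc _ _ h1 a b c

theorem eh_if (p : Prop) [Decidable p] (g : List Sp → A) (c : List Sp) :
    eh Q zr zl true (fun c' => if p then g c' else 0) c = if p then eh Q zr zl true g c else 0 := by
  by_cases h : p
  · simp [h]
  · simp only [h, if_false]; exact eh_zero c true

theorem EE_pos (hc : Cst s x Q zr zl) (g : List Sp → A) (l : List Sp) (h2 : 2 ≤ l.length) :
    eh Q zr zl true (eh Q zr zl true (Sv s x .pos g)) l =
      zr * Sv s x .neg g l + (1 + Q) * zr * Sv s x .zero (eh Q zr zl true g) l +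
        Q ^ 2 * Sv s x .pos (eh Q zr zl true (eh Q zr zl true g)) l := by
  rcases l with _ | ⟨a, _ | ⟨b, c⟩⟩
  · simp at h2
  · simp at h2
  · rw [EE_Sv hc, Sv_eq, Sv_eq, Sv_eq, ← SS_smul, ← SS_smul, ← SS_smul, ← SS_add, ← SS_add]
    congr 1
    funext w
    rw [EA_sq hc.q4]
    simp only [eh_if]
    cases w <;> (simp [ee, kq]; try ring1)

theorem EE_zero (hc : Cst s x Q zr zl) (g : List Sp → A) (l : List Sp) (h2 : 2 ≤ l.length) :
    eh Q zr zl true (eh Q zr zl true (Sv s x .zero g)) l =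
      -((1 + Q) * Q ^ 3) * Sv s x .neg (eh Q zr zl true g) l +
        1 * Sv s x .zero (eh Q zr zl true (eh Q zr zl true g)) l := by
  rcases l with _ | ⟨a, _ | ⟨b, c⟩⟩
  · simp at h2
  · simp at h2
  · rw [EE_Sv hc, Sv_eq, Sv_eq, ← SS_smul, ← SS_smul, ← SS_add]
    congr 1
    funext w
    rw [EA_sq hc.q4]
    simp only [eh_if]
    cases w <;> (simp [ee, kq]; try ring1)

/-! ### The last two legs -/

/-- the charge on the last two legs -/
def F2 (Q zr zl : A) (φ : Sp → Sp → A) (p q : Sp) : A :=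
  zl * ee zr (fun p' => φ p' q) p + kq Q p * (zr * ee zr (fun q' => φ p q') q)

theorem F2_add (φ ψ : Sp → Sp → A) (p q : Sp) :
    F2 Q zr zl (fun p q => φ p q + ψ p q) p q = F2 Q zr zl φ p q + F2 Q zr zl ψ p q := by
  unfold F2
  rw [ee_add (fun p' => φ p' q), ee_add (fun q' => φ p q')]
  ring

theorem F2_smul (r : A) (φ : Sp → Sp → A) (p q : Sp) :
    F2 Q zr zl (fun p q => r * φ p q) p q = r * F2 Q zr zl φ p q := by
  unfold F2
  rw [ee_smul r (fun p' => φ p' q), ee_smul r (fun q' => φ p q')]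
  ring

theorem eh_F2 (t : Bool) (P : List Sp → Sp → Sp → A) (p q : Sp) (c : List Sp) :
    eh Q zr zl t (fun c' => F2 Q zr zl (P c') p q) c =
      F2 Q zr zl (fun p q => eh Q zr zl t (fun c' => P c' p q) c) p q := by
  unfold F2
  rw [eh_add, eh_smul, eh_smul, eh_smul, eh_ee c t (fun c' p' => P c' p' q),
    eh_ee c t (fun c' q' => P c' p q')]

theorem eh_two (G : List Sp → A) (c : List Sp) (hl : c.length % 2 = 1) (p q : Sp) :
    eh Q zr zl true G (c ++ [p, q]) = eh Q zr zl true (fun c' => G (c' ++ [p, q])) c +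
      KQ Q c * F2 Q zr zl (fun p q => G (c ++ [p, q])) p q := by
  rw [eh_append]
  simp [hl, eh, F2]

theorem eh2_two (hc : Cst s x Q zr zl) (G : List Sp → A) (c : List Sp) (hl : c.length % 2 = 1)
    (p q : Sp) :
    eh Q zr zl true (eh Q zr zl true G) (c ++ [p, q]) =
      eh Q zr zl true (eh Q zr zl true (fun c' => G (c' ++ [p, q]))) c +
      (1 + Q) * (KQ Q c * eh Q zr zl true (fun c' => F2 Q zr zl (fun p q => G (c' ++ [p, q])) p q) c) +
      KQ Q c ^ 2 * F2 Q zr zl (F2 Q zr zl (fun p q => G (c ++ [p, q]))) p q := by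
  rw [eh_two _ c hl]
  have h1 : eh Q zr zl true (fun c' => eh Q zr zl true G (c' ++ [p, q])) c =
      eh Q zr zl true (fun c' => eh Q zr zl true (fun c'' => G (c'' ++ [p, q])) c' +
        KQ Q c' * F2 Q zr zl (fun p q => G (c' ++ [p, q])) p q) c :=
    eh_congr c true _ _ (fun c' hc' => eh_two G c' (by omega) p q)
  have h2 : (fun p q => eh Q zr zl true G (c ++ [p, q])) = fun p q =>
      eh Q zr zl true (fun c'' => G (c'' ++ [p, q])) c +
        KQ Q c * F2 Q zr zl (fun p q => G (c ++ [p, q])) p q := by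
    funext p q; exact eh_two G c hl p q
  rw [h1, h2, eh_add, eh_KQ hc.q4, F2_add, F2_smul, ← eh_F2]
  ring

/-- The star relation with its error terms. -/
theorem hole_alg (hc : Cst s x Q zr zl) (R : (List Sp → A) → A) (hR : Lin R) (n : ℕ) (hn : n % 2 = 1) (h3 : 3 ≤ n)
    (hR0 : ∀ f g : List Sp → A, (∀ l, l.length = n → chg l = 0 → f l = g l) → R f = R g)
    (G : List Sp → A) (M : Sp → Sp → Sp → A)
    (hM : ∀ v a b, M v a b = R (Sv s x v (fun c => G (c ++ [a, b])))) (m0 ma mb mc : A)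
    (h0 : M .zero .zero .zero = m0) (hc1 : M .zero .neg .pos = mc) (hc2 : M .zero .pos .neg = -s * mc)
    (ha1 : M .pos .pos .zero = ma) (ha2 : M .neg .neg .zero = ma)
    (hb1 : M .pos .zero .pos = mb) (hb2 : M .neg .zero .neg = mb) :
    (1 + Q - Q ^ 3) * (1 + Q ^ 2) * (ma + mb + mc - x * m0) = Err s x Q zr zl R G := by
  have h4 := hc.q4
  have hs := hc.hs
  have f1 := hc.f1
  have f2 := hc.f2
  have f3 := hc.f3
  have f4 := hc.f4
  -- the functionals
  set Rv : Sp → (List Sp → A) → A := fun v g => R (Sv s x v g) with hRv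
  have Rv_add : ∀ v g h, Rv v (fun c => g c + h c) = Rv v g + Rv v h := by
    intro v g h
    simp only [hRv]
    rw [← hR.add]
    exact hR0 _ _ (fun l _ _ => Sv_add v g h l)
  have Rv_smul : ∀ r v g, Rv v (fun c => r * g c) = r * Rv v g := by
    intro r v g
    simp only [hRv]
    rw [← hR.smul]
    exact hR0 _ _ (fun l _ _ => Sv_smul r v g l)
  have Rv_congr : ∀ v g h, (∀ c : List Sp, c.length + 2 = n → ch v + chg c = 0 → g c = h c) →
      Rv v g = Rv v h := by
    intro v g h hgh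
    exact hR0 _ _ (fun l hl h0 => Sv_congr n v g h hgh l hl h0)
  have L1 : ∀ g, R (eh Q zr zl true (eh Q zr zl true (Sv s x .pos g))) =
      zr * Rv .neg g + (1 + Q) * zr * Rv .zero (eh Q zr zl true g) +
        Q ^ 2 * Rv .pos (eh Q zr zl true (eh Q zr zl true g)) := by
    intro g
    simp only [hRv]
    rw [← hR.smul, ← hR.smul, ← hR.smul, ← hR.add, ← hR.add]
    exact hR0 _ _ (fun l hl _ => EE_pos hc g l (by omega))
  have L0 : ∀ g, R (eh Q zr zl true (eh Q zr zl true (Sv s x .zero g))) =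
      -((1 + Q) * Q ^ 3) * Rv .neg (eh Q zr zl true g) +
        1 * Rv .zero (eh Q zr zl true (eh Q zr zl true g)) := by
    intro g
    simp only [hRv]
    rw [← hR.smul, ← hR.smul, ← hR.add]
    exact hR0 _ _ (fun l hl _ => EE_zero hc g l (by omega))
  -- the functions of the rest
  set Gm : List Sp → A := fun c => G (c ++ [.neg, .neg]) with hGm
  set FG : List Sp → A := fun c => zl * G (c ++ [.zero, .neg]) +
    zr * (-Q ^ 3) * G (c ++ [.neg, .zero]) with hFG
  set FFG : List Sp → A := fun c => zl * G (c ++ [.pos, .neg]) + ((1 - Q ^ 3) * G (c ++ [.zero, .zero]) +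
    (-Q ^ 2 * zr ^ 3) * G (c ++ [.neg, .pos])) with hFFG
  set FFFG : List Sp → A := fun c => (1 + Q - Q ^ 3) * G (c ++ [.pos, .zero]) +
    (zr ^ 2 * (1 - Q ^ 2 - Q ^ 3)) * G (c ++ [.zero, .pos]) with hFFFG
  have k1 : ∀ c, F2 Q zr zl (fun p q => G (c ++ [p, q])) .neg .neg = FG c := by
    intro c; simp [F2, ee, kq, hFG]; ring
  have k2 : ∀ c, F2 Q zr zl (F2 Q zr zl (fun p q => G (c ++ [p, q]))) .neg .neg = FFG c := by
    intro c
    simp only [F2, ee, kq, hFFG]
    linear_combination G (c ++ [.pos, .neg]) * zl * f2 + G (c ++ [.zero, .zero]) * (1 - Q ^ 3) * f2 +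
      G (c ++ [.neg, .pos]) * zr ^ 3 * Q ^ 2 * h4
  have k3 : ∀ c, F2 Q zr zl (F2 Q zr zl (F2 Q zr zl (fun p q => G (c ++ [p, q])))) .neg .neg =
      FFFG c := by
    intro c
    simp only [F2, ee, kq, hFFFG]
    linear_combination G (c ++ [.pos, .zero]) * (1 + Q - Q ^ 3) * (zl * zr + 1) * f2 +
      G (c ++ [.zero, .pos]) * (zr ^ 2 * (1 - Q ^ 3 + Q ^ 6) * f2 + zr ^ 2 * Q ^ 2 * h4)
  set Em : List Sp → A := fun c => eh Q zr zl true (eh Q zr zl true G) (c ++ [.neg, .neg]) with hEm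
  set FE : List Sp → A := fun c => zl * eh Q zr zl true (eh Q zr zl true G) (c ++ [.zero, .neg]) +
    zr * (-Q ^ 3) * eh Q zr zl true (eh Q zr zl true G) (c ++ [.neg, .zero]) with hFE
  have m1 : ∀ c : List Sp, c.length % 2 = 1 → Em c = eh Q zr zl true (eh Q zr zl true Gm) c +
      ((1 + Q) * (KQ Q c * eh Q zr zl true FG c) + KQ Q c * (KQ Q c * FFG c)) := by
    intro c hcl
    simp only [hEm]
    rw [eh2_two hc G c hcl, k2]
    simp only [k1]
    ring
  have m2 : ∀ c : List Sp, c.length % 2 = 1 → eh Q zr zl true Em c =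
      eh Q zr zl true (eh Q zr zl true (eh Q zr zl true Gm)) c +
      ((1 + Q) * Q * KQ Q c * eh Q zr zl true (eh Q zr zl true FG) c +
        Q ^ 2 * KQ Q c ^ 2 * eh Q zr zl true FFG c) := by
    intro c hcl
    rw [eh_congr c true Em (fun c => eh Q zr zl true (eh Q zr zl true Gm) c +
      ((1 + Q) * (KQ Q c * eh Q zr zl true FG c) + KQ Q c * (KQ Q c * FFG c)))
      (fun c' hc' => m1 c' (by omega)), eh_add, eh_add, eh_smul, eh_KQ h4, eh_KQ h4, eh_KQ h4]
    ring
  have m3 : ∀ c : List Sp, c.length % 2 = 1 → FE c = eh Q zr zl true (eh Q zr zl true FG) c +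
      ((1 + Q) * (KQ Q c * eh Q zr zl true FFG c) + KQ Q c ^ 2 * FFFG c) := by
    intro c hcl
    have e1 : FE c = F2 Q zr zl (fun p q => eh Q zr zl true (eh Q zr zl true G) (c ++ [p, q]))
        .neg .neg := by
      simp only [hFE, F2, ee, kq]; ring
    have e2 : (fun p q => eh Q zr zl true (eh Q zr zl true G) (c ++ [p, q])) = fun p q =>
        eh Q zr zl true (fun c' => eh Q zr zl true (fun c'' => G (c'' ++ [p, q])) c') c +
        ((1 + Q) * (KQ Q c * eh Q zr zl true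
          (fun c' => F2 Q zr zl (fun p q => G (c' ++ [p, q])) p q) c) +
        KQ Q c ^ 2 * F2 Q zr zl (F2 Q zr zl (fun p q => G (c ++ [p, q]))) p q) := by
      funext p q; rw [eh2_two hc G c hcl]; ring
    rw [e1, e2, F2_add, F2_add, F2_smul, F2_smul, F2_smul, ← eh_F2, ← eh_F2, k3]
    simp only [← eh_F2, k1, k2]
  have q0 : ∀ c : List Sp, c.length + 2 = n → ch .zero + chg c = 0 → KQ Q c = 1 := by
    intro c _ hc0
    have := kq_chg h4 .zero c 0 hc0
    simpa [kq] using this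
  have q1 : ∀ c : List Sp, c.length + 2 = n → ch .pos + chg c = 0 → KQ Q c = -Q ^ 3 := by
    intro c _ hc0
    have := kq_chg h4 .pos c 0 hc0
    simp only [kq, zpow_zero, Units.val_one] at this
    linear_combination -Q ^ 3 * this + KQ Q c * h4
  have E1 : Rv .zero Em = Rv .zero (eh Q zr zl true (eh Q zr zl true Gm)) +
      ((1 + Q) * Rv .zero (eh Q zr zl true FG) + Rv .zero FFG) := by
    rw [← Rv_smul, ← Rv_add, ← Rv_add]
    refine Rv_congr _ _ _ (fun c h1 h2 => ?_)
    rw [m1 c (by omega), q0 c h1 h2]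
    ring
  have E4 : Rv .pos (eh Q zr zl true Em) =
      Rv .pos (eh Q zr zl true (eh Q zr zl true (eh Q zr zl true Gm))) +
      ((1 + Q) * Rv .pos (eh Q zr zl true (eh Q zr zl true FG)) + Rv .pos (eh Q zr zl true FFG)) := by
    rw [← Rv_smul, ← Rv_add, ← Rv_add]
    refine Rv_congr _ _ _ (fun c h1 h2 => ?_)
    rw [m2 c (by omega), q1 c h1 h2]
    linear_combination (-(1 + Q) * eh Q zr zl true (eh Q zr zl true FG) c +
      (Q ^ 4 - 1) * eh Q zr zl true FFG c) * h4
  have E3 : Rv .pos FE = Rv .pos (eh Q zr zl true (eh Q zr zl true FG)) +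
      (-(1 + Q) * Q ^ 3 * Rv .pos (eh Q zr zl true FFG) + (-Q ^ 2) * Rv .pos FFFG) := by
    rw [← Rv_smul, ← Rv_smul, ← Rv_add, ← Rv_add]
    refine Rv_congr _ _ _ (fun c h1 h2 => ?_)
    rw [m3 c (by omega), q1 c h1 h2]
    linear_combination Q ^ 2 * FFFG c * h4
  have E2 := L1 (eh Q zr zl true Gm)
  have E5 := L1 FG
  have E0 := L0 Gm
  -- values
  have v1 : Rv .zero FFG = zl * (-s * mc) + ((1 - Q ^ 3) * m0 + (-Q ^ 2 * zr ^ 3) * mc) := by
    rw [hFFG, Rv_add, Rv_add, Rv_smul, Rv_smul, Rv_smul, ← h0, ← hc2, ← hc1, hM, hM, hM]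
  have v2 : Rv .pos FFFG = (1 + Q - Q ^ 3) * ma + (zr ^ 2 * (1 - Q ^ 2 - Q ^ 3)) * mb := by
    rw [hFFFG, Rv_add, Rv_smul, Rv_smul, ← ha1, ← hb1, hM, hM]
  have v3 : Rv .neg FG = zl * mb + zr * (-Q ^ 3) * ma := by
    rw [hFG, Rv_add, Rv_smul, Rv_smul, ← ha2, ← hb2, hM, hM]
  have key : Err s x Q zr zl R G =
      (1 - Q ^ 3) * R (eh Q zr zl true (eh Q zr zl true (Sv s x .pos (eh Q zr zl true Gm))))
      - (Q * (1 + Q)) * Rv .pos (eh Q zr zl true Em)
      - zr * R (eh Q zr zl true (eh Q zr zl true (Sv s x .zero Gm)))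
      + (1 + Q - Q ^ 3) * R (eh Q zr zl true (eh Q zr zl true (Sv s x .pos FG)))
      + Q ^ 2 * Rv .pos FE - (1 + Q - Q ^ 3) * zr * Rv .zero Em := rfl
  rw [key, E1, E2, E3, E4, E5, E0, v1, v2, v3]
  generalize Rv .zero (eh Q zr zl true (eh Q zr zl true Gm)) = a1
  generalize Rv .neg (eh Q zr zl true Gm) = p
  generalize Rv .zero (eh Q zr zl true FG) = q
  generalize Rv .pos (eh Q zr zl true (eh Q zr zl true FG)) = w
  generalize Rv .pos (eh Q zr zl true (eh Q zr zl true (eh Q zr zl true Gm))) = r3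
  generalize Rv .pos (eh Q zr zl true FFG) = y
  have hr := hc.hr
  linear_combination (-zr * p + a1 * zr + r3 * Q + w * Q + y * Q * (1 + Q)) * h4 +
    mb * (-(1 + Q - Q ^ 3) * f2 + zr ^ 2 * (1 - Q ^ 2 - Q ^ 3) * h4 -
      (1 - Q ^ 2 - Q ^ 3) * f4 + Q ^ 2 * h4) +
    ma * (1 + Q - Q ^ 3) * (h4 + Q ^ 3 * f4 + Q ^ 2 * h4) +
    mc * (1 + Q - Q ^ 3) * (-s * f2 - hs - Q ^ 2 * (zr ^ 2 + Q ^ 3) * f4 - (Q ^ 4 - 1) * h4) +
    m0 * (1 + Q - Q ^ 3) * ((1 - Q ^ 3) * hr - x * Q ^ 2 * h4)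

end Hole

end Pool.Agent.DEN
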