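import Pool.Agent.DEN.Runs

/-!
Project DEN: if the vacuum mass is bounded, the mass of the runs from one arc tends to `0`.
-/

namespace Pool.Agent.DEN

open Pat Filter Topology

theorem Reach_app_assoc (p q r : Pat) : app (app p q) r = app p (app q r) := by
  induction p with
  | nil => rfl
  | emp p ih => simp only [app, ih]
  | arc p q _ ih => simp only [app, ih]

theorem Reach_app_zeros (a b : ℕ) : app (zeros a) (zeros b) = zeros (a + b) := by
  induction a with
  | zero => simp [zeros, app]
  | succ a ih => rw [Nat.add_right_comm]; simp only [zeros, app, ih]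

theorem Reach_Y_nonneg (x : ℝ) (hx : 0 < x) (N : ℕ) (p : Pat) : 0 ≤ Y x N p := by
  rw [Y]
  refine Finset.sum_nonneg fun F _ => ?_
  rcases run F p with _ | r
  · exact le_refl _
  · exact pow_nonneg hx.le _

theorem Reach_step_le (x : ℝ) (hx : 0 < x) (N : ℕ) (o : O) (p p' : Pat) (h : step o p = some p') :
    x ^ cost o p * Y x N p' ≤ Y x (N + 1) p := by
  rw [Y_succ]
  have h1 := Finset.single_le_sum (s := (Finset.univ : Finset O))
    (f := fun o : O => match step o p with
      | none => (0 : ℝ)
      | some p' => x ^ cost o p * Y x N p') (fun o _ => by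
        rcases step o p with _ | q
        · exact le_refl _
        · exact mul_nonneg (pow_nonneg hx.le _) (Reach_Y_nonneg x hx N q)) (Finset.mem_univ o)
  simp only [h] at h1
  exact h1

theorem Reach_good_step (x : ℝ) (hx : 0 < x) (o : O) (p p' : Pat) (h : step o p = some p')
    (hp : Tendsto (fun N => Y x N p) atTop (𝓝 0)) : Tendsto (fun N => Y x N p') atTop (𝓝 0) := by
  have h1 : Tendsto (fun N => (x ^ cost o p)⁻¹ * Y x (N + 1) p) atTop (𝓝 0) := by
    have h2 := ((tendsto_add_atTop_iff_nat 1).2 hp).const_mul (x ^ cost o p)⁻¹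
    simpa using h2
  refine squeeze_zero (fun N => Reach_Y_nonneg x hx N p') (fun N => ?_) h1
  have h3 := Reach_step_le x hx N o p p' h
  have h4 : 0 < x ^ cost o p := pow_pos hx _
  rw [inv_mul_eq_div, le_div_iff₀ h4, mul_comm]
  exact h3

theorem Reach_shift (x : ℝ) (hx : 0 < x) (i d r : ℕ)
    (hp : Tendsto (fun N => Y x N (single (i + 2) d r)) atTop (𝓝 0)) :
    Tendsto (fun N => Y x N (single i d (r + 2))) atTop (𝓝 0) := by
  refine Reach_good_step x hx (false, false) (single (i + 2) d r) _ ?_ hp
  have h1 : single (i + 2) d r = emp (emp (single i d r)) := rfl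
  have h2 : app (single i d r) (emp (emp nil)) = single i d (r + 2) := by
    have h3 : emp (emp nil) = zeros 2 := rfl
    rw [h3, single, single, Reach_app_assoc]
    simp only [app]
    rw [Reach_app_zeros]
  rw [h1]
  simp only [step, outp, if_true]
  rw [h2]

theorem Reach_shifts (x : ℝ) (hx : 0 < x) (j : ℕ) : ∀ (i d r : ℕ),
    Tendsto (fun N => Y x N (single (i + 2 * j) d r)) atTop (𝓝 0) →
    Tendsto (fun N => Y x N (single i d (r + 2 * j))) atTop (𝓝 0) := by
  induction j with
  | zero => intro i d r h; simpa using h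
  | succ j ih =>
    intro i d r h
    have h1 : i + 2 * (j + 1) = (i + 2) + 2 * j := by ring
    have h2 : r + 2 * (j + 1) = (r + 2 * j) + 2 := by ring
    rw [h1] at h
    rw [h2]
    exact Reach_shift x hx i d _ (ih (i + 2) d r h)

theorem Reach_m1a (x : ℝ) (hx : 0 < x) (d r : ℕ)
    (hp : Tendsto (fun N => Y x N (single 1 d r)) atTop (𝓝 0)) :
    Tendsto (fun N => Y x N (single d r 1)) atTop (𝓝 0) :=
  Reach_good_step x hx (true, false) (single 1 d r) _ rfl hp

theorem Reach_m1b (x : ℝ) (hx : 0 < x) (d r : ℕ)
    (hp : Tendsto (fun N => Y x N (single 1 d r)) atTop (𝓝 0)) :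
    Tendsto (fun N => Y x N (single d (r + 1) 0)) atTop (𝓝 0) := by
  refine Reach_good_step x hx (false, true) (single 1 d r) _ ?_ hp
  have h1 : single 1 d r = emp (arc (zeros d) (zeros r)) := rfl
  have h2 : app (zeros r) (emp nil) = zeros (r + 1) := Reach_app_zeros r 1
  rw [h1]
  simp only [step]
  rw [h2]
  rfl

theorem Reach_m0a (x : ℝ) (hx : 0 < x) (d r : ℕ)
    (hp : Tendsto (fun N => Y x N (single 0 (d + 1) r)) atTop (𝓝 0)) :
    Tendsto (fun N => Y x N (single d r 1)) atTop (𝓝 0) :=
  Reach_good_step x hx (true, false) (single 0 (d + 1) r) _ rfl hp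

theorem Reach_m0b (x : ℝ) (hx : 0 < x) (d r : ℕ)
    (hp : Tendsto (fun N => Y x N (single 0 (d + 1) r)) atTop (𝓝 0)) :
    Tendsto (fun N => Y x N (single d (r + 1) 0)) atTop (𝓝 0) := by
  refine Reach_good_step x hx (false, true) (single 0 (d + 1) r) _ ?_ hp
  have h1 : single 0 (d + 1) r = arc (emp (zeros d)) (zeros r) := rfl
  have h2 : app (zeros r) (emp nil) = zeros (r + 1) := Reach_app_zeros r 1
  rw [h1]
  simp only [step]
  rw [h2]
  rfl

theorem Reach_cup (x : ℝ) (hx : 0 < x) (n : ℕ)
    (hB : ∃ C : ℝ, ∀ N, Y x N (zeros (n + 2)) ≤ C) :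
    Tendsto (fun N => Y x N (single n 0 0)) atTop (𝓝 0) := by
  obtain ⟨C, hC⟩ := hB
  have hstep : ∀ N, Y x N (zeros (n + 2)) + x * Y x N (single n 0 0) ≤ Y x (N + 1) (zeros (n + 2)) := by
    intro N
    rw [Y_succ]
    have h1 : zeros (n + 2) = emp (emp (zeros n)) := rfl
    have h2 : app (zeros n) (emp (emp nil)) = zeros (n + 2) := Reach_app_zeros n 2
    have h3 : step (false, false) (zeros (n + 2)) = some (zeros (n + 2)) := by
      rw [h1]; simp only [step, outp, if_true]; rw [h2]; rfl
    have h4 : step (true, true) (zeros (n + 2)) = some (single n 0 0) := by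
      rw [h1]; simp only [step, outp, if_true]; rfl
    have h5 : cost (false, false) (zeros (n + 2)) = 0 := by rw [h1]; rfl
    have h6 : cost (true, true) (zeros (n + 2)) = 1 := by rw [h1]; rfl
    have h7 := Finset.sum_le_sum_of_subset_of_nonneg
      (s := ({(false, false), (true, true)} : Finset O)) (t := Finset.univ)
      (f := fun o : O => match step o (zeros (n + 2)) with
        | none => (0 : ℝ)
        | some p' => x ^ cost o (zeros (n + 2)) * Y x N p') (Finset.subset_univ _) (fun o _ _ => by
          rcases step o (zeros (n + 2)) with _ | q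
          · exact le_refl _
          · exact mul_nonneg (pow_nonneg hx.le _) (Reach_Y_nonneg x hx N q))
    rw [Finset.sum_pair (by decide)] at h7
    simp only [h3, h4, h5, h6, pow_zero, pow_one, one_mul] at h7
    exact h7
  have hsum : ∀ N, x * ∑ j ∈ Finset.range N, Y x j (single n 0 0) ≤ Y x N (zeros (n + 2)) := by
    intro N
    induction N with
    | zero => simpa using Reach_Y_nonneg x hx 0 _
    | succ N ih =>
      rw [Finset.sum_range_succ, mul_add]
      have := hstep N
      linarith
  have hsummable : Summable (fun j => Y x j (single n 0 0)) := by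
    refine summable_of_sum_range_le (c := C / x) (fun j => Reach_Y_nonneg x hx j _) (fun N => ?_)
    rw [le_div_iff₀ hx, mul_comm]
    exact (hsum N).trans (hC N)
  exact hsummable.tendsto_atTop_zero

/-- Runs from one arc have vanishing mass. -/
theorem Y_single_tendsto (k : ℕ) (hk : 1 ≤ k) (x : ℝ) (hx : 0 < x) (hx1 : x ≤ 1)
    (hB : ∃ C : ℝ, ∀ N, Y x N (zeros (2 * k + 1)) ≤ C) (i d r : ℕ) (h : i + d + r + 2 = 2 * k + 1) :
    Tendsto (fun N => Y x N (single i d r)) atTop (𝓝 0) := by
  have hcup : Tendsto (fun N => Y x N (single (2 * k - 1) 0 0)) atTop (𝓝 0) := by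
    refine Reach_cup x hx (2 * k - 1) ?_
    have : 2 * k - 1 + 2 = 2 * k + 1 := by omega
    rw [this]
    exact hB
  -- reduction of the last parameter
  have hred : ∀ d : ℕ,
      (∀ i, i + d + 2 = 2 * k + 1 → Tendsto (fun N => Y x N (single i d 0)) atTop (𝓝 0)) →
      (∀ i, i + d + 3 = 2 * k + 1 → Tendsto (fun N => Y x N (single i d 1)) atTop (𝓝 0)) →
      ∀ i r, i + d + r + 2 = 2 * k + 1 → Tendsto (fun N => Y x N (single i d r)) atTop (𝓝 0) := by
    intro d h0 h1 i r hir
    rcases Nat.even_or_odd' r with ⟨j, hj | hj⟩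
    · have := Reach_shifts x hx j i d 0 (h0 (i + 2 * j) (by omega))
      rwa [zero_add, ← hj] at this
    · have := Reach_shifts x hx j i d 1 (h1 (i + 2 * j) (by omega))
      rwa [add_comm 1, ← hj] at this
  have hred0 : ∀ d : ℕ,
      (∀ i, i + d + 2 = 2 * k + 1 → Tendsto (fun N => Y x N (single i d 0)) atTop (𝓝 0)) →
      ∀ i j, i + d + 2 * j + 2 = 2 * k + 1 →
        Tendsto (fun N => Y x N (single i d (2 * j))) atTop (𝓝 0) := by
    intro d h0 i j hij
    have := Reach_shifts x hx j i d 0 (h0 (i + 2 * j) (by omega))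
    rwa [zero_add] at this
  have main : ∀ d : ℕ, ∀ i r, i + d + r + 2 = 2 * k + 1 →
      Tendsto (fun N => Y x N (single i d r)) atTop (𝓝 0) := by
    intro d
    induction d using Nat.strong_induction_on with
    | _ d IH =>
      rcases Nat.eq_zero_or_pos d with rfl | hd
      · have h0 : ∀ i, i + 0 + 2 = 2 * k + 1 →
            Tendsto (fun N => Y x N (single i 0 0)) atTop (𝓝 0) := by
          intro i hi
          have : i = 2 * k - 1 := by omega
          rw [this]; exact hcup
        refine hred 0 h0 ?_
        intro i hi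
        have h1 : Tendsto (fun N => Y x N (single 1 0 (2 * (k - 1)))) atTop (𝓝 0) :=
          hred0 0 h0 1 (k - 1) (by omega)
        have h2 := Reach_m1b x hx 0 (2 * (k - 1)) h1
        have h3 : 2 * (k - 1) + 1 = i + 1 := by omega
        rw [h3] at h2
        exact Reach_m0a x hx i 0 h2
      · -- the case `r = 0`
        have h0 : ∀ i, i + d + 2 = 2 * k + 1 →
            Tendsto (fun N => Y x N (single i d 0)) atTop (𝓝 0) := by
          intro i hi
          obtain ⟨e, rfl⟩ : ∃ e, d = e + 1 := ⟨d - 1, by omega⟩
          refine Reach_m0b x hx i e ?_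
          rcases Nat.even_or_odd' e with ⟨j, hj | hj⟩
          · have h1 := IH e (by omega) 1 i (by omega)
            have h2 := Reach_m1b x hx e i h1
            have h3 : e = 0 + 2 * j := by omega
            rw [show single 0 (i + 1) e = single 0 (i + 1) (0 + 2 * j) by rw [← h3]]
            refine Reach_shifts x hx j 0 (i + 1) 0 ?_
            rw [← h3]
            exact h2
          · have h1 := IH (2 * j) (by omega) 1 (i + 1) (by omega)
            have h2 := Reach_m1a x hx (2 * j) (i + 1) h1
            have h3 : e = 1 + 2 * j := by omega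
            rw [h3]
            refine Reach_shifts x hx j 0 (i + 1) 1 ?_
            rw [zero_add]
            exact h2
        refine hred d h0 ?_
        intro i hi
        refine Reach_m0a x hx i d ?_
        rcases Nat.even_or_odd' d with ⟨j, hj | hj⟩
        · obtain ⟨l, hl⟩ : ∃ l, i = 2 * l := ⟨i / 2, by omega⟩
          have h1 : Tendsto (fun N => Y x N (single 1 d (2 * l))) atTop (𝓝 0) :=
            hred0 d h0 1 l (by omega)
          rw [← hl] at h1
          have h2 := Reach_m1b x hx d i h1
          have h3 : single 0 (i + 1) d = single 0 (i + 1) (0 + 2 * j) := by rw [zero_add, ← hj]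
          rw [h3]
          refine Reach_shifts x hx j 0 (i + 1) 0 ?_
          rw [zero_add, ← hj]
          exact h2
        · have h1 := IH (2 * j) (by omega) 1 (i + 1) (by omega)
          have h2 := Reach_m1a x hx (2 * j) (i + 1) h1
          have h3 : single 0 (i + 1) d = single 0 (i + 1) (1 + 2 * j) := by rw [add_comm 1, ← hj]
          rw [h3]
          refine Reach_shifts x hx j 0 (i + 1) 1 ?_
          rw [zero_add]
          exact h2
  exact main d i r h

end Pool.Agent.DEN
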