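import Pool.Agent.DEN.Defs

/-!
Project DEN: reversal of the queue and of time.
-/

namespace Pool.Agent.DEN

open Complex

/-- The lists of length `n`. -/
noncomputable def Rev_L (n : ℕ) : Finset (List Sp) :=
  (Finset.univ : Finset (Fin n → Sp)).image List.ofFn

theorem Rev_mem_L {n : ℕ} {l : List Sp} : l ∈ Rev_L n ↔ l.length = n := by
  unfold Rev_L
  simp only [Finset.mem_image, Finset.mem_univ, true_and]
  constructor
  · rintro ⟨f, rfl⟩
    simp
  · rintro rfl
    exact ⟨l.get, List.ofFn_get l⟩

section

variable {A : Type*} [CommRing A]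

theorem Rev_dl_expand (f : List Sp → A) {n : ℕ} {k : List Sp} (hk : k.length = n) :
    f k = ∑ l ∈ Rev_L n, f l * dl l k := by
  rw [Finset.sum_eq_single k]
  · simp [dl]
  · intro l _ hl
    simp [dl, Ne.symm hl]
  · intro h
    exact absurd (Rev_mem_L.mpr hk) h

theorem Rev_SS_sum (s x : A) (L : Finset (List Sp)) (w : List Sp → A) (g : List Sp → Sp → A) (a b : Sp) :
    SS s x (fun v => ∑ l ∈ L, w l * g l v) a b = ∑ l ∈ L, w l * SS s x (g l) a b := by
  cases a <;> cases b <;> simp only [SS, Finset.mul_sum, mul_zero, Finset.sum_const_zero] <;>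
    refine Finset.sum_congr rfl fun l _ => ?_ <;> ring

theorem Rev_UU_sum (s x : A) (f : List Sp → A) (c : List Sp) {n : ℕ} (hc : c.length + 2 = n) (v : Sp) :
    UU s x f c v = ∑ l ∈ Rev_L n, f l * UU s x (dl l) c v := by
  have h : ∀ p q : Sp, f (c ++ [p, q]) = ∑ l ∈ Rev_L n, f l * dl l (c ++ [p, q]) := fun p q =>
    Rev_dl_expand f (by simpa using hc)
  cases v <;> simp only [UU, UO, h, Finset.mul_sum, add_zero, zero_add, ← Finset.sum_add_distrib] <;>
    refine Finset.sum_congr rfl fun l _ => ?_ <;> ring

theorem Rev_TT_sum (s x : A) (tw : Sp → A) (f : List Sp → A) {n : ℕ} {k : List Sp} (hk : k.length = n) :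
    TT s x tw f k = ∑ l ∈ Rev_L n, f l * TT s x tw (dl l) k := by
  match k, hk with
  | [], _ => simp [TT]
  | [a], _ => simp [TT]
  | a :: b :: c, hk =>
    simp only [TT]
    rw [← Rev_SS_sum]
    congr 1
    funext v
    rw [Rev_UU_sum s x f c (n := n) (by simpa using hk) v, Finset.mul_sum]
    refine Finset.sum_congr rfl fun l _ => ?_
    ring

theorem Rev_iter_sum (s x : A) (tw : Sp → A) (g : List Sp → A) {n : ℕ} (N : ℕ) :
    ∀ k : List Sp, k.length = n →
      ((TT s x tw)^[N] g) k = ∑ l ∈ Rev_L n, g l * ((TT s x tw)^[N] (dl l)) k := by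
  induction N with
  | zero => intro k hk; exact Rev_dl_expand g hk
  | succ N ih =>
    intro k hk
    rw [Function.iterate_succ_apply', Rev_TT_sum s x tw _ hk]
    have h1 : ∀ l ∈ Rev_L n, ((TT s x tw)^[N] g) l * TT s x tw (dl l) k =
        ∑ l' ∈ Rev_L n, g l' * (((TT s x tw)^[N] (dl l')) l * TT s x tw (dl l) k) := by
      intro l hl
      rw [ih l (Rev_mem_L.mp hl), Finset.sum_mul]
      refine Finset.sum_congr rfl fun l' _ => ?_
      ring
    rw [Finset.sum_congr rfl h1, Finset.sum_comm]
    refine Finset.sum_congr rfl fun l' _ => ?_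
    rw [Function.iterate_succ_apply', Rev_TT_sum s x tw _ hk, Finset.mul_sum]

end

theorem Rev_app_eq {c c' : List Sp} {p q p' q' : Sp} (h : c.length = c'.length) :
    (c ++ [p, q] = c' ++ [p', q']) ↔ (c = c' ∧ p = p' ∧ q = q') := by
  constructor
  · intro e
    obtain ⟨h1, h2⟩ := List.append_inj e h
    simp at h2
    exact ⟨h1, h2.1, h2.2⟩
  · rintro ⟨rfl, rfl, rfl⟩
    rfl

theorem Rev_dl_app {A : Type*} [CommRing A] {c c' : List Sp} {p q p' q' : Sp} (h : c.length = c'.length) :
    (dl (c' ++ [p', q']) (c ++ [p, q]) : A) = if c = c' ∧ p = p' ∧ q = q' then 1 else 0 := by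
  unfold dl
  simp only [Rev_app_eq h]

/-- General principle: one step gives all steps. -/
theorem Rev_all {B C : (List Sp → ℂ) → List Sp → ℂ} {s x : ℂ} {tw tw' : Sp → ℂ}
    (hB : B = TT s x tw) (hC : C = TT s x tw')
    (h1 : ∀ l m : List Sp, l.length = m.length → (B (dl m)) l = (starRingEnd ℂ) ((C (dl l.reverse)) m.reverse))
    (N : ℕ) : ∀ l m : List Sp, l.length = m.length →
      (B^[N] (dl m)) l = (starRingEnd ℂ) ((C^[N] (dl l.reverse)) m.reverse) := by
  induction N with
  | zero =>
    intro l m _
    simp only [Function.iterate_zero, id_eq, dl]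
    by_cases e : l = m
    · subst e; simp
    · have e' : ¬ m.reverse = l.reverse := fun h => e (List.reverse_injective h).symm
      simp [e, e']
  | succ N ih =>
    intro l m h
    have hl : l.length = m.length := h
    rw [Function.iterate_succ_apply', Function.iterate_succ_apply]
    have e1 : B (B^[N] (dl m)) l = ∑ l' ∈ Rev_L m.length, (B^[N] (dl m)) l' * B (dl l') l := by
      rw [hB]
      exact Rev_TT_sum s x tw _ hl
    have e2 : (C^[N] (C (dl l.reverse))) m.reverse =
        ∑ l' ∈ Rev_L m.length, (C (dl l.reverse)) l' * (C^[N] (dl l')) m.reverse := by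
      rw [hC]
      exact Rev_iter_sum s x tw' _ N _ (by simp)
    rw [e1, e2, map_sum]
    refine Finset.sum_bij (fun l' _ => l'.reverse) ?_ ?_ ?_ ?_
    · intro l' hl'
      rw [Rev_mem_L] at hl' ⊢
      simpa using hl'
    · intro l1 _ l2 _ e
      exact List.reverse_injective e
    · intro l' hl'
      refine ⟨l'.reverse, ?_, by simp⟩
      rw [Rev_mem_L] at hl' ⊢
      simpa using hl'
    · intro l' hl'
      rw [Rev_mem_L] at hl'
      rw [ih l' m hl', h1 l l' (by omega), map_mul, mul_comm]

theorem Rev_step_C (x : ℝ) (l m : List Sp) (h : l.length = m.length) :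
    (TT (-I) (x : ℂ) (twC (-I)) (dl m)) l =
      (starRingEnd ℂ) ((TT (-I) (x : ℂ) (twS (-I)) (dl l.reverse)) m.reverse) := by
  match l, h with
  | [], h =>
    have : m = [] := List.length_eq_zero_iff.mp h.symm
    subst this
    simp [TT]
  | [a], h =>
    obtain ⟨b, rfl⟩ := List.length_eq_one_iff.mp h.symm
    simp [TT]
  | a :: b :: c, h =>
    obtain ⟨m', rfl⟩ : ∃ m', m = List.reverse m' := ⟨m.reverse, by simp⟩
    match m', h with
    | [], h => simp at h
    | [q], h => simp at h
    | q :: p :: c', h =>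
      have hcc : c.length = c'.reverse.length := by simp at h ⊢; exact h
      have hcc' : c'.length = c.reverse.length := by simp at h ⊢; exact h.symm
      have e1 : (q :: p :: c').reverse = c'.reverse ++ [p, q] := by simp
      have e2 : (a :: b :: c).reverse = c.reverse ++ [b, a] := by simp
      rw [e1, e2, ← e1, List.reverse_reverse, e1]
      simp only [TT, UU, UO, Rev_dl_app hcc, Rev_dl_app hcc']
      have e3 : (c' = c.reverse) ↔ (c = c'.reverse) := by
        constructor
        · rintro rfl; simp
        · rintro rfl; simp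
      simp only [e3]
      by_cases hc : c = c'.reverse
      · cases a <;> cases b <;> cases p <;> cases q <;> simp [SS, twC, twS, hc] <;> ring
      · cases a <;> cases b <;> cases p <;> cases q <;> simp [SS, twC, twS, hc]

theorem Rev_step_1 (x : ℝ) (l m : List Sp) (h : l.length = m.length) :
    (TT (-I) (x : ℂ) tw1 (dl m)) l =
      (starRingEnd ℂ) ((TT (-I) (x : ℂ) tw1 (dl l.reverse)) m.reverse) := by
  match l, h with
  | [], h =>
    have : m = [] := List.length_eq_zero_iff.mp h.symm
    subst this
    simp [TT]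
  | [a], h =>
    obtain ⟨b, rfl⟩ := List.length_eq_one_iff.mp h.symm
    simp [TT]
  | a :: b :: c, h =>
    obtain ⟨m', rfl⟩ : ∃ m', m = List.reverse m' := ⟨m.reverse, by simp⟩
    match m', h with
    | [], h => simp at h
    | [q], h => simp at h
    | q :: p :: c', h =>
      have hcc : c.length = c'.reverse.length := by simp at h ⊢; exact h
      have hcc' : c'.length = c.reverse.length := by simp at h ⊢; exact h.symm
      have e1 : (q :: p :: c').reverse = c'.reverse ++ [p, q] := by simp
      have e2 : (a :: b :: c).reverse = c.reverse ++ [b, a] := by simp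
      rw [e1, e2, ← e1, List.reverse_reverse, e1]
      simp only [TT, UU, UO, Rev_dl_app hcc, Rev_dl_app hcc']
      have e3 : (c' = c.reverse) ↔ (c = c'.reverse) := by
        constructor
        · rintro rfl; simp
        · rintro rfl; simp
      simp only [e3]
      by_cases hc : c = c'.reverse
      · cases a <;> cases b <;> cases p <;> cases q <;> simp [SS, tw1, hc] <;> ring
      · cases a <;> cases b <;> cases p <;> cases q <;> simp [SS, tw1, hc]

/-- The upper half is the complex conjugate of the reversed lower half. -/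
theorem rev_C (x : ℝ) (N : ℕ) (l m : List Sp) (h : l.length = m.length) :
    ((TT (-I) (x : ℂ) (twC (-I)))^[N] (dl m)) l =
      (starRingEnd ℂ) (((TT (-I) (x : ℂ) (twS (-I)))^[N] (dl l.reverse)) m.reverse) :=
  Rev_all rfl rfl (Rev_step_C x) N l m h

/-- The same without twist. -/
theorem rev_1 (x : ℝ) (N : ℕ) (l m : List Sp) (h : l.length = m.length) :
    ((TT (-I) (x : ℂ) tw1)^[N] (dl m)) l =
      (starRingEnd ℂ) (((TT (-I) (x : ℂ) tw1)^[N] (dl l.reverse)) m.reverse) :=
  Rev_all rfl rfl (Rev_step_1 x) N l m h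

end Pool.Agent.DEN
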