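import Pool.Agent.DEN.HoleRun
import Pool.Agent.DEN.Hole
import Pool.Agent.DEN.Rev
import Pool.Agent.DEN.Reach
import Pool.Agent.DEN.Col

/-!
Project DEN: the limit of the star relation: on a cylinder whose single arcs have bounded mass, the total mass of the
paths between two neighbours of a vertex is exactly `x` (infinite cylinder).
-/

namespace Pool.Agent.DEN

open Pat Filter Topology

/-! ### One step: locality and linearity -/

section Gen

variable {A : Type*} [CommRing A]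

theorem Limit_UU_congr (s x : A) (f g : List Sp → A) (c : List Sp) (v : Sp)
    (h : ∀ p q : Sp, ch p + ch q = ch v → f (c ++ [p, q]) = g (c ++ [p, q])) :
    UU s x f c v = UU s x g c v := by
  cases v
  · have h1 := h .zero .zero rfl
    have h2 := h .pos .neg rfl
    have h3 := h .neg .pos rfl
    simp only [UU, UO, h1, h2, h3]
  · have h1 := h .neg .zero rfl
    have h2 := h .zero .neg rfl
    simp only [UU, UO, h1, h2]
  · have h1 := h .pos .zero rfl
    have h2 := h .zero .pos rfl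
    simp only [UU, UO, h1, h2]

theorem Limit_chg_cons (a : Sp) (l : List Sp) : chg (a :: l) = ch a + chg l := by
  simp [chg]

theorem Limit_chg_app (l l' : List Sp) : chg (l ++ l') = chg l + chg l' := by
  simp [chg]

theorem Limit_TT_congr (s x : A) (tw : Sp → A) (f g : List Sp → A) (l : List Sp)
    (h : ∀ l' : List Sp, l'.length = l.length → chg l' = chg l → f l' = g l') :
    TT s x tw f l = TT s x tw g l := by
  rcases l with _ | ⟨a, _ | ⟨b, c⟩⟩
  · rfl
  · rfl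
  · have key : ∀ v : Sp, ch v = ch a + ch b → UU s x f c v = UU s x g c v := by
      intro v hv
      refine Limit_UU_congr s x f g c v (fun p q hpq => h _ (by simp) ?_)
      rw [Limit_chg_app, Limit_chg_cons, Limit_chg_cons, Limit_chg_cons, Limit_chg_cons]
      have : chg [] = 0 := rfl
      omega
    cases a <;> cases b <;> simp only [TT, SS]
    · rw [key .zero rfl]
    · rw [key .neg rfl]
    · rw [key .pos rfl]
    · rw [key .neg rfl]
    · rw [key .zero rfl]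
    · rw [key .pos rfl]
    · rw [key .zero rfl]

theorem Limit_it_congr (s x : A) (tw : Sp → A) (N : ℕ) : ∀ (f g : List Sp → A) (l : List Sp)
    (_ : ∀ l' : List Sp, l'.length = l.length → chg l' = chg l → f l' = g l'),
    ((TT s x tw)^[N] f) l = ((TT s x tw)^[N] g) l := by
  induction N with
  | zero => intro f g l h; exact h l rfl rfl
  | succ N ih =>
    intro f g l h
    rw [Function.iterate_succ_apply', Function.iterate_succ_apply']
    refine Limit_TT_congr s x tw _ _ l (fun l' h1 h2 => ih f g l' (fun l'' h3 h4 => ?_))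
    exact h l'' (h3.trans h1) (h4.trans h2)

theorem Limit_TT_add (s x : A) (tw : Sp → A) (f g : List Sp → A) :
    TT s x tw (f + g) = TT s x tw f + TT s x tw g := by
  funext l
  rcases l with _ | ⟨a, _ | ⟨b, c⟩⟩
  · simp [TT]
  · simp [TT]
  · cases a <;> cases b <;> simp [TT, SS, UU, UO] <;> ring

theorem Limit_TT_smul (s x : A) (tw : Sp → A) (r : A) (f : List Sp → A) :
    TT s x tw (r • f) = r • TT s x tw f := by
  funext l
  rcases l with _ | ⟨a, _ | ⟨b, c⟩⟩
  · simp [TT]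
  · simp [TT]
  · cases a <;> cases b <;> simp [TT, SS, UU, UO] <;> ring

theorem Limit_TO_add (s x : A) (tw : Sp → A) (o : O) (f g : List Sp → A) :
    TO s x tw o (f + g) = TO s x tw o f + TO s x tw o g := by
  funext l
  rcases l with _ | ⟨a, _ | ⟨b, c⟩⟩
  · simp [TO]
  · simp [TO]
  · rcases o with ⟨_ | _, _ | _⟩ <;> cases a <;> cases b <;> simp [TO, SS, UO] <;> ring

theorem Limit_TO_smul (s x : A) (tw : Sp → A) (o : O) (r : A) (f : List Sp → A) :
    TO s x tw o (r • f) = r • TO s x tw o f := by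
  funext l
  rcases l with _ | ⟨a, _ | ⟨b, c⟩⟩
  · simp [TO]
  · simp [TO]
  · rcases o with ⟨_ | _, _ | _⟩ <;> cases a <;> cases b <;> simp [TO, SS, UO] <;> ring

theorem Limit_Sv_add (s x : A) (v : Sp) (f g : List Sp → A) :
    Sv s x v (f + g) = Sv s x v f + Sv s x v g := by
  funext l
  exact Sv_add v f g l

theorem Limit_Sv_smul (s x : A) (v : Sp) (r : A) (f : List Sp → A) :
    Sv s x v (r • f) = r • Sv s x v f := by
  funext l
  exact Sv_smul r v f l

/-- One step as a linear map. -/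
def Limit_T (s x : A) (tw : Sp → A) : (List Sp → A) →ₗ[A] (List Sp → A) where
  toFun := TT s x tw
  map_add' := Limit_TT_add s x tw
  map_smul' := Limit_TT_smul s x tw

theorem Limit_T_pow (s x : A) (tw : Sp → A) (N : ℕ) (f : List Sp → A) :
    (TT s x tw)^[N] f = (Limit_T s x tw ^ N) f := by
  rw [Module.End.pow_apply]
  rfl

/-- The lower vertex as a linear map. -/
def Limit_S (s x : A) (v : Sp) : (List Sp → A) →ₗ[A] (List Sp → A) where
  toFun := Sv s x v
  map_add' := Limit_Sv_add s x v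
  map_smul' := Limit_Sv_smul s x v

/-- One step with a choice as a linear map. -/
def Limit_O (s x : A) (tw : Sp → A) (o : O) : (List Sp → A) →ₗ[A] (List Sp → A) where
  toFun := TO s x tw o
  map_add' := Limit_TO_add s x tw o
  map_smul' := Limit_TO_smul s x tw o

theorem Limit_PS_sum (s x : A) {ι : Type*} (S : Finset ι) (f : ι → List Sp → A) (F : List O) :
    PS s x F (∑ i ∈ S, f i) = ∑ i ∈ S, PS s x F (f i) := by
  induction F with
  | nil => rfl
  | cons o F ih =>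
    have e : ∀ g : List Sp → A, PS s x (o :: F) g = Limit_O s x (twS s) o (PS s x F g) := fun g => rfl
    rw [e, ih, map_sum]
    rfl

/-- The value of the hole as a sum over the choices. -/
theorem Limit_HV (s x : A) (n N1 N2 : ℕ) (v a b : Sp) :
    ((TT s x (twS s))^[N1] (Sv s x v (fun c => ((TT s x (twC s))^[N2] (dl (vac n))) (c ++ [a, b])))) (vac n) =
      ∑ F1 ∈ LL O N1, ∑ F2 ∈ LL O N2, HV s x n F1 F2 v a b := by
  rw [iter_PS]
  refine Finset.sum_congr rfl (fun F1 _ => ?_)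
  have h1 : (fun c : List Sp => ((TT s x (twC s))^[N2] (dl (vac n))) (c ++ [a, b])) =
      ∑ F2 ∈ LL O N2, fun c : List Sp => PC s x F2 (dl (vac n)) (c ++ [a, b]) := by
    funext c
    rw [iter_PC, Finset.sum_apply]
  have h2 : Sv s x v (∑ F2 ∈ LL O N2, fun c : List Sp => PC s x F2 (dl (vac n)) (c ++ [a, b])) =
      ∑ F2 ∈ LL O N2, Sv s x v (fun c : List Sp => PC s x F2 (dl (vac n)) (c ++ [a, b])) :=
    map_sum (Limit_S s x v) _ _
  rw [h1, h2, Limit_PS_sum, Finset.sum_apply]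
  rfl

end Gen

/-! ### Raising one leg -/

/-- `l'` is `l` with one leg raised. -/
inductive Limit_Up : List Sp → List Sp → Prop
  | z (l : List Sp) : Limit_Up (.neg :: l) (.zero :: l)
  | p (l : List Sp) : Limit_Up (.zero :: l) (.pos :: l)
  | cons (a : Sp) {l l' : List Sp} (h : Limit_Up l l') : Limit_Up (a :: l) (a :: l')

theorem Limit_Up_len {l l' : List Sp} (h : Limit_Up l l') : l'.length = l.length := by
  induction h with
  | z l => rfl
  | p l => rfl
  | cons a h ih => simp [ih]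

theorem Limit_Up_chg {l l' : List Sp} (h : Limit_Up l l') : chg l' = chg l + 1 := by
  induction h with
  | z l => rw [Limit_chg_cons, Limit_chg_cons]; simp [ch]
  | p l => rw [Limit_chg_cons, Limit_chg_cons]; simp [ch]; ring
  | cons a h ih => rw [Limit_chg_cons, Limit_chg_cons, ih]; ring

theorem Limit_vac_succ (n : ℕ) : vac (n + 1) = .zero :: vac n := rfl

theorem Limit_Up_vac {n : ℕ} : ∀ {l : List Sp}, Limit_Up (vac n) l →
    ∃ i r : ℕ, i + r + 1 = n ∧ l = vac i ++ .pos :: vac r := by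
  induction n with
  | zero => intro l h; cases h
  | succ n ih =>
    intro l h
    rw [Limit_vac_succ] at h
    cases h with
    | p l => exact ⟨0, n, by omega, rfl⟩
    | cons a h =>
      obtain ⟨i, r, e, e'⟩ := ih h
      exact ⟨i + 1, r, by omega, by rw [e']; rfl⟩

theorem Limit_Up_one {i : ℕ} : ∀ {r : ℕ} {l : List Sp}, Limit_Up (vac i ++ .pos :: vac r) l →
    ∃ i' d r' : ℕ, i' + d + r' + 2 = i + r + 1 ∧ l = two .pos i' d r' := by
  induction i with
  | zero =>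
    intro r l h
    cases h with
    | cons a h =>
      obtain ⟨d, r', e, e'⟩ := Limit_Up_vac h
      exact ⟨0, d, r', by omega, by rw [e']; rfl⟩
  | succ i ih =>
    intro r l h
    rw [Limit_vac_succ] at h
    cases h with
    | p l => exact ⟨0, i, r, by omega, rfl⟩
    | cons a h =>
      obtain ⟨i', d, r', e, e'⟩ := ih h
      exact ⟨i' + 1, d, r', by omega, by rw [e']; rfl⟩

theorem Limit_Up_vac' {n : ℕ} : ∀ {l : List Sp}, Limit_Up l (vac n) →
    ∃ i r : ℕ, i + r + 1 = n ∧ l = vac i ++ .neg :: vac r := by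
  induction n with
  | zero => intro l h; cases h
  | succ n ih =>
    intro l h
    rw [Limit_vac_succ] at h
    cases h with
    | z l => exact ⟨0, n, by omega, rfl⟩
    | cons a h =>
      obtain ⟨i, r, e, e'⟩ := ih h
      exact ⟨i + 1, r, by omega, by rw [e']; rfl⟩

theorem Limit_Up_one' {i : ℕ} : ∀ {r : ℕ} {l : List Sp}, Limit_Up l (vac i ++ .neg :: vac r) →
    ∃ i' d r' : ℕ, i' + d + r' + 2 = i + r + 1 ∧ l = two .neg i' d r' := by
  induction i with
  | zero =>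
    intro r l h
    cases h with
    | cons a h =>
      obtain ⟨d, r', e, e'⟩ := Limit_Up_vac' h
      exact ⟨0, d, r', by omega, by rw [e']; rfl⟩
  | succ i ih =>
    intro r l h
    rw [Limit_vac_succ] at h
    cases h with
    | z l => exact ⟨0, i, r, by omega, rfl⟩
    | cons a h =>
      obtain ⟨i', d, r', e, e'⟩ := ih h
      exact ⟨i' + 1, d, r', by omega, by rw [e']; rfl⟩

theorem Limit_vac_rev (n : ℕ) : (vac n).reverse = vac n := by
  simp [vac]

theorem Limit_two_rev (a : Sp) (i d r : ℕ) : (two a i d r).reverse = two a r d i := by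
  simp [two, Limit_vac_rev]

/-! ### Norms -/

section Nrm

variable {x : ℝ} {Q zr zl : ℂ}

theorem Limit_eh_norm (hQ : ‖Q‖ = 1) (hr : ‖zr‖ ≤ 2) (hl : ‖zl‖ ≤ 2) (B : ℝ) (hB : 0 ≤ B) (l : List Sp) :
    ∀ (t : Bool) (f : List Sp → ℂ), (∀ l', Limit_Up l l' → ‖f l'‖ ≤ B) →
      ‖eh Q zr zl t f l‖ ≤ 4 * l.length * B := by
  induction l with
  | nil => intro t f _; simp [eh]
  | cons a l ih =>
    intro t f hf
    have h1 : ‖(if t then zr else zl)‖ ≤ 2 := by split_ifs <;> assumption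
    have h2 : ‖ee zr (fun b => f (b :: l)) a‖ ≤ 2 * B := by
      cases a
      · simp only [ee]
        rw [norm_mul]
        exact mul_le_mul hr (hf _ (.p l)) (norm_nonneg _) (by norm_num)
      · simp only [ee]
        have := hf _ (.z l)
        linarith
      · simp only [ee, norm_zero]
        linarith
    have h3 : ‖kq Q a‖ ≤ 1 := by
      cases a <;> simp [kq, hQ]
    have h4 : ‖eh Q zr zl (!t) (fun l' => f (a :: l')) l‖ ≤ 4 * l.length * B :=
      ih _ _ (fun l' h => hf _ (.cons a h))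
    have h5 : ‖(if t then zr else zl) * ee zr (fun b => f (b :: l)) a‖ ≤ 2 * (2 * B) := by
      rw [norm_mul]
      exact mul_le_mul h1 h2 (norm_nonneg _) (by norm_num)
    have h6 : ‖kq Q a * eh Q zr zl (!t) (fun l' => f (a :: l')) l‖ ≤ 1 * (4 * l.length * B) := by
      rw [norm_mul]
      exact mul_le_mul h3 h4 (norm_nonneg _) (by norm_num)
    have h7 : eh Q zr zl t f (a :: l) = (if t then zr else zl) * ee zr (fun b => f (b :: l)) a +
        kq Q a * eh Q zr zl (!t) (fun l' => f (a :: l')) l := by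
      simp only [eh]
    rw [h7]
    refine (norm_add_le _ _).trans ?_
    simp only [List.length_cons, Nat.cast_add, Nat.cast_one]
    nlinarith

/-- bound of `Sv` -/
theorem Limit_Sv_norm (hx0 : 0 ≤ x) (hx1 : x ≤ 1) (B : ℝ) (hB : 0 ≤ B) (n : ℕ) (v : Sp) (g : List Sp → ℂ)
    (hg : ∀ c : List Sp, c.length + 2 = n → ‖g c‖ ≤ B) (l : List Sp) (hl : l.length = n) :
    ‖Sv (-Complex.I) (x : ℂ) v g l‖ ≤ B := by
  rcases l with _ | ⟨a, _ | ⟨b, c⟩⟩
  · simpa [Sv] using hB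
  · simpa [Sv] using hB
  · have h1 := hg c (by simpa using hl)
    have h2 : ∀ w : Sp, ‖(if w = v then g c else 0 : ℂ)‖ ≤ B := by
      intro w
      split_ifs
      · exact h1
      · simpa using hB
    have h3 : ∀ w : Sp, ‖(x : ℂ) * (if w = v then g c else 0 : ℂ)‖ ≤ B := by
      intro w
      rw [norm_mul, Complex.norm_real, Real.norm_of_nonneg hx0]
      calc x * ‖(if w = v then g c else 0 : ℂ)‖ ≤ 1 * B := mul_le_mul hx1 (h2 w) (norm_nonneg _) (by norm_num)
        _ = B := one_mul _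
    cases a <;> cases b <;> simp only [Sv, SS]
    · exact h2 _
    · exact h3 _
    · exact h3 _
    · exact h3 _
    · simpa using hB
    · exact h3 _
    · exact h3 _
    · rw [neg_mul, norm_neg, mul_assoc, norm_mul, norm_mul, norm_neg, Complex.norm_I, one_mul, ← norm_mul]
      exact h3 _
    · simpa using hB

end Nrm


/-! ### Iterated commutation relations -/

section Com

variable {A : Type*} [CommRing A] {s x Q zr zl : A}

theorem Limit_comm_a (hc : Cst s x Q zr zl) (N : ℕ) (h : List Sp → A) : ∀ (l : List Sp), l.length % 2 = 1 →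
    chg l = 0 → ((TT s x (twS s))^[N] (eh Q zr zl true (eh Q zr zl true h))) l =
      eh Q zr zl true (eh Q zr zl true ((TT s x tw1)^[N] h)) l := by
  induction N with
  | zero => intro l _ _; rfl
  | succ N ih =>
    intro l hl h0
    rw [Function.iterate_succ_apply', Function.iterate_succ_apply', ← e2a hc _ l hl h0]
    exact Limit_TT_congr s x _ _ _ l (fun l' h1 h2 => ih l' (by rw [h1]; exact hl) (by rw [h2]; exact h0))

theorem Limit_comm_b (hc : Cst s x Q zr zl) (N : ℕ) (f : List Sp → A) : ∀ (l : List Sp), l.length % 2 = 1 →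
    chg l = -2 → eh Q zr zl true (eh Q zr zl true ((TT s x (twC s))^[N] f)) l =
      ((TT s x tw1)^[N] (eh Q zr zl true (eh Q zr zl true f))) l := by
  induction N with
  | zero => intro l _ _; rfl
  | succ N ih =>
    intro l hl h0
    rw [Function.iterate_succ_apply', Function.iterate_succ_apply', e2b hc _ l hl h0]
    exact Limit_TT_congr s x _ _ _ l (fun l' h1 h2 => ih l' (by rw [h1]; exact hl) (by rw [h2]; exact h0))

end Com

theorem Limit_mem_LL (n : ℕ) (l : List Sp) (h : l.length = n) : l ∈ LL Sp n := (mem_LL n l).2 h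

/-- expansion in the basis -/
theorem Limit_expand {A : Type*} [CommRing A] (s x : A) (tw : Sp → A) (N n : ℕ) (f : List Sp → A) (l : List Sp)
    (hl : l.length = n) :
    ((TT s x tw)^[N] f) l = ∑ m ∈ LL Sp n, f m * ((TT s x tw)^[N] (dl m)) l := by
  have h1 : ((TT s x tw)^[N] f) l = ((TT s x tw)^[N] (∑ m ∈ LL Sp n, f m • (dl m : List Sp → A))) l := by
    refine Limit_it_congr s x tw N _ _ l (fun l' h2 _ => ?_)
    rw [Finset.sum_apply, Finset.sum_eq_single_of_mem l' (Limit_mem_LL n l' (h2.trans hl))]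
    · simp [dl]
    · intro b _ hb
      simp [dl, hb.symm]
  rw [h1, Limit_T_pow, map_sum, Finset.sum_apply]
  refine Finset.sum_congr rfl (fun m _ => ?_)
  rw [map_smul, Limit_T_pow]
  rfl

/-! ### The constants -/

/-- `Q = exp (3 pi i / 4)`. -/
noncomputable def Limit_Q : ℂ := (-1 + Complex.I) * ((Real.sqrt 2 : ℝ) : ℂ) / 2

theorem Limit_r2 : ((Real.sqrt 2 : ℝ) : ℂ) ^ 2 = 2 := by
  rw [← Complex.ofReal_pow, Real.sq_sqrt (by norm_num)]
  norm_num

theorem Limit_Q2 : Limit_Q ^ 2 = -Complex.I := by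
  unfold Limit_Q
  have h1 := Limit_r2
  have h2 := Complex.I_sq
  linear_combination ((-1 + Complex.I) ^ 2 / 4) * h1 + (1 / 2) * h2

theorem Limit_Q4 : Limit_Q ^ 4 = -1 := by
  have h1 := Limit_Q2
  have h2 := Complex.I_sq
  linear_combination (Limit_Q ^ 2 - Complex.I) * h1 + h2

theorem Limit_Q3 : Limit_Q ^ 3 = (1 + Complex.I) * ((Real.sqrt 2 : ℝ) : ℂ) / 2 := by
  have h1 := Limit_Q2
  have h2 := Complex.I_sq
  have h3 : Limit_Q ^ 3 = -Complex.I * Limit_Q := by linear_combination Limit_Q * h1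
  rw [h3]
  unfold Limit_Q
  linear_combination (-((Real.sqrt 2 : ℝ) : ℂ) / 2) * h2

theorem Limit_Q31 : Limit_Q ^ 3 - Limit_Q = ((Real.sqrt 2 : ℝ) : ℂ) := by
  rw [Limit_Q3]
  unfold Limit_Q
  ring

theorem Limit_Cst (x : ℝ) (hx2 : x ^ 2 * (2 + Real.sqrt 2) = 1) :
    Cst (-Complex.I) (x : ℂ) Limit_Q ((x : ℂ) * (1 + Limit_Q ^ 3)) ((x : ℂ) * (1 - Limit_Q)) where
  q4 := Limit_Q4
  hs := Limit_Q2.symm
  hx := by
    have h1 : (x : ℂ) ^ 2 * (2 + ((Real.sqrt 2 : ℝ) : ℂ)) = 1 := by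
      exact_mod_cast congrArg (fun y : ℝ => (y : ℂ)) hx2
    have h2 := Limit_Q31
    have h3 := Limit_Q4
    linear_combination h1 + (x : ℂ) ^ 2 * h2 - (x : ℂ) ^ 2 * h3
  hr := rfl
  hl := rfl

theorem Limit_Qn : ‖Limit_Q‖ = 1 := by
  have h1 : ‖Limit_Q‖ ^ 4 = 1 := by
    rw [← norm_pow, Limit_Q4]
    simp
  exact (pow_eq_one_iff_of_nonneg (norm_nonneg _) (by norm_num)).1 h1

theorem Limit_theta : (1 + Limit_Q - Limit_Q ^ 3) * (1 + Limit_Q ^ 2) ≠ 0 := by
  refine mul_ne_zero ?_ ?_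
  · have h1 := Limit_Q31
    have h2 : (1 + Limit_Q - Limit_Q ^ 3 : ℂ) = ((1 - Real.sqrt 2 : ℝ) : ℂ) := by
      rw [Complex.ofReal_sub, ← h1, Complex.ofReal_one]
      ring
    rw [h2]
    have h3 : (1 : ℝ) < Real.sqrt 2 := Real.lt_sqrt_of_sq_lt (by norm_num)
    exact_mod_cast (by linarith : (1 - Real.sqrt 2 : ℝ) < 0).ne
  · rw [Limit_Q2]
    intro h
    have := congrArg Complex.re h
    simp at this

/-! ### The bounds -/

section Bd

variable {x : ℝ} {zr zl : ℂ}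

/-- bound of the upper half -/
theorem Limit_G_bound (hx0 : 0 ≤ x) (n : ℕ) (hn : 2 ≤ n) (C : ℝ) (hC : ∀ N, Y x N (zeros n) ≤ C) (N : ℕ)
    (l : List Sp) (hl : l.length = n) :
    ‖((TT (-Complex.I) (x : ℂ) (twC (-Complex.I)))^[N] (dl (vac n))) l‖ ≤ C * 2 ^ n := by
  rw [rev_C x N l (vac n) (by simp [vac, hl]), Limit_vac_rev]
  have h1 := vac_bound x hx0 n hn N (dl l.reverse) 1 (fun m _ => by unfold dl; split_ifs <;> simp)
  rw [RCLike.norm_conj]
  refine h1.trans ?_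
  rw [mul_one]
  exact mul_le_mul_of_nonneg_right (hC N) (by positivity)

/-- no charge -/
theorem Limit_G_zero (s x : ℂ) (n N : ℕ) (l : List Sp) (hl : chg l ≠ 0) :
    ((TT s x (twC s))^[N] (dl (vac n))) l = 0 := by
  have h1 : ((TT s x (twC s))^[N] (dl (vac n))) l = ((TT s x (twC s))^[N] (0 : List Sp → ℂ)) l := by
    refine Limit_it_congr s x _ N _ _ l (fun l' _ h => ?_)
    unfold dl
    rw [if_neg, Pi.zero_apply]
    intro h'
    apply hl
    rw [← h, h']
    simp [vac, chg, ch]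
  rw [h1, Limit_T_pow, map_zero]
  rfl

/-- bound of `e e G` -/
theorem Limit_EE_bound (hx0 : 0 ≤ x) (hc : Cst (-Complex.I) (x : ℂ) Limit_Q zr zl) (hr : ‖zr‖ ≤ 2)
    (hl2 : ‖zl‖ ≤ 2) (n : ℕ) (hn : 2 ≤ n) (hodd : n % 2 = 1) (δ : ℝ) (hδ : 0 ≤ δ) (N : ℕ)
    (hY : ∀ i d r : ℕ, i + d + r + 2 = n → Y x N (single i d r) ≤ δ) (l : List Sp) (hl : l.length = n) :
    ‖eh Limit_Q zr zl true (eh Limit_Q zr zl true ((TT (-Complex.I) (x : ℂ) (twC (-Complex.I)))^[N]
      (dl (vac n)))) l‖ ≤ (LL Sp n).card * ((4 * n) * (4 * n) * (2 ^ n * δ)) := by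
  have hR : (0 : ℝ) ≤ (LL Sp n).card * ((4 * n) * (4 * n) * (2 ^ n * δ)) := by positivity
  by_cases h0 : chg l = -2
  · rw [Limit_comm_b hc N _ l (by rw [hl]; exact hodd) h0, Limit_expand _ _ _ N n _ l hl]
    refine (norm_sum_le _ _).trans ?_
    rw [← nsmul_eq_mul]
    refine Finset.sum_le_card_nsmul _ _ _ (fun m hm => ?_)
    have hml : m.length = n := (mem_LL n m).1 hm
    rw [norm_mul]
    have hb : ∀ m' : List Sp, m'.length = n → ‖eh Limit_Q zr zl true (dl (vac n)) m'‖ ≤ 4 * n := by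
      intro m' hm'
      have h1 := Limit_eh_norm (zr := zr) (zl := zl) Limit_Qn hr hl2 1 (by norm_num) m' true (dl (vac n))
        (fun l' _ => by unfold dl; split_ifs <;> simp)
      rw [hm', mul_one] at h1
      exact h1
    have hbb : ‖eh Limit_Q zr zl true (eh Limit_Q zr zl true (dl (vac n))) m‖ ≤ 4 * n * (4 * n) := by
      have h1 := Limit_eh_norm (zr := zr) (zl := zl) Limit_Qn hr hl2 (4 * n) (by positivity) m true
        (eh Limit_Q zr zl true (dl (vac n))) (fun l' h => hb l' ((Limit_Up_len h).trans hml))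
      rw [hml] at h1
      exact h1
    by_cases hz : ∃ i d r : ℕ, i + d + r + 2 = n ∧ m = two .neg i d r
    · obtain ⟨i, d, r, e, e'⟩ := hz
      have h2 : ‖((TT (-Complex.I) (x : ℂ) tw1)^[N] (dl m)) l‖ ≤ 2 ^ n * δ := by
        rw [rev_1 x N l m (by rw [hl, hml]), RCLike.norm_conj, e', Limit_two_rev]
        have h3 := two_bound x hx0 r d i N .neg (by decide) (dl l.reverse) 1
          (fun m _ => by unfold dl; split_ifs <;> simp)
        have h4 : r + d + i + 2 = n := by omega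
        rw [mul_one, h4] at h3
        refine h3.trans ?_
        rw [mul_comm]
        exact mul_le_mul_of_nonneg_left (hY r d i h4) (by positivity)
      exact mul_le_mul hbb h2 (norm_nonneg _) (by positivity)
    · have h2 : eh Limit_Q zr zl true (eh Limit_Q zr zl true (dl (vac n))) m = 0 := by
        have h3 := Limit_eh_norm (zr := zr) (zl := zl) Limit_Qn hr hl2 0 le_rfl m true
          (eh Limit_Q zr zl true (dl (vac n))) (fun l' h => by
            have h4 := Limit_eh_norm (zr := zr) (zl := zl) Limit_Qn hr hl2 0 le_rfl l' true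
              (dl (vac n)) (fun l'' h' => by
                by_cases h5 : l'' = vac n
                · exfalso
                  rw [h5] at h'
                  obtain ⟨i, r, e, e'⟩ := Limit_Up_vac' h'
                  rw [e'] at h
                  obtain ⟨i', d, r', e2, e3⟩ := Limit_Up_one' h
                  exact hz ⟨i', d, r', by omega, e3⟩
                · simp [dl, h5])
            rw [mul_zero] at h4
            exact h4)
        rw [mul_zero] at h3
        exact norm_le_zero_iff.1 h3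
      rw [h2, norm_zero, zero_mul]
      positivity
  · have h3 := Limit_eh_norm (zr := zr) (zl := zl) Limit_Qn hr hl2 0 le_rfl l true
      (eh Limit_Q zr zl true ((TT (-Complex.I) (x : ℂ) (twC (-Complex.I)))^[N] (dl (vac n)))) (fun l' h => by
        have h4 := Limit_eh_norm (zr := zr) (zl := zl) Limit_Qn hr hl2 0 le_rfl l' true
          ((TT (-Complex.I) (x : ℂ) (twC (-Complex.I)))^[N] (dl (vac n))) (fun l'' h' => by
            rw [Limit_G_zero, norm_zero]
            rw [Limit_Up_chg h', Limit_Up_chg h]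
            omega)
        rw [mul_zero] at h4
        exact h4)
    rw [mul_zero] at h3
    exact h3.trans hR

/-- bound of the lower half with `e e` -/
theorem Limit_low_bound (hx0 : 0 ≤ x) (hc : Cst (-Complex.I) (x : ℂ) Limit_Q zr zl) (hr : ‖zr‖ ≤ 2)
    (hl2 : ‖zl‖ ≤ 2) (n : ℕ) (hodd : n % 2 = 1) (δ : ℝ) (hδ : 0 ≤ δ) (N : ℕ)
    (hY : ∀ i d r : ℕ, i + d + r + 2 = n → Y x N (single i d r) ≤ δ) (h : List Sp → ℂ) (B : ℝ) (hB : 0 ≤ B)
    (hh : ∀ l : List Sp, l.length = n → ‖h l‖ ≤ B) :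
    ‖((TT (-Complex.I) (x : ℂ) (twS (-Complex.I)))^[N] (eh Limit_Q zr zl true (eh Limit_Q zr zl true h))) (vac n)‖ ≤
      4 * n * (4 * n * (δ * (2 ^ n * B))) := by
  have hvl : (vac n).length = n := by simp [vac]
  rw [Limit_comm_a hc N h (vac n) (by rw [hvl]; exact hodd) (by simp [vac, chg, ch])]
  have h1 := Limit_eh_norm (zr := zr) (zl := zl) Limit_Qn hr hl2 (4 * n * (δ * (2 ^ n * B))) (by positivity) (vac n) true
    (eh Limit_Q zr zl true ((TT (-Complex.I) (x : ℂ) tw1)^[N] h)) (fun l' h' => by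
      have hl' : l'.length = n := (Limit_Up_len h').trans hvl
      have h2 := Limit_eh_norm (zr := zr) (zl := zl) Limit_Qn hr hl2 (δ * (2 ^ n * B)) (by positivity) l' true
        ((TT (-Complex.I) (x : ℂ) tw1)^[N] h) (fun l'' h'' => by
          obtain ⟨i, r, e, e'⟩ := Limit_Up_vac h'
          rw [e'] at h''
          obtain ⟨i', d, r', e2, e3⟩ := Limit_Up_one h''
          have e4 : i' + d + r' + 2 = n := by omega
          rw [e3]
          have h3 := two_bound x hx0 i' d r' N .pos (by decide) h B (fun l hl => hh l (hl.trans e4))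
          rw [e4] at h3
          exact h3.trans (mul_le_mul_of_nonneg_right (hY i' d r' e4) (by positivity)))
      rw [hl'] at h2
      exact h2)
  rw [hvl] at h1
  exact h1

end Bd


theorem Limit_six (a1 a2 a3 a4 a5 a6 t1 t2 t3 t4 t5 t6 : ℂ) (p1 p2 : ℝ)
    (c1 : ‖a1‖ ≤ 2) (c2 : ‖a2‖ ≤ 2) (c3 : ‖a3‖ ≤ 2) (c4 : ‖a4‖ ≤ 3) (c5 : ‖a5‖ ≤ 1) (c6 : ‖a6‖ ≤ 6)
    (h1 : ‖t1‖ ≤ p1) (h2 : ‖t2‖ ≤ p2) (h3 : ‖t3‖ ≤ p1) (h4 : ‖t4‖ ≤ p1) (h5 : ‖t5‖ ≤ p2) (h6 : ‖t6‖ ≤ p2) :
    ‖a1 * t1 - a2 * t2 - a3 * t3 + a4 * t4 + a5 * t5 - a6 * t6‖ ≤ 7 * p1 + 13 * p2 := by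
  have m : ∀ (a b : ℂ) (p q : ℝ), 0 ≤ p → ‖a‖ ≤ p → ‖b‖ ≤ q → ‖a * b‖ ≤ p * q := by
    intro a b p q hp ha hb
    rw [norm_mul]
    exact mul_le_mul ha hb (norm_nonneg _) hp
  have s1 := m _ _ _ _ (by norm_num) c1 h1
  have s2 := m _ _ _ _ (by norm_num) c2 h2
  have s3 := m _ _ _ _ (by norm_num) c3 h3
  have s4 := m _ _ _ _ (by norm_num) c4 h4
  have s5 := m _ _ _ _ (by norm_num) c5 h5
  have s6 := m _ _ _ _ (by norm_num) c6 h6
  have p2' : 0 ≤ p2 := (norm_nonneg _).trans h2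
  have g0 := norm_sub_le (a1 * t1 - a2 * t2 - a3 * t3 + a4 * t4 + a5 * t5) (a6 * t6)
  have g1 := norm_add_le (a1 * t1 - a2 * t2 - a3 * t3 + a4 * t4) (a5 * t5)
  have g2 := norm_add_le (a1 * t1 - a2 * t2 - a3 * t3) (a4 * t4)
  have g3 := norm_sub_le (a1 * t1 - a2 * t2) (a3 * t3)
  have g4 := norm_sub_le (a1 * t1) (a2 * t2)
  linarith

theorem Limit_comb (zl zr : ℂ) (hr : ‖zr‖ ≤ 2) (hl2 : ‖zl‖ ≤ 2) (n : ℕ) (F : List Sp → ℂ) (b : ℝ)
    (hF : ∀ l : List Sp, l.length = n → ‖F l‖ ≤ b) (c : List Sp) (hc : c.length + 2 = n) :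
    ‖zl * F (c ++ [.zero, .neg]) + zr * (-Limit_Q ^ 3) * F (c ++ [.neg, .zero])‖ ≤ 4 * b := by
  have n3 : ‖(-Limit_Q ^ 3 : ℂ)‖ = 1 := by rw [norm_neg, norm_pow, Limit_Qn, one_pow]
  have e1 : ‖zl * F (c ++ [.zero, .neg])‖ ≤ 2 * b := by
    rw [norm_mul]
    exact mul_le_mul hl2 (hF _ (by simpa using hc)) (norm_nonneg _) (by norm_num)
  have e2 : ‖zr * (-Limit_Q ^ 3) * F (c ++ [.neg, .zero])‖ ≤ 2 * b := by
    rw [norm_mul, norm_mul, n3, mul_one]
    exact mul_le_mul hr (hF _ (by simpa using hc)) (norm_nonneg _) (by norm_num)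
  exact (norm_add_le _ _).trans (by linarith)

theorem Limit_ehb (zl zr : ℂ) (hr : ‖zr‖ ≤ 2) (hl2 : ‖zl‖ ≤ 2) (n : ℕ) (F : List Sp → ℂ) (b : ℝ) (hb : 0 ≤ b)
    (hF : ∀ c : List Sp, c.length + 2 = n → ‖F c‖ ≤ b) (c : List Sp) (hc : c.length + 2 = n) :
    ‖eh Limit_Q zr zl true F c‖ ≤ 4 * n * b := by
  have e1 := Limit_eh_norm (zr := zr) (zl := zl) Limit_Qn hr hl2 b hb c true F
    (fun l' h => hF l' (by rw [Limit_Up_len h]; exact hc))
  refine e1.trans (mul_le_mul_of_nonneg_right ?_ hb)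
  have : (c.length : ℝ) ≤ n := by exact_mod_cast (by omega : c.length ≤ n)
  linarith

theorem Limit_Err_bound {x : ℝ} (hx0 : 0 ≤ x) (hx1 : x ≤ 1) (zr zl : ℂ) (hr : ‖zr‖ ≤ 2)
    (hl2 : ‖zl‖ ≤ 2) (n : ℕ) (hn : 1 ≤ n) (R : (List Sp → ℂ) → ℂ) (G : List Sp → ℂ) (BG δ p1 p2 : ℝ)
    (hBG : 0 ≤ BG) (hδ : 0 ≤ δ)
    (h1 : ∀ h : List Sp → ℂ, (∀ l : List Sp, l.length = n → ‖h l‖ ≤ 4 * n * BG) →
      ‖R (eh Limit_Q zr zl true (eh Limit_Q zr zl true h))‖ ≤ p1)
    (h2 : ∀ h : List Sp → ℂ, (∀ l : List Sp, l.length = n → ‖h l‖ ≤ 4 * n * δ) → ‖R h‖ ≤ p2)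
    (hG : ∀ l : List Sp, l.length = n → ‖G l‖ ≤ BG)
    (hEG : ∀ l : List Sp, l.length = n →
      ‖eh Limit_Q zr zl true (eh Limit_Q zr zl true G) l‖ ≤ δ) :
    ‖Err (-Complex.I) (x : ℂ) Limit_Q zr zl R G‖ ≤ 7 * p1 + 13 * p2 := by
  have hn1 : (1 : ℝ) ≤ n := by exact_mod_cast hn
  have hq := Limit_Qn
  have n3' : ‖(Limit_Q ^ 3 : ℂ)‖ = 1 := by rw [norm_pow, hq, one_pow]
  have nb : ∀ b : ℝ, 0 ≤ b → 4 * b ≤ 4 * n * b := by
    intro b hb
    nlinarith
  have nb1 : ∀ b : ℝ, 0 ≤ b → b ≤ 4 * n * b := by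
    intro b hb
    nlinarith
  have b1 : 0 ≤ 4 * n * BG := by positivity
  have b2 : 0 ≤ 4 * n * δ := by positivity
  have c1 : ‖(1 - Limit_Q ^ 3 : ℂ)‖ ≤ 2 := (norm_sub_le _ _).trans (by rw [norm_one, n3']; norm_num)
  have c2 : ‖(Limit_Q * (1 + Limit_Q) : ℂ)‖ ≤ 2 := by
    rw [norm_mul, hq, one_mul]
    exact (norm_add_le _ _).trans (by rw [norm_one, hq]; norm_num)
  have c4 : ‖(1 + Limit_Q - Limit_Q ^ 3 : ℂ)‖ ≤ 3 := by
    refine (norm_sub_le _ _).trans ?_
    have := norm_add_le (1 : ℂ) Limit_Q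
    rw [norm_one, hq] at this
    rw [n3']
    linarith
  have c5 : ‖(Limit_Q ^ 2 : ℂ)‖ ≤ 1 := by rw [norm_pow, hq, one_pow]
  have c6 : ‖((1 + Limit_Q - Limit_Q ^ 3) * zr : ℂ)‖ ≤ 6 := by
    rw [norm_mul]
    calc ‖(1 + Limit_Q - Limit_Q ^ 3 : ℂ)‖ * ‖zr‖ ≤ 3 * 2 := mul_le_mul c4 hr (norm_nonneg _) (by norm_num)
      _ = 6 := by norm_num
  unfold Err
  refine Limit_six _ _ _ _ _ _ _ _ _ _ _ _ p1 p2 c1 c2 hr c4 c5 c6 ?_ ?_ ?_ ?_ ?_ ?_
  · exact h1 _ (fun l hl => Limit_Sv_norm hx0 hx1 _ b1 n .pos _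
      (Limit_ehb zl zr hr hl2 n _ BG hBG (fun c hc => hG _ (by simpa using hc))) l hl)
  · exact h2 _ (fun l hl => Limit_Sv_norm hx0 hx1 _ b2 n .pos _
      (Limit_ehb zl zr hr hl2 n _ δ hδ (fun c hc => hEG _ (by simpa using hc))) l hl)
  · exact h1 _ (fun l hl => Limit_Sv_norm hx0 hx1 _ b1 n .zero _
      (fun c hc => (hG _ (by simpa using hc)).trans (nb1 _ hBG)) l hl)
  · exact h1 _ (fun l hl => Limit_Sv_norm hx0 hx1 _ b1 n .pos _
      (fun c hc => (Limit_comb zl zr hr hl2 n G BG hG c hc).trans (nb _ hBG)) l hl)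
  · exact h2 _ (fun l hl => Limit_Sv_norm hx0 hx1 _ b2 n .pos _
      (fun c hc => (Limit_comb zl zr hr hl2 n _ δ hEG c hc).trans (nb _ hδ)) l hl)
  · exact h2 _ (fun l hl => Limit_Sv_norm hx0 hx1 _ b2 n .zero _
      (fun c hc => (hEG _ (by simpa using hc)).trans (nb1 _ hδ)) l hl)

theorem Limit_hw (x : ℝ) (ty : Ty) (n N1 N2 : ℕ) :
    ∑ F1 ∈ LL O N1, ∑ F2 ∈ LL O N2, hw (x : ℂ) ty n F1 F2 = ((hmass x ty n N1 N2 : ℝ) : ℂ) := by
  unfold hmass hw
  rw [Complex.ofReal_sum]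
  refine Finset.sum_congr rfl (fun F1 _ => ?_)
  rw [Complex.ofReal_sum]
  refine Finset.sum_congr rfl (fun F2 _ => ?_)
  cases hcost ty n F1 F2 <;> simp

/-- The star relation with small error. -/
theorem hole_lim (k : ℕ) (hk : 1 ≤ k) (x : ℝ) (hx : 0 < x) (hx2 : x ^ 2 * (2 + Real.sqrt 2) = 1)
    (hA : ∃ C : ℝ, ∀ N i d r, i + d + r + 2 = 2 * k + 1 →
      Rm x N (zeros (2 * k + 1)) (single i d r) ≤ C) (ε : ℝ) (hε : 0 < ε) :
    ∃ N0 : ℕ, ∀ N1 N2, N0 ≤ N1 → N0 ≤ N2 →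
      |hmass x .a (2 * k + 1) N1 N2 + hmass x .b (2 * k + 1) N1 N2 + hmass x .c (2 * k + 1) N1 N2 - x| ≤ ε := by
  have hx1 : x ≤ 1 := by
    by_contra h
    push Not at h
    have h1 := Real.sqrt_nonneg 2
    nlinarith
  obtain ⟨C, hC⟩ := Y_bounded (2 * k + 1) (by omega) x hx.le hA
  have hC1 : 1 ≤ C := by
    have := hC 0
    rwa [Y_zero] at this
  have hC0 : 0 ≤ C := by linarith
  have hT := Y_single_tendsto k hk x hx hx1 ⟨C, hC⟩
  obtain ⟨n, hn⟩ : ∃ n : ℕ, n = 2 * k + 1 := ⟨_, rfl⟩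
  rw [← hn] at hC hT ⊢
  have hodd : n % 2 = 1 := by omega
  have hn3 : 3 ≤ n := by omega
  set zr : ℂ := (x : ℂ) * (1 + Limit_Q ^ 3) with hzr
  set zl : ℂ := (x : ℂ) * (1 - Limit_Q) with hzl
  have hc : Cst (-Complex.I) (x : ℂ) Limit_Q zr zl := Limit_Cst x hx2
  have hxn : ‖(x : ℂ)‖ ≤ 1 := by rw [Complex.norm_real, Real.norm_of_nonneg hx.le]; exact hx1
  have hr : ‖zr‖ ≤ 2 := by
    rw [hzr, norm_mul]
    have h1 : ‖(1 + Limit_Q ^ 3 : ℂ)‖ ≤ 2 := (norm_add_le _ _).trans (by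
      rw [norm_one, norm_pow, Limit_Qn]; norm_num)
    calc ‖(x : ℂ)‖ * ‖(1 + Limit_Q ^ 3 : ℂ)‖ ≤ 1 * 2 := mul_le_mul hxn h1 (norm_nonneg _) (by norm_num)
      _ = 2 := one_mul 2
  have hl2 : ‖zl‖ ≤ 2 := by
    rw [hzl, norm_mul]
    have h1 : ‖(1 - Limit_Q : ℂ)‖ ≤ 2 := (norm_sub_le _ _).trans (by
      rw [norm_one, Limit_Qn]; norm_num)
    calc ‖(x : ℂ)‖ * ‖(1 - Limit_Q : ℂ)‖ ≤ 1 * 2 := mul_le_mul hxn h1 (norm_nonneg _) (by norm_num)
      _ = 2 := one_mul 2
  set θ : ℂ := (1 + Limit_Q - Limit_Q ^ 3) * (1 + Limit_Q ^ 2) with hθ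
  have hθ0 : 0 < ‖θ‖ := norm_pos_iff.2 Limit_theta
  set P1 : ℝ := 4 * n * (4 * n * (2 ^ n * (4 * n * (C * 2 ^ n)))) with hP1
  set P2 : ℝ := C * (2 ^ n * (4 * n * ((LL Sp n).card * ((4 * n) * (4 * n) * 2 ^ n)))) with hP2
  have hP1' : 0 ≤ P1 := by positivity
  have hP2' : 0 ≤ P2 := by positivity
  set D : ℝ := 7 * P1 + 13 * P2 + 1 with hD
  have hD0 : 0 < D := by positivity
  set δ : ℝ := ε * ‖θ‖ / D with hδ
  have hδ0 : 0 < δ := by positivity
  -- the masses of the single arcs are small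
  have hev : ∀ᶠ N in atTop, ∀ q ∈ Finset.range n ×ˢ (Finset.range n ×ˢ Finset.range n),
      q.1 + q.2.1 + q.2.2 + 2 = n → Y x N (single q.1 q.2.1 q.2.2) ≤ δ := by
    rw [Filter.eventually_all_finset]
    intro q _
    by_cases hq : q.1 + q.2.1 + q.2.2 + 2 = n
    · have h1 := (hT q.1 q.2.1 q.2.2 hq).eventually_le_const hδ0
      filter_upwards [h1] with N hN _ using hN
    · exact Filter.Eventually.of_forall (fun N h => absurd h hq)
  obtain ⟨N0, hN0⟩ := Filter.eventually_atTop.1 hev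
  have hY : ∀ N, N0 ≤ N → ∀ i d r : ℕ, i + d + r + 2 = n → Y x N (single i d r) ≤ δ := by
    intro N hN i d r h
    refine hN0 N hN (i, d, r) ?_ h
    simp only [Finset.mem_product, Finset.mem_range]
    omega
  refine ⟨N0, fun N1 N2 hN1 hN2 => ?_⟩
  -- the halves
  set G : List Sp → ℂ := (TT (-Complex.I) (x : ℂ) (twC (-Complex.I)))^[N2] (dl (vac n)) with hGdef
  set R : (List Sp → ℂ) → ℂ := fun f => ((TT (-Complex.I) (x : ℂ) (twS (-Complex.I)))^[N1] f) (vac n) with hRdef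
  have hR : Lin R := by
    constructor
    · intro f g
      have e : (fun l => f l + g l) = f + g := rfl
      simp only [hRdef]
      rw [e, Limit_T_pow, map_add]
      simp only [Limit_T_pow]
      rfl
    · intro c f
      have e : (fun l => c * f l) = c • f := rfl
      simp only [hRdef]
      rw [e, Limit_T_pow, map_smul]
      simp only [Limit_T_pow]
      rfl
  have hvl : (vac n).length = n := by simp [vac]
  have hv0 : chg (vac n) = 0 := by simp [vac, chg, ch]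
  have hR0 : ∀ f g : List Sp → ℂ, (∀ l, l.length = n → chg l = 0 → f l = g l) → R f = R g := by
    intro f g h
    exact Limit_it_congr _ _ _ N1 f g (vac n) (fun l' h1 h2 => h l' (h1.trans hvl) (h2.trans hv0))
  have hs : (-Complex.I) * (-Complex.I) = (-1 : ℂ) := by
    have := Complex.I_sq
    linear_combination this
  have hMv : ∀ v a b : Sp, R (Sv (-Complex.I) (x : ℂ) v (fun c => G (c ++ [a, b]))) =
      ∑ F1 ∈ LL O N1, ∑ F2 ∈ LL O N2, HV (-Complex.I) (x : ℂ) n F1 F2 v a b := by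
    intro v a b
    exact Limit_HV (-Complex.I) (x : ℂ) n N1 N2 v a b
  have key := hole_alg hc R hR n hodd hn3 hR0 G
    (fun v a b => R (Sv (-Complex.I) (x : ℂ) v (fun c => G (c ++ [a, b])))) (fun _ _ _ => rfl)
    1 (hmass x .a n N1 N2 : ℝ) (hmass x .b n N1 N2 : ℝ) (hmass x .c n N1 N2 : ℝ)
    (by rw [hMv]; exact HV_0 hs n N1 N2 hn3)
    (by
      rw [hMv, ← Limit_hw]
      exact Finset.sum_congr rfl (fun F1 _ => Finset.sum_congr rfl (fun F2 _ => HV_c1 hs n hn3 F1 F2)))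
    (by
      rw [hMv, ← Limit_hw, Finset.mul_sum]
      refine Finset.sum_congr rfl (fun F1 _ => ?_)
      rw [Finset.mul_sum]
      exact Finset.sum_congr rfl (fun F2 _ => HV_c2 hs n hn3 F1 F2))
    (by
      rw [hMv, ← Limit_hw]
      exact Finset.sum_congr rfl (fun F1 _ => Finset.sum_congr rfl (fun F2 _ => HV_a1 hs n hn3 F1 F2)))
    (by
      rw [hMv, ← Limit_hw]
      exact Finset.sum_congr rfl (fun F1 _ => Finset.sum_congr rfl (fun F2 _ => HV_a2 hs n hn3 F1 F2)))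
    (by
      rw [hMv, ← Limit_hw]
      exact Finset.sum_congr rfl (fun F1 _ => Finset.sum_congr rfl (fun F2 _ => HV_b1 hs n hn3 F1 F2)))
    (by
      rw [hMv, ← Limit_hw]
      exact Finset.sum_congr rfl (fun F1 _ => Finset.sum_congr rfl (fun F2 _ => HV_b2 hs n hn3 F1 F2)))
  -- the error
  have hErr : ‖Err (-Complex.I) (x : ℂ) Limit_Q zr zl R G‖ ≤ 7 * (P1 * δ) + 13 * (P2 * δ) := by
    refine Limit_Err_bound hx.le hx1 zr zl hr hl2 n (by omega) R G (C * 2 ^ n)
      ((LL Sp n).card * ((4 * n) * (4 * n) * (2 ^ n * δ))) (P1 * δ) (P2 * δ) (by positivity) (by positivity)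
      ?_ ?_ ?_ ?_
    · intro h hh
      have h1 := Limit_low_bound hx.le hc hr hl2 n hodd δ hδ0.le N1 (hY N1 hN1) h (4 * n * (C * 2 ^ n))
        (by positivity) hh
      refine h1.trans (le_of_eq ?_)
      rw [hP1]
      ring
    · intro h hh
      have h1 := vac_bound x hx.le n (by omega) N1 h _ hh
      have h2 : Y x N1 (zeros n) * (2 ^ n * (4 * n * ((LL Sp n).card * ((4 * n) * (4 * n) * (2 ^ n * δ))))) ≤
          C * (2 ^ n * (4 * n * ((LL Sp n).card * ((4 * n) * (4 * n) * (2 ^ n * δ))))) :=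
        mul_le_mul_of_nonneg_right (hC N1) (by positivity)
      refine (h1.trans h2).trans (le_of_eq ?_)
      rw [hP2]
      ring
    · intro l hl
      exact Limit_G_bound hx.le n (by omega) C hC N2 l hl
    · intro l hl
      exact Limit_EE_bound hx.le hc hr hl2 n (by omega) hodd δ hδ0.le N2 (hY N2 hN2) l hl
  have h1 : ((hmass x .a n N1 N2 : ℝ) : ℂ) + (hmass x .b n N1 N2 : ℝ) + (hmass x .c n N1 N2 : ℝ) - (x : ℂ) * 1 =
      ((hmass x .a n N1 N2 + hmass x .b n N1 N2 + hmass x .c n N1 N2 - x : ℝ) : ℂ) := by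
    push_cast
    ring
  rw [h1] at key
  have h2 : ‖θ‖ * |hmass x .a n N1 N2 + hmass x .b n N1 N2 + hmass x .c n N1 N2 - x| ≤ ‖θ‖ * ε := by
    rw [← Real.norm_eq_abs, ← Complex.norm_real, ← norm_mul, key]
    refine hErr.trans ?_
    have h3 : 7 * (P1 * δ) + 13 * (P2 * δ) = (D - 1) * δ := by rw [hD]; ring
    have h4 : D * δ = ‖θ‖ * ε := by
      rw [hδ]
      field_simp
    rw [h3]
    nlinarith
  exact le_of_mul_le_mul_left h2 hθ0

end Pool.Agent.DEN
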