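import Pool.Agent.DEN.HolePath
import Pool.Agent.DEN.Lift
import Pool.Agent.DEN.Limit
import Pool.Agent.Hhelper14.SAW.Low

/-!
Project DEN: the exact value on the infinite helical cylinders: the self-avoiding polygons through a vertex have total
mass exactly `xc ^ 2`.
-/

namespace Pool.Agent.DEN

open Pat Pool.Agent.Hhelper14.SAW

/-- Vertices of the infinite helical honeycomb cylinder. -/
inductive Zx
  | s (t : ℤ) : Zx
  | u (t : ℤ) : Zx
  deriving DecidableEq

/-- Adjacency: `u t` has the neighbours `s t`, `s (t + k)`, `s (t + k + 1)`. -/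
def ZAdj (k : ℕ) : Zx → Zx → Prop
  | .s t, .u t' => t = t' ∨ t = t' + k ∨ t = t' + k + 1
  | .u t', .s t => t = t' ∨ t = t' + k ∨ t = t' + k + 1
  | _, _ => False

/-- The self-avoiding paths between two different neighbours of `u 0` which avoid `u 0`; together with `u 0` they are
the oriented self-avoiding polygons through `u 0`. -/
def ZP (k : ℕ) : Set (List Zx) :=
  {l | l.IsChain (ZAdj k) ∧ l.Nodup ∧ Zx.u 0 ∉ l ∧ ∃ A B, l.head? = some A ∧ l.getLast? = some B ∧
    ZAdj k (.u 0) A ∧ ZAdj k (.u 0) B ∧ A ≠ B}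

/-- Time. -/
def Zx.tm : Zx → ℤ
  | s t => t
  | u t => t

/-- Shift from natural times. -/
def ph (N : ℕ) : Vx → Zx
  | .s t => .s ((t : ℤ) - N)
  | .u t => .u ((t : ℤ) - N)

/-- Shift back. -/
def pb (N : ℕ) : Zx → Vx
  | .s t => .s (t + N).toNat
  | .u t => .u (t + N).toNat

lemma pb_ph (N : ℕ) (v : Vx) : pb N (ph N v) = v := by
  cases v <;> simp [ph, pb]

lemma ph_pb (N : ℕ) (v : Zx) (h : -(N : ℤ) ≤ v.tm) : ph N (pb N v) = v := by
  cases v <;> simp only [ph, pb, Zx.tm, Zx.s.injEq, Zx.u.injEq] at * <;> omega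

lemma ph_inj (N : ℕ) : Function.Injective (ph N) := fun v w h => by
  rw [← pb_ph N v, h, pb_ph]

lemma ph_adj (k N : ℕ) (v w : Vx) : ZAdj k (ph N v) (ph N w) ↔ GAdj k v w := by
  cases v <;> cases w <;> simp only [ph, ZAdj, GAdj] <;> omega

lemma ph_tm (N : ℕ) (v : Vx) : (ph N v).tm = (v.tm : ℤ) - N := by
  cases v <;> rfl

/-- The symmetric adjacency. -/
lemma zadj_symm (k : ℕ) {v w : Zx} (h : ZAdj k v w) : ZAdj k w v := by
  cases v <;> cases w <;> simpa [ZAdj] using h

/-- Start neighbour. -/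
def zA (k : ℕ) : Ty → Zx
  | .a => .s 0
  | .b => .s 0
  | .c => .s k

/-- End neighbour. -/
def zB (k : ℕ) : Ty → Zx
  | .a => .s k
  | .b => .s (k + 1)
  | .c => .s (k + 1)

/-- Paths with given ends in a time window. -/
def ZQ (k N1 N2 : ℕ) (A B : Zx) (l : List Zx) : Prop :=
  l.IsChain (ZAdj k) ∧ l.Nodup ∧ Zx.u 0 ∉ l ∧ (∀ v ∈ l, -(N1 : ℤ) ≤ v.tm ∧ v.tm < 1 + N2) ∧
    l.head? = some A ∧ l.getLast? = some B

lemma ph_hA (k N1 : ℕ) (ty : Ty) : ph N1 (hA k N1 ty) = zA k ty := by
  cases ty <;> simp [ph, hA, zA]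

lemma ph_hB (k N1 : ℕ) (ty : Ty) : ph N1 (hB k N1 ty) = zB k ty := by
  cases ty <;> simp only [ph, hB, zB, Zx.s.injEq] <;> push_cast <;> ring

lemma one_type (k : ℕ) (hk : 1 ≤ k) (N1 N2 : ℕ) (ty : Ty) : ∃ S : Finset (List Zx),
    (∀ l, l ∈ S ↔ ZQ k N1 N2 (zA k ty) (zB k ty) l) ∧
    ∑ l ∈ S, xc ^ l.length = hmass xc ty (2 * k + 1) N1 N2 := by
  obtain ⟨P, hP, hs⟩ := hole_path k hk xc xc_pos.le ty N1 N2
  refine ⟨P.image (List.map (ph N1)), ?_, ?_⟩
  · intro l
    simp only [Finset.mem_image]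
    constructor
    · rintro ⟨l', hl', rfl⟩
      obtain ⟨h1, h2, h3, h4, h5, h6⟩ := (hP l').1 hl'
      refine ⟨?_, h2.map (ph_inj N1), ?_, ?_, ?_, ?_⟩
      · rw [List.isChain_map]
        exact h1.imp fun v w h => (ph_adj k N1 v w).2 h
      · intro hm
        obtain ⟨v, hv, he⟩ := List.mem_map.1 hm
        have : v = .u N1 := ph_inj N1 (by rw [he]; simp [ph])
        exact h4 (this ▸ hv)
      · intro v hv
        obtain ⟨w, hw, rfl⟩ := List.mem_map.1 hv
        have := h3 w hw
        rw [ph_tm]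
        omega
      · rw [List.head?_map, h5, Option.map_some, ph_hA]
      · rw [List.getLast?_map, h6, Option.map_some, ph_hB]
    · rintro ⟨h1, h2, h3, h4, h5, h6⟩
      have hb : List.map (ph N1) (List.map (pb N1) l) = l := by
        rw [List.map_map]
        conv_rhs => rw [← List.map_id l]
        refine List.map_congr_left fun v hv => ?_
        exact ph_pb N1 v (h4 v hv).1
      refine ⟨l.map (pb N1), (hP _).2 ⟨?_, ?_, ?_, ?_, ?_, ?_⟩, hb⟩
      · have := h1
        rw [← hb, List.isChain_map] at this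
        exact this.imp fun v w h => (ph_adj k N1 v w).1 h
      · have := h2
        rw [← hb] at this
        exact List.Nodup.of_map _ this
      · intro v hv
        have hv' : ph N1 v ∈ l := by
          rw [← hb]; exact List.mem_map_of_mem hv
        have := h4 _ hv'
        rw [ph_tm] at this
        omega
      · intro hv
        have hv' : ph N1 (.u N1) ∈ l := by
          rw [← hb]; exact List.mem_map_of_mem hv
        apply h3
        have e : ph N1 (.u N1) = Zx.u 0 := by simp [ph]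
        rwa [e] at hv'
      · rw [List.head?_map, h5, Option.map_some, ← ph_hA k N1, pb_ph]
      · rw [List.getLast?_map, h6, Option.map_some, ← ph_hB k N1, pb_ph]
  · rw [Finset.sum_image (fun _ _ _ _ h => List.map_injective_iff.2 (ph_inj N1) h), hs]
    refine Finset.sum_congr rfl fun l _ => ?_
    rw [List.length_map]

lemma zq_reverse {k N1 N2 : ℕ} {A B : Zx} {l : List Zx} (h : ZQ k N1 N2 A B l) : ZQ k N1 N2 B A l.reverse := by
  obtain ⟨h1, h2, h3, h4, h5, h6⟩ := h
  refine ⟨?_, List.nodup_reverse.2 h2, by simpa using h3, fun v hv => h4 v (by simpa using hv), ?_, ?_⟩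
  · rw [List.isChain_reverse]
    exact h1.imp fun v w h => zadj_symm k h
  · rw [List.head?_reverse, h6]
  · rw [List.getLast?_reverse, h5]

/-- All paths in a time window. -/
lemma all_types (k : ℕ) (hk : 1 ≤ k) (N1 N2 : ℕ) : ∃ S : Finset (List Zx),
    (∀ l, l ∈ S ↔ l ∈ ZP k ∧ ∀ v ∈ l, -(N1 : ℤ) ≤ v.tm ∧ v.tm < 1 + N2) ∧
    ∑ l ∈ S, xc ^ l.length = 2 * (hmass xc .a (2 * k + 1) N1 N2 + hmass xc .b (2 * k + 1) N1 N2 +
      hmass xc .c (2 * k + 1) N1 N2) := by
  obtain ⟨Sa, ha, ha'⟩ := one_type k hk N1 N2 .a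
  obtain ⟨Sb, hb, hb'⟩ := one_type k hk N1 N2 .b
  obtain ⟨Sc, hc, hc'⟩ := one_type k hk N1 N2 .c
  have hrev : ∀ S : Finset (List Zx), ∑ l ∈ S.image List.reverse, xc ^ l.length = ∑ l ∈ S, xc ^ l.length := by
    intro S
    rw [Finset.sum_image (fun _ _ _ _ h => List.reverse_injective h)]
    exact Finset.sum_congr rfl fun l _ => by rw [List.length_reverse]
  have mrev : ∀ (S : Finset (List Zx)) (A B : Zx), (∀ l, l ∈ S ↔ ZQ k N1 N2 A B l) → ∀ l,
      (l ∈ S.image List.reverse ↔ ZQ k N1 N2 B A l) := by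
    intro S A B hS l
    rw [Finset.mem_image]
    constructor
    · rintro ⟨l', hl', rfl⟩
      exact zq_reverse ((hS l').1 hl')
    · intro h
      exact ⟨l.reverse, (hS _).2 (zq_reverse h), List.reverse_reverse l⟩
  have disj : ∀ (S T : Finset (List Zx)) (A B A' B' : Zx), (∀ l, l ∈ S ↔ ZQ k N1 N2 A B l) →
      (∀ l, l ∈ T ↔ ZQ k N1 N2 A' B' l) → (A ≠ A' ∨ B ≠ B') → Disjoint S T := by
    intro S T A B A' B' hS hT hne
    rw [Finset.disjoint_left]
    intro l h1 h2
    have h3 := (hS l).1 h1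
    have h4 := (hT l).1 h2
    have e1 := h3.2.2.2.2.1.symm.trans h4.2.2.2.2.1
    have e2 := h3.2.2.2.2.2.symm.trans h4.2.2.2.2.2
    simp only [Option.some.injEq] at e1 e2
    rcases hne with h | h
    · exact h e1
    · exact h e2
  set Ra := Sa.image List.reverse with hRa
  set Rb := Sb.image List.reverse with hRb
  set Rc := Sc.image List.reverse with hRc
  have ka := mrev Sa _ _ ha
  have kb := mrev Sb _ _ hb
  have kc := mrev Sc _ _ hc
  rw [← hRa] at ka
  rw [← hRb] at kb
  rw [← hRc] at kc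
  have hne0 : ((k : ℤ) ≠ 0) := by omega
  have hne1 : ((k : ℤ) + 1 ≠ 0) := by omega
  refine ⟨Sa ∪ (Sb ∪ (Sc ∪ (Ra ∪ (Rb ∪ Rc)))), ?_, ?_⟩
  · intro l
    simp only [Finset.mem_union, ha, hb, hc, ka, kb, kc]
    constructor
    · intro h
      have key : ∀ A B, ZAdj k (.u 0) A → ZAdj k (.u 0) B → A ≠ B → ZQ k N1 N2 A B l →
          l ∈ ZP k ∧ ∀ v ∈ l, -(N1 : ℤ) ≤ v.tm ∧ v.tm < 1 + N2 := by
        rintro A B h1 h2 h3 ⟨g1, g2, g3, g4, g5, g6⟩
        exact ⟨⟨g1, g2, g3, A, B, g5, g6, h1, h2, h3⟩, g4⟩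
      rcases h with h | h | h | h | h | h
      all_goals refine key _ _ ?_ ?_ ?_ h
      all_goals simp only [zA, zB, ZAdj, ne_eq, Zx.s.injEq, true_or]
      all_goals omega
    · rintro ⟨⟨g1, g2, g3, A, B, g5, g6, h1, h2, h3⟩, g4⟩
      have hq : ZQ k N1 N2 A B l := ⟨g1, g2, g3, g4, g5, g6⟩
      have nb : ∀ C, ZAdj k (.u 0) C → C = .s 0 ∨ C = .s k ∨ C = .s (k + 1) := by
        intro C hC
        cases C with
        | s t => simpa [ZAdj] using hC
        | u t => simp [ZAdj] at hC
      rcases nb A h1 with rfl | rfl | rfl <;> rcases nb B h2 with rfl | rfl | rfl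
      · exact absurd rfl h3
      · left; exact hq
      · right; left; exact hq
      · right; right; right; left; exact hq
      · exact absurd rfl h3
      · right; right; left; exact hq
      · right; right; right; right; left; exact hq
      · right; right; right; right; right; exact hq
      · exact absurd rfl h3
  · have d : ∀ (S T : Finset (List Zx)), Disjoint S T → ∑ l ∈ S ∪ T, xc ^ l.length =
        ∑ l ∈ S, xc ^ l.length + ∑ l ∈ T, xc ^ l.length := fun S T h => Finset.sum_union h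
    rw [d, d, d, d, d, hRa, hRb, hRc, hrev, hrev, hrev, ha', hb', hc']
    · ring
    · exact disj _ _ _ _ _ _ kb kc (by simp only [zA, zB, ne_eq, Zx.s.injEq]; omega)
    · rw [Finset.disjoint_union_right]
      exact ⟨disj _ _ _ _ _ _ ka kb (by simp only [zA, zB, ne_eq, Zx.s.injEq]; omega),
        disj _ _ _ _ _ _ ka kc (by simp only [zA, zB, ne_eq, Zx.s.injEq]; omega)⟩
    · rw [Finset.disjoint_union_right, Finset.disjoint_union_right]
      exact ⟨disj _ _ _ _ _ _ hc ka (by simp only [zA, zB, ne_eq, Zx.s.injEq]; omega),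
        disj _ _ _ _ _ _ hc kb (by simp only [zA, zB, ne_eq, Zx.s.injEq]; omega),
        disj _ _ _ _ _ _ hc kc (by simp only [zA, zB, ne_eq, Zx.s.injEq]; omega)⟩
    · rw [Finset.disjoint_union_right, Finset.disjoint_union_right, Finset.disjoint_union_right]
      exact ⟨disj _ _ _ _ _ _ hb hc (by simp only [zA, zB, ne_eq, Zx.s.injEq]; omega),
        disj _ _ _ _ _ _ hb ka (by simp only [zA, zB, ne_eq, Zx.s.injEq]; omega),
        disj _ _ _ _ _ _ hb kb (by simp only [zA, zB, ne_eq, Zx.s.injEq]; omega),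
        disj _ _ _ _ _ _ hb kc (by simp only [zA, zB, ne_eq, Zx.s.injEq]; omega)⟩
    · rw [Finset.disjoint_union_right, Finset.disjoint_union_right, Finset.disjoint_union_right,
        Finset.disjoint_union_right]
      exact ⟨disj _ _ _ _ _ _ ha hb (by simp only [zA, zB, ne_eq, Zx.s.injEq]; omega),
        disj _ _ _ _ _ _ ha hc (by simp only [zA, zB, ne_eq, Zx.s.injEq]; omega),
        disj _ _ _ _ _ _ ha ka (by simp only [zA, zB, ne_eq, Zx.s.injEq]; omega),
        disj _ _ _ _ _ _ ha kb (by simp only [zA, zB, ne_eq, Zx.s.injEq]; omega),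
        disj _ _ _ _ _ _ ha kc (by simp only [zA, zB, ne_eq, Zx.s.injEq]; omega)⟩

/-- The exact value. -/
theorem cyl_exact (k : ℕ) (hk : 2 ≤ k) :
    HasSum (fun l : ZP k => xc ^ (l.1.length + 1)) (2 * xc ^ 2) := by
  have hx := xc_pos
  have hx2 : xc ^ 2 * (2 + Real.sqrt 2) = 1 := by
    have := cos_sq_val
    have h5 := xc_mu
    rw [← this, ← mul_pow, h5, one_pow]
  have key : HasSum (fun l : ZP k => xc ^ l.1.length) (2 * xc) := by
    apply hasSum_of_isLUB_of_nonneg
    · intro l; positivity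
    constructor
    · rintro _ ⟨F, rfl⟩
      refine le_of_forall_pos_le_add fun ε hε => ?_
      obtain ⟨N0, hN0⟩ := hole_lim k (by omega) xc hx hx2 (arcs_bounded k hk) (ε / 2) (by positivity)
      -- bound of the times
      obtain ⟨T, hT⟩ : ∃ T : ℕ, ∀ l ∈ F, ∀ v ∈ l.1, -(T : ℤ) ≤ v.tm ∧ v.tm < 1 + T := by
        induction F using Finset.induction_on with
        | empty => exact ⟨0, by simp⟩
        | insert l F _ ih =>
          obtain ⟨T, hT⟩ := ih
          obtain ⟨T', hT'⟩ : ∃ T' : ℕ, ∀ v ∈ l.1, -(T' : ℤ) ≤ v.tm ∧ v.tm < 1 + T' := by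
            generalize l.1 = m
            induction m with
            | nil => exact ⟨0, by simp⟩
            | cons v m ih =>
              obtain ⟨T', hT'⟩ := ih
              refine ⟨T' + v.tm.natAbs, fun w hw => ?_⟩
              rcases List.mem_cons.1 hw with rfl | hw
              · omega
              · have := hT' w hw; omega
          refine ⟨T + T', fun l' hl' v hv => ?_⟩
          rcases Finset.mem_insert.1 hl' with rfl | hl'
          · have := hT' v hv; push_cast; omega
          · have := hT l' hl' v hv; push_cast; omega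
      obtain ⟨S, hS, hS'⟩ := all_types k (by omega) (N0 + T) (N0 + T)
      have h1 : ∑ l ∈ F, xc ^ l.1.length ≤ ∑ l ∈ S, xc ^ l.length := by
        have e : ∑ l ∈ F, xc ^ l.1.length = ∑ l ∈ F.image (fun l => l.1), xc ^ l.length := by
          rw [Finset.sum_image (fun _ _ _ _ h => Subtype.ext h)]
        rw [e]
        refine Finset.sum_le_sum_of_subset_of_nonneg ?_ (fun l _ _ => by positivity)
        intro l hl
        obtain ⟨l', hl', rfl⟩ := Finset.mem_image.1 hl
        refine (hS _).2 ⟨l'.2, fun v hv => ?_⟩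
        have := hT l' hl' v hv
        push_cast
        omega
      have h2 := (abs_le.1 (hN0 (N0 + T) (N0 + T) (by omega) (by omega))).2
      linarith
    · intro b hb
      refine le_of_forall_pos_le_add fun ε hε => ?_
      obtain ⟨N0, hN0⟩ := hole_lim k (by omega) xc hx hx2 (arcs_bounded k hk) (ε / 2) (by positivity)
      obtain ⟨S, hS, hS'⟩ := all_types k (by omega) N0 N0
      have h2 := (abs_le.1 (hN0 N0 N0 le_rfl le_rfl)).1
      have h3 := hb ⟨S.attach.image (fun l => (⟨l.1, ((hS l.1).1 l.2).1⟩ : ZP k)), rfl⟩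
      have e : ∑ l ∈ S.attach.image (fun l => (⟨l.1, ((hS l.1).1 l.2).1⟩ : ZP k)), xc ^ l.1.length =
          ∑ l ∈ S, xc ^ l.length := by
        rw [Finset.sum_image]
        · exact Finset.sum_attach S (fun l => xc ^ l.length)
        · intro x _ y _ h
          exact Subtype.ext (congrArg (fun z : ZP k => z.1) h)
      simp only at h3
      rw [e] at h3
      linarith
  have h := key.mul_left xc
  have e1 : (fun l : ZP k => xc ^ (l.1.length + 1)) = fun l : ZP k => xc * xc ^ l.1.length := by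
    funext l; rw [pow_succ]; ring
  have e2 : 2 * xc ^ 2 = xc * (2 * xc) := by ring
  rw [e1, e2]
  exact h

end Pool.Agent.DEN
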