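import Mathlib

/-!
Project DEN (exact density theorem, MP_8c6f77_pr), basic definitions.

The honeycomb lattice on a helical cylinder: times `t`, two vertices `s t` (lower) and `u t` (upper) per time,
edges `s t - u t` (vertical), `u t - s (t + k)`, `u t - s (t + k + 1)` (legs). Before time `t` the open legs form a
queue (list) of `n = 2 k + 1` legs; the rhombus `t` takes the first two legs of the queue (they meet in `s t`) and
puts the two upper legs of `u t` at the end of the queue. A leg carries a spin in `{0, 1, -1}` (not used, flow
upwards, flow downwards). Everything is in the Heisenberg picture: functions `f` of the queue, the transfer operator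
maps `f` (function of the queue after the step) to a function of the queue before the step.
-/

namespace Pool.Agent.DEN

/-- The spin of a leg. -/
abbrev Sp := SignType

/-- A choice at an upper vertex: which of the two upper legs are used. -/
abbrev O := Bool × Bool

/-- Spin as an integer. -/
def ch : Sp → ℤ
  | .zero => 0
  | .pos => 1
  | .neg => -1

/-- Total spin of a queue. -/
def chg (l : List Sp) : ℤ := (l.map ch).sum

section Ops

variable {A : Type*} [CommRing A]

/-- Lower vertex: the legs `a`, `b` meet, `g` is a function of the spin of the vertical edge.
Weight `x` per used vertex, cap: `-s` on `(+,-)`, `1` on `(-,+)`. -/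
def SS (s x : A) (g : Sp → A) (a b : Sp) : A :=
  match a, b with
  | .zero, .zero => g .zero
  | .pos, .zero => x * g .pos
  | .zero, .pos => x * g .pos
  | .neg, .zero => x * g .neg
  | .zero, .neg => x * g .neg
  | .pos, .neg => -(x * s) * g .zero
  | .neg, .pos => x * g .zero
  | .pos, .pos => 0
  | .neg, .neg => 0

/-- Upper vertex with the choice `o`; `v` is the spin of the vertical edge; cup: `1` on `(+,-)`, `s` on `(-,+)`. -/
def UO (s x : A) (o : O) (f : List Sp → A) (c : List Sp) (v : Sp) : A :=
  match o, v with
  | (false, false), .zero => f (c ++ [.zero, .zero])
  | (true, true), .zero => x * f (c ++ [.pos, .neg]) + x * s * f (c ++ [.neg, .pos])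
  | (true, false), .pos => x * f (c ++ [.pos, .zero])
  | (true, false), .neg => x * f (c ++ [.neg, .zero])
  | (false, true), .pos => x * f (c ++ [.zero, .pos])
  | (false, true), .neg => x * f (c ++ [.zero, .neg])
  | _, _ => 0

/-- Upper vertex, all choices. -/
def UU (s x : A) (f : List Sp → A) (c : List Sp) (v : Sp) : A :=
  UO s x (false, false) f c v + UO s x (true, true) f c v + UO s x (true, false) f c v +
    UO s x (false, true) f c v

/-- One step with the choice `o` and the twist `tw` on the vertical edge. -/
def TO (s x : A) (tw : Sp → A) (o : O) (f : List Sp → A) : List Sp → A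
  | a :: b :: c => SS s x (fun v => tw v * UO s x o f c v) a b
  | _ => 0

/-- One step. -/
def TT (s x : A) (tw : Sp → A) (f : List Sp → A) : List Sp → A
  | a :: b :: c => SS s x (fun v => tw v * UU s x f c v) a b
  | _ => 0

/-- No twist. -/
def tw1 : Sp → A := fun _ => 1

/-- Twist `s ^ v`. -/
def twS (s : A) : Sp → A
  | .zero => 1
  | .pos => s
  | .neg => -s

/-- Twist `s ^ (-v)`. -/
def twC (s : A) : Sp → A
  | .zero => 1
  | .pos => -s
  | .neg => s

/-- Lower vertex alone, the vertical edge has spin `v`, `g` is a function of the rest of the queue. -/
def Sv (s x : A) (v : Sp) (g : List Sp → A) : List Sp → A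
  | a :: b :: c => SS s x (fun w => if w = v then g c else 0) a b
  | _ => 0

/-- The function which is `1` at `m` and `0` elsewhere. -/
def dl [DecidableEq (List Sp)] (m : List Sp) : List Sp → A := fun l => if l = m then 1 else 0

end Ops

/-- The empty queue (all legs unused) with `n` legs. -/
def vac (n : ℕ) : List Sp := List.replicate n .zero

end Pool.Agent.DEN
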