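import Pool.Agent.DEN.HolePath
import Pool.Agent.DEN.Lift
import Pool.Agent.DEN.Limit
import Pool.Agent.Hhelper14.SAW.Low

/-!
Project DEN: paths of the plane between two neighbours of the origin embed in `G_k`, `k` large.
Type `0` vertices `z` go to `u (N1 + τ z)`, type `2` vertices `y` to `s (N1 + τ (y + (1, 0)))`, `τ = FF k / 3`.
-/

namespace Pool.Agent.DEN

open Pat Pool.Agent.Hhelper14.SAW

/-- First neighbour of the origin. -/
def pA : Ty → ℤ × ℤ
  | .a => (-1, 0)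
  | .b => (-1, 0)
  | .c => (0, 1)

/-- Second neighbour of the origin. -/
def pB : Ty → ℤ × ℤ
  | .a => (0, 1)
  | .b => (1, -1)
  | .c => (1, -1)

/-- Self-avoiding paths of the plane between two neighbours of `o`, avoiding `o`. -/
def PP (ty : Ty) (l : List (ℤ × ℤ)) : Prop :=
  HChain l ∧ l.Nodup ∧ o ∉ l ∧ l.head? = some (pA ty) ∧ l.getLast? = some (pB ty)

/-- The image of a vertex of the plane in `G_k`. -/
def Ph (k N : ℕ) (z : ℤ × ℤ) : Vx :=
  if (z.1 - z.2) % 3 = 0 then .u ((N : ℤ) + FF k z / 3).toNat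
  else .s ((N : ℤ) + FF k (z.1 + 1, z.2) / 3).toNat

/-- Coordinates at most `M`. -/
def Bd (M : ℤ) (z : ℤ × ℤ) : Prop := -M ≤ z.1 ∧ z.1 ≤ M ∧ -M ≤ z.2 ∧ z.2 ≤ M

lemma FF_div (k : ℕ) (z : ℤ × ℤ) (m : ℤ) (h : z.1 - z.2 = 3 * m) :
    FF k z / 3 = k * z.2 + (2 * k + 1) * m := by
  have h1 : FF k z = (k * z.2 + (2 * k + 1) * m) * 3 := by
    have h2 : z.1 = z.2 + 3 * m := by linarith
    unfold FF
    rw [h2]; ring
  rw [h1]
  exact Int.mul_ediv_cancel _ (by norm_num)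

lemma tau_bd (k : ℕ) (M a m : ℤ) (hM : 0 ≤ M) (h1 : -M ≤ a) (h2 : a ≤ M) (h3 : -(M + 1) ≤ m) (h4 : m ≤ M + 1) :
    -((4 * k + 1) * (M + 1)) ≤ k * a + (2 * k + 1) * m ∧ k * a + (2 * k + 1) * m ≤ (4 * k + 1) * (M + 1) := by
  have hk : (0 : ℤ) ≤ k := by positivity
  constructor <;> nlinarith [mul_nonneg hk hM, mul_nonneg hk (by linarith : 0 ≤ M - a),
    mul_nonneg hk (by linarith : 0 ≤ a + M), mul_nonneg hk (by linarith : 0 ≤ m + (M + 1)),
    mul_nonneg hk (by linarith : 0 ≤ M + 1 - m)]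

lemma inj_core (k : ℕ) (M a m a' m' : ℤ) (hk : 4 * M + 4 < k) (hM : 0 ≤ M) (h3 : -(M + 1) ≤ m) (h4 : m ≤ M + 1)
    (h3' : -(M + 1) ≤ m') (h4' : m' ≤ M + 1)
    (h : (k : ℤ) * a + (2 * k + 1) * m = k * a' + (2 * k + 1) * m') : a = a' ∧ m = m' := by
  have h1 : (k : ℤ) * ((a - a') + 2 * (m - m')) = m' - m := by linarith
  have h2 : (a - a') + 2 * (m - m') = 0 := by
    by_contra hne
    rcases lt_or_gt_of_ne hne with h5 | h5
    · have : (a - a') + 2 * (m - m') ≤ -1 := by omega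
      nlinarith
    · have : 1 ≤ (a - a') + 2 * (m - m') := by omega
      nlinarith
  rw [h2] at h1
  constructor
  · linarith
  · linarith

lemma hon_of_chain : ∀ (l : List (ℤ × ℤ)) (a b : ℤ × ℤ), HChain (a :: b :: l) → ∀ z ∈ a :: b :: l, hon z := by
  intro l
  induction l with
  | nil =>
    intro a b h z hz
    have h1 : Adj a b := by
      simpa [HChain] using h
    simp only [List.mem_cons, List.not_mem_nil, or_false] at hz
    rcases hz with rfl | rfl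
    · exact h1.1
    · exact h1.2.1
  | cons c l ih =>
    intro a b h z hz
    have h1 : Adj a b ∧ HChain (b :: c :: l) := by
      simpa [HChain] using h
    rcases List.mem_cons.1 hz with rfl | hz
    · exact h1.1.1
    · exact ih b c h1.2 z hz

lemma mod0_or (z : ℤ × ℤ) (h : hon z) : (∃ m, z.1 - z.2 = 3 * m) ∨ (∃ m, z.1 + 1 - z.2 = 3 * m) := by
  unfold hon at h
  rcases (by omega : (z.1 - z.2) % 3 = 0 ∨ (z.1 - z.2) % 3 = 2) with h1 | h1
  · exact Or.inl ⟨(z.1 - z.2) / 3, by omega⟩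
  · exact Or.inr ⟨(z.1 + 1 - z.2) / 3, by omega⟩

lemma Ph_u (k N : ℕ) (z : ℤ × ℤ) (m : ℤ) (h : z.1 - z.2 = 3 * m) :
    Ph k N z = .u ((N : ℤ) + (k * z.2 + (2 * k + 1) * m)).toNat := by
  unfold Ph
  rw [if_pos (by omega), FF_div k z m h]

lemma Ph_s (k N : ℕ) (z : ℤ × ℤ) (m : ℤ) (h : z.1 + 1 - z.2 = 3 * m) :
    Ph k N z = .s ((N : ℤ) + (k * z.2 + (2 * k + 1) * m)).toNat := by
  unfold Ph
  rw [if_neg (by omega), FF_div k (z.1 + 1, z.2) m h]

lemma Ph_inj (k N : ℕ) (M : ℤ) (hM : 0 ≤ M) (hk : 4 * M + 4 < k) (hN : (4 * k + 1) * (M + 1) ≤ N)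
    (z z' : ℤ × ℤ) (hz : hon z) (hz' : hon z') (hb : Bd M z) (hb' : Bd M z') (h : Ph k N z = Ph k N z') : z = z' := by
  obtain ⟨h1, h2, h3, h4⟩ := hb
  obtain ⟨h1', h2', h3', h4'⟩ := hb'
  rcases mod0_or z hz with ⟨m, hm⟩ | ⟨m, hm⟩ <;> rcases mod0_or z' hz' with ⟨m', hm'⟩ | ⟨m', hm'⟩
  · rw [Ph_u k N z m hm, Ph_u k N z' m' hm'] at h
    have h5 := Vx.u.inj h
    have h6 := (tau_bd k M z.2 m hM h3 h4 (by omega) (by omega)).1
    have h7 := (tau_bd k M z'.2 m' hM h3' h4' (by omega) (by omega)).1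
    have h8 := inj_core k M z.2 m z'.2 m' hk hM (by omega) (by omega) (by omega) (by omega) (by omega)
    exact Prod.ext (by omega) h8.1
  · rw [Ph_u k N z m hm, Ph_s k N z' m' hm'] at h
    exact absurd h (by simp)
  · rw [Ph_s k N z m hm, Ph_u k N z' m' hm'] at h
    exact absurd h (by simp)
  · rw [Ph_s k N z m hm, Ph_s k N z' m' hm'] at h
    have h5 := Vx.s.inj h
    have h6 := (tau_bd k M z.2 m hM h3 h4 (by omega) (by omega)).1
    have h7 := (tau_bd k M z'.2 m' hM h3' h4' (by omega) (by omega)).1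
    have h8 := inj_core k M z.2 m z'.2 m' hk hM (by omega) (by omega) (by omega) (by omega) (by omega)
    exact Prod.ext (by omega) h8.1

lemma Ph_tm (k N N2 : ℕ) (M : ℤ) (hM : 0 ≤ M) (hN2 : (4 * k + 1) * (M + 1) ≤ N2)
    (z : ℤ × ℤ) (hz : hon z) (hb : Bd M z) : (Ph k N z).tm < N + 1 + N2 := by
  obtain ⟨h1, h2, h3, h4⟩ := hb
  rcases mod0_or z hz with ⟨m, hm⟩ | ⟨m, hm⟩
  · rw [Ph_u k N z m hm]
    have h7 := (tau_bd k M z.2 m hM h3 h4 (by omega) (by omega)).2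
    simp only [Vx.tm]
    omega
  · rw [Ph_s k N z m hm]
    have h7 := (tau_bd k M z.2 m hM h3 h4 (by omega) (by omega)).2
    simp only [Vx.tm]
    omega

/-- Adjacent vertices, the first of type `0`. -/
lemma Ph_adj0 (k N : ℕ) (M : ℤ) (hM : 0 ≤ M) (hN : (4 * k + 1) * (M + 1) ≤ N)
    (z y : ℤ × ℤ) (hb : Bd M z) (hb' : Bd M y) (m : ℤ) (hm : z.1 - z.2 = 3 * m) (h : Adj z y) :
    ∃ t t' : ℕ, Ph k N z = .u t' ∧ Ph k N y = .s t ∧ (t = t' ∨ t = t' + k ∨ t = t' + k + 1) := by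
  obtain ⟨h1, h2, h3, h4⟩ := hb
  obtain ⟨h1', h2', h3', h4'⟩ := hb'
  obtain ⟨hz, hy, hu⟩ := h
  have h7 := (tau_bd k M z.2 m hM h3 h4 (by omega) (by omega)).1
  rw [Ph_u k N z m hm]
  simp only [U, Prod.fst_sub, Prod.snd_sub] at hu
  unfold hon at hy
  have hcase : (y.1 = z.1 - 1 ∧ y.2 = z.2) ∨ (y.1 = z.1 ∧ y.2 = z.2 + 1) ∨ (y.1 = z.1 + 1 ∧ y.2 = z.2 - 1) := by
    omega
  rcases hcase with ⟨e1, e2⟩ | ⟨e1, e2⟩ | ⟨e1, e2⟩
  · refine ⟨_, _, rfl, Ph_s k N y m (by omega), Or.inl ?_⟩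
    rw [e2]
  · refine ⟨_, _, rfl, Ph_s k N y m (by omega), Or.inr (Or.inl ?_)⟩
    rw [e2]
    have : (k : ℤ) * (z.2 + 1) + (2 * k + 1) * m = k * z.2 + (2 * k + 1) * m + k := by ring
    rw [this]
    omega
  · refine ⟨_, _, rfl, Ph_s k N y (m + 1) (by omega), Or.inr (Or.inr ?_)⟩
    rw [e2]
    have : (k : ℤ) * (z.2 - 1) + (2 * k + 1) * (m + 1) = k * z.2 + (2 * k + 1) * m + k + 1 := by ring
    rw [this]
    omega

lemma Ph_adj (k N : ℕ) (M : ℤ) (hM : 0 ≤ M) (hN : (4 * k + 1) * (M + 1) ≤ N)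
    (z y : ℤ × ℤ) (hb : Bd M z) (hb' : Bd M y) (h : Adj z y) : GAdj k (Ph k N z) (Ph k N y) := by
  rcases mod0_or z h.1 with ⟨m, hm⟩ | ⟨m, hm⟩
  · obtain ⟨t, t', e1, e2, e3⟩ := Ph_adj0 k N M hM hN z y hb hb' m hm h
    rw [e1, e2]
    exact e3
  · have h1 := h.symm
    have hm' : ∃ m', y.1 - y.2 = 3 * m' := by
      obtain ⟨hz, hy, hu⟩ := h
      simp only [U, Prod.fst_sub, Prod.snd_sub] at hu
      unfold hon at hy
      exact ⟨(y.1 - y.2) / 3, by omega⟩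
    obtain ⟨m', hm'⟩ := hm'
    obtain ⟨t, t', e1, e2, e3⟩ := Ph_adj0 k N M hM hN y z hb' hb m' hm' h1
    rw [e1, e2]
    exact e3

lemma chain_map (k N : ℕ) (M : ℤ) (hM : 0 ≤ M) (hN : (4 * k + 1) * (M + 1) ≤ N) :
    ∀ l : List (ℤ × ℤ), HChain l → (∀ z ∈ l, Bd M z) → (l.map (Ph k N)).IsChain (GAdj k) := by
  intro l
  induction l with
  | nil => intro _ _; simp
  | cons a l ih =>
    cases l with
    | nil => intro _ _; simp
    | cons b l =>
      intro h hb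
      have h1 : Adj a b ∧ HChain (b :: l) := by simpa [HChain] using h
      have h2 := ih h1.2 (fun z hz => hb z (List.mem_cons_of_mem _ hz))
      simp only [List.map_cons] at h2 ⊢
      rw [List.isChain_cons_cons]
      exact ⟨Ph_adj k N M hM hN a b (hb a (by simp)) (hb b (by simp)) h1.1, h2⟩

lemma Bd_mono {M M' : ℤ} (h : M ≤ M') {z : ℤ × ℤ} (hz : Bd M z) : Bd M' z := by
  obtain ⟨h1, h2, h3, h4⟩ := hz
  exact ⟨by linarith, by linarith, by linarith, by linarith⟩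

lemma bd_list (l : List (ℤ × ℤ)) : ∃ M : ℤ, 0 ≤ M ∧ ∀ z ∈ l, Bd M z := by
  induction l with
  | nil => exact ⟨0, le_rfl, by simp⟩
  | cons a l ih =>
    obtain ⟨M, hM, h⟩ := ih
    refine ⟨M + |a.1| + |a.2|, by positivity, ?_⟩
    intro z hz
    have p1 := abs_nonneg a.1
    have p2 := abs_nonneg a.2
    rcases List.mem_cons.1 hz with rfl | hz
    · have h1 := neg_abs_le z.1
      have h2 := le_abs_self z.1
      have h3 := neg_abs_le z.2
      have h4 := le_abs_self z.2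
      exact ⟨by linarith, by linarith, by linarith, by linarith⟩
    · exact Bd_mono (by linarith) (h z hz)

lemma bd_fin (P : Finset (List (ℤ × ℤ))) : ∃ M : ℤ, 0 ≤ M ∧ ∀ l ∈ P, ∀ z ∈ l, Bd M z := by
  induction P using Finset.induction_on with
  | empty => exact ⟨0, le_rfl, by simp⟩
  | insert a s _ ih =>
    obtain ⟨M, hM, h⟩ := ih
    obtain ⟨M', hM', h'⟩ := bd_list a
    refine ⟨M + M', by linarith, ?_⟩
    intro l hl z hz
    rcases Finset.mem_insert.1 hl with rfl | hl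
    · exact Bd_mono (by linarith) (h' z hz)
    · exact Bd_mono (by linarith) (h l hl z hz)

lemma PP_hon {ty : Ty} {l : List (ℤ × ℤ)} (h : PP ty l) : ∀ z ∈ l, hon z := by
  obtain ⟨hc, -, -, hh, hl⟩ := h
  match l, hc, hh, hl with
  | [], _, hh, _ => simp at hh
  | [a], _, hh, hl =>
    simp only [List.head?_cons, Option.some.injEq, List.getLast?_singleton] at hh hl
    rw [hh] at hl
    exact absurd hl (by cases ty <;> simp [pA, pB])
  | a :: b :: l, hc, _, _ => exact hon_of_chain l a b hc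

theorem emb_le (ty : Ty) (P : Finset (List (ℤ × ℤ))) (hP : ∀ l ∈ P, PP ty l) :
    ∃ k0 : ℕ, ∀ k, k0 ≤ k → ∃ N0 : ℕ, ∀ N1 N2, N0 ≤ N1 → N0 ≤ N2 →
      ∑ l ∈ P, xc ^ l.length ≤ hmass xc ty (2 * k + 1) N1 N2 := by
  obtain ⟨M, hM, hB⟩ := bd_fin P
  refine ⟨(4 * M + 5).toNat, fun k hk => ⟨((4 * (k : ℤ) + 1) * (M + 1)).toNat, fun N1 N2 h1 h2 => ?_⟩⟩
  have hk' : 4 * M + 4 < k := by omega
  have hN1 : (4 * (k : ℤ) + 1) * (M + 1) ≤ N1 := by omega
  have hN2 : (4 * (k : ℤ) + 1) * (M + 1) ≤ N2 := by omega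
  obtain ⟨P', hP', hm⟩ := hole_path k (by omega) xc xc_pos.le ty N1 N2
  rw [hm]
  have hinj : Set.InjOn (List.map (Ph k N1)) (P : Set (List (ℤ × ℤ))) := by
    intro l hl l' hl' he
    have q1 := hB l hl
    have q2 := hB l' hl'
    have q3 := PP_hon (hP l hl)
    have q4 := PP_hon (hP l' hl')
    clear hl hl' hP hP' hm
    induction l generalizing l' with
    | nil =>
      cases l' with
      | nil => rfl
      | cons a l' => simp at he
    | cons a l ih =>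
      cases l' with
      | nil => simp at he
      | cons b l' =>
        simp only [List.map_cons, List.cons.injEq] at he
        have e1 := Ph_inj k N1 M hM hk' hN1 a b (q3 a (by simp)) (q4 b (by simp)) (q1 a (by simp))
          (q2 b (by simp)) he.1
        have e2 := ih he.2 (fun z hz => q1 z (List.mem_cons_of_mem _ hz))
          (fun z hz => q2 z (List.mem_cons_of_mem _ hz)) (fun z hz => q3 z (List.mem_cons_of_mem _ hz))
          (fun z hz => q4 z (List.mem_cons_of_mem _ hz))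
        rw [e1, e2]
  have hsub : P.image (List.map (Ph k N1)) ⊆ P' := by
    intro l' hl'
    obtain ⟨l, hl, rfl⟩ := Finset.mem_image.1 hl'
    have hpl := hP l hl
    have hhon := PP_hon hpl
    have hbd := hB l hl
    obtain ⟨hc, hnd, hno, hh, hlast⟩ := hpl
    rw [hP']
    refine ⟨chain_map k N1 M hM hN1 l hc hbd, ?_, ?_, ?_, ?_, ?_⟩
    · refine List.Nodup.map_on ?_ hnd
      intro x hx y hy hxy
      exact Ph_inj k N1 M hM hk' hN1 x y (hhon x hx) (hhon y hy) (hbd x hx) (hbd y hy) hxy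
    · intro v hv
      obtain ⟨z, hz, rfl⟩ := List.mem_map.1 hv
      exact Ph_tm k N1 N2 M hM hN2 z (hhon z hz) (hbd z hz)
    · intro hv
      obtain ⟨z, hz, he⟩ := List.mem_map.1 hv
      have e0 : Ph k N1 o = .u N1 := by
        rw [Ph_u k N1 o 0 (by simp [o])]
        simp [o]
      have e1 := Ph_inj k N1 M hM hk' hN1 z o (hhon z hz) (by decide) (hbd z hz)
        ⟨by simp [o, hM], by simp [o, hM], by simp [o, hM], by simp [o, hM]⟩ (he.trans e0.symm)
      exact hno (e1 ▸ hz)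
    · rw [List.head?_map, hh]
      cases ty
      · show some (Ph k N1 (-1, 0)) = some (Vx.s N1)
        rw [Ph_s k N1 (-1, 0) 0 (by norm_num)]
        simp
      · show some (Ph k N1 (-1, 0)) = some (Vx.s N1)
        rw [Ph_s k N1 (-1, 0) 0 (by norm_num)]
        simp
      · show some (Ph k N1 (0, 1)) = some (Vx.s (N1 + k))
        rw [Ph_s k N1 (0, 1) 0 (by norm_num)]
        have : ((N1 : ℤ) + (k * (1 : ℤ) + (2 * k + 1) * 0)).toNat = N1 + k := by
          rw [mul_zero, mul_one, add_zero]; omega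
        rw [this]
    · rw [List.getLast?_map, hlast]
      cases ty
      · show some (Ph k N1 (0, 1)) = some (Vx.s (N1 + k))
        rw [Ph_s k N1 (0, 1) 0 (by norm_num)]
        have : ((N1 : ℤ) + (k * (1 : ℤ) + (2 * k + 1) * 0)).toNat = N1 + k := by
          rw [mul_zero, mul_one, add_zero]; omega
        rw [this]
      · show some (Ph k N1 (1, -1)) = some (Vx.s (N1 + k + 1))
        rw [Ph_s k N1 (1, -1) 1 (by norm_num)]
        have : ((N1 : ℤ) + (k * (-1 : ℤ) + (2 * k + 1) * 1)).toNat = N1 + k + 1 := by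
          rw [mul_one, mul_neg, mul_one]; omega
        rw [this]
      · show some (Ph k N1 (1, -1)) = some (Vx.s (N1 + k + 1))
        rw [Ph_s k N1 (1, -1) 1 (by norm_num)]
        have : ((N1 : ℤ) + (k * (-1 : ℤ) + (2 * k + 1) * 1)).toNat = N1 + k + 1 := by
          rw [mul_one, mul_neg, mul_one]; omega
        rw [this]
  calc ∑ l ∈ P, xc ^ l.length = ∑ l ∈ P.image (List.map (Ph k N1)), xc ^ l.length := by
        rw [Finset.sum_image hinj]
        exact Finset.sum_congr rfl (fun l _ => by rw [List.length_map])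
    _ ≤ ∑ l ∈ P', xc ^ l.length :=
        Finset.sum_le_sum_of_subset_of_nonneg hsub (fun l _ _ => pow_nonneg xc_pos.le _)

/-- The bound in the plane. -/
theorem plane_le (Pa Pb Pc : Finset (List (ℤ × ℤ))) (ha : ∀ l ∈ Pa, PP .a l) (hb : ∀ l ∈ Pb, PP .b l)
    (hc : ∀ l ∈ Pc, PP .c l) :
    ∑ l ∈ Pa, xc ^ l.length + ∑ l ∈ Pb, xc ^ l.length + ∑ l ∈ Pc, xc ^ l.length ≤ xc := by
  obtain ⟨ka, hka⟩ := emb_le .a Pa ha
  obtain ⟨kb, hkb⟩ := emb_le .b Pb hb
  obtain ⟨kc, hkc⟩ := emb_le .c Pc hc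
  obtain ⟨k, h1, h2, h3, h4⟩ : ∃ k : ℕ, ka ≤ k ∧ kb ≤ k ∧ kc ≤ k ∧ 2 ≤ k :=
    ⟨ka + kb + kc + 2, by omega, by omega, by omega, by omega⟩
  obtain ⟨Na, hNa⟩ := hka k h1
  obtain ⟨Nb, hNb⟩ := hkb k h2
  obtain ⟨Nc, hNc⟩ := hkc k h3
  refine le_of_forall_pos_le_add fun ε hε => ?_
  have hx2 : xc ^ 2 * (2 + Real.sqrt 2) = 1 := by
    have := cos_sq_val
    have h5 := xc_mu
    rw [← this, ← mul_pow, h5, one_pow]
  obtain ⟨N0, hN0⟩ := hole_lim k (by omega) xc xc_pos hx2 (arcs_bounded k h4) ε hε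
  have h6 := hN0 (Na + Nb + Nc + N0) (Na + Nb + Nc + N0) (by omega) (by omega)
  have h7 := hNa (Na + Nb + Nc + N0) (Na + Nb + Nc + N0) (by omega) (by omega)
  have h8 := hNb (Na + Nb + Nc + N0) (Na + Nb + Nc + N0) (by omega) (by omega)
  have h9 := hNc (Na + Nb + Nc + N0) (Na + Nb + Nc + N0) (by omega) (by omega)
  have h10 := (abs_le.1 h6).2
  linarith

end Pool.Agent.DEN
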