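import Pool.Agent.DEN.Emb
import Pool.Agent.Hhelper14.SAW.Main
import Pool.Agent.Hhelper14.SAW.Quant

/-!
Project DEN: the bound in the words of the problem. Two disjoint paths whose last vertices have a common unvisited
neighbour form, together with this neighbour, a self-avoiding polygon.
-/

namespace Pool.Agent.DEN

open Pool.Agent.Hhelper14.Honeycomb Pool.Agent.Hhelper14.SAW

/-- The pairs of paths of length `n` which are disjoint (except for the origin) and whose last vertices have a common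
neighbour which is visited by neither of them. -/
def EP (n : ℕ) : Set ((Fin (n + 1) → ℂ) × (Fin (n + 1) → ℂ)) :=
  {q | q ∈ Pairs n ∧ ∃ z ∈ V, dist z (q.1 (Fin.last n)) = 1 ∧ dist z (q.2 (Fin.last n)) = 1 ∧
    (∀ i, q.1 i ≠ z) ∧ (∀ i, q.2 i ≠ z)}

/-! ### The double walk around the common neighbour -/

/-- The two-sided walk, from the last vertex of `p` to the last vertex of `p'`. -/
def evgg (n : ℕ) (p p' : ℕ → ℤ × ℤ) (i : ℕ) : ℤ × ℤ := if i ≤ n then p (n - i) else p' (i - n)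

lemma evgg_adj {n : ℕ} {p p' : ℕ → ℤ × ℤ} (hp : Fw n p) (hp' : Fw n p') :
    ∀ i < 2 * n, Adj (evgg n p p' i) (evgg n p p' (i + 1)) := by
  intro i hi
  unfold evgg
  by_cases h1 : i + 1 ≤ n
  · rw [if_pos h1, if_pos (by omega)]
    have := hp.2.1 (n - (i + 1)) (by omega)
    have e : n - (i + 1) + 1 = n - i := by omega
    rw [e] at this
    exact this
  · rw [if_neg h1]
    by_cases h2 : i ≤ n
    · have e : i = n := by omega
      subst e
      rw [if_pos le_rfl, Nat.sub_self, hp.1, ← hp'.1]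
      have e2 : i + 1 - i = 0 + 1 := by omega
      rw [e2]
      exact (hp'.2.1 0 (by omega)).symm
    · rw [if_neg h2]
      have e : i + 1 - n = i - n + 1 := by omega
      rw [e]
      exact (hp'.2.1 (i - n) (by omega)).symm

lemma evgg_inj {n : ℕ} {p p' : ℕ → ℤ × ℤ} (hp : Fw n p) (hp' : Fw n p')
    (hd : ∀ i ≤ n, ∀ j ≤ n, i ≠ 0 → p i ≠ p' j) :
    ∀ i ≤ 2 * n, ∀ j ≤ 2 * n, evgg n p p' i = evgg n p p' j → i = j := by
  intro i hi j hj h
  unfold evgg at h
  split_ifs at h with h1 h2 h2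
  · have := hp.2.2 _ (by omega) _ (by omega) h
    omega
  · exfalso
    by_cases h3 : n - i = 0
    · rw [h3, hp.1, ← hp'.1] at h
      have := hp'.2.2 _ (by omega) _ (by omega) h
      omega
    · exact hd _ (by omega) _ (by omega) h3 h
  · exfalso
    by_cases h3 : n - j = 0
    · rw [h3, hp.1, ← hp'.1] at h
      have := hp'.2.2 _ (by omega) _ (by omega) h
      omega
    · exact hd _ (by omega) _ (by omega) h3 h.symm
  · have := hp'.2.2 _ (by omega) _ (by omega) h
    omega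

/-- `EP` in terms of lists. -/
def EPL (n : ℕ) : Set (List (ℤ × ℤ) × List (ℤ × ℤ)) :=
  {q | q ∈ PairsL n ∧ ∃ z, Adj z (pt q.1 n) ∧ Adj z (pt q.2 n) ∧
    (∀ i ≤ n, pt q.1 i ≠ z) ∧ (∀ i ≤ n, pt q.2 i ≠ z)}

lemma epl_finite (n : ℕ) : (EPL n).Finite := (pairsL_finite n).subset (fun _ h => h.1)

lemma EP_le_EPL (n : ℕ) : (EP n).ncard ≤ (EPL n).ncard := by
  have h : EP n ⊆ (fun q : List (ℤ × ℤ) × List (ℤ × ℤ) => (G n q.1, G n q.2)) '' EPL n := by
    rintro ⟨w, w'⟩ ⟨⟨h1, h2, h3⟩, z, hz, hz1, hz2, hz3, hz4⟩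
    simp only at h1 h2 h3 hz1 hz2 hz3 hz4
    obtain ⟨P, g1, g2⟩ := G_surj h1
    obtain ⟨P', g1', g2'⟩ := G_surj h2
    obtain ⟨y, hy, rfl⟩ := mem_V.1 hz
    refine ⟨(P, P'), ⟨⟨g1, g1', ?_⟩, y, ?_, ?_, ?_, ?_⟩, by simp only [g2, g2']⟩
    · intro i hi j hj hi0 heq
      have := h3 ⟨i, by omega⟩ ⟨j, by omega⟩ (by
        intro h; apply hi0
        have := congrArg Fin.val h
        simpa using this)
      apply this
      rw [← g2, ← g2']
      simp only [G]
      rw [heq]
    · rw [← g2] at hz1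
      exact ⟨hy, fw_hon (fw_pt g1) n le_rfl, (dist_emb _ _).1 hz1⟩
    · rw [← g2'] at hz2
      exact ⟨hy, fw_hon (fw_pt g1') n le_rfl, (dist_emb _ _).1 hz2⟩
    · intro i hi h
      apply hz3 ⟨i, by omega⟩
      rw [← g2]
      simp only [G]
      rw [h]
    · intro i hi h
      apply hz4 ⟨i, by omega⟩
      rw [← g2']
      simp only [G]
      rw [h]
  exact (Set.ncard_le_ncard h ((epl_finite n).image _)).trans (Set.ncard_image_le (epl_finite n))

open Classical in
/-- A common neighbour. -/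
noncomputable def evctr (n : ℕ) (q : List (ℤ × ℤ) × List (ℤ × ℤ)) : ℤ × ℤ :=
  if h : q ∈ EPL n then h.2.choose else o

lemma evctr_spec {n : ℕ} {q : List (ℤ × ℤ) × List (ℤ × ℤ)} (h : q ∈ EPL n) :
    Adj (evctr n q) (pt q.1 n) ∧ Adj (evctr n q) (pt q.2 n) ∧ (∀ i ≤ n, pt q.1 i ≠ evctr n q) ∧
      (∀ i ≤ n, pt q.2 i ≠ evctr n q) := by
  unfold evctr
  rw [dif_pos h]
  exact h.2.choose_spec

/-- The path around the origin. -/
noncomputable def evlst (n : ℕ) (q : List (ℤ × ℤ) × List (ℤ × ℤ)) : List (ℤ × ℤ) :=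
  (List.range (2 * n + 1)).map (fun i => rv (n + 1) (evctr n q) (evgg n (pt q.1) (pt q.2) i))

lemma evlst_length (n : ℕ) (q : List (ℤ × ℤ) × List (ℤ × ℤ)) : (evlst n q).length = 2 * n + 1 := by
  simp [evlst]

lemma evctr_type {n : ℕ} {q : List (ℤ × ℤ) × List (ℤ × ℤ)} (h : q ∈ EPL n) :
    ((evctr n q).1 - (evctr n q).2) % 3 = if (n + 1) % 2 = 0 then 0 else 2 := by
  have h1 := fw_type (fw_pt h.1.1) n le_rfl
  obtain ⟨g1, g2, g3⟩ := (evctr_spec h).1
  simp only [hon, U, Prod.fst_sub, Prod.snd_sub] at g1 g2 g3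
  split_ifs at h1 ⊢ <;> omega

lemma evlst_inj (n : ℕ) : Set.InjOn (evlst n) (EPL n) := by
  rintro ⟨P, P'⟩ hq ⟨R, R'⟩ hr heq
  have h1 := hq.1
  have g1 := hr.1
  obtain ⟨h1, h2, h3⟩ := h1
  obtain ⟨g1, g2, g3⟩ := g1
  simp only at h1 h2 g1 g2
  have hall : ∀ i ≤ 2 * n, rv (n + 1) (evctr n (P, P')) (evgg n (pt P) (pt P') i) =
      rv (n + 1) (evctr n (R, R')) (evgg n (pt R) (pt R') i) := by
    intro i hi
    have := congrArg (fun l : List (ℤ × ℤ) => l[i]?) heq
    simp only [evlst, List.getElem?_map] at this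
    rw [List.getElem?_range (by omega)] at this
    simpa using this
  have hn := hall n (by omega)
  simp only [evgg, if_pos (le_refl n), Nat.sub_self, (fw_pt h1).1, (fw_pt g1).1] at hn
  have hc := rv_o hn
  have hall2 : ∀ i ≤ 2 * n, evgg n (pt P) (pt P') i = evgg n (pt R) (pt R') i := by
    intro i hi
    have := hall i hi
    rw [hc] at this
    exact rv_inj this
  have hP : P = R := by
    refine pt_ext h1.1 g1.1 ?_
    intro i hi
    have := hall2 (n - i) (by omega)
    simp only [evgg, if_pos (Nat.sub_le n i)] at this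
    have e : n - (n - i) = i := by omega
    rwa [e] at this
  have hP' : P' = R' := by
    refine pt_ext h2.1 g2.1 ?_
    intro i hi
    rcases Nat.eq_zero_or_pos i with rfl | hpos
    · rw [(fw_pt h2).1, (fw_pt g2).1]
    · have := hall2 (n + i) (by omega)
      have e0 : ¬ (n + i ≤ n) := by omega
      simp only [evgg, if_neg e0] at this
      have e : n + i - n = i := by omega
      rwa [e] at this
  rw [hP, hP']

lemma evnbr_o {y : ℤ × ℤ} (h : Adj y o) : y = (-1, 0) ∨ y = (0, 1) ∨ y = (1, -1) := by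
  obtain ⟨a, b⟩ := y
  obtain ⟨h1, -, h3⟩ := h
  simp only [hon, U, o, Prod.mk_sub_mk, Prod.mk.injEq] at *
  omega

lemma evlst_pp {n : ℕ} (hn : 1 ≤ n) {q : List (ℤ × ℤ) × List (ℤ × ℤ)} (h : q ∈ EPL n) :
    ∃ ty, PP ty (evlst n q) ∨ PP ty (evlst n q).reverse := by
  obtain ⟨h1, h2, h3, h4⟩ := evctr_spec h
  have ht := evctr_type h
  have hp := fw_pt h.1.1
  have hp' := fw_pt h.1.2.1
  have hd := h.1.2.2
  have hgi := evgg_inj hp hp' hd
  have hga := evgg_adj hp hp'
  set z := evctr n q with hz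
  set f : ℕ → ℤ × ℤ := fun i => rv (n + 1) z (evgg n (pt q.1) (pt q.2) i) with hf
  have hel : evlst n q = (List.range (2 * n + 1)).map f := rfl
  have hchain : HChain (evlst n q) := by
    rw [hel]
    unfold HChain
    rw [List.isChain_map, List.isChain_range_succ]
    intro m hm
    exact rv_adj ht (hga m hm)
  have hnodup : (evlst n q).Nodup := by
    rw [hel]
    refine (List.nodup_map_iff_inj_on List.nodup_range).2 ?_
    intro i hi j hj hij
    rw [List.mem_range] at hi hj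
    exact hgi i (by omega) j (by omega) (rv_inj hij)
  have hoz : o = rv (n + 1) z z := (rv_self _ _).symm
  have ho : o ∉ evlst n q := by
    rw [hel, List.mem_map]
    rintro ⟨i, hi, hi2⟩
    rw [List.mem_range] at hi
    rw [hoz] at hi2
    have h5 := rv_inj hi2
    unfold evgg at h5
    split_ifs at h5 with h6
    · exact h3 _ (by omega) h5
    · exact h4 _ (by omega) h5
  have hhead : (evlst n q).head? = some (f 0) := by
    rw [hel, List.range_succ_eq_map]; simp
  have hlast : (evlst n q).getLast? = some (f (2 * n)) := by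
    rw [hel, List.range_succ]; simp
  have hA : Adj (f 0) o := by
    rw [hoz]
    refine rv_adj ht ?_
    simp only [evgg, Nat.zero_le, if_true, Nat.sub_zero]
    exact h1.symm
  have hB : Adj (f (2 * n)) o := by
    rw [hoz]
    refine rv_adj ht ?_
    have e1 : ¬ (2 * n ≤ n) := by omega
    have e2 : 2 * n - n = n := by omega
    simp only [evgg, if_neg e1, e2]
    exact h2.symm
  have hne : f 0 ≠ f (2 * n) := by
    intro he
    have := hgi 0 (by omega) (2 * n) le_rfl (rv_inj he)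
    omega
  have key : ∀ ty, f 0 = pA ty → f (2 * n) = pB ty → PP ty (evlst n q) := by
    intro ty ha hb
    exact ⟨hchain, hnodup, ho, by rw [hhead, ha], by rw [hlast, hb]⟩
  have key2 : ∀ ty, f 0 = pB ty → f (2 * n) = pA ty → PP ty (evlst n q).reverse := by
    intro ty ha hb
    refine ⟨?_, List.nodup_reverse.2 hnodup, fun h => ho (List.mem_reverse.1 h), ?_, ?_⟩
    · exact List.isChain_reverse.2 (List.IsChain.imp (fun _ _ hh => hh.symm) hchain)
    · rw [List.head?_reverse, hlast, hb]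
    · rw [List.getLast?_reverse, hhead, ha]
  rcases evnbr_o hA with ha | ha | ha <;> rcases evnbr_o hB with hb | hb | hb
  · exact absurd (ha.trans hb.symm) hne
  · exact ⟨.a, Or.inl (key .a ha hb)⟩
  · exact ⟨.b, Or.inl (key .b ha hb)⟩
  · exact ⟨.a, Or.inr (key2 .a ha hb)⟩
  · exact absurd (ha.trans hb.symm) hne
  · exact ⟨.c, Or.inl (key .c ha hb)⟩
  · exact ⟨.b, Or.inr (key2 .b ha hb)⟩
  · exact ⟨.c, Or.inr (key2 .c ha hb)⟩
  · exact absurd (ha.trans hb.symm) hne

theorem EP_count (M : ℕ) : ∃ Pa Pb Pc : Finset (List (ℤ × ℤ)), (∀ l ∈ Pa, PP .a l) ∧ (∀ l ∈ Pb, PP .b l) ∧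
    (∀ l ∈ Pc, PP .c l) ∧
    ∑ n ∈ Finset.Icc 1 M, ((EP n).ncard : ℝ) * xc ^ (2 * n + 1) ≤
      2 * (∑ l ∈ Pa, xc ^ l.length + ∑ l ∈ Pb, xc ^ l.length + ∑ l ∈ Pc, xc ^ l.length) := by
  classical
  have hx := xc_pos
  let T : ℕ → Finset (List (ℤ × ℤ)) := fun n => (epl_finite n).toFinset.image (evlst n)
  have hTlen : ∀ n, ∀ l ∈ T n, l.length = 2 * n + 1 := by
    intro n l hl
    obtain ⟨q, -, rfl⟩ := Finset.mem_image.1 hl
    exact evlst_length n q
  let A : Finset (List (ℤ × ℤ)) := (Finset.Icc 1 M).biUnion T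
  have hApp : ∀ l ∈ A, ∃ ty, PP ty l ∨ PP ty l.reverse := by
    intro l hl
    obtain ⟨n, hn, hl⟩ := Finset.mem_biUnion.1 hl
    obtain ⟨q, hq, rfl⟩ := Finset.mem_image.1 hl
    exact evlst_pp (Finset.mem_Icc.1 hn).1 ((epl_finite n).mem_toFinset.1 hq)
  let S : Ty → Finset (List (ℤ × ℤ)) := fun ty =>
    A.filter (fun l => PP ty l) ∪ (A.filter (fun l => PP ty l.reverse)).image List.reverse
  have hS : ∀ ty, ∀ l ∈ S ty, PP ty l := by
    intro ty l hl
    rcases Finset.mem_union.1 hl with hl | hl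
    · exact (Finset.mem_filter.1 hl).2
    · obtain ⟨l', hl', rfl⟩ := Finset.mem_image.1 hl
      exact (Finset.mem_filter.1 hl').2
  have hSA : ∀ ty, ∑ l ∈ A.filter (fun l => PP ty l), xc ^ l.length ≤ ∑ l ∈ S ty, xc ^ l.length := by
    intro ty
    exact Finset.sum_le_sum_of_subset_of_nonneg Finset.subset_union_left (fun _ _ _ => by positivity)
  have hSB : ∀ ty, ∑ l ∈ A.filter (fun l => PP ty l.reverse), xc ^ l.length ≤ ∑ l ∈ S ty, xc ^ l.length := by
    intro ty
    have e : ∑ l ∈ (A.filter (fun l => PP ty l.reverse)).image List.reverse, xc ^ l.length =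
        ∑ l ∈ A.filter (fun l => PP ty l.reverse), xc ^ l.length := by
      rw [Finset.sum_image (fun a _ b _ h => List.reverse_injective h)]
      refine Finset.sum_congr rfl fun l _ => by rw [List.length_reverse]
    rw [← e]
    exact Finset.sum_le_sum_of_subset_of_nonneg Finset.subset_union_right (fun _ _ _ => by positivity)
  refine ⟨S .a, S .b, S .c, hS .a, hS .b, hS .c, ?_⟩
  have h1 : ∑ n ∈ Finset.Icc 1 M, ((EP n).ncard : ℝ) * xc ^ (2 * n + 1) ≤ ∑ l ∈ A, xc ^ l.length := by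
    have hdis : ∀ n ∈ Finset.Icc 1 M, ∀ m ∈ Finset.Icc 1 M, n ≠ m → Disjoint (T n) (T m) := by
      intro n _ m _ hnm
      rw [Finset.disjoint_left]
      intro l hl hl'
      have a1 := hTlen n l hl
      have a2 := hTlen m l hl'
      omega
    have e : ∑ l ∈ A, xc ^ l.length = ∑ n ∈ Finset.Icc 1 M, ∑ l ∈ T n, xc ^ l.length :=
      Finset.sum_biUnion hdis
    rw [e]
    refine Finset.sum_le_sum fun n _ => ?_
    have e2 : ∑ l ∈ T n, xc ^ l.length = ((T n).card : ℝ) * xc ^ (2 * n + 1) := by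
      rw [Finset.sum_congr rfl (fun l hl => by rw [hTlen n l hl]), Finset.sum_const, nsmul_eq_mul]
    rw [e2]
    refine mul_le_mul_of_nonneg_right ?_ (by positivity)
    have e3 : (T n).card = (EPL n).ncard := by
      rw [Set.ncard_eq_toFinset_card _ (epl_finite n)]
      refine Finset.card_image_of_injOn ?_
      intro q hq q' hq' hqq
      exact evlst_inj n ((epl_finite n).mem_toFinset.1 hq) ((epl_finite n).mem_toFinset.1 hq') hqq
    rw [e3]
    exact_mod_cast EP_le_EPL n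
  have h2 : ∑ l ∈ A, xc ^ l.length ≤
      (∑ l ∈ A.filter (fun l => PP .a l), xc ^ l.length + ∑ l ∈ A.filter (fun l => PP .a l.reverse), xc ^ l.length) +
      (∑ l ∈ A.filter (fun l => PP .b l), xc ^ l.length + ∑ l ∈ A.filter (fun l => PP .b l.reverse), xc ^ l.length) +
      (∑ l ∈ A.filter (fun l => PP .c l), xc ^ l.length +
        ∑ l ∈ A.filter (fun l => PP .c l.reverse), xc ^ l.length) := by
    simp only [Finset.sum_filter]
    rw [← Finset.sum_add_distrib, ← Finset.sum_add_distrib, ← Finset.sum_add_distrib, ← Finset.sum_add_distrib,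
      ← Finset.sum_add_distrib]
    refine Finset.sum_le_sum fun l hl => ?_
    have hpos : 0 ≤ xc ^ l.length := by positivity
    have hnn : ∀ (p : Prop) [Decidable p], 0 ≤ (if p then xc ^ l.length else 0) := by
      intro p _
      split_ifs
      · exact hpos
      · exact le_rfl
    have n1 := hnn (PP .a l)
    have n2 := hnn (PP .a l.reverse)
    have n3 := hnn (PP .b l)
    have n4 := hnn (PP .b l.reverse)
    have n5 := hnn (PP .c l)
    have n6 := hnn (PP .c l.reverse)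
    obtain ⟨ty, h | h⟩ := hApp l hl
    · cases ty <;> rw [if_pos h] at * <;> linarith
    · cases ty <;> rw [if_pos h] at * <;> linarith
  have a1 := hSA .a
  have a2 := hSB .a
  have b1 := hSA .b
  have b2 := hSB .b
  have c1 := hSA .c
  have c2 := hSB .c
  linarith

/-- The bound in the words of the problem. -/
theorem event_bound (M : ℕ) :
    ∑ n ∈ Finset.Icc 1 M, ((a n : ℝ) / muL ^ n) ^ 2 * (((EP n).ncard : ℝ) / (a n : ℝ) ^ 2) ≤ 2 := by
  obtain ⟨Pa, Pb, Pc, ha, hb, hc, h⟩ := EP_count M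
  have h1 := plane_le Pa Pb Pc ha hb hc
  have hx := xc_pos
  have hmu : muL = mu := muL_eq hw_quant
  have e : ∀ n ∈ Finset.Icc 1 M, ((a n : ℝ) / muL ^ n) ^ 2 * (((EP n).ncard : ℝ) / (a n : ℝ) ^ 2) =
      (((EP n).ncard : ℝ) * xc ^ (2 * n + 1)) * xc⁻¹ := by
    intro n _
    have hp := a_pos n
    have hm : xc * mu = 1 := xc_mu
    have hmp := mu_pos
    rw [hmu]
    have e1 : ((a n : ℝ) / mu ^ n) ^ 2 * (((EP n).ncard : ℝ) / (a n : ℝ) ^ 2) = ((EP n).ncard : ℝ) / mu ^ (2 * n) := by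
      rw [pow_mul']
      field_simp
    have e2 : (xc ^ (2 * n + 1)) * xc⁻¹ = 1 / mu ^ (2 * n) := by
      rw [pow_succ, mul_assoc, mul_inv_cancel₀ hx.ne', mul_one, eq_div_iff (by positivity), ← mul_pow, hm, one_pow]
    rw [e1, mul_assoc, e2]
    ring
  rw [Finset.sum_congr rfl e, ← Finset.sum_mul]
  have h2 : (∑ n ∈ Finset.Icc 1 M, ((EP n).ncard : ℝ) * xc ^ (2 * n + 1)) * xc⁻¹ ≤ (2 * xc) * xc⁻¹ :=
    mul_le_mul_of_nonneg_right (le_trans h (by linarith)) (inv_pos.2 hx).le
  have h3 : (2 * xc) * xc⁻¹ = 2 := by field_simp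
  rw [h3] at h2
  exact h2

end Pool.Agent.DEN
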