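import Pool.Agent.DEN.Net

/-!
Project DEN: the helical honeycomb `G_k` as a network; `n = 2 k + 1`.
-/

namespace Pool.Agent.DEN

/-- Vertices of `G_k`. -/
inductive Vx
  | s (t : ℕ) : Vx
  | u (t : ℕ) : Vx
  deriving DecidableEq

/-- Edges of `G_k`: `inl j` = leg `j`, `inr t` = vertical edge at time `t`. -/
abbrev Ed := ℕ ⊕ ℕ

/-- Time of a vertex. -/
def Vx.tm : Vx → ℕ
  | s t => t
  | u t => t

/-- The three edges of a vertex. -/
def ginc (n : ℕ) : Vx → Fin 3 → Ed
  | .s t => ![Sum.inl (2 * t), Sum.inl (2 * t + 1), Sum.inr t]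
  | .u t => ![Sum.inr t, Sum.inl (2 * t + n), Sum.inl (2 * t + n + 1)]

/-- The signs: `+` = incoming, `-` = outgoing (flow upwards). -/
def gsg : Vx → Fin 3 → ℤ
  | .s _ => ![1, 1, -1]
  | .u _ => ![1, -1, -1]

/-- Vertices with time less than `N`. -/
def VV (N : ℕ) : Finset Vx := (Finset.range N).image Vx.s ∪ (Finset.range N).image Vx.u

theorem mem_VV (N : ℕ) (v : Vx) : v ∈ VV N ↔ v.tm < N := by
  cases v <;> simp [VV, Vx.tm]

/-- The edges used by a list of choices. -/
def supp (n : ℕ) (F : List O) : Finset Ed :=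
  ((Finset.range F.length).filter (fun t => (F.getD t (false, false)).1 = true)).image
      (fun t => (Sum.inl (2 * t + n) : Ed)) ∪
  ((Finset.range F.length).filter (fun t => (F.getD t (false, false)).2 = true)).image
      (fun t => (Sum.inl (2 * t + n + 1) : Ed)) ∪
  ((Finset.range F.length).filter
      (fun t => (F.getD t (false, false)).1 ≠ (F.getD t (false, false)).2)).image (fun t => (Sum.inr t : Ed))

theorem gk_ok (n : ℕ) (hn : 2 ≤ n) : NetOK (ginc n) gsg := by
  constructor
  · intro v i j h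
    cases v <;> fin_cases i <;> fin_cases j <;> simp [ginc] at h ⊢ <;> omega
  · intro v w z i j l h1 h2
    cases v <;> cases w <;> cases z <;> fin_cases i <;> fin_cases j <;> simp [ginc] at h1 <;>
      fin_cases l <;> simp [ginc] at h2 ⊢ <;> omega
  · intro v i
    cases v <;> fin_cases i <;> simp [gsg]
  · intro v w i j hvw h
    cases v <;> cases w <;> fin_cases i <;> fin_cases j <;> simp [ginc, gsg] at h hvw ⊢ <;> omega

/-- Adjacency in `G_k`. -/
def GAdj (k : ℕ) : Vx → Vx → Prop
  | .s t, .u t' => t = t' ∨ t = t' + k ∨ t = t' + k + 1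
  | .u t', .s t => t = t' ∨ t = t' + k ∨ t = t' + k + 1
  | _, _ => False

end Pool.Agent.DEN
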