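import Pool.Agent.DEN.HoleRun
import Pool.Agent.DEN.Gk

/-!
Project DEN: a run succeeds if and only if its number of flows is odd (closure tables in characteristic two with
`s = 1`, where every local weight is `x ^ (number of used vertices)`).
-/

namespace Pool.Agent.DEN

open Pat

namespace EX

/-- Rules at the upper vertex. -/
inductive Rl
  | nrm (o : O) : Rl
  | hol (v α β : Sp) : Rl

/-- The rule as a condition on the three spins. -/
def okR : Rl → Sp → Sp → Sp → Prop
  | .nrm o, v, g, h => ch v - ch g - ch h = 0 ∧ (v ≠ 0 ↔ o.1 ≠ o.2) ∧ (g ≠ 0 ↔ o.1 = true) ∧ (h ≠ 0 ↔ o.2 = true)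
  | .hol v0 g0 h0, v, g, h => v = v0 ∧ g = g0 ∧ h = h0

instance (r : Rl) (v g h : Sp) : Decidable (okR r v g h) := by
  cases r <;> unfold okR <;> infer_instance

/-- Number of used upper vertices. -/
def wR : Rl → ℕ
  | .nrm o => if o = (false, false) then 0 else 1
  | .hol _ _ _ => 0

/-- Number of used lower vertices. -/
def wS (a b : Sp) : ℕ := if a = 0 ∧ b = 0 then 0 else 1

section

variable {A : Type} [CommRing A]

def KS (x : A) (a b v : Sp) : A := if ch a + ch b - ch v = 0 then x ^ wS a b else 0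

def KU (x : A) (r : Rl) (v g h : Sp) : A := if okR r v g h then x ^ wR r else 0

def KK (x : A) (r : Rl) (a b : Sp) (p : Sp × Sp × Sp) : A := KS x a b p.1 * KU x r p.1 p.2.1 p.2.2

def TR (x : A) (r : Rl) (f : List Sp → A) : List Sp → A
  | a :: b :: c => ∑ p : Sp × Sp × Sp, KK x r a b p * f (c ++ [p.2.1, p.2.2])
  | _ => 0

def PR (x : A) (R : List Rl) (f : List Sp → A) : List Sp → A := R.foldr (fun r g => TR x r g) f

theorem sumSp {B : Type*} [AddCommMonoid B] (g : Sp → B) : ∑ v : Sp, g v = g .zero + g .neg + g .pos := by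
  have : (Finset.univ : Finset Sp) = {SignType.zero, SignType.neg, SignType.pos} := by decide
  rw [this, Finset.sum_insert (by decide), Finset.sum_insert (by decide), Finset.sum_singleton, add_assoc]

theorem SS_eq [CharP A 2] (x : A) (g : Sp → A) (a b : Sp) : SS 1 x g a b = ∑ v : Sp, KS x a b v * g v := by
  rw [sumSp]
  cases a <;> cases b <;> simp [SS, KS, ch, wS, CharTwo.neg_eq]

theorem UO_eq [CharP A 2] (x : A) (o : O) (f : List Sp → A) (c : List Sp) (v : Sp) :
    twS 1 v * UO 1 x o f c v = ∑ g : Sp, ∑ h : Sp, KU x (.nrm o) v g h * f (c ++ [g, h]) := by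
  simp only [sumSp]
  obtain ⟨o1, o2⟩ := o
  cases v <;> cases o1 <;> cases o2 <;> simp [UO, KU, okR, twS, ch, wR, CharTwo.neg_eq, add_comm]


theorem sum3 {B : Type*} [AddCommMonoid B] (F : Sp × Sp × Sp → B) :
    ∑ p : Sp × Sp × Sp, F p = ∑ v : Sp, ∑ g : Sp, ∑ h : Sp, F (v, g, h) := by
  rw [Fintype.sum_prod_type]
  refine Finset.sum_congr rfl (fun v _ => ?_)
  rw [Fintype.sum_prod_type]

theorem twC_twS [CharP A 2] : (twC (1 : A)) = twS 1 := by
  funext v
  cases v <;> simp [twC, twS, CharTwo.neg_eq]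

theorem TO_eq [CharP A 2] (x : A) (o : O) (f : List Sp → A) : TO 1 x (twS 1) o f = TR x (.nrm o) f := by
  funext l
  match l with
  | [] => rfl
  | [_] => rfl
  | a :: b :: c =>
    simp only [TO, TR, sum3, KK]
    rw [SS_eq]
    refine Finset.sum_congr rfl (fun v _ => ?_)
    rw [UO_eq, Finset.mul_sum]
    refine Finset.sum_congr rfl (fun g _ => ?_)
    rw [Finset.mul_sum]
    refine Finset.sum_congr rfl (fun h _ => ?_)
    ring

theorem Sv_eq [CharP A 2] (x : A) (v α β : Sp) (G : List Sp → A) :
    Sv 1 x v (fun c => G (c ++ [α, β])) = TR x (.hol v α β) G := by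
  funext l
  match l with
  | [] => rfl
  | [_] => rfl
  | a :: b :: c =>
    simp only [Sv, TR, sum3, KK]
    rw [SS_eq]
    refine Finset.sum_congr rfl (fun w _ => ?_)
    by_cases hw : w = v
    · subst hw
      rw [if_pos rfl, Finset.sum_eq_single α, Finset.sum_eq_single β]
      · simp [KU, okR, wR]
      · intro h _ hh
        simp [KU, okR, hh]
      · intro h
        exact absurd (Finset.mem_univ _) h
      · intro g _ hg
        simp [KU, okR, hg]
      · intro h
        exact absurd (Finset.mem_univ _) h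
    · rw [if_neg hw]
      simp [KU, okR, hw]

theorem PS_eq [CharP A 2] (x : A) (F : List O) (f : List Sp → A) : PS 1 x F f = PR x (F.map Rl.nrm) f := by
  induction F with
  | nil => rfl
  | cons o F ih =>
    show TO 1 x (twS 1) o (PS 1 x F f) = TR x (.nrm o) (PR x (F.map Rl.nrm) f)
    rw [ih, TO_eq]

theorem PC_eq [CharP A 2] (x : A) (F : List O) (f : List Sp → A) : PC 1 x F f = PR x (F.map Rl.nrm) f := by
  rw [← PS_eq]
  unfold PC PS
  rw [twC_twS]

theorem PR_append (x : A) (R1 R2 : List Rl) (f : List Sp → A) : PR x (R1 ++ R2) f = PR x R1 (PR x R2 f) := by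
  simp [PR, List.foldr_append]

theorem HV_eq [CharP A 2] (x : A) (n : ℕ) (F1 F2 : List O) (v α β : Sp) :
    HV 1 x n F1 F2 v α β = PR x (F1.map Rl.nrm ++ Rl.hol v α β :: F2.map Rl.nrm) (dl (vac n)) (vac n) := by
  unfold HV
  rw [PR_append, PS_eq, PC_eq, Sv_eq]
  rfl

/-- The word of a history. -/
def Wd (l : List Sp) (H : List (Sp × Sp × Sp)) : List Sp := l ++ H.flatMap (fun h => [h.2.1, h.2.2])

theorem Wd_nil (l : List Sp) : Wd l [] = l := by simp [Wd]

theorem Wd_cons (a b : Sp) (c : List Sp) (h : Sp × Sp × Sp) (H : List (Sp × Sp × Sp)) :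
    Wd (a :: b :: c) (h :: H) = a :: b :: Wd (c ++ [h.2.1, h.2.2]) H := by
  simp [Wd, List.append_assoc]

theorem PR_sum (x : A) (R : List Rl) : ∀ (f : List Sp → A) (l : List Sp), 2 ≤ l.length →
    PR x R f l = ∑ H ∈ LL (Sp × Sp × Sp) R.length,
      (∏ t ∈ Finset.range R.length, KK x (R.getD t (.nrm (false, false))) ((Wd l H).getD (2 * t) 0)
        ((Wd l H).getD (2 * t + 1) 0) (H.getD t 0)) * f ((Wd l H).drop (2 * R.length)) := by
  induction R with
  | nil =>
    intro f l _
    simp [PR, LL, Wd]
  | cons r R ih =>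
    intro f l hl
    match l, hl with
    | a :: b :: c, _ =>
      have e1 : PR x (r :: R) f (a :: b :: c) =
        ∑ p : Sp × Sp × Sp, KK x r a b p * PR x R f (c ++ [p.2.1, p.2.2]) := rfl
      rw [e1, List.length_cons, sum_LL]
      refine Finset.sum_congr rfl (fun p _ => ?_)
      rw [ih f _ (by simp), Finset.mul_sum]
      refine Finset.sum_congr rfl (fun H _ => ?_)
      rw [Wd_cons, Finset.prod_range_succ', ← mul_assoc]
      congr 1
      · rw [mul_comm]
        rfl


theorem flat_getD (H : List (Sp × Sp × Sp)) : ∀ t : ℕ,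
    (H.flatMap (fun h => [h.2.1, h.2.2])).getD (2 * t) 0 = (H.getD t 0).2.1 ∧
    (H.flatMap (fun h => [h.2.1, h.2.2])).getD (2 * t + 1) 0 = (H.getD t 0).2.2 := by
  induction H with
  | nil =>
    intro t
    simp
  | cons h H ih =>
    intro t
    cases t with
    | zero => simp
    | succ t =>
      have e1 : 2 * (t + 1) = 2 * t + 1 + 1 := by ring
      rw [e1]
      have := ih t
      simpa using this

theorem Wd_lt (n : ℕ) (H : List (Sp × Sp × Sp)) (j : ℕ) (hj : j < n) : (Wd (vac n) H).getD j 0 = 0 := by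
  unfold Wd
  rw [List.getD_append _ _ _ _ (by simpa [vac] using hj)]
  simp only [vac, List.getD_eq_getElem?_getD, List.getElem?_replicate]
  rw [if_pos hj]
  rfl

theorem Wd_ev (n : ℕ) (H : List (Sp × Sp × Sp)) (t : ℕ) : (Wd (vac n) H).getD (2 * t + n) 0 = (H.getD t 0).2.1 := by
  unfold Wd
  rw [List.getD_append_right _ _ _ _ (by simp [vac])]
  have : 2 * t + n - (vac n).length = 2 * t := by simp [vac]
  rw [this]
  exact (flat_getD H t).1

theorem Wd_od (n : ℕ) (H : List (Sp × Sp × Sp)) (t : ℕ) :
    (Wd (vac n) H).getD (2 * t + n + 1) 0 = (H.getD t 0).2.2 := by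
  unfold Wd
  rw [List.getD_append_right _ _ _ _ (by simp [vac]; omega)]
  have : 2 * t + n + 1 - (vac n).length = 2 * t + 1 := by simp [vac]; omega
  rw [this]
  exact (flat_getD H t).2

theorem Wd_len (n : ℕ) (H : List (Sp × Sp × Sp)) : (Wd (vac n) H).length = n + 2 * H.length := by
  unfold Wd
  rw [List.length_append]
  have : (H.flatMap (fun h => [h.2.1, h.2.2])).length = 2 * H.length := by
    induction H with
    | nil => rfl
    | cons h H ih =>
      rw [List.flatMap_cons, List.length_append, ih, List.length_cons]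
      simp only [List.length_cons, List.length_nil]
      ring
  rw [this]
  simp [vac]

/-- Flow of a history. -/
def sgH (n : ℕ) (H : List (Sp × Sp × Sp)) : Ed → Sp
  | .inl j => (Wd (vac n) H).getD j 0
  | .inr t => (H.getD t 0).1

/-- Rules of a flow. -/
def Vd (R : List Rl) (n : ℕ) (σ : Ed → Sp) : Prop :=
  ∀ t ∈ Finset.range R.length, ch (σ (.inl (2 * t))) + ch (σ (.inl (2 * t + 1))) - ch (σ (.inr t)) = 0 ∧
    okR (R.getD t (.nrm (false, false))) (σ (.inr t)) (σ (.inl (2 * t + n))) (σ (.inl (2 * t + n + 1)))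

instance (R : List Rl) (n : ℕ) (σ : Ed → Sp) : Decidable (Vd R n σ) := by
  unfold Vd
  infer_instance

/-- The flows with the final queue `m`. -/
def FS (R : List Rl) (n : ℕ) (m : List Sp) : Set (Ed → Sp) :=
  {σ | Vd R n σ ∧ (∀ j < n, σ (.inl j) = 0) ∧ (∀ j, 2 * R.length + n ≤ j → σ (.inl j) = 0) ∧
    (∀ t, R.length ≤ t → σ (.inr t) = 0) ∧ (∀ i < n, σ (.inl (2 * R.length + i)) = m.getD i 0)}

/-- The histories with the final queue `m`. -/
def HS (R : List Rl) (n : ℕ) (m : List Sp) : Finset (List (Sp × Sp × Sp)) :=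
  (LL (Sp × Sp × Sp) R.length).filter (fun H => Vd R n (sgH n H) ∧ (Wd (vac n) H).drop (2 * R.length) = m)

theorem drop_iff (n N : ℕ) (H : List (Sp × Sp × Sp)) (hH : H.length = N) (m : List Sp) (hm : m.length = n) :
    (Wd (vac n) H).drop (2 * N) = m ↔ ∀ i < n, (Wd (vac n) H).getD (2 * N + i) 0 = m.getD i 0 := by
  constructor
  · intro h i _
    rw [← h]
    simp only [List.getD_eq_getElem?_getD, List.getElem?_drop]
  · intro h
    apply List.ext_getElem
    · rw [List.length_drop, Wd_len, hm, hH]
      omega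
    · intro i h1 h2
      have hi : i < n := by omega
      have h3 := h i hi
      rw [List.getElem_drop]
      rw [List.getD_eq_getElem _ _ h2] at h3
      have h4 : 2 * N + i < (Wd (vac n) H).length := by rw [Wd_len]; omega
      rw [List.getD_eq_getElem _ _ h4] at h3
      exact h3

theorem FS_image (R : List Rl) (n : ℕ) (m : List Sp) (hm : m.length = n) :
    FS R n m = sgH n '' (HS R n m : Set (List (Sp × Sp × Sp))) := by
  ext σ
  simp only [Set.mem_image, Finset.mem_coe]
  constructor
  · rintro ⟨h1, h2, h3, h4, h5⟩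
    set H : List (Sp × Sp × Sp) := (List.range R.length).map
      (fun t => (σ (.inr t), σ (.inl (2 * t + n)), σ (.inl (2 * t + n + 1)))) with hH
    have hl : H.length = R.length := by simp [hH]
    have hg : ∀ t, t < R.length → H.getD t 0 = (σ (.inr t), σ (.inl (2 * t + n)), σ (.inl (2 * t + n + 1))) := by
      intro t ht
      rw [List.getD_eq_getElem _ _ (by rw [hl]; exact ht)]
      simp [hH]
    have hg' : ∀ t, R.length ≤ t → H.getD t 0 = 0 := by
      intro t ht
      rw [List.getD_eq_default _ _ (by rw [hl]; exact ht)]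
    have hs : sgH n H = σ := by
      funext e
      rcases e with j | t
      · show (Wd (vac n) H).getD j 0 = σ (.inl j)
        by_cases hj : j < n
        · rw [Wd_lt n H j hj, h2 j hj]
        · obtain ⟨t, ht | ht⟩ : ∃ t, j = 2 * t + n ∨ j = 2 * t + n + 1 := by
            rcases Nat.even_or_odd (j - n) with ⟨t, ht⟩ | ⟨t, ht⟩
            · exact ⟨t, Or.inl (by omega)⟩
            · exact ⟨t, Or.inr (by omega)⟩
          · subst ht
            rw [Wd_ev]
            by_cases hN : t < R.length
            · rw [hg t hN]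
            · rw [hg' t (by omega), h3 _ (by omega)]
              rfl
          · subst ht
            rw [Wd_od]
            by_cases hN : t < R.length
            · rw [hg t hN]
            · rw [hg' t (by omega), h3 _ (by omega)]
              rfl
      · show (H.getD t 0).1 = σ (.inr t)
        by_cases hN : t < R.length
        · rw [hg t hN]
        · rw [hg' t (by omega), h4 _ (by omega)]
          rfl
    refine ⟨H, ?_, hs⟩
    unfold HS
    rw [Finset.mem_filter, mem_LL]
    refine ⟨hl, by rw [hs]; exact h1, ?_⟩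
    rw [drop_iff n R.length H hl m hm]
    intro i hi
    rw [← h5 i hi, ← hs]
    rfl
  · rintro ⟨H, hH, rfl⟩
    unfold HS at hH
    rw [Finset.mem_filter, mem_LL] at hH
    obtain ⟨hl, hv, hd⟩ := hH
    refine ⟨hv, fun j hj => Wd_lt n H j hj, ?_, ?_, ?_⟩
    · intro j hj
      show (Wd (vac n) H).getD j 0 = 0
      rw [List.getD_eq_default _ _ (by rw [Wd_len]; omega)]
    · intro t ht
      show (H.getD t 0).1 = 0
      rw [List.getD_eq_default _ _ (by omega)]
      rfl
    · intro i hi
      exact (drop_iff n R.length H hl m hm).1 hd i hi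

theorem FS_ncard (R : List Rl) (n : ℕ) (m : List Sp) (hm : m.length = n) : (FS R n m).ncard = (HS R n m).card := by
  rw [FS_image R n m hm, Set.InjOn.ncard_image, Set.ncard_coe_finset]
  intro H hH H' hH' he
  unfold HS at hH hH'
  rw [Finset.mem_coe, Finset.mem_filter, mem_LL] at hH hH'
  apply List.ext_getElem (by rw [hH.1, hH'.1])
  intro t h1 h2
  have e1 : (H.getD t 0).1 = (H'.getD t 0).1 := congrFun he (.inr t)
  have e2 : (H.getD t 0).2.1 = (H'.getD t 0).2.1 := by
    rw [← Wd_ev n H t, ← Wd_ev n H' t]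
    exact congrFun he (.inl (2 * t + n))
  have e3 : (H.getD t 0).2.2 = (H'.getD t 0).2.2 := by
    rw [← Wd_od n H t, ← Wd_od n H' t]
    exact congrFun he (.inl (2 * t + n + 1))
  rw [List.getD_eq_getElem _ _ h1, List.getD_eq_getElem _ _ h2] at e1 e2 e3
  exact Prod.ext e1 (Prod.ext e2 e3)

theorem PR_HS (x : A) (R : List Rl) (n : ℕ) (hn : 2 ≤ n) (m : List Sp) :
    PR x R (dl m) (vac n) = ∑ H ∈ HS R n m, x ^ (∑ t ∈ Finset.range R.length,
      (wS (sgH n H (.inl (2 * t))) (sgH n H (.inl (2 * t + 1))) + wR (R.getD t (.nrm (false, false))))) := by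
  rw [PR_sum x R _ _ (by simpa [vac] using hn)]
  unfold HS
  rw [Finset.sum_filter]
  refine Finset.sum_congr rfl (fun H _ => ?_)
  have e1 : (∏ t ∈ Finset.range R.length, KK x (R.getD t (.nrm (false, false))) ((Wd (vac n) H).getD (2 * t) 0)
        ((Wd (vac n) H).getD (2 * t + 1) 0) (H.getD t 0)) =
      if Vd R n (sgH n H) then x ^ (∑ t ∈ Finset.range R.length,
      (wS (sgH n H (.inl (2 * t))) (sgH n H (.inl (2 * t + 1))) + wR (R.getD t (.nrm (false, false))))) else 0 := by
    have e2 : ∀ t ∈ Finset.range R.length, KK x (R.getD t (.nrm (false, false))) ((Wd (vac n) H).getD (2 * t) 0)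
        ((Wd (vac n) H).getD (2 * t + 1) 0) (H.getD t 0) =
        if (ch (sgH n H (.inl (2 * t))) + ch (sgH n H (.inl (2 * t + 1))) - ch (sgH n H (.inr t)) = 0 ∧
          okR (R.getD t (.nrm (false, false))) (sgH n H (.inr t)) (sgH n H (.inl (2 * t + n)))
            (sgH n H (.inl (2 * t + n + 1)))) then
          x ^ (wS (sgH n H (.inl (2 * t))) (sgH n H (.inl (2 * t + 1))) + wR (R.getD t (.nrm (false, false))))
        else 0 := by
      intro t _
      have a1 : sgH n H (.inl (2 * t + n)) = (H.getD t 0).2.1 := Wd_ev n H t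
      have a2 : sgH n H (.inl (2 * t + n + 1)) = (H.getD t 0).2.2 := Wd_od n H t
      have a3 : sgH n H (.inr t) = (H.getD t 0).1 := rfl
      have a4 : sgH n H (.inl (2 * t)) = (Wd (vac n) H).getD (2 * t) 0 := rfl
      have a5 : sgH n H (.inl (2 * t + 1)) = (Wd (vac n) H).getD (2 * t + 1) 0 := rfl
      rw [a1, a2, a3, a4, a5]
      unfold KK KS KU
      by_cases c1 : ch ((Wd (vac n) H).getD (2 * t) 0) + ch ((Wd (vac n) H).getD (2 * t + 1) 0) -
          ch (H.getD t 0).1 = 0
      · by_cases c2 : okR (R.getD t (.nrm (false, false))) (H.getD t 0).1 (H.getD t 0).2.1 (H.getD t 0).2.2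
        · rw [if_pos c1, if_pos c2, if_pos ⟨c1, c2⟩, pow_add]
        · rw [if_neg c2, if_neg (fun h : _ ∧ _ => c2 h.2), mul_zero]
      · rw [if_neg c1, if_neg (fun h : _ ∧ _ => c1 h.1), zero_mul]
    rw [Finset.prod_congr rfl e2, Finset.prod_ite_zero, Finset.prod_pow_eq_pow_sum]
    rfl
  rw [e1]
  unfold dl
  by_cases c1 : Vd R n (sgH n H)
  · by_cases c2 : (Wd (vac n) H).drop (2 * R.length) = m
    · rw [if_pos c1, if_pos c2, if_pos ⟨c1, c2⟩, mul_one]
    · rw [if_neg c2, if_neg (fun h : _ ∧ _ => c2 h.2), mul_zero]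
  · rw [if_neg c1, if_neg (fun h : _ ∧ _ => c1 h.1), zero_mul]


/-- Data of a configuration: rules `R`, choices `F`, vertices `V0`. -/
structure Dat (R : List Rl) (F : List O) (V0 : Finset Vx) : Prop where
  len : R.length = F.length
  sub : V0 ⊆ VV F.length
  sIn : ∀ t < F.length, Vx.s t ∈ V0
  cmp : ∀ t < F.length, ∀ v g h, okR (R.getD t (.nrm (false, false))) v g h →
    (v ≠ 0 ↔ (F.getD t (false, false)).1 ≠ (F.getD t (false, false)).2) ∧
    (g ≠ 0 ↔ (F.getD t (false, false)).1 = true) ∧ (h ≠ 0 ↔ (F.getD t (false, false)).2 = true)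
  wt : ∀ t < F.length, wR (R.getD t (.nrm (false, false))) =
    if Vx.u t ∈ V0 ∧ F.getD t (false, false) ≠ (false, false) then 1 else 0

theorem F_big (F : List O) (t : ℕ) (ht : F.length ≤ t) : F.getD t (false, false) = (false, false) :=
  List.getD_eq_default _ _ ht

theorem supp_ev (n : ℕ) (F : List O) (t : ℕ) :
    (Sum.inl (2 * t + n) : Ed) ∈ supp n F ↔ (F.getD t (false, false)).1 = true := by
  unfold supp
  simp only [Finset.mem_union, Finset.mem_image, Finset.mem_filter, Finset.mem_range, Sum.inl.injEq, reduceCtorEq,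
    and_false, exists_false, or_false]
  constructor
  · rintro (⟨t', ⟨h1, h2⟩, h3⟩ | ⟨t', ⟨h1, h2⟩, h3⟩)
    · have : t' = t := by omega
      rw [← this]
      exact h2
    · exfalso
      omega
  · intro h
    refine Or.inl ⟨t, ⟨?_, h⟩, rfl⟩
    by_contra hc
    rw [F_big F t (by omega)] at h
    exact absurd h (by decide)

theorem supp_od (n : ℕ) (F : List O) (t : ℕ) :
    (Sum.inl (2 * t + n + 1) : Ed) ∈ supp n F ↔ (F.getD t (false, false)).2 = true := by
  unfold supp
  simp only [Finset.mem_union, Finset.mem_image, Finset.mem_filter, Finset.mem_range, Sum.inl.injEq, reduceCtorEq,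
    and_false, exists_false, or_false]
  constructor
  · rintro (⟨t', ⟨h1, h2⟩, h3⟩ | ⟨t', ⟨h1, h2⟩, h3⟩)
    · exfalso
      omega
    · have : t' = t := by omega
      rw [← this]
      exact h2
  · intro h
    refine Or.inr ⟨t, ⟨?_, h⟩, rfl⟩
    by_contra hc
    rw [F_big F t (by omega)] at h
    exact absurd h (by decide)

theorem supp_vt (n : ℕ) (F : List O) (t : ℕ) :
    (Sum.inr t : Ed) ∈ supp n F ↔ (F.getD t (false, false)).1 ≠ (F.getD t (false, false)).2 := by
  unfold supp
  simp only [Finset.mem_union, Finset.mem_image, Finset.mem_filter, Finset.mem_range, Sum.inr.injEq, reduceCtorEq,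
    and_false, exists_false, or_false, false_or]
  constructor
  · rintro ⟨t', ⟨h1, h2⟩, h3⟩
    rw [← h3]
    exact h2
  · intro h
    refine ⟨t, ⟨?_, h⟩, rfl⟩
    by_contra hc
    rw [F_big F t (by omega)] at h
    exact h rfl

theorem supp_lt (n : ℕ) (F : List O) (j : ℕ) (hj : j < n) : (Sum.inl j : Ed) ∉ supp n F := by
  unfold supp
  simp only [Finset.mem_union, Finset.mem_image, Finset.mem_filter, Finset.mem_range, Sum.inl.injEq, reduceCtorEq,
    and_false, exists_false, or_false]
  rintro (⟨t', ⟨h1, h2⟩, h3⟩ | ⟨t', ⟨h1, h2⟩, h3⟩)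
  · omega
  · omega

/-- The support of a flow. -/
theorem FS_supp {R : List Rl} {F : List O} {V0 : Finset Vx} (hD : Dat R F V0) (n : ℕ) (m : List Sp) (σ : Ed → Sp)
    (hσ : σ ∈ FS R n m) (e : Ed) : σ e ≠ 0 ↔ e ∈ supp n F := by
  obtain ⟨h1, h2, h3, h4, h5⟩ := hσ
  rw [hD.len] at h3 h4
  rcases e with j | t
  · by_cases hj : j < n
    · exact ⟨fun h => absurd (h2 j hj) h, fun h => absurd h (supp_lt n F j hj)⟩
    · obtain ⟨t, ht | ht⟩ : ∃ t, j = 2 * t + n ∨ j = 2 * t + n + 1 := by
        rcases Nat.even_or_odd (j - n) with ⟨t, ht⟩ | ⟨t, ht⟩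
        · exact ⟨t, Or.inl (by omega)⟩
        · exact ⟨t, Or.inr (by omega)⟩
      · subst ht
        rw [supp_ev]
        by_cases hN : t < F.length
        · exact (hD.cmp t hN _ _ _ (h1 t (by rw [hD.len]; exact Finset.mem_range.2 hN)).2).2.1
        · rw [h3 _ (by omega), F_big F t (by omega)]
          simp
      · subst ht
        rw [supp_od]
        by_cases hN : t < F.length
        · exact (hD.cmp t hN _ _ _ (h1 t (by rw [hD.len]; exact Finset.mem_range.2 hN)).2).2.2
        · rw [h3 _ (by omega), F_big F t (by omega)]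
          simp
  · rw [supp_vt]
    by_cases hN : t < F.length
    · exact (hD.cmp t hN _ _ _ (h1 t (by rw [hD.len]; exact Finset.mem_range.2 hN)).2).1
    · rw [h4 _ (by omega), F_big F t (by omega)]
      simp

theorem sum_VV (N : ℕ) (g : Vx → ℕ) : ∑ v ∈ VV N, g v = ∑ t ∈ Finset.range N, (g (.s t) + g (.u t)) := by
  unfold VV
  rw [Finset.sum_union, Finset.sum_image, Finset.sum_image, Finset.sum_add_distrib]
  · intro a _ b _ h
    exact Vx.u.inj h
  · intro a _ b _ h
    exact Vx.s.inj h
  · rw [Finset.disjoint_left]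
    intro v h1 h2
    rw [Finset.mem_image] at h1 h2
    obtain ⟨a, _, rfl⟩ := h1
    obtain ⟨b, _, hb⟩ := h2
    exact absurd hb (by simp)

/-- The number of used vertices. -/
theorem FS_cost {R : List Rl} {F : List O} {V0 : Finset Vx} (hD : Dat R F V0) (n : ℕ) (m : List Sp) (σ : Ed → Sp)
    (hσ : σ ∈ FS R n m) :
    ∑ t ∈ Finset.range R.length, (wS (σ (.inl (2 * t))) (σ (.inl (2 * t + 1))) +
      wR (R.getD t (.nrm (false, false)))) = usedV (ginc n) V0 (supp n F) := by
  classical
  have hsup := FS_supp hD n m σ hσ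
  obtain ⟨h1, h2, h3, h4, h5⟩ := hσ
  unfold usedV
  rw [Finset.card_filter]
  have e1 : ∑ v ∈ V0, (if ∃ i, ginc n v i ∈ supp n F then 1 else 0) =
      ∑ v ∈ VV F.length, (if v ∈ V0 then (if ∃ i, ginc n v i ∈ supp n F then 1 else 0) else 0) := by
    rw [← Finset.sum_filter (fun v => v ∈ V0) (fun v => if ∃ i, ginc n v i ∈ supp n F then 1 else 0)]
    have hf : (VV F.length).filter (fun v => v ∈ V0) = V0 := by
      ext v
      rw [Finset.mem_filter]
      exact ⟨fun h => h.2, fun h => ⟨hD.sub h, h⟩⟩
    rw [hf]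
  rw [e1, sum_VV, hD.len]
  refine Finset.sum_congr rfl (fun t ht => ?_)
  have ht' := Finset.mem_range.1 ht
  rw [if_pos (hD.sIn t ht'), hD.wt t ht']
  congr 1
  · unfold wS
    have hc := (h1 t (by rw [hD.len]; exact ht)).1
    have : (∃ i, ginc n (Vx.s t) i ∈ supp n F) ↔ ¬ (σ (.inl (2 * t)) = 0 ∧ σ (.inl (2 * t + 1)) = 0) := by
      constructor
      · rintro ⟨i, hi⟩ ⟨c1, c2⟩
        have c3 : σ (.inr t) = 0 := by
          rw [c1, c2] at hc
          cases hv : σ (.inr t)
          · rfl
          · rw [hv] at hc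
            exact absurd hc (by decide)
          · rw [hv] at hc
            exact absurd hc (by decide)
        fin_cases i
        · exact (hsup _).2 hi c1
        · exact (hsup _).2 hi c2
        · exact (hsup _).2 hi c3
      · intro h
        by_cases c1 : σ (.inl (2 * t)) = 0
        · have c2 : σ (.inl (2 * t + 1)) ≠ 0 := fun c2 => h ⟨c1, c2⟩
          exact ⟨1, (hsup _).1 c2⟩
        · exact ⟨0, (hsup _).1 c1⟩
    by_cases c : σ (.inl (2 * t)) = 0 ∧ σ (.inl (2 * t + 1)) = 0
    · rw [if_pos c, if_neg (fun h => this.1 h c)]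
    · rw [if_neg c, if_pos (this.2 c)]
  · have : (∃ i, ginc n (Vx.u t) i ∈ supp n F) ↔ F.getD t (false, false) ≠ (false, false) := by
      constructor
      · rintro ⟨i, hi⟩ hF
        fin_cases i
        · have := (supp_vt n F t).1 hi
          rw [hF] at this
          exact this rfl
        · have := (supp_ev n F t).1 hi
          rw [hF] at this
          exact absurd this (by decide)
        · have := (supp_od n F t).1 hi
          rw [hF] at this
          exact absurd this (by decide)
      · intro h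
        by_cases c1 : (F.getD t (false, false)).1 = true
        · exact ⟨1, (supp_ev n F t).2 c1⟩
        · by_cases c2 : (F.getD t (false, false)).2 = true
          · exact ⟨2, (supp_od n F t).2 c2⟩
          · exact absurd (Prod.ext (Bool.not_eq_true _ ▸ c1) (Bool.not_eq_true _ ▸ c2)) h
    by_cases c1 : Vx.u t ∈ V0
    · by_cases c2 : F.getD t (false, false) ≠ (false, false)
      · rw [if_pos ⟨c1, c2⟩, if_pos c1, if_pos (this.2 c2)]
      · rw [if_neg (fun h : _ ∧ _ => c2 h.2), if_pos c1, if_neg (fun h => c2 (this.1 h))]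
    · rw [if_neg (fun h : _ ∧ _ => c1 h.1), if_neg c1]

theorem PR_val (x : A) {R : List Rl} {F : List O} {V0 : Finset Vx} (hD : Dat R F V0) (n : ℕ) (hn : 2 ≤ n)
    (m : List Sp) (hm : m.length = n) :
    PR x R (dl m) (vac n) = ((FS R n m).ncard : A) * x ^ usedV (ginc n) V0 (supp n F) := by
  rw [PR_HS x R n hn m, FS_ncard R n m hm]
  rw [Finset.sum_congr rfl (g := fun _ => x ^ usedV (ginc n) V0 (supp n F))]
  · rw [Finset.sum_const, nsmul_eq_mul]
  · intro H hH
    rw [FS_cost hD n m (sgH n H)]
    rw [FS_image R n m hm]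
    exact ⟨H, hH, rfl⟩

end

open Polynomial in
theorem parity (m a c : ℕ) (h : (m : (ZMod 2)[X]) * X ^ a = X ^ c) : Odd m ∧ c = a := by
  rcases Nat.even_or_odd m with hm | hm
  · exfalso
    have : (m : (ZMod 2)[X]) = 0 := by
      rw [CharP.cast_eq_zero_iff (ZMod 2)[X] 2]
      exact hm.two_dvd
    rw [this, zero_mul] at h
    exact pow_ne_zero c X_ne_zero h.symm
  · refine ⟨hm, ?_⟩
    have h1 : (m : (ZMod 2)[X]) = 1 := by
      obtain ⟨q, hq⟩ := hm
      rw [hq]
      push_cast
      have : (2 : (ZMod 2)[X]) = 0 := by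
        have := CharP.cast_eq_zero (ZMod 2)[X] 2
        exact_mod_cast this
      rw [this, zero_mul, zero_add]
    rw [h1, one_mul] at h
    have := congrArg natDegree h
    rw [natDegree_X_pow, natDegree_X_pow] at this
    exact this.symm


theorem sum_s (n t : ℕ) (σ : Ed → Sp) : ∑ i, gsg (.s t) i * ch (σ (ginc n (.s t) i)) =
    ch (σ (.inl (2 * t))) + ch (σ (.inl (2 * t + 1))) - ch (σ (.inr t)) := by
  simp [Fin.sum_univ_three, gsg, ginc]
  ring

theorem sum_u (n t : ℕ) (σ : Ed → Sp) : ∑ i, gsg (.u t) i * ch (σ (ginc n (.u t) i)) =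
    ch (σ (.inr t)) - ch (σ (.inl (2 * t + n))) - ch (σ (.inl (2 * t + n + 1))) := by
  simp [Fin.sum_univ_three, gsg, ginc]
  ring

theorem vac_getD (n j : ℕ) : (vac n).getD j 0 = 0 := by
  simp only [vac, List.getD_eq_getElem?_getD, List.getElem?_replicate]
  split_ifs <;> rfl

theorem cons_getD (a : Sp) (l : List Sp) (j : ℕ) : (a :: l).getD j 0 = if j = 0 then a else l.getD (j - 1) 0 := by
  cases j with
  | zero => rfl
  | succ j => rfl

theorem vapp_getD (i : ℕ) (l : List Sp) (j : ℕ) : (vac i ++ l).getD j 0 = if j < i then 0 else l.getD (j - i) 0 := by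
  by_cases h : j < i
  · rw [if_pos h, List.getD_append _ _ _ _ (by simpa [vac] using h), vac_getD]
  · rw [if_neg h, List.getD_append_right _ _ _ _ (by simpa [vac] using h)]
    simp [vac]

theorem arc_getD (i d r j : ℕ) : (vac i ++ SignType.pos :: (vac d ++ SignType.neg :: vac r)).getD j 0 =
    if j = i then SignType.pos else if j = i + d + 1 then SignType.neg else 0 := by
  rw [vapp_getD, cons_getD, vapp_getD, cons_getD, vac_getD]
  split_ifs <;> first | rfl | omega

theorem ev_zapp {A : Type} [CommRing A] (s : A) (i : ℕ) (q : Pat) : ∀ f : List Sp → A,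
    ev s (app (zeros i) q) f = ev s q (fun l => f (vac i ++ l)) := by
  induction i with
  | zero => intro f; rfl
  | succ i ih =>
    intro f
    show ev s (app (zeros i) q) (fun l => f (.zero :: l)) = _
    rw [ih]
    rfl

theorem ev_single {A : Type} [CommRing A] (s : A) (i d r : ℕ) (f : List Sp → A) :
    ev s (single i d r) f = f (vac i ++ SignType.pos :: (vac d ++ SignType.neg :: vac r)) +
      s * f (vac i ++ SignType.neg :: (vac d ++ SignType.pos :: vac r)) := by
  unfold single
  rw [ev_zapp]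
  show ev s (zeros d) (fun l1 => ev s (zeros r) (fun l2 => _)) = _
  rw [ev_zeros, ev_zeros]

theorem map_getD (F : List O) (t : ℕ) :
    (F.map Rl.nrm).getD t (.nrm (false, false)) = .nrm (F.getD t (false, false)) := by
  simp only [List.getD_eq_getElem?_getD, List.getElem?_map]
  cases F[t]? <;> rfl

theorem dat_arc (F : List O) : Dat (F.map Rl.nrm) F (VV F.length) := by
  refine ⟨by simp, Finset.Subset.refl _, fun t ht => (mem_VV _ _).2 ht, ?_, ?_⟩
  · intro t _ v g h hk
    rw [map_getD] at hk
    exact hk.2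
  · intro t ht
    rw [map_getD]
    have : Vx.u t ∈ VV F.length := (mem_VV _ _).2 ht
    by_cases hc : F.getD t (false, false) = (false, false)
    · have hh : ¬ (Vx.u t ∈ VV F.length ∧ F.getD t (false, false) ≠ (false, false)) := fun h => h.2 hc
      rw [if_neg hh]
      simp only [wR]
      rw [if_pos hc]
    · rw [if_pos ⟨this, hc⟩]
      simp only [wR]
      rw [if_neg hc]

theorem not_supp_big (n : ℕ) (F : List O) (j : ℕ) (hj : 2 * F.length + n ≤ j) : (Sum.inl j : Ed) ∉ supp n F := by
  obtain ⟨t, ht | ht⟩ : ∃ t, j = 2 * t + n ∨ j = 2 * t + n + 1 := by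
    rcases Nat.even_or_odd (j - n) with ⟨t, ht⟩ | ⟨t, ht⟩
    · exact ⟨t, Or.inl (by omega)⟩
    · exact ⟨t, Or.inr (by omega)⟩
  · rw [ht, supp_ev, F_big F t (by omega)]
    decide
  · rw [ht, supp_od, F_big F t (by omega)]
    decide

theorem not_supp_vt (n : ℕ) (F : List O) (t : ℕ) (ht : F.length ≤ t) : (Sum.inr t : Ed) ∉ supp n F := by
  rw [supp_vt, F_big F t ht]
  exact fun h => h rfl

end EX

open EX in
/-- Runs that end with one arc. -/
theorem exp_arc (k : ℕ) (hk : 1 ≤ k) (F : List O) (i d r c : ℕ) (h : i + d + r + 2 = 2 * k + 1)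
    (hr : run F (zeros (2 * k + 1)) = some (single i d r, c)) :
    Odd (FLs (ginc (2 * k + 1)) gsg (VV F.length) (supp (2 * k + 1) F) (Sum.inl (2 * F.length + i))
      (Sum.inl (2 * F.length + i + d + 1)) .pos .neg).ncard ∧
    c = usedV (ginc (2 * k + 1)) (VV F.length) (supp (2 * k + 1) F) := by
  set n := 2 * k + 1 with hn
  have hn3 : 3 ≤ n := by omega
  have hs : (1 : Polynomial (ZMod 2)) * 1 = -1 := by rw [CharTwo.neg_eq, one_mul]
  have hzl : (zeros n).len = n := by
    clear_value n
    clear hn hr h hn3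
    induction n with
    | zero => rfl
    | succ n ih => show (zeros n).len + 1 = n + 1; rw [ih]
  set m : List Sp := vac i ++ SignType.pos :: (vac d ++ SignType.neg :: vac r) with hm
  have hml : m.length = n := by
    simp only [hm, vac, List.length_append, List.length_cons, List.length_replicate]
    omega
  have h1 := ev_PS hs (x := (Polynomial.X : Polynomial (ZMod 2))) F (zeros n) (by rw [hzl]; omega) (dl m)
  rw [hr, ev_zeros, PS_eq, PR_val _ (dat_arc F) n (by omega) m hml] at h1
  have h2 : ev (1 : Polynomial (ZMod 2)) (single i d r) (dl m) = 1 := by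
    rw [ev_single]
    unfold dl
    rw [if_pos hm.symm, if_neg, mul_zero, add_zero]
    intro hc
    rw [hm] at hc
    have := List.append_cancel_left hc
    rw [List.cons.injEq] at this
    exact absurd this.1 (by decide)
  simp only [h2, mul_one] at h1
  obtain ⟨h3, h4⟩ := parity _ _ _ h1
  refine ⟨?_, h4⟩
  have hne : (FS (F.map Rl.nrm) n m).Nonempty := by
    apply Set.nonempty_of_ncard_ne_zero
    intro hc
    rw [hc] at h3
    exact absurd h3 (by decide)
  obtain ⟨σ0, hσ0⟩ := hne
  have hsup0 := FS_supp (dat_arc F) n m σ0 hσ0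
  have hlen : (F.map Rl.nrm).length = F.length := by simp
  have key : FLs (ginc n) gsg (VV F.length) (supp n F) (Sum.inl (2 * F.length + i))
      (Sum.inl (2 * F.length + i + d + 1)) .pos .neg = FS (F.map Rl.nrm) n m := by
    ext σ
    constructor
    · rintro ⟨g1, g2, g3, g4⟩
      have gz : ∀ e, e ∉ supp n F → σ e = 0 := by
        intro e he
        by_contra hc
        exact he ((g2 e).1 hc)
      refine ⟨?_, fun j hj => gz _ (supp_lt n F j hj), ?_, ?_, ?_⟩
      · intro t ht
        rw [hlen] at ht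
        have ht' := Finset.mem_range.1 ht
        have a1 := g1 (.s t) ((mem_VV _ _).2 ht')
        have a2 := g1 (.u t) ((mem_VV _ _).2 ht')
        rw [sum_s] at a1
        rw [sum_u] at a2
        refine ⟨a1, ?_⟩
        rw [map_getD]
        exact ⟨a2, (g2 _).trans (supp_vt n F t), (g2 _).trans (supp_ev n F t), (g2 _).trans (supp_od n F t)⟩
      · intro j hj
        rw [hlen] at hj
        exact gz _ (not_supp_big n F j hj)
      · intro t ht
        rw [hlen] at ht
        exact gz _ (not_supp_vt n F t ht)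
      · intro j hj
        rw [hlen, hm, arc_getD]
        by_cases c1 : j = i
        · rw [if_pos c1, c1]
          exact g3
        · by_cases c2 : j = i + d + 1
          · rw [if_neg c1, if_pos c2, c2]
            rw [← add_assoc, ← add_assoc]
            exact g4
          · rw [if_neg c1, if_neg c2]
            apply gz
            intro hc
            have := hσ0.2.2.2.2 j hj
            rw [hlen, hm, arc_getD, if_neg c1, if_neg c2] at this
            exact (hsup0 _).2 hc this
    · intro hσ
      have hsup := FS_supp (dat_arc F) n m σ hσ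
      obtain ⟨g1, g2, g3, g4, g5⟩ := hσ
      refine ⟨?_, hsup, ?_, ?_⟩
      · intro v hv
        rw [mem_VV] at hv
        rw [Vd, hlen] at g1
        cases v with
        | s t =>
          rw [sum_s]
          exact (g1 t (Finset.mem_range.2 hv)).1
        | u t =>
          rw [sum_u]
          have := (g1 t (Finset.mem_range.2 hv)).2
          rw [map_getD] at this
          exact this.1
      · have := g5 i (by omega)
        rw [hlen, hm, arc_getD, if_pos rfl] at this
        exact this
      · have := g5 (i + d + 1) (by omega)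
        rw [hlen, hm, arc_getD, if_neg (by omega), if_pos rfl, ← add_assoc, ← add_assoc] at this
        exact this
  rw [key]
  exact h3

/-- The choice at the removed vertex. -/
def hO : Ty → O
  | .a => (true, false)
  | .b => (false, true)
  | .c => (true, true)

/-- First edge of the hole. -/
def hE0 (n N1 : ℕ) : Ty → Ed
  | .a => Sum.inr N1
  | .b => Sum.inr N1
  | .c => Sum.inl (2 * N1 + n)

/-- Second edge of the hole. -/
def hE1 (n N1 : ℕ) : Ty → Ed
  | .a => Sum.inl (2 * N1 + n)
  | .b => Sum.inl (2 * N1 + n + 1)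
  | .c => Sum.inl (2 * N1 + n + 1)

/-- Spin of the first edge. -/
def hS0 : Ty → Sp
  | .a => .pos
  | .b => .pos
  | .c => .neg

namespace EX

/-- The rule at the removed vertex. -/
def hR : Ty → Rl
  | .a => .hol .pos .pos .zero
  | .b => .hol .pos .zero .pos
  | .c => .hol .zero .neg .pos

theorem hR_getD (ty : Ty) (F1 F2 : List O) (t : ℕ) :
    (F1.map Rl.nrm ++ hR ty :: F2.map Rl.nrm).getD t (.nrm (false, false)) =
      if t = F1.length then hR ty else .nrm ((F1 ++ hO ty :: F2).getD t (false, false)) := by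
  rcases lt_trichotomy t F1.length with h | h | h
  · rw [if_neg (by omega), List.getD_append _ _ _ _ (by simpa using h), List.getD_append _ _ _ _ h, map_getD]
  · subst h
    rw [if_pos rfl, List.getD_append_right _ _ _ _ (by simp)]
    simp
  · rw [if_neg (by omega), List.getD_append_right _ _ _ _ (by simpa using h.le), List.getD_append_right _ _ _ _ h.le]
    obtain ⟨q, hq⟩ : ∃ q, t - F1.length = q + 1 := ⟨t - F1.length - 1, by omega⟩
    rw [List.length_map, hq, List.getD_cons_succ, List.getD_cons_succ, map_getD]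

theorem hF_getD (ty : Ty) (F1 F2 : List O) : (F1 ++ hO ty :: F2).getD F1.length (false, false) = hO ty := by
  rw [List.getD_append_right _ _ _ _ le_rfl]
  simp

theorem hF_len (ty : Ty) (F1 F2 : List O) : (F1 ++ hO ty :: F2).length = F1.length + 1 + F2.length := by
  simp only [List.length_append, List.length_cons]
  omega

theorem hR_len (ty : Ty) (F1 F2 : List O) :
    (F1.map Rl.nrm ++ hR ty :: F2.map Rl.nrm).length = F1.length + 1 + F2.length := by
  simp only [List.length_append, List.length_cons, List.length_map]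
  omega

theorem dat_hole (ty : Ty) (F1 F2 : List O) : Dat (F1.map Rl.nrm ++ hR ty :: F2.map Rl.nrm) (F1 ++ hO ty :: F2)
    ((VV (F1.length + 1 + F2.length)).erase (.u F1.length)) := by
  refine ⟨by rw [hR_len, hF_len], ?_, ?_, ?_, ?_⟩
  · rw [hF_len]
    exact Finset.erase_subset _ _
  · intro t ht
    rw [hF_len] at ht
    rw [Finset.mem_erase]
    exact ⟨by simp, (mem_VV _ _).2 ht⟩
  · intro t ht v g h hh
    rw [hR_getD] at hh
    by_cases c : t = F1.length
    · rw [if_pos c] at hh
      rw [c, hF_getD]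
      cases ty
      · obtain ⟨rfl, rfl, rfl⟩ := hh
        exact ⟨by decide, by decide, by decide⟩
      · obtain ⟨rfl, rfl, rfl⟩ := hh
        exact ⟨by decide, by decide, by decide⟩
      · obtain ⟨rfl, rfl, rfl⟩ := hh
        exact ⟨by decide, by decide, by decide⟩
    · rw [if_neg c] at hh
      exact hh.2
  · intro t ht
    rw [hF_len] at ht
    rw [hR_getD]
    by_cases c : t = F1.length
    · rw [if_pos c, if_neg]
      · cases ty <;> rfl
      · rintro ⟨h1, _⟩
        rw [Finset.mem_erase] at h1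
        exact h1.1 (by rw [c])
    · rw [if_neg c]
      have hu : Vx.u t ∈ (VV (F1.length + 1 + F2.length)).erase (.u F1.length) := by
        rw [Finset.mem_erase]
        exact ⟨fun h => c (Vx.u.inj h), (mem_VV _ _).2 ht⟩
      by_cases hc : (F1 ++ hO ty :: F2).getD t (false, false) = (false, false)
      · have hh : ¬ (Vx.u t ∈ (VV (F1.length + 1 + F2.length)).erase (.u F1.length) ∧
            (F1 ++ hO ty :: F2).getD t (false, false) ≠ (false, false)) := fun h => h.2 hc
        rw [if_neg hh]
        simp only [wR]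
        rw [if_pos hc]
      · rw [if_pos ⟨hu, hc⟩]
        simp only [wR]
        rw [if_neg hc]

/-- The flows of a configuration with hole. -/
theorem FLs_hole (n : ℕ) (ty : Ty) (F1 F2 : List O)
    (hfin : ∀ j, 2 * (F1.length + 1 + F2.length) ≤ j → (Sum.inl j : Ed) ∉ supp n (F1 ++ hO ty :: F2)) :
    FLs (ginc n) gsg ((VV (F1.length + 1 + F2.length)).erase (.u F1.length))
        (supp n (F1 ++ hO ty :: F2)) (hE0 n F1.length ty) (hE1 n F1.length ty) (hS0 ty) .pos =
      FS (F1.map Rl.nrm ++ hR ty :: F2.map Rl.nrm) n (vac n) := by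
  set F := F1 ++ hO ty :: F2 with hF
  have hFl : F.length = F1.length + 1 + F2.length := hF_len ty F1 F2
  have hlen := hR_len ty F1 F2
  ext σ
  constructor
  · rintro ⟨g1, g2, g3, g4⟩
    have gz : ∀ e, e ∉ supp n F → σ e = 0 := by
      intro e he
      by_contra hc
      exact he ((g2 e).1 hc)
    refine ⟨?_, fun j hj => gz _ (supp_lt n F j hj), ?_, ?_, ?_⟩
    · intro t ht
      rw [hlen] at ht
      have ht' := Finset.mem_range.1 ht
      have a1 := g1 (.s t) (Finset.mem_erase.2 ⟨by simp, (mem_VV _ _).2 ht'⟩)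
      rw [sum_s] at a1
      refine ⟨a1, ?_⟩
      rw [hR_getD]
      by_cases c : t = F1.length
      · rw [if_pos c]
        subst c
        have b1 := supp_vt n F F1.length
        have b2 := supp_ev n F F1.length
        have b3 := supp_od n F F1.length
        rw [hF, hF_getD, ← hF] at b1 b2 b3
        cases ty
        · exact ⟨g3, g4, gz _ (fun h => absurd (b3.1 h) (by decide))⟩
        · exact ⟨g3, gz _ (fun h => absurd (b2.1 h) (by decide)), g4⟩
        · exact ⟨gz _ (fun h => absurd (b1.1 h) (by decide)), g3, g4⟩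
      · rw [if_neg c]
        have a2 := g1 (.u t) (Finset.mem_erase.2 ⟨fun h => c (Vx.u.inj h), (mem_VV _ _).2 ht'⟩)
        rw [sum_u] at a2
        exact ⟨a2, (g2 _).trans (supp_vt n F t), (g2 _).trans (supp_ev n F t), (g2 _).trans (supp_od n F t)⟩
    · intro j hj
      rw [hlen, ← hFl] at hj
      exact gz _ (not_supp_big n F j hj)
    · intro t ht
      rw [hlen, ← hFl] at ht
      exact gz _ (not_supp_vt n F t ht)
    · intro j hj
      rw [hlen, vac_getD]
      exact gz _ (hfin _ (by omega))
  · intro hσ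
    have hsup := FS_supp (dat_hole ty F1 F2) n (vac n) σ hσ
    obtain ⟨g1, g2, g3, g4, g5⟩ := hσ
    rw [Vd, hlen] at g1
    have g0 := (g1 F1.length (Finset.mem_range.2 (by omega))).2
    rw [hR_getD, if_pos rfl] at g0
    refine ⟨?_, hsup, ?_, ?_⟩
    · intro v hv
      rw [Finset.mem_erase, mem_VV] at hv
      cases v with
      | s t =>
        rw [sum_s]
        exact (g1 t (Finset.mem_range.2 hv.2)).1
      | u t =>
        rw [sum_u]
        have := (g1 t (Finset.mem_range.2 hv.2)).2
        rw [hR_getD, if_neg (fun h => hv.1 (by rw [h]))] at this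
        exact this.1
    · cases ty
      · exact g0.1
      · exact g0.1
      · exact g0.2.1
    · cases ty
      · exact g0.2.1
      · exact g0.2.2
      · exact g0.2.2

end EX

open EX in
/-- Runs with hole. -/
theorem exp_hole (k : ℕ) (hk : 1 ≤ k) (ty : Ty) (F1 F2 : List O) (c : ℕ) :
    hcost ty (2 * k + 1) F1 F2 = some c ↔
      (∀ j, 2 * (F1.length + 1 + F2.length) ≤ j → (Sum.inl j : Ed) ∉ supp (2 * k + 1) (F1 ++ hO ty :: F2)) ∧
      Odd (FLs (ginc (2 * k + 1)) gsg ((VV (F1.length + 1 + F2.length)).erase (.u F1.length))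
        (supp (2 * k + 1) (F1 ++ hO ty :: F2)) (hE0 (2 * k + 1) F1.length ty) (hE1 (2 * k + 1) F1.length ty)
        (hS0 ty) .pos).ncard ∧
      c = usedV (ginc (2 * k + 1)) ((VV (F1.length + 1 + F2.length)).erase (.u F1.length))
        (supp (2 * k + 1) (F1 ++ hO ty :: F2)) := by
  set n := 2 * k + 1 with hn
  have hn3 : 3 ≤ n := by omega
  have hs : (1 : Polynomial (ZMod 2)) * 1 = -1 := by rw [CharTwo.neg_eq, one_mul]
  have hvl : (vac n).length = n := by simp [vac]
  have h1 : hw (Polynomial.X : Polynomial (ZMod 2)) ty n F1 F2 =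
      PR Polynomial.X (F1.map Rl.nrm ++ hR ty :: F2.map Rl.nrm) (dl (vac n)) (vac n) := by
    cases ty
    · rw [← HV_a1 hs n hn3, HV_eq]
      rfl
    · rw [← HV_b1 hs n hn3, HV_eq]
      rfl
    · rw [← HV_c1 hs n hn3, HV_eq]
      rfl
  rw [PR_val _ (dat_hole ty F1 F2) n (by omega) (vac n) hvl] at h1
  constructor
  · intro hc
    have h2 : hw (Polynomial.X : Polynomial (ZMod 2)) ty n F1 F2 = Polynomial.X ^ c := by
      unfold hw
      rw [hc]
    rw [h2] at h1
    obtain ⟨h3, h4⟩ := parity _ _ _ h1.symm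
    have hne : (FS (F1.map Rl.nrm ++ hR ty :: F2.map Rl.nrm) n (vac n)).Nonempty := by
      apply Set.nonempty_of_ncard_ne_zero
      intro hc
      rw [hc] at h3
      exact absurd h3 (by decide)
    obtain ⟨σ0, hσ0⟩ := hne
    have hsup0 := FS_supp (dat_hole ty F1 F2) n (vac n) σ0 hσ0
    have hfin : ∀ j, 2 * (F1.length + 1 + F2.length) ≤ j →
        (Sum.inl j : Ed) ∉ supp n (F1 ++ hO ty :: F2) := by
      intro j hj hin
      have h5 := (hsup0 _).2 hin
      apply h5
      by_cases hb : 2 * (F1.length + 1 + F2.length) + n ≤ j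
      · exact hσ0.2.2.1 j (by rw [hR_len]; exact hb)
      · have := hσ0.2.2.2.2 (j - 2 * (F1.length + 1 + F2.length)) (by omega)
        rw [hR_len, vac_getD, Nat.add_sub_cancel' hj] at this
        exact this
    refine ⟨hfin, ?_, h4⟩
    rw [FLs_hole n ty F1 F2 hfin]
    exact h3
  · rintro ⟨hfin, h3, h4⟩
    rw [FLs_hole n ty F1 F2 hfin] at h3
    have h5 : (((FS (F1.map Rl.nrm ++ hR ty :: F2.map Rl.nrm) n (vac n)).ncard : ℕ) : Polynomial (ZMod 2)) = 1 := by
      obtain ⟨q, hq⟩ := h3
      rw [hq]
      push_cast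
      have : (2 : Polynomial (ZMod 2)) = 0 := by
        have := CharP.cast_eq_zero (Polynomial (ZMod 2)) 2
        exact_mod_cast this
      rw [this, zero_mul, zero_add]
    rw [h5, one_mul, ← h4] at h1
    unfold hw at h1
    cases hc : hcost ty n F1 F2 with
    | none =>
      rw [hc] at h1
      exact absurd h1.symm (pow_ne_zero c Polynomial.X_ne_zero)
    | some c' =>
      rw [hc] at h1
      have := congrArg Polynomial.natDegree h1
      simp only [Polynomial.natDegree_X_pow] at this
      rw [this]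

end Pool.Agent.DEN
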