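import Pool.Agent.DEN.Exp

/-!
Project DEN: the configurations with hole are the self-avoiding paths of `G_k` between two neighbours of the removed
vertex.
-/

namespace Pool.Agent.DEN

open Pat

/-- Start of the path. -/
def hA (k N1 : ℕ) : Ty → Vx
  | .a => .s N1
  | .b => .s N1
  | .c => .s (N1 + k)

/-- End of the path. -/
def hB (k N1 : ℕ) : Ty → Vx
  | .a => .s (N1 + k)
  | .b => .s (N1 + k + 1)
  | .c => .s (N1 + k + 1)

namespace HPth

theorem three (i j j' m : Fin 3) : i ≠ j → i ≠ j' → j ≠ j' → m = i ∨ m = j ∨ m = j' := by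
  revert i j j' m
  decide

abbrev V3 := List (Vx × Fin 3 × Fin 3)

theorem adj_of_edge {k : ℕ} {v w : Vx} {i j : Fin 3} (hvw : v ≠ w)
    (h : ginc (2 * k + 1) v i = ginc (2 * k + 1) w j) : GAdj k v w := by
  cases v with
  | s t =>
    cases w with
    | s t' =>
      exfalso
      apply hvw
      congr 1
      fin_cases i <;> fin_cases j <;> simp [ginc] at h <;> omega
    | u t' =>
      show t = t' ∨ t = t' + k ∨ t = t' + k + 1
      fin_cases i <;> fin_cases j <;> simp [ginc] at h <;> omega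
  | u t =>
    cases w with
    | s t' =>
      show t' = t ∨ t' = t + k ∨ t' = t + k + 1
      fin_cases i <;> fin_cases j <;> simp [ginc] at h <;> omega
    | u t' =>
      exfalso
      apply hvw
      congr 1
      fin_cases i <;> fin_cases j <;> simp [ginc] at h <;> omega

theorem edge_of_adj {k : ℕ} {v w : Vx} (h : GAdj k v w) :
    v ≠ w ∧ ∃ i j, ginc (2 * k + 1) v i = ginc (2 * k + 1) w j := by
  cases v with
  | s t =>
    cases w with
    | s t' => exact absurd h (by simp [GAdj])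
    | u t' =>
      refine ⟨by simp, ?_⟩
      rcases h with h | h | h
      · exact ⟨2, 0, by simp [ginc, h]⟩
      · exact ⟨1, 1, by simp [ginc, h]; omega⟩
      · exact ⟨0, 2, by simp [ginc, h]; omega⟩
  | u t =>
    cases w with
    | u t' => exact absurd h (by simp [GAdj])
    | s t' =>
      refine ⟨by simp, ?_⟩
      rcases h with h | h | h
      · exact ⟨0, 2, by simp [ginc, h]⟩
      · exact ⟨1, 1, by simp [ginc, h]; omega⟩
      · exact ⟨2, 0, by simp [ginc, h]; omega⟩

theorem simple {k : ℕ} (hk : 1 ≤ k) {v w : Vx} {i j i' j' : Fin 3} (hvw : v ≠ w)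
    (h : ginc (2 * k + 1) v i = ginc (2 * k + 1) w j)
    (h' : ginc (2 * k + 1) v i' = ginc (2 * k + 1) w j') : i = i' := by
  cases v with
  | s t =>
    cases w with
    | s t' =>
      exfalso
      apply hvw
      congr 1
      fin_cases i <;> fin_cases j <;> simp [ginc] at h <;> omega
    | u t' =>
      fin_cases i <;> fin_cases j <;> simp [ginc] at h <;> fin_cases i' <;> fin_cases j' <;>
        simp [ginc] at h' ⊢ <;> omega
  | u t =>
    cases w with
    | s t' =>
      fin_cases i <;> fin_cases j <;> simp [ginc] at h <;> fin_cases i' <;> fin_cases j' <;>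
        simp [ginc] at h' ⊢ <;> omega
    | u t' =>
      exfalso
      apply hvw
      congr 1
      fin_cases i <;> fin_cases j <;> simp [ginc] at h <;> omega

section

variable {inc : Vx → Fin 3 → Ed} {sg : Vx → Fin 3 → ℤ}

/-- The chain of a list of vertices. -/
theorem mk_chn (k : ℕ) (hN : NetOK (ginc (2 * k + 1)) gsg) (e1 : Ed) (z1 : Vx) (m1 : Fin 3)
    (hz1 : ginc (2 * k + 1) z1 m1 = e1) : ∀ (l : List Vx) (e : Ed) (z : Vx) (m : Fin 3),
    l ≠ [] → l.IsChain (GAdj k) → l.Nodup → z ∉ l → z1 ∉ l → ginc (2 * k + 1) z m = e →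
    (∃ v, l.head? = some v ∧ ∃ i, ginc (2 * k + 1) v i = e) →
    (∃ w, l.getLast? = some w ∧ ∃ j, ginc (2 * k + 1) w j = e1) → e ≠ e1 →
    ∃ γ : V3, γ.map (fun p => p.1) = l ∧ Chn (ginc (2 * k + 1)) e γ e1 := by
  intro l
  induction l with
  | nil => intro e z m h; exact absurd rfl h
  | cons v l ih =>
    intro e z m _ hch hnd hz hz1l hze hhead hlast hne
    obtain ⟨v', hv', i, hi⟩ := hhead
    rw [List.head?_cons, Option.some.injEq] at hv'
    subst hv'
    cases l with
    | nil =>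
      obtain ⟨w, hw, j, hj⟩ := hlast
      rw [List.getLast?_singleton, Option.some.injEq] at hw
      subst hw
      refine ⟨[(v, i, j)], rfl, hi, ?_, hj⟩
      intro hij
      have hij' : i = j := hij
      apply hne
      rw [← hi, ← hj, hij']
    | cons w l =>
      have hadj : GAdj k v w := by
        rw [List.isChain_cons_cons] at hch
        exact hch.1
      obtain ⟨hvw, j, i', hji⟩ := edge_of_adj hadj
      rw [List.nodup_cons] at hnd
      have hzv : z ≠ v := fun h => hz (by rw [h]; exact List.mem_cons_self)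
      have hzw : z ≠ w := fun h => hz (by rw [h]; exact List.mem_cons_of_mem _ List.mem_cons_self)
      have hz1v : z1 ≠ v := fun h => hz1l (by rw [h]; exact List.mem_cons_self)
      have hz1w : z1 ≠ w := fun h => hz1l (by rw [h]; exact List.mem_cons_of_mem _ List.mem_cons_self)
      have hij : i ≠ j := by
        intro h
        subst h
        rcases hN.two v z w i m i' (hi.trans hze.symm) hji with h | h | h
        · exact hzv h.symm
        · exact hvw h
        · exact hzw h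
      have hne' : ginc (2 * k + 1) v j ≠ e1 := by
        intro h
        rcases hN.two v z1 w j m1 i' (h.trans hz1.symm) hji with h | h | h
        · exact hz1v h.symm
        · exact hvw h
        · exact hz1w h
      obtain ⟨γ, hγ1, hγ2⟩ := ih (ginc (2 * k + 1) v j) v j (by simp)
        (by rw [List.isChain_cons_cons] at hch; exact hch.2) hnd.2 hnd.1
        (fun h => hz1l (List.mem_cons_of_mem _ h)) rfl ⟨w, rfl, i', hji.symm⟩
        (by
          obtain ⟨w', hw', j', hj'⟩ := hlast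
          exact ⟨w', by rw [List.getLast?_cons_cons] at hw'; exact hw', j', hj'⟩) hne'
      exact ⟨(v, i, j) :: γ, by rw [List.map_cons, hγ1], hi, hij, hγ2⟩

/-- The list of vertices of a chain is a path. -/
theorem chn_chain {k : ℕ} {e1 : Ed} : ∀ (γ : V3) (e : Ed), Chn (ginc (2 * k + 1)) e γ e1 →
    (γ.map (fun p => p.1)).Nodup → (γ.map (fun p => p.1)).IsChain (GAdj k) := by
  intro γ
  induction γ with
  | nil => intro e _ _; exact List.isChain_nil
  | cons p γ ih =>
    intro e hc hnd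
    obtain ⟨h1, h2, h3⟩ := hc
    rw [List.map_cons, List.nodup_cons] at hnd
    cases γ with
    | nil => exact List.isChain_singleton _
    | cons q γ =>
      rw [List.map_cons, List.map_cons, List.isChain_cons_cons]
      refine ⟨?_, ?_⟩
      · have h4 : ginc (2 * k + 1) q.1 q.2.1 = ginc (2 * k + 1) p.1 p.2.2 := h3.1
        refine adj_of_edge ?_ h4.symm
        intro h
        exact hnd.1 (by rw [h]; exact List.mem_cons_self)
      · have := ih _ h3 hnd.2
        rwa [List.map_cons] at this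

/-- Two chains with the same vertices are equal. -/
theorem chn_eq {k : ℕ} (hk : 1 ≤ k) (hN : NetOK (ginc (2 * k + 1)) gsg) {e1 : Ed} : ∀ (γ γ' : V3) (e : Ed),
    Chn (ginc (2 * k + 1)) e γ e1 → Chn (ginc (2 * k + 1)) e γ' e1 →
    (γ.map (fun p => p.1)).Nodup → γ.map (fun p => p.1) = γ'.map (fun p => p.1) → γ = γ' := by
  intro γ
  induction γ with
  | nil =>
    intro γ' e _ _ _ h
    rw [List.map_nil] at h
    exact (List.map_eq_nil_iff.1 h.symm).symm
  | cons p γ ih =>
    intro γ' e hc hc' hnd h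
    cases γ' with
    | nil => rw [List.map_cons, List.map_nil] at h; exact absurd h (by simp)
    | cons p' γ' =>
      rw [List.map_cons, List.map_cons, List.cons.injEq] at h
      obtain ⟨hp, ht⟩ := h
      obtain ⟨v, i, j⟩ := p
      obtain ⟨v', i', j'⟩ := p'
      simp only at hp
      subst hp
      obtain ⟨h1, h2, h3⟩ := hc
      obtain ⟨h1', h2', h3'⟩ := hc'
      have hii : i = i' := hN.inj v (h1.trans h1'.symm)
      subst hii
      rw [List.map_cons, List.nodup_cons] at hnd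
      have hjj : j = j' := by
        cases γ with
        | nil =>
          rw [List.map_nil] at ht
          have hg : γ' = [] := List.map_eq_nil_iff.1 ht.symm
          subst hg
          have h4 : ginc (2 * k + 1) v j = e1 := h3
          have h5 : ginc (2 * k + 1) v j' = e1 := h3'
          exact hN.inj v (h4.trans h5.symm)
        | cons q γ =>
          cases γ' with
          | nil => rw [List.map_cons, List.map_nil] at ht; exact absurd ht (by simp)
          | cons q' γ' =>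
            rw [List.map_cons, List.map_cons, List.cons.injEq] at ht
            have h4 : ginc (2 * k + 1) q.1 q.2.1 = ginc (2 * k + 1) v j := h3.1
            have h5 : ginc (2 * k + 1) q'.1 q'.2.1 = ginc (2 * k + 1) v j' := h3'.1
            have hqv : v ≠ q.1 := by
              intro h
              exact hnd.1 (by rw [List.map_cons]; simp only; rw [h]; exact List.mem_cons_self)
            rw [← ht.1] at h5
            exact simple hk hqv h4.symm h5.symm
      subst hjj
      rw [ih γ' _ h3 h3' hnd.2 ht]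

/-- Two chains in the same support are equal. -/
theorem chn_supp {k : ℕ} (hN : NetOK (ginc (2 * k + 1)) gsg) {e1 : Ed} {V0 : Finset Vx} {S : Finset Ed}
    (hT : ∀ v ∈ V0, ∃ i, ginc (2 * k + 1) v i ∉ S)
    (h1 : ∀ v w, v ∈ V0 → w ∈ V0 → (∃ i, ginc (2 * k + 1) v i = e1) → (∃ i, ginc (2 * k + 1) w i = e1) → v = w) :
    ∀ (γ γ' : V3) (e : Ed), γ ≠ [] → γ' ≠ [] →
    Chn (ginc (2 * k + 1)) e γ e1 → Chn (ginc (2 * k + 1)) e γ' e1 →
    (γ.map (fun p => p.1)).Nodup → (γ'.map (fun p => p.1)).Nodup →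
    (∀ p ∈ γ, p.1 ∈ V0) → (∀ p ∈ γ', p.1 ∈ V0) →
    (∀ f ∈ pedges (ginc (2 * k + 1)) e γ, f ∈ S) → (∀ f ∈ pedges (ginc (2 * k + 1)) e γ', f ∈ S) →
    (∀ p q, γ.head? = some p → γ'.head? = some q → p.1 = q.1) → γ = γ' := by
  intro γ
  induction γ with
  | nil => intro γ' e h; exact absurd rfl h
  | cons p γ ih =>
    intro γ' e _ hγ' hc hc' hnd hnd' hV hV' hS hS' hh
    cases γ' with
    | nil => exact absurd rfl hγ'
    | cons p' γ' =>
      obtain ⟨v, i, j⟩ := p
      obtain ⟨v', i', j'⟩ := p'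
      have hvv : v = v' := hh _ _ rfl rfl
      subst hvv
      obtain ⟨h2, h3, h4⟩ := hc
      obtain ⟨h2', h3', h4'⟩ := hc'
      simp only at h2 h3 h4 h2' h3' h4'
      have hii : i = i' := hN.inj v (h2.trans h2'.symm)
      subst hii
      have hvV : v ∈ V0 := hV (v, i, j) List.mem_cons_self
      have heS : e ∈ S := hS e List.mem_cons_self
      have hjS : ginc (2 * k + 1) v j ∈ S := hS _ (by simp [pedges])
      have hjS' : ginc (2 * k + 1) v j' ∈ S := hS' _ (by simp [pedges])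
      have hjj : j = j' := by
        by_contra hne
        obtain ⟨m, hm⟩ := hT v hvV
        have h5 : m = i ∨ m = j ∨ m = j' := three i j j' m h3 h3' hne
        rcases h5 with h5 | h5 | h5
        · rw [h5, h2] at hm; exact hm heS
        · rw [h5] at hm; exact hm hjS
        · rw [h5] at hm; exact hm hjS'
      subst hjj
      rw [List.map_cons, List.nodup_cons] at hnd hnd'
      have hVt : ∀ p ∈ γ, p.1 ∈ V0 := fun p hp => hV p (List.mem_cons_of_mem _ hp)
      have hVt' : ∀ p ∈ γ', p.1 ∈ V0 := fun p hp => hV' p (List.mem_cons_of_mem _ hp)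
      cases γ with
      | nil =>
        cases γ' with
        | nil => rfl
        | cons q' γ' =>
          exfalso
          have h5 : ginc (2 * k + 1) v j = e1 := h4
          have h6 : ginc (2 * k + 1) q'.1 q'.2.1 = ginc (2 * k + 1) v j := h4'.1
          have h7 := h1 v q'.1 hvV (hVt' q' List.mem_cons_self) ⟨j, h5⟩ ⟨q'.2.1, h6.trans h5⟩
          exact hnd'.1 (by rw [List.map_cons]; simp only; rw [h7]; exact List.mem_cons_self)
      | cons q γ =>
        cases γ' with
        | nil =>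
          exfalso
          have h5 : ginc (2 * k + 1) v j = e1 := h4'
          have h6 : ginc (2 * k + 1) q.1 q.2.1 = ginc (2 * k + 1) v j := h4.1
          have h7 := h1 v q.1 hvV (hVt q List.mem_cons_self) ⟨j, h5⟩ ⟨q.2.1, h6.trans h5⟩
          exact hnd.1 (by rw [List.map_cons]; simp only; rw [h7]; exact List.mem_cons_self)
        | cons q' γ' =>
          have hqv : v ≠ q.1 := by
            intro h
            exact hnd.1 (by rw [List.map_cons]; simp only; rw [h]; exact List.mem_cons_self)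
          have hqv' : v ≠ q'.1 := by
            intro h
            exact hnd'.1 (by rw [List.map_cons]; simp only; rw [h]; exact List.mem_cons_self)
          have h5 : ginc (2 * k + 1) q.1 q.2.1 = ginc (2 * k + 1) v j := h4.1
          have h6 : ginc (2 * k + 1) q'.1 q'.2.1 = ginc (2 * k + 1) v j := h4'.1
          have hqq : q.1 = q'.1 := by
            rcases hN.two v q.1 q'.1 j q.2.1 q'.2.1 h5.symm h6.symm with h | h | h
            · exact absurd h hqv
            · exact absurd h hqv'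
            · exact h
          rw [ih (q' :: γ') _ (by simp) (by simp) h4 h4' hnd.2 hnd'.2 hVt hVt'
            (fun f hf => hS f (by
              simp only [pedges, List.map_cons, List.mem_cons] at hf ⊢
              tauto))
            (fun f hf => hS' f (by
              simp only [pedges, List.map_cons, List.mem_cons] at hf ⊢
              tauto))
            (fun a b ha hb => by
              rw [List.head?_cons, Option.some.injEq] at ha hb
              rw [← ha, ← hb]
              exact hqq)]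

end

section Main

variable {k : ℕ}

theorem e0_ne_e1 (hk : 1 ≤ k) (ty : Ty) (N1 : ℕ) : hE0 (2 * k + 1) N1 ty ≠ hE1 (2 * k + 1) N1 ty := by
  cases ty <;> simp [hE0, hE1]

theorem z0 (ty : Ty) (N1 : ℕ) : ∃ m, ginc (2 * k + 1) (.u N1) m = hE0 (2 * k + 1) N1 ty := by
  cases ty
  · exact ⟨0, rfl⟩
  · exact ⟨0, rfl⟩
  · exact ⟨1, rfl⟩

theorem z1 (ty : Ty) (N1 : ℕ) : ∃ m, ginc (2 * k + 1) (.u N1) m = hE1 (2 * k + 1) N1 ty := by
  cases ty
  · exact ⟨1, rfl⟩
  · exact ⟨2, rfl⟩
  · exact ⟨2, rfl⟩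

theorem a0 (ty : Ty) (N1 : ℕ) : ∃ m, ginc (2 * k + 1) (hA k N1 ty) m = hE0 (2 * k + 1) N1 ty := by
  cases ty
  · exact ⟨2, rfl⟩
  · exact ⟨2, rfl⟩
  · exact ⟨1, by simp [ginc, hA, hE0]; omega⟩

theorem b0 (ty : Ty) (N1 : ℕ) : ∃ m, ginc (2 * k + 1) (hB k N1 ty) m = hE1 (2 * k + 1) N1 ty := by
  cases ty
  · exact ⟨1, by simp [ginc, hB, hE1]; omega⟩
  · exact ⟨0, by simp [ginc, hB, hE1]; omega⟩
  · exact ⟨0, by simp [ginc, hB, hE1]; omega⟩

theorem u0 (hN : NetOK (ginc (2 * k + 1)) gsg) (ty : Ty) (N1 : ℕ) (v : Vx) (hv : v ≠ .u N1)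
    (h : ∃ i, ginc (2 * k + 1) v i = hE0 (2 * k + 1) N1 ty) : v = hA k N1 ty := by
  obtain ⟨i, hi⟩ := h
  obtain ⟨m, hm⟩ := z0 (k := k) ty N1
  obtain ⟨m', hm'⟩ := a0 (k := k) ty N1
  rcases hN.two v (.u N1) (hA k N1 ty) i m m' (hi.trans hm.symm) (hi.trans hm'.symm) with h | h | h
  · exact absurd h hv
  · exact h
  · cases ty <;> simp [hA] at h

theorem u1 (hN : NetOK (ginc (2 * k + 1)) gsg) (ty : Ty) (N1 : ℕ) (v : Vx) (hv : v ≠ .u N1)
    (h : ∃ i, ginc (2 * k + 1) v i = hE1 (2 * k + 1) N1 ty) : v = hB k N1 ty := by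
  obtain ⟨i, hi⟩ := h
  obtain ⟨m, hm⟩ := z1 (k := k) ty N1
  obtain ⟨m', hm'⟩ := b0 (k := k) ty N1
  rcases hN.two v (.u N1) (hB k N1 ty) i m m' (hi.trans hm.symm) (hi.trans hm'.symm) with h | h | h
  · exact absurd h hv
  · exact h
  · cases ty <;> simp [hB] at h

theorem sgs (hk : 1 ≤ k) (ty : Ty) (N1 : ℕ) (i j : Fin 3)
    (hi : ginc (2 * k + 1) (hA k N1 ty) i = hE0 (2 * k + 1) N1 ty)
    (hj : ginc (2 * k + 1) (hB k N1 ty) j = hE1 (2 * k + 1) N1 ty) :
    gsg (hA k N1 ty) i * ch (hS0 ty) + gsg (hB k N1 ty) j * ch .pos = 0 := by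
  cases ty
  · fin_cases i <;> fin_cases j <;> simp [ginc, hA, hB, hE0, hE1, gsg, hS0, ch] at hi hj ⊢
  · fin_cases i <;> fin_cases j <;> simp [ginc, hA, hB, hE0, hE1, gsg, hS0, ch] at hi hj ⊢
  · fin_cases i <;> fin_cases j <;> simp [ginc, hA, hB, hE0, hE1, gsg, hS0, ch] at hi hj ⊢

/-- The vertices. -/
abbrev W0 (N1 N2 : ℕ) : Finset Vx := (VV (N1 + 1 + N2)).erase (.u N1)

theorem mem_W0 (N1 N2 : ℕ) (v : Vx) : v ∈ W0 N1 N2 ↔ v ≠ .u N1 ∧ v.tm < N1 + 1 + N2 := by
  rw [W0, Finset.mem_erase, mem_VV]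

/-- The chain `γ` describes the choices `F`. -/
def Rel (k : ℕ) (ty : Ty) (N1 N2 : ℕ) (F : List O) (γ : V3) : Prop :=
  γ ≠ [] ∧ Chn (ginc (2 * k + 1)) (hE0 (2 * k + 1) N1 ty) γ (hE1 (2 * k + 1) N1 ty) ∧
  (γ.map (fun p => p.1)).Nodup ∧ (∀ p ∈ γ, p.1 ∈ W0 N1 N2) ∧
  (∀ e, e ∈ supp (2 * k + 1) F ↔ e ∈ pedges (ginc (2 * k + 1)) (hE0 (2 * k + 1) N1 ty) γ) ∧
  γ.length = usedV (ginc (2 * k + 1)) (W0 N1 N2) (supp (2 * k + 1) F)

/-- The good lists. -/
def Good (k : ℕ) (ty : Ty) (N1 N2 : ℕ) (l : List Vx) : Prop :=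
  l.IsChain (GAdj k) ∧ l.Nodup ∧ (∀ v ∈ l, v.tm < N1 + 1 + N2) ∧ Vx.u N1 ∉ l ∧
        l.head? = some (hA k N1 ty) ∧ l.getLast? = some (hB k N1 ty)

theorem good_of_rel (hN : NetOK (ginc (2 * k + 1)) gsg) {ty : Ty} {N1 N2 : ℕ} {F : List O} {γ : V3}
    (h : Rel k ty N1 N2 F γ) : Good k ty N1 N2 (γ.map (fun p => p.1)) := by
  obtain ⟨h1, h2, h3, h4, h5, h6⟩ := h
  refine ⟨chn_chain γ _ h2 h3, h3, ?_, ?_, ?_, ?_⟩
  · intro v hv
    obtain ⟨p, hp, rfl⟩ := List.mem_map.1 hv
    exact ((mem_W0 _ _ _).1 (h4 p hp)).2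
  · intro hv
    obtain ⟨p, hp, hp2⟩ := List.mem_map.1 hv
    exact ((mem_W0 _ _ _).1 (h4 p hp)).1 hp2
  · cases γ with
    | nil => exact absurd rfl h1
    | cons p γ =>
      rw [List.map_cons, List.head?_cons]
      congr 1
      exact u0 hN ty N1 p.1 ((mem_W0 _ _ _).1 (h4 p List.mem_cons_self)).1 ⟨p.2.1, h2.1⟩
  · obtain ⟨q, hq, hq1, hq2⟩ := chn_last _ _ _ γ h1 h2
    rw [List.getLast?_map, hq2]
    show some q.1 = some _
    congr 1
    exact u1 hN ty N1 q.1 ((mem_W0 _ _ _).1 (h4 q hq)).1 ⟨q.2.2, hq1⟩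

open EX

theorem exU (hN : NetOK (ginc (2 * k + 1)) gsg) {ty : Ty} {N1 N2 : ℕ}
    (hb : (hA k N1 ty).tm < N1 + 1 + N2) :
    ∃! v, v ∈ W0 N1 N2 ∧ ∃ i, ginc (2 * k + 1) v i = hE0 (2 * k + 1) N1 ty := by
  refine ⟨hA k N1 ty, ⟨(mem_W0 _ _ _).2 ⟨by cases ty <;> simp [hA], hb⟩, a0 ty N1⟩, ?_⟩
  rintro v ⟨hv1, hv2⟩
  exact u0 hN ty N1 v ((mem_W0 _ _ _).1 hv1).1 hv2

theorem exV (hN : NetOK (ginc (2 * k + 1)) gsg) {ty : Ty} {N1 N2 : ℕ}
    (hb : (hB k N1 ty).tm < N1 + 1 + N2) :
    ∃! v, v ∈ W0 N1 N2 ∧ ∃ i, ginc (2 * k + 1) v i = hE1 (2 * k + 1) N1 ty := by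
  refine ⟨hB k N1 ty, ⟨(mem_W0 _ _ _).2 ⟨by cases ty <;> simp [hB], hb⟩, b0 ty N1⟩, ?_⟩
  rintro v ⟨hv1, hv2⟩
  exact u1 hN ty N1 v ((mem_W0 _ _ _).1 hv1).1 hv2

/-- A configuration gives a chain. -/
theorem rel_of_hcost (hk : 1 ≤ k) (hN : NetOK (ginc (2 * k + 1)) gsg) {ty : Ty} {N1 N2 : ℕ} {F1 F2 : List O} {c : ℕ}
    (hF1 : F1.length = N1) (hF2 : F2.length = N2) (h : hcost ty (2 * k + 1) F1 F2 = some c) :
    ∃ γ, Rel k ty N1 N2 (F1 ++ hO ty :: F2) γ := by
  subst hF1
  subst hF2
  obtain ⟨h1, h2, h3⟩ := (exp_hole k hk ty F1 F2 c).1 h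
  set F := F1 ++ hO ty :: F2 with hF
  have hlen : F.length = F1.length + 1 + F2.length := hF_len ty F1 F2
  have hg : F.getD F1.length (false, false) = hO ty := hF_getD ty F1 F2
  have hbig : ∀ t, (Sum.inl (2 * t) : Ed) ∈ supp (2 * k + 1) F ∨ (Sum.inl (2 * t + 1) : Ed) ∈ supp (2 * k + 1) F →
      t < F1.length + 1 + F2.length := by
    intro t ht
    by_contra hc
    rcases ht with ht | ht
    · exact h1 _ (by omega) ht
    · exact h1 _ (by omega) ht
  have hev := supp_ev (2 * k + 1) F F1.length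
  have hod := supp_od (2 * k + 1) F F1.length
  have hvt := supp_vt (2 * k + 1) F F1.length
  rw [hg] at hev hod hvt
  have hAt : (hA k F1.length ty).tm < F1.length + 1 + F2.length := by
    cases ty
    · show F1.length < _
      omega
    · show F1.length < _
      omega
    · show F1.length + k < _
      apply hbig
      right
      have : 2 * (F1.length + k) + 1 = 2 * F1.length + (2 * k + 1) := by ring
      rw [this]
      exact hev.2 rfl
  have hBt : (hB k F1.length ty).tm < F1.length + 1 + F2.length := by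
    cases ty
    · show F1.length + k < _
      apply hbig
      right
      have : 2 * (F1.length + k) + 1 = 2 * F1.length + (2 * k + 1) := by ring
      rw [this]
      exact hev.2 rfl
    · show F1.length + k + 1 < _
      apply hbig
      left
      have : 2 * (F1.length + k + 1) = 2 * F1.length + (2 * k + 1) + 1 := by ring
      rw [this]
      exact hod.2 rfl
    · show F1.length + k + 1 < _
      apply hbig
      left
      have : 2 * (F1.length + k + 1) = 2 * F1.length + (2 * k + 1) + 1 := by ring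
      rw [this]
      exact hod.2 rfl
  have ha : hS0 ty ≠ 0 := by cases ty <;> decide
  obtain ⟨γ, g1, g2, g3, g4, g5, g6⟩ := net_A (ginc (2 * k + 1)) gsg hN (W0 F1.length F2.length)
    (supp (2 * k + 1) F) (hE0 (2 * k + 1) F1.length ty) (hE1 (2 * k + 1) F1.length ty) (hS0 ty) .pos ha
    (by decide) (e0_ne_e1 hk ty _) (exU hN hAt) (exV hN hBt) (by
      intro e he hne0 hne1
      cases e with
      | inl j =>
        by_cases hj : j < 2 * k + 1
        · exact absurd he (supp_lt _ _ _ hj)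
        obtain ⟨t, ht⟩ : ∃ t, j = 2 * t + (2 * k + 1) ∨ j = 2 * t + (2 * k + 1) + 1 := by
          rcases Nat.even_or_odd (j - (2 * k + 1)) with ⟨t, ht⟩ | ⟨t, ht⟩
          · exact ⟨t, Or.inl (by omega)⟩
          · exact ⟨t, Or.inr (by omega)⟩
        have htN : t < F1.length + 1 + F2.length := by
          by_contra hc
          have hFb := F_big F t (by rw [hlen]; omega)
          rcases ht with ht | ht
          · rw [ht, supp_ev, hFb] at he
            exact absurd he (by decide)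
          · rw [ht, supp_od, hFb] at he
            exact absurd he (by decide)
        have hjN : j < 2 * (F1.length + 1 + F2.length) := by
          by_contra hc
          exact h1 j (by omega) he
        have htne : t ≠ F1.length := by
          rintro rfl
          cases ty
          · rcases ht with ht | ht
            · exact hne1 (by rw [ht]; rfl)
            · rw [ht] at he
              exact absurd (hod.1 he) (by decide)
          · rcases ht with ht | ht
            · rw [ht] at he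
              exact absurd (hev.1 he) (by decide)
            · exact hne1 (by rw [ht]; rfl)
          · rcases ht with ht | ht
            · exact hne0 (by rw [ht]; rfl)
            · exact hne1 (by rw [ht]; rfl)
        refine ⟨.u t, (mem_W0 _ _ _).2 ⟨fun h => htne (Vx.u.inj h), htN⟩, .s (j / 2),
          (mem_W0 _ _ _).2 ⟨by simp, ?_⟩, by simp, ?_, ?_⟩
        · show j / 2 < _
          omega
        · rcases ht with ht | ht
          · exact ⟨1, by rw [ht]; rfl⟩
          · exact ⟨2, by rw [ht]; rfl⟩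
        · rcases Nat.even_or_odd j with ⟨r, hr⟩ | ⟨r, hr⟩
          · exact ⟨0, by simp only [ginc, Matrix.cons_val_zero, Sum.inl.injEq]; omega⟩
          · exact ⟨1, by simp only [ginc, Matrix.cons_val_one, Matrix.cons_val_zero, Sum.inl.injEq]; omega⟩
      | inr t =>
        have htN : t < F1.length + 1 + F2.length := by
          by_contra hc
          rw [supp_vt, F_big F t (by rw [hlen]; omega)] at he
          exact he rfl
        have htne : t ≠ F1.length := by
          rintro rfl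
          cases ty
          · exact hne0 rfl
          · exact hne0 rfl
          · exact hvt.1 he rfl
        exact ⟨.s t, (mem_W0 _ _ _).2 ⟨by simp, htN⟩, .u t,
          (mem_W0 _ _ _).2 ⟨fun h => htne (Vx.u.inj h), htN⟩, by simp, ⟨2, rfl⟩, ⟨0, rfl⟩⟩) h2
  exact ⟨γ, g1, g2, g3, g4, g5, g6⟩

end Main

section Main2

variable {k : ℕ}

open EX

/-- The choices read off from a set of edges. -/
noncomputable def fS (n : ℕ) (S : Finset Ed) (t : ℕ) : O :=
  (decide ((Sum.inl (2 * t + n) : Ed) ∈ S), decide ((Sum.inl (2 * t + n + 1) : Ed) ∈ S))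

theorem range_getD (N : ℕ) (f : ℕ → O) (t : ℕ) (ht : t < N) :
    ((List.range N).map f).getD t (false, false) = f t := by
  rw [List.getD_eq_getElem?_getD, List.getElem?_map, List.getElem?_range ht]
  rfl

/-- A good list comes from a configuration. -/
theorem rel_of_good (hk : 1 ≤ k) (hN : NetOK (ginc (2 * k + 1)) gsg) {ty : Ty} {N1 N2 : ℕ} {l : List Vx}
    (h : Good k ty N1 N2 l) : ∃ (F1 F2 : List O) (γ : V3), F1.length = N1 ∧ F2.length = N2 ∧
      Rel k ty N1 N2 (F1 ++ hO ty :: F2) γ ∧ γ.map (fun p => p.1) = l ∧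
      hcost ty (2 * k + 1) F1 F2 = some l.length := by
  obtain ⟨h1, h2, h3, h4, h5, h6⟩ := h
  have hl : l ≠ [] := by
    rintro rfl
    simp at h5
  obtain ⟨m0, hm0⟩ := z0 (k := k) ty N1
  obtain ⟨m1, hm1⟩ := z1 (k := k) ty N1
  obtain ⟨γ, g1, g2⟩ := mk_chn k hN (hE1 (2 * k + 1) N1 ty) (.u N1) m1 hm1 l (hE0 (2 * k + 1) N1 ty)
    (.u N1) m0 hl h1 h2 h4 h4 hm0 ⟨_, h5, a0 ty N1⟩ ⟨_, h6, b0 ty N1⟩ (e0_ne_e1 hk ty N1)
  have hγ : γ ≠ [] := by
    rintro rfl
    exact hl g1.symm
  have hnd : (γ.map (fun p => p.1)).Nodup := by rw [g1]; exact h2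
  have hV : ∀ p ∈ γ, p.1 ∈ W0 N1 N2 := by
    intro p hp
    have hpl : p.1 ∈ l := by
      rw [← g1]
      exact List.mem_map.2 ⟨p, hp, rfl⟩
    exact (mem_W0 _ _ _).2 ⟨fun h => h4 (by rw [← h]; exact hpl), h3 _ hpl⟩
  set S : Finset Ed := (pedges (ginc (2 * k + 1)) (hE0 (2 * k + 1) N1 ty) γ).toFinset with hS
  have hSm : ∀ e, e ∈ S ↔ e ∈ pedges (ginc (2 * k + 1)) (hE0 (2 * k + 1) N1 ty) γ := fun e => by
    rw [hS, List.mem_toFinset]
  have hAt : (hA k N1 ty).tm < N1 + 1 + N2 := h3 _ (List.mem_of_mem_head? h5)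
  have hBt : (hB k N1 ty).tm < N1 + 1 + N2 := h3 _ (List.mem_of_mem_getLast? h6)
  have ha : hS0 ty ≠ 0 := by cases ty <;> decide
  obtain ⟨n1, n2⟩ := net_B (ginc (2 * k + 1)) gsg hN (W0 N1 N2) S (hE0 (2 * k + 1) N1 ty)
    (hE1 (2 * k + 1) N1 ty) (hS0 ty) .pos ha (exU hN hAt) (exV hN hBt) γ hγ g2 hnd hV hSm (by
      intro p q hp hq
      have hp1 : p.1 = hA k N1 ty := by
        have : l.head? = some p.1 := by rw [← g1, List.head?_map, hp]; rfl
        rw [h5] at this
        exact (Option.some.inj this).symm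
      have hq1 : q.1 = hB k N1 ty := by
        have : l.getLast? = some q.1 := by rw [← g1, List.getLast?_map, hq]; rfl
        rw [h6] at this
        exact (Option.some.inj this).symm
      have hpe : ginc (2 * k + 1) p.1 p.2.1 = hE0 (2 * k + 1) N1 ty := by
        cases γ with
        | nil => exact absurd rfl hγ
        | cons p' γ' =>
          rw [List.head?_cons, Option.some.injEq] at hp
          subst hp
          exact g2.1
      have hqe : ginc (2 * k + 1) q.1 q.2.2 = hE1 (2 * k + 1) N1 ty := by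
        obtain ⟨q', hq', hq1', hq2'⟩ := chn_last _ _ _ γ hγ g2
        rw [hq, Option.some.injEq] at hq2'
        rw [hq2']
        exact hq1'
      rw [hp1] at hpe ⊢
      rw [hq1] at hqe ⊢
      exact sgs hk ty N1 _ _ hpe hqe)
  -- the flow
  obtain ⟨σ, hσ⟩ : (FLs (ginc (2 * k + 1)) gsg (W0 N1 N2) S (hE0 (2 * k + 1) N1 ty)
      (hE1 (2 * k + 1) N1 ty) (hS0 ty) .pos).Nonempty := by
    apply Set.nonempty_of_ncard_ne_zero
    rw [n1]
    exact one_ne_zero
  obtain ⟨s1, s2, -, -⟩ := hσ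
  have hS1 : ∀ e ∈ S, e = hE0 (2 * k + 1) N1 ty ∨ e = hE1 (2 * k + 1) N1 ty ∨
      ∃ p ∈ γ, ∃ q ∈ γ, p.1 ≠ q.1 ∧ (∃ i, ginc (2 * k + 1) p.1 i = e) ∧ (∃ i, ginc (2 * k + 1) q.1 i = e) :=
    fun e he => chn_edge _ _ _ γ g2 hnd e ((hSm e).1 he)
  have he0S : hE0 (2 * k + 1) N1 ty ∈ S := (hSm _).2 List.mem_cons_self
  have he1S : hE1 (2 * k + 1) N1 ty ∈ S := by
    obtain ⟨q, hq, hq1, -⟩ := chn_last _ _ _ γ hγ g2
    refine (hSm _).2 (List.mem_cons_of_mem _ (List.mem_map.2 ⟨q, hq, hq1⟩))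
  have hS3 : ∀ m, ginc (2 * k + 1) (.u N1) m ≠ hE0 (2 * k + 1) N1 ty →
      ginc (2 * k + 1) (.u N1) m ≠ hE1 (2 * k + 1) N1 ty → ginc (2 * k + 1) (.u N1) m ∉ S := by
    intro m hm2 hm3 hm
    rcases hS1 _ hm with h | h | ⟨p, hp, q, hq, hpq, ⟨i, hi⟩, ⟨j, hj⟩⟩
    · exact hm2 h
    · exact hm3 h
    · have hpu := ((mem_W0 _ _ _).1 (hV p hp)).1
      have hqu := ((mem_W0 _ _ _).1 (hV q hq)).1
      rcases hN.two (.u N1) p.1 q.1 m i j hi.symm hj.symm with h | h | h
      · exact hpu h.symm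
      · exact hqu h.symm
      · exact hpq h
  have hS4 : ∀ j, (Sum.inl j : Ed) ∈ S → j < 2 * (N1 + 1 + N2) ∧ ∃ t < N1 + 1 + N2,
      j = 2 * t + (2 * k + 1) ∨ j = 2 * t + (2 * k + 1) + 1 := by
    intro j hj
    have key : ∀ v w : Vx, v.tm < N1 + 1 + N2 → w.tm < N1 + 1 + N2 → v ≠ w →
        (∃ i, ginc (2 * k + 1) v i = Sum.inl j) → (∃ i, ginc (2 * k + 1) w i = Sum.inl j) →
        j < 2 * (N1 + 1 + N2) ∧ ∃ t < N1 + 1 + N2, j = 2 * t + (2 * k + 1) ∨ j = 2 * t + (2 * k + 1) + 1 := by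
      have key2 : ∀ t t' : ℕ, t < N1 + 1 + N2 → t' < N1 + 1 + N2 →
          (∃ i, ginc (2 * k + 1) (.s t) i = Sum.inl j) → (∃ i, ginc (2 * k + 1) (.u t') i = Sum.inl j) →
          j < 2 * (N1 + 1 + N2) ∧
            ∃ t < N1 + 1 + N2, j = 2 * t + (2 * k + 1) ∨ j = 2 * t + (2 * k + 1) + 1 := by
        rintro t t' ht ht' ⟨i, hi⟩ ⟨i', hi'⟩
        refine ⟨?_, t', ht', ?_⟩
        · fin_cases i <;> simp [ginc] at hi <;> omega
        · fin_cases i' <;> simp [ginc] at hi' <;> omega
      rintro v w hv hw hvw ⟨i, hi⟩ ⟨i', hi'⟩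
      have hadj := adj_of_edge hvw (hi.trans hi'.symm)
      cases v with
      | s t =>
        cases w with
        | s t' => exact absurd hadj (by simp [GAdj])
        | u t' => exact key2 t t' hv hw ⟨i, hi⟩ ⟨i', hi'⟩
      | u t =>
        cases w with
        | u t' => exact absurd hadj (by simp [GAdj])
        | s t' => exact key2 t' t hw hv ⟨i', hi'⟩ ⟨i, hi⟩
    rcases hS1 _ hj with h | h | ⟨p, hp, q, hq, hpq, hi, hj⟩
    · refine key (hA k N1 ty) (.u N1) hAt (by show N1 < _; omega) (by cases ty <;> simp [hA]) ?_ ?_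
      · rw [h]; exact a0 ty N1
      · rw [h]; exact z0 ty N1
    · refine key (hB k N1 ty) (.u N1) hBt (by show N1 < _; omega) (by cases ty <;> simp [hB]) ?_ ?_
      · rw [h]; exact b0 ty N1
      · rw [h]; exact z1 ty N1
    · exact key p.1 q.1 ((mem_W0 _ _ _).1 (hV p hp)).2 ((mem_W0 _ _ _).1 (hV q hq)).2 hpq hi hj
  have hS5 : ∀ t, (Sum.inr t : Ed) ∈ S → t < N1 + 1 + N2 := by
    intro t ht
    have key : ∀ v : Vx, v.tm < N1 + 1 + N2 → (∃ i, ginc (2 * k + 1) v i = Sum.inr t) → t < N1 + 1 + N2 := by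
      rintro v hv ⟨i, hi⟩
      cases v with
      | s t' =>
        have hv' : t' < N1 + 1 + N2 := hv
        fin_cases i <;> simp [ginc] at hi
        omega
      | u t' =>
        have hv' : t' < N1 + 1 + N2 := hv
        fin_cases i <;> simp [ginc] at hi
        omega
    rcases hS1 _ ht with h | h | ⟨p, hp, q, hq, hpq, hi, hj⟩
    · refine key (.u N1) (by show N1 < _; omega) ?_
      rw [h]; exact z0 ty N1
    · refine key (.u N1) (by show N1 < _; omega) ?_
      rw [h]; exact z1 ty N1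
    · exact key p.1 ((mem_W0 _ _ _).1 (hV p hp)).2 hi
  have hfN : fS (2 * k + 1) S N1 = hO ty := by
    have e1m : (Sum.inl (2 * N1 + (2 * k + 1)) : Ed) = ginc (2 * k + 1) (.u N1) 1 := rfl
    have e2m : (Sum.inl (2 * N1 + (2 * k + 1) + 1) : Ed) = ginc (2 * k + 1) (.u N1) 2 := rfl
    unfold fS
    cases ty
    · refine Prod.ext ?_ ?_
      · exact decide_eq_true he1S
      · refine decide_eq_false ?_
        rw [e2m]
        exact hS3 2 (by simp [ginc, hE0]) (by simp [ginc, hE1])
    · refine Prod.ext ?_ ?_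
      · refine decide_eq_false ?_
        rw [e1m]
        exact hS3 1 (by simp [ginc, hE0]) (by simp [ginc, hE1])
      · exact decide_eq_true he1S
    · refine Prod.ext ?_ ?_
      · exact decide_eq_true he0S
      · exact decide_eq_true he1S
  set F1 : List O := (List.range N1).map (fS (2 * k + 1) S) with hF1
  set F2 : List O := (List.range N2).map (fun t => fS (2 * k + 1) S (N1 + 1 + t)) with hF2
  have hF1l : F1.length = N1 := by simp [hF1]
  have hF2l : F2.length = N2 := by simp [hF2]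
  have hgetD : ∀ t, t < N1 + 1 + N2 → (F1 ++ hO ty :: F2).getD t (false, false) = fS (2 * k + 1) S t := by
    intro t ht
    rcases lt_trichotomy t N1 with hlt | heq | hgt
    · rw [List.getD_append _ _ _ _ (by rw [hF1l]; exact hlt), hF1, range_getD _ _ _ hlt]
    · subst heq
      rw [List.getD_append_right _ _ _ _ (by rw [hF1l]), hF1l, Nat.sub_self, List.getD_cons_zero, hfN]
    · rw [List.getD_append_right _ _ _ _ (by rw [hF1l]; omega), hF1l]
      obtain ⟨q, hq⟩ : ∃ q, t - N1 = q + 1 := ⟨t - N1 - 1, by omega⟩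
      rw [hq, List.getD_cons_succ, hF2, range_getD _ _ _ (by omega)]
      congr 1
      omega
  have hFlen : (F1 ++ hO ty :: F2).length = N1 + 1 + N2 := by rw [hF_len, hF1l, hF2l]
  have hsupp : supp (2 * k + 1) (F1 ++ hO ty :: F2) = S := by
    ext e
    cases e with
    | inl j =>
      by_cases hj : j < 2 * k + 1
      · refine ⟨fun h => absurd h (supp_lt _ _ _ hj), fun h => ?_⟩
        obtain ⟨_, t, _, ht⟩ := hS4 j h
        omega
      · obtain ⟨t, ht⟩ : ∃ t, j = 2 * t + (2 * k + 1) ∨ j = 2 * t + (2 * k + 1) + 1 := by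
          rcases Nat.even_or_odd (j - (2 * k + 1)) with ⟨t, ht⟩ | ⟨t, ht⟩
          · exact ⟨t, Or.inl (by omega)⟩
          · exact ⟨t, Or.inr (by omega)⟩
        by_cases htN : t < N1 + 1 + N2
        · rcases ht with ht | ht
          · rw [ht, supp_ev, hgetD t htN]
            simp only [fS, decide_eq_true_eq]
          · rw [ht, supp_od, hgetD t htN]
            simp only [fS, decide_eq_true_eq]
        · have hb := F_big (F1 ++ hO ty :: F2) t (by rw [hFlen]; omega)
          have hnS : (Sum.inl j : Ed) ∉ S := by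
            intro h
            obtain ⟨_, t', _, ht'⟩ := hS4 j h
            omega
          rcases ht with ht | ht
          · rw [ht] at hnS ⊢
            rw [supp_ev, hb]
            exact ⟨fun h => absurd h (by decide), fun h => absurd h hnS⟩
          · rw [ht] at hnS ⊢
            rw [supp_od, hb]
            exact ⟨fun h => absurd h (by decide), fun h => absurd h hnS⟩
    | inr t =>
      rw [supp_vt]
      by_cases htN : t < N1 + 1 + N2
      · rw [hgetD t htN]
        by_cases htne : t = N1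
        · subst htne
          rw [hfN]
          cases ty
          · exact ⟨fun _ => he0S, fun _ => by decide⟩
          · exact ⟨fun _ => he0S, fun _ => by decide⟩
          · refine ⟨fun h => absurd rfl h, fun h => ?_⟩
            exact absurd h (hS3 0 (by simp [ginc, hE0]) (by simp [ginc, hE1]))
        · have hu := s1 (.u t) ((mem_W0 _ _ _).2 ⟨fun h => htne (Vx.u.inj h), htN⟩)
          rw [sum_u] at hu
          rw [← s2 (Sum.inr t)]
          simp only [fS, ne_eq, decide_eq_decide]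
          rw [← s2 (Sum.inl (2 * t + (2 * k + 1))), ← s2 (Sum.inl (2 * t + (2 * k + 1) + 1))]
          generalize σ (Sum.inr t) = a at hu ⊢
          generalize σ (Sum.inl (2 * t + (2 * k + 1))) = b at hu ⊢
          generalize σ (Sum.inl (2 * t + (2 * k + 1) + 1)) = c at hu ⊢
          revert a b c
          decide
      · rw [F_big (F1 ++ hO ty :: F2) t (by rw [hFlen]; omega)]
        exact ⟨fun h => absurd rfl h, fun h => absurd (hS5 t h) htN⟩
  refine ⟨F1, F2, γ, hF1l, hF2l, ⟨hγ, g2, hnd, hV, ?_, ?_⟩, g1, ?_⟩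
  · rw [hsupp]
    exact hSm
  · rw [hsupp]
    exact n2
  · rw [exp_hole k hk, hF1l, hF2l, hsupp]
    refine ⟨?_, ?_, ?_⟩
    · intro j hj hjS
      have := (hS4 j hjS).1
      omega
    · have : ((VV (N1 + 1 + N2)).erase (.u N1)) = W0 N1 N2 := rfl
      rw [this, n1]
      exact odd_one
    · rw [← g1, List.length_map]
      exact n2

/-- The configuration is determined by the chain. -/
theorem conf_unique {ty : Ty} {N1 N2 : ℕ} {F1 F2 F1' F2' : List O} {γ : V3}
    (h1 : F1.length = N1) (h2 : F2.length = N2) (h1' : F1'.length = N1) (h2' : F2'.length = N2)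
    (h : Rel k ty N1 N2 (F1 ++ hO ty :: F2) γ) (h' : Rel k ty N1 N2 (F1' ++ hO ty :: F2') γ) :
    F1 = F1' ∧ F2 = F2' := by
  have hs : ∀ e, e ∈ supp (2 * k + 1) (F1 ++ hO ty :: F2) ↔ e ∈ supp (2 * k + 1) (F1' ++ hO ty :: F2') :=
    fun e => (h.2.2.2.2.1 e).trans (h'.2.2.2.2.1 e).symm
  have hg : ∀ t, (F1 ++ hO ty :: F2).getD t (false, false) = (F1' ++ hO ty :: F2').getD t (false, false) := by
    intro t
    have e1 := hs (Sum.inl (2 * t + (2 * k + 1)))
    have e2 := hs (Sum.inl (2 * t + (2 * k + 1) + 1))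
    rw [supp_ev, supp_ev] at e1
    rw [supp_od, supp_od] at e2
    exact Prod.ext (Bool.eq_iff_iff.2 e1) (Bool.eq_iff_iff.2 e2)
  have hl : (F1 ++ hO ty :: F2).length = (F1' ++ hO ty :: F2').length := by
    rw [hF_len, hF_len, h1, h2, h1', h2']
  have heq : F1 ++ hO ty :: F2 = F1' ++ hO ty :: F2' := by
    refine List.ext_getElem hl fun t ht ht' => ?_
    have := hg t
    rwa [List.getD_eq_getElem _ _ ht, List.getD_eq_getElem _ _ ht'] at this
  obtain ⟨e1, e2⟩ := List.append_inj heq (h1.trans h1'.symm)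
  rw [List.cons.injEq] at e2
  exact ⟨e1, e2.2⟩

/-- The chain is determined by the configuration. -/
theorem chain_unique (hk : 1 ≤ k) (hN : NetOK (ginc (2 * k + 1)) gsg) {ty : Ty} {N1 N2 c : ℕ} {F1 F2 : List O}
    {γ γ' : V3} (h1 : F1.length = N1) (h2 : F2.length = N2) (hc : hcost ty (2 * k + 1) F1 F2 = some c)
    (h : Rel k ty N1 N2 (F1 ++ hO ty :: F2) γ) (h' : Rel k ty N1 N2 (F1 ++ hO ty :: F2) γ') : γ = γ' := by
  subst h1
  subst h2
  have hodd := ((exp_hole k hk ty F1 F2 c).1 hc).2.1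
  obtain ⟨σ, hσ⟩ : (FLs (ginc (2 * k + 1)) gsg (W0 F1.length F2.length) (supp (2 * k + 1) (F1 ++ hO ty :: F2))
      (hE0 (2 * k + 1) F1.length ty) (hE1 (2 * k + 1) F1.length ty) (hS0 ty) .pos).Nonempty := by
    apply Set.nonempty_of_ncard_ne_zero
    intro h0
    have : ((VV (F1.length + 1 + F2.length)).erase (.u F1.length)) = W0 F1.length F2.length := rfl
    rw [this, h0] at hodd
    exact absurd hodd (by decide)
  obtain ⟨s1, s2, -, -⟩ := hσ
  obtain ⟨r1, r2, r3, r4, r5, -⟩ := h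
  obtain ⟨r1', r2', r3', r4', r5', -⟩ := h'
  refine chn_supp hN (V0 := W0 F1.length F2.length) (S := supp (2 * k + 1) (F1 ++ hO ty :: F2)) ?_ ?_ γ γ' _ r1 r1'
    r2 r2' r3 r3' r4 r4' (fun f hf => (r5 f).2 hf) (fun f hf => (r5' f).2 hf) ?_
  · intro v hv
    by_contra hcon
    push Not at hcon
    have hsum := s1 v hv
    have n0 := (s2 _).2 (hcon 0)
    have n1 := (s2 _).2 (hcon 1)
    have n2 := (s2 _).2 (hcon 2)
    rw [Fin.sum_univ_three] at hsum
    have q0 := hN.sgn v 0
    have q1 := hN.sgn v 1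
    have q2 := hN.sgn v 2
    have p0 := ch_cases n0
    have p1 := ch_cases n1
    have p2 := ch_cases n2
    rcases q0 with q0 | q0 <;> rcases q1 with q1 | q1 <;> rcases q2 with q2 | q2 <;>
      rcases p0 with p0 | p0 <;> rcases p1 with p1 | p1 <;> rcases p2 with p2 | p2 <;>
      rw [q0, q1, q2, p0, p1, p2] at hsum <;> norm_num at hsum
  · intro v w hv hw hv1 hw1
    rw [u1 hN ty F1.length v ((mem_W0 _ _ _).1 hv).1 hv1, u1 hN ty F1.length w ((mem_W0 _ _ _).1 hw).1 hw1]
  · intro p q hp hq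
    cases γ with
    | nil => exact absurd rfl r1
    | cons p' γ =>
      cases γ' with
      | nil => exact absurd rfl r1'
      | cons q' γ' =>
        rw [List.head?_cons, Option.some.injEq] at hp hq
        subst hp
        subst hq
        rw [u0 hN ty F1.length p'.1 ((mem_W0 _ _ _).1 (r4 p' List.mem_cons_self)).1 ⟨_, r2.1⟩,
          u0 hN ty F1.length q'.1 ((mem_W0 _ _ _).1 (r4' q' List.mem_cons_self)).1 ⟨_, r2'.1⟩]

end Main2

end HPth

open HPth in
theorem hole_path (k : ℕ) (hk : 1 ≤ k) (x : ℝ) (hx : 0 ≤ x) (ty : Ty) (N1 N2 : ℕ) :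
    ∃ P : Finset (List Vx),
      (∀ l, l ∈ P ↔ l.IsChain (GAdj k) ∧ l.Nodup ∧ (∀ v ∈ l, v.tm < N1 + 1 + N2) ∧ Vx.u N1 ∉ l ∧
        l.head? = some (hA k N1 ty) ∧ l.getLast? = some (hB k N1 ty)) ∧
      hmass x ty (2 * k + 1) N1 N2 = ∑ l ∈ P, x ^ l.length := by
  classical
  have hN : NetOK (ginc (2 * k + 1)) gsg := gk_ok _ (by omega)
  set 𝒞 : Finset (List O × List O) :=
    (LL O N1 ×ˢ LL O N2).filter (fun p => (hcost ty (2 * k + 1) p.1 p.2).isSome) with h𝒞
  have hmem : ∀ p ∈ 𝒞, p.1.length = N1 ∧ p.2.length = N2 ∧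
      ∃ c, hcost ty (2 * k + 1) p.1 p.2 = some c := by
    intro p hp
    rw [h𝒞, Finset.mem_filter, Finset.mem_product, mem_LL, mem_LL, Option.isSome_iff_exists] at hp
    exact ⟨hp.1.1, hp.1.2, hp.2⟩
  have hex : ∀ p ∈ 𝒞, ∃ γ, Rel k ty N1 N2 (p.1 ++ hO ty :: p.2) γ := by
    intro p hp
    obtain ⟨h1, h2, c, hc⟩ := hmem p hp
    exact rel_of_hcost hk hN h1 h2 hc
  choose! Γ hΓ using hex
  have hcost_eq : ∀ p ∈ 𝒞, hcost ty (2 * k + 1) p.1 p.2 = some ((Γ p).map (fun q => q.1)).length := by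
    intro p hp
    obtain ⟨h1, h2, c, hc⟩ := hmem p hp
    have h3 := ((exp_hole k hk ty p.1 p.2 c).1 hc).2.2
    have h4 := (hΓ p hp).2.2.2.2.2
    rw [hc, List.length_map, h4, h3, h1, h2]
  refine ⟨𝒞.image (fun p => (Γ p).map (fun q => q.1)), fun l => ?_, ?_⟩
  · rw [Finset.mem_image]
    constructor
    · rintro ⟨p, hp, rfl⟩
      exact good_of_rel hN (hΓ p hp)
    · intro hl
      obtain ⟨F1, F2, γ, h1, h2, h3, h4, h5⟩ := rel_of_good hk hN hl
      have hp : (F1, F2) ∈ 𝒞 := by
        rw [h𝒞, Finset.mem_filter, Finset.mem_product, mem_LL, mem_LL]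
        exact ⟨⟨h1, h2⟩, by rw [h5]; rfl⟩
      refine ⟨(F1, F2), hp, ?_⟩
      have h6 := chain_unique hk hN h1 h2 h5 (hΓ (F1, F2) hp) h3
      rw [h6, h4]
  · rw [Finset.sum_image]
    · unfold hmass
      rw [← Finset.sum_product', h𝒞, Finset.sum_filter]
      refine Finset.sum_congr rfl fun p hp => ?_
      by_cases hs : (hcost ty (2 * k + 1) p.1 p.2).isSome
      · rw [if_pos hs]
        have hp' : p ∈ 𝒞 := by
          rw [h𝒞, Finset.mem_filter]
          exact ⟨hp, hs⟩
        rw [hcost_eq p hp']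
      · rw [if_neg hs]
        rw [Option.not_isSome_iff_eq_none] at hs
        rw [hs]
    · intro p hp q hq hpq
      obtain ⟨h1, h2, -⟩ := hmem p hp
      obtain ⟨h1', h2', -⟩ := hmem q hq
      have h3 := hΓ p hp
      have h4 := hΓ q hq
      have h5 : Γ p = Γ q := chn_eq hk hN (Γ p) (Γ q) _ h3.2.1 h4.2.1 h3.2.2.1 hpq
      rw [← h5] at h4
      obtain ⟨e1, e2⟩ := conf_unique h1 h2 h1' h2' h3 h4
      exact Prod.ext e1 e2

end Pool.Agent.DEN
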