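import Pool.Agent.DEN.Runs
import Pool.Agent.DEN.Alg

/-!
Project DEN: the hole in terms of runs. The upper vertex `u` of one rhombus is removed; its edges are the vertical
edge (spin `v`), the first upper leg (spin `α`) and the second upper leg (spin `β`).
-/

namespace Pool.Agent.DEN

open Pat

/-- Which edges of the removed vertex are used: `c` = the two upper legs, `a` = vertical edge and first upper leg,
`b` = vertical edge and second upper leg. -/
inductive Ty
  | a : Ty
  | b : Ty
  | c : Ty

/-- The marked pattern behind the hole, with the number of used vertices (`0` or `1`) of the lower vertex. -/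
def hinit : Ty → Pat → Option (MPat × ℕ)
  | .c, emp (emp p) => some (.pre p (.here nil nil), 0)
  | .c, arc (arc b1 b2) b3 => some (.pre (app b1 (arc b2 b3)) (.here nil nil), 1)
  | .a, emp (arc p q) => some (.pre p (.here q (emp nil)), 1)
  | .a, arc (emp p) q => some (.pre p (.here q (emp nil)), 1)
  | .b, emp (arc p q) => some (.pre p (.here (app q (emp nil)) nil), 1)
  | .b, arc (emp p) q => some (.pre p (.here (app q (emp nil)) nil), 1)
  | _, _ => none

/-- Number of used vertices of a configuration with hole. -/
def hcost (ty : Ty) (n : ℕ) (F1 F2 : List O) : Option ℕ :=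
  match run F1 (zeros n) with
  | none => none
  | some r =>
    match hinit ty r.1 with
    | none => none
    | some m =>
      match hrun F2 m.1 with
      | none => none
      | some c => some (r.2 + m.2 + c)

/-- Mass of the configurations with hole, `N1` steps below, `N2` steps above. -/
noncomputable def hmass (x : ℝ) (ty : Ty) (n N1 N2 : ℕ) : ℝ :=
  ∑ F1 ∈ LL O N1, ∑ F2 ∈ LL O N2,
    match hcost ty n F1 F2 with
    | none => 0
    | some c => x ^ c

section Vec

variable {A : Type*} [CommRing A]

/-- Product of steps with given choices (first choice = first step), twist `s`. -/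
def PS (s x : A) (F : List O) (f : List Sp → A) : List Sp → A := F.foldr (fun o g => TO s x (twS s) o g) f

/-- Product of steps with given choices, twist `1/s`. -/
def PC (s x : A) (F : List O) (f : List Sp → A) : List Sp → A := F.foldr (fun o g => TO s x (twC s) o g) f

theorem HR_sum_LL {α : Type} {β : Type*} [Fintype α] [DecidableEq α] [AddCommMonoid β] (n : ℕ) (f : List α → β) :
    ∑ l ∈ LL α (n + 1), f l = ∑ a : α, ∑ l ∈ LL α n, f (a :: l) := by
  simp only [LL]
  rw [Finset.sum_image]
  · rw [Finset.sum_product]
  · rintro ⟨a, l⟩ _ ⟨b, m⟩ _ h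
    simp only [List.cons.injEq] at h
    exact Prod.ext h.1 h.2

theorem HR_TO_sum (s x : A) (tw : Sp → A) (o : O) {ι : Type} (S : Finset ι) (g : ι → List Sp → A) (l : List Sp) :
    TO s x tw o (fun l => ∑ i ∈ S, g i l) l = ∑ i ∈ S, TO s x tw o (g i) l := by
  match l with
  | [] => simp [TO]
  | [_] => simp [TO]
  | a :: b :: c =>
    obtain ⟨o1, o2⟩ := o
    cases a <;> cases b <;> cases o1 <;> cases o2 <;>
      simp only [TO, SS, UO, Finset.mul_sum, Finset.sum_add_distrib, mul_zero, Finset.sum_const_zero, mul_add]

theorem iter_PS (s x : A) (N : ℕ) (f : List Sp → A) (l : List Sp) :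
    ((TT s x (twS s))^[N] f) l = ∑ F ∈ LL O N, PS s x F f l := by
  induction N generalizing l with
  | zero => simp [LL, PS]
  | succ N ih =>
    rw [Function.iterate_succ_apply', TT_sum, HR_sum_LL]
    refine Finset.sum_congr rfl fun o _ => ?_
    have h : ((TT s x (twS s))^[N] f) = fun l => ∑ F ∈ LL O N, PS s x F f l := funext ih
    rw [h, HR_TO_sum]
    rfl

theorem iter_PC (s x : A) (N : ℕ) (f : List Sp → A) (l : List Sp) :
    ((TT s x (twC s))^[N] f) l = ∑ F ∈ LL O N, PC s x F f l := by
  induction N generalizing l with
  | zero => simp [LL, PC]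
  | succ N ih =>
    rw [Function.iterate_succ_apply', TT_sum, HR_sum_LL]
    refine Finset.sum_congr rfl fun o _ => ?_
    have h : ((TT s x (twC s))^[N] f) = fun l => ∑ F ∈ LL O N, PC s x F f l := funext ih
    rw [h, HR_TO_sum]
    rfl

theorem ev_PS {s x : A} (hs : s * s = -1) (F : List O) (p : Pat) (hp : 2 ≤ p.len) (f : List Sp → A) :
    ev s p (PS s x F f) =
      match run F p with
      | none => 0
      | some r => x ^ r.2 * ev s r.1 f := by
  induction F generalizing p with
  | nil => simp [PS, run]
  | cons o F ih =>
    have h1 : PS s x (o :: F) f = TO s x (twS s) o (PS s x F f) := rfl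
    rw [h1, ev_TO hs p hp]
    rw [show run (o :: F) p = (match step o p with
      | none => none
      | some p' =>
        match run F p' with
        | none => none
        | some r => some (r.1, r.2 + cost o p)) from rfl]
    cases h2 : step o p with
    | none => rfl
    | some p' =>
      simp only
      rw [ih p' (by rw [step_len o p p' h2]; exact hp)]
      cases h3 : run F p' with
      | none => simp
      | some r => simp only; ring

theorem HR_ev_add (s : A) (p : Pat) (f g : List Sp → A) :
    ev s p (fun l => f l + g l) = ev s p f + ev s p g := by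
  induction p generalizing f g with
  | nil => rfl
  | emp p ih => exact ih _ _
  | arc p q ih1 ih2 =>
    simp only [ev]
    rw [← ih1]
    congr 1
    funext l1
    rw [← ih2]
    congr 1
    funext l2
    ring

theorem HR_ev_mul (s : A) (p : Pat) (c : A) (f : List Sp → A) :
    ev s p (fun l => c * f l) = c * ev s p f := by
  induction p generalizing f with
  | nil => rfl
  | emp p ih => exact ih _
  | arc p q ih1 ih2 =>
    simp only [ev]
    rw [← ih1]
    congr 1
    funext l1
    rw [← ih2]
    congr 1
    funext l2
    ring

theorem HR_ev_zero (s : A) (p : Pat) : ev s p (fun _ => (0 : A)) = 0 := by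
  have h := HR_ev_mul s p 0 (fun _ => (0 : A))
  simpa using h

theorem HR_ev_app (s : A) (p q : Pat) (f : List Sp → A) :
    ev s (app p q) f = ev s p (fun l1 => ev s q (fun l2 => f (l1 ++ l2))) := by
  induction p generalizing f with
  | nil => rfl
  | emp p ih => exact ih _
  | arc p r ih1 ih2 =>
    simp only [app, ev]
    congr 1
    funext l1
    rw [ih2]
    congr 1
    funext l2
    rw [HR_ev_add, HR_ev_mul]
    simp only [List.cons_append, List.append_assoc]

theorem HR_evm_add (s eP eM : A) (a b : Sp) (m : MPat) (f g : List Sp → A) :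
    evm s eP eM a b m (fun l => f l + g l) = evm s eP eM a b m f + evm s eP eM a b m g := by
  induction m generalizing f g with
  | here p q =>
    simp only [evm]
    rw [← HR_ev_add]
    congr 1
    funext l1
    rw [← HR_ev_add]
  | emp m ih => exact ih _ _
  | arcL m q ih =>
    simp only [evm]
    rw [← ih]
    congr 1
    funext l1
    rw [← HR_ev_add]
    congr 1
    funext l2
    ring
  | arcR p m ih =>
    simp only [evm]
    rw [← HR_ev_add]
    congr 1
    funext l1
    rw [← ih]
    congr 1
    funext l2
    ring

theorem HR_evm_mul (s eP eM : A) (a b : Sp) (m : MPat) (c : A) (f : List Sp → A) :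
    evm s eP eM a b m (fun l => c * f l) = c * evm s eP eM a b m f := by
  induction m generalizing f with
  | here p q =>
    simp only [evm]
    rw [← HR_ev_mul]
    congr 1
    funext l1
    rw [← HR_ev_mul]
  | emp m ih => exact ih _
  | arcL m q ih =>
    simp only [evm]
    rw [← ih]
    congr 1
    funext l1
    rw [← HR_ev_mul]
    congr 1
    funext l2
    ring
  | arcR p m ih =>
    simp only [evm]
    rw [← HR_ev_mul]
    congr 1
    funext l1
    rw [← ih]
    congr 1
    funext l2
    ring

theorem HR_evm_zero (s eP eM : A) (a b : Sp) (m : MPat) : evm s eP eM a b m (fun _ => (0 : A)) = 0 := by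
  have h := HR_evm_mul s eP eM a b m 0 (fun _ => (0 : A))
  simpa using h

theorem HR_evm_pre (s eP eM : A) (a b : Sp) (p : Pat) (m : MPat) (f : List Sp → A) :
    evm s eP eM a b (.pre p m) f = ev s p (fun l1 => evm s eP eM a b m (fun l2 => f (l1 ++ l2))) := by
  induction p generalizing f with
  | nil => rfl
  | emp p ih => exact ih _
  | arc p q ih1 ih2 =>
    simp only [MPat.pre, ev, evm]
    congr 1
    funext l1
    rw [ih2]
    congr 1
    funext l2
    rw [HR_evm_add, HR_evm_mul]
    simp only [List.cons_append, List.append_assoc]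

theorem HR_ev_mem (s : A) {a : Sp} (p : Pat) (f : List Sp → A) (hf : ∀ l, a ∈ l → f l = 0)
    (g : List Sp → List Sp) (hg : ∀ l, a ∈ g l) : ev s p (fun l => f (g l)) = 0 := by
  have : (fun l => f (g l)) = fun _ => (0 : A) := funext fun l => hf _ (hg l)
  rw [this, HR_ev_zero]

theorem HR_evm_mem (s eP eM : A) {a b : Sp} (m : MPat) (f : List Sp → A) (hf : ∀ l, a ∈ l → f l = 0) :
    evm s eP eM a b m f = 0 := by
  induction m generalizing f with
  | here p q =>
    simp only [evm]
    have : ∀ l1 l2 : List Sp, f (a :: (l1 ++ b :: l2)) = 0 := fun l1 l2 => hf _ (by simp)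
    simp only [this, HR_ev_zero]
  | emp m ih =>
    simp only [evm]
    exact ih _ fun l hl => hf _ (List.mem_cons_of_mem _ hl)
  | arcL m q ih =>
    simp only [evm]
    refine ih _ fun l1 hl => ?_
    have : ∀ c d : Sp, ∀ l2 : List Sp, f (c :: (l1 ++ d :: l2)) = 0 := fun c d l2 =>
      hf _ (List.mem_cons_of_mem _ (List.mem_append_left _ hl))
    simp only [this, mul_zero, add_zero, HR_ev_zero]
  | arcR p m ih =>
    simp only [evm]
    have : ∀ l1 : List Sp, evm s eP eM a b m (fun l2 =>
      f (.pos :: (l1 ++ .neg :: l2)) + s * f (.neg :: (l1 ++ .pos :: l2))) = 0 := by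
      intro l1
      refine ih _ fun l2 hl => ?_
      rw [hf _ (List.mem_cons_of_mem _ (List.mem_append_right _ (List.mem_cons_of_mem _ hl))),
        hf _ (List.mem_cons_of_mem _ (List.mem_append_right _ (List.mem_cons_of_mem _ hl)))]
      ring
    simp only [this, HR_ev_zero]

/-- The pattern has an arc. -/
def HR_he : Pat → Prop
  | .nil => False
  | .emp p => HR_he p
  | .arc _ _ => True

theorem HR_he_app (p q : Pat) : HR_he (app p q) ↔ HR_he p ∨ HR_he q := by
  induction p with
  | nil => simp [app, HR_he]
  | emp p ih => exact ih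
  | arc p r ih1 ih2 => simp [app, HR_he]

theorem HR_he_zeros (n : ℕ) : ¬ HR_he (zeros n) := by
  induction n with
  | zero => exact id
  | succ n ih => exact ih

theorem HR_not_he (p : Pat) (h : ¬ HR_he p) : p = zeros p.len := by
  induction p with
  | nil => rfl
  | emp p ih => exact congrArg emp (ih h)
  | arc p q _ _ => exact absurd trivial h

theorem HR_zeros_len (n : ℕ) : (zeros n).len = n := by
  induction n with
  | zero => rfl
  | succ n ih => exact congrArg (· + 1) ih

theorem HR_he_step (o : O) (p p' : Pat) (h : step o p = some p') (hp : HR_he p) : HR_he p' := by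
  match p, hp with
  | emp (emp p), hp =>
    simp only [step] at h
    split_ifs at h
    obtain rfl := Option.some.inj h
    exact (HR_he_app _ _).mpr (Or.inl hp)
  | emp (arc p q), _ =>
    obtain ⟨o1, o2⟩ := o
    cases o1 <;> cases o2 <;> simp only [step, Option.some.injEq, reduceCtorEq] at h
    · obtain rfl := h
      exact (HR_he_app _ _).mpr (Or.inr trivial)
    · obtain rfl := h
      exact (HR_he_app _ _).mpr (Or.inr trivial)
  | arc (emp p) q, _ =>
    obtain ⟨o1, o2⟩ := o
    cases o1 <;> cases o2 <;> simp only [step, Option.some.injEq, reduceCtorEq] at h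
    · obtain rfl := h
      exact (HR_he_app _ _).mpr (Or.inr trivial)
    · obtain rfl := h
      exact (HR_he_app _ _).mpr (Or.inr trivial)
  | arc (arc b1 b2) b3, _ =>
    simp only [step] at h
    split_ifs at h
    obtain rfl := Option.some.inj h
    exact (HR_he_app _ _).mpr (Or.inr trivial)
  | arc .nil q, _ => simp [step] at h

theorem HR_he_vert (o : O) (p p' : Pat) (h : step o p = some p') (ho : o ≠ (false, false)) : HR_he p' := by
  match p with
  | emp (emp p) =>
    obtain ⟨o1, o2⟩ := o
    cases o1 <;> cases o2 <;>
      simp only [step, Option.some.injEq, reduceCtorEq, if_true, if_false, ne_eq, not_true_eq_false] at h ho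
    obtain rfl := h
    exact (HR_he_app _ _).mpr (Or.inr trivial)
  | emp (arc p q) => exact HR_he_step o _ _ h trivial
  | arc (emp p) q => exact HR_he_step o _ _ h trivial
  | arc (arc b1 b2) b3 => exact HR_he_step o _ _ h trivial
  | arc .nil q => simp [step] at h
  | .nil => simp [step] at h
  | emp .nil => simp [step] at h

theorem HR_he_run (F : List O) (p : Pat) (r : Pat × ℕ) (h : run F p = some r) (hp : HR_he p) : HR_he r.1 := by
  induction F generalizing p r with
  | nil =>
    simp only [run, Option.some.injEq] at h
    obtain rfl := h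
    exact hp
  | cons o F ih =>
    simp only [run] at h
    cases h2 : step o p with
    | none => simp [h2] at h
    | some p' =>
      simp only [h2] at h
      cases h3 : run F p' with
      | none => simp [h3] at h
      | some r' =>
        simp only [h3, Option.some.injEq] at h
        obtain rfl := h
        exact ih p' r' h3 (HR_he_step o p p' h2 hp)

theorem HR_ev_he (s : A) (p : Pat) (f : List Sp → A) (hp : HR_he p)
    (hf : ∀ l : List Sp, SignType.pos ∈ l → f l = 0) : ev s p f = 0 := by
  induction p generalizing f with
  | nil => exact absurd hp id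
  | emp p ih => exact ih _ hp fun l hl => hf _ (List.mem_cons_of_mem _ hl)
  | arc p q _ _ =>
    simp only [ev]
    have h1 : ∀ l1 l2 : List Sp, f (.pos :: (l1 ++ .neg :: l2)) = 0 := fun l1 l2 => hf _ (by simp)
    have h2 : ∀ l1 l2 : List Sp, f (.neg :: (l1 ++ .pos :: l2)) = 0 := fun l1 l2 => hf _ (by simp)
    simp only [h1, h2, mul_zero, add_zero, HR_ev_zero]

theorem HR_dl_vac (n : ℕ) {a : Sp} (ha : a ≠ 0) (l : List Sp) (hl : a ∈ l) : dl (A := A) (vac n) l = 0 := by
  unfold dl
  rw [if_neg]
  rintro rfl
  exact ha (List.eq_of_mem_replicate hl)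

theorem HR_ev_PC {s x : A} (hs : s * s = -1) (F : List O) (p : Pat) (hp : 2 ≤ p.len) (n : ℕ) (hn : p.len = n) :
    ev s p (PC s x F (dl (vac n))) =
      match run F p with
      | none => 0
      | some r => if r.1 = zeros n then x ^ r.2 else 0 := by
  induction F generalizing p with
  | nil =>
    simp only [run]
    have h1 : PC s x [] (dl (vac n)) = dl (vac n) := rfl
    rw [h1]
    by_cases h : HR_he p
    · rw [HR_ev_he s p _ h fun l hl => HR_dl_vac n (by decide) l hl, if_neg]
      rintro rfl
      exact HR_he_zeros n h
    · have h2 := HR_not_he p h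
      rw [hn] at h2
      rw [if_pos h2, h2, ev_zeros]
      simp [dl]
  | cons o F ih =>
    have h1 : PC s x (o :: F) (dl (vac n)) = TO s x (twC s) o (PC s x F (dl (vac n))) := rfl
    rw [h1, ev_TO_C hs p hp]
    simp only [run]
    cases h2 : step o p with
    | none => rfl
    | some p' =>
      simp only
      have hlen := step_len o p p' h2
      rw [ih p' (by rw [hlen]; exact hp) (by rw [hlen]; exact hn)]
      cases h3 : run F p' with
      | none => simp
      | some r =>
        simp only
        by_cases h4 : r.1 = zeros n
        · have ho : o = (false, false) := by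
            by_contra ho
            have := HR_he_run F p' r h3 (HR_he_vert o p p' h2 ho)
            rw [h4] at this
            exact HR_he_zeros n this
          rw [if_pos h4, if_pos h4, ho]
          simp only [if_true]
          ring
        · rw [if_neg h4, if_neg h4, mul_zero]

theorem HR_go_len (o : O) (m m' : MPat) (b : Bool) (h : mstep o m = .go m' b) :
    m'.forget.len = m.forget.len := by
  have h1 := step_forget o m
  rw [h] at h1
  exact step_len o _ _ h1

theorem HR_app_len (p q : Pat) : (app p q).len = p.len + q.len := by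
  induction p with
  | nil => simp [app, Pat.len]
  | emp p ih => simp only [app, Pat.len, ih]; omega
  | arc p r _ ih => simp only [app, Pat.len, ih]; omega

theorem HR_outp_len (o : O) : (outp o).len = 2 := by
  obtain ⟨o1, o2⟩ := o
  cases o1 <;> cases o2 <;> rfl

theorem HR_join_len (o : O) (m : MPat) (p : Pat) (h : mstep o m = .join p) :
    p.len = m.forget.len ∧ 2 ≤ p.len := by
  have key : ∃ q : Pat, m = .here nil q ∧ p = app q (outp o) := by
    obtain ⟨o1, o2⟩ := o
    match m with
    | .emp (.emp m) => simp only [mstep] at h; split_ifs at h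
    | .emp (.here p q) => cases o1 <;> cases o2 <;> simp [mstep] at h
    | .emp (.arcL m q) => cases o1 <;> cases o2 <;> simp [mstep] at h
    | .emp (.arcR p m) => cases o1 <;> cases o2 <;> simp [mstep] at h
    | .here nil q =>
      simp only [mstep] at h
      split_ifs at h
      exact ⟨q, rfl, (Res.join.inj h).symm⟩
    | .here (emp p) q => cases o1 <;> cases o2 <;> simp [mstep] at h
    | .here (arc b1 b2) q => simp only [mstep] at h; split_ifs at h
    | .arcL (.emp m) q => cases o1 <;> cases o2 <;> simp [mstep] at h
    | .arcL (.here p r) q => simp only [mstep] at h; split_ifs at h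
    | .arcL (.arcL m r) q => simp only [mstep] at h; split_ifs at h
    | .arcL (.arcR p m) q => simp only [mstep] at h; split_ifs at h
    | .arcR nil _ => simp [mstep] at h
    | .arcR (emp p) m => cases o1 <;> cases o2 <;> simp [mstep] at h
    | .arcR (arc b1 b2) m => simp only [mstep] at h; split_ifs at h
  obtain ⟨q, rfl, rfl⟩ := key
  rw [HR_app_len, HR_outp_len]
  simp only [MPat.forget, Pat.len]
  omega

theorem evm_PC {s x : A} (hs : s * s = -1) {a : Sp} (ha : a ≠ 0) (F : List O) (m : MPat) :
    evm s (-1) (-s) a (-a) m (PC s x F (dl (vac m.forget.len))) =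
      (if a = 1 then -s else 1) *
        (match hrun F m with
        | none => 0
        | some c => x ^ c) := by
  induction F generalizing m a with
  | nil =>
    have h1 : PC s x [] (dl (vac m.forget.len)) = dl (vac m.forget.len) := rfl
    rw [h1, HR_evm_mem s (-1) (-s) m _ fun l hl => HR_dl_vac _ ha l hl]
    simp only [hrun, mul_zero]
  | cons o F ih =>
    have h1 : PC s x (o :: F) (dl (vac m.forget.len)) = TO s x (twC s) o (PC s x F (dl (vac m.forget.len))) := rfl
    rw [h1, evm_TO_C hs ha m o]
    simp only [hrun]
    cases h2 : mstep o m with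
    | fail => simp
    | go m' sw =>
      simp only
      have hlen := HR_go_len o m m' sw h2
      rw [← hlen]
      have hna : -a ≠ 0 := by
        revert ha
        cases a <;> decide
      have ih1 := ih (a := a) ha m'
      have ih2 := ih (a := -a) hna m'
      rw [neg_neg] at ih2
      rw [ih1, ih2]
      have hsw : twC s a * (if -a = 1 then -s else 1) = (if a = 1 then -s else 1) := by
        revert ha
        cases a
        · intro h; exact absurd rfl h
        · intro _
          show s * (if (-(-1 : SignType)) = 1 then -s else 1) = if (-1 : SignType) = 1 then -s else 1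
          rw [if_pos (by decide), if_neg (by decide), mul_neg, hs, neg_neg]
        · intro _
          show -s * (if (-(1 : SignType)) = 1 then -s else 1) = if (1 : SignType) = 1 then -s else 1
          rw [if_neg (by decide), if_pos rfl, mul_one]
      cases h3 : hrun F m' with
      | none => cases sw <;> simp
      | some c =>
        cases sw
        · simp only [if_false, Bool.false_eq_true]
          ring
        · simp only [if_true]
          rw [← mul_assoc (twC s a), hsw]
          ring
    | join p =>
      simp only
      obtain ⟨hl1, hl2⟩ := HR_join_len o m p h2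
      rw [← hl1, HR_ev_PC hs F p hl2 p.len rfl]
      cases h3 : run F p with
      | none => simp
      | some r =>
        simp only
        by_cases h4 : r.1 = zeros p.len
        · rw [if_pos h4, if_pos h4]
          ring
        · rw [if_neg h4, if_neg h4]
          ring

/-- Value of the configuration with hole. -/
def HV (s x : A) (n : ℕ) (F1 F2 : List O) (v α β : Sp) : A :=
  PS s x F1 (Sv s x v (fun c => PC s x F2 (dl (vac n)) (c ++ [α, β]))) (vac n)

/-- The weight of a configuration with hole. -/
def hw (x : A) (ty : Ty) (n : ℕ) (F1 F2 : List O) : A :=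
  match hcost ty n F1 F2 with
  | none => 0
  | some c => x ^ c

theorem HR_core_c {s x : A} (hs : s * s = -1) (eP eM : A) (a b : Sp) (p : Pat) (F : List Sp → A) :
    ev s p (Sv s x .zero (fun c => F (c ++ [a, b]))) =
      match hinit .c p with
      | none => 0
      | some m => x ^ m.2 * evm s eP eM a b m.1 F := by
  match p with
  | .nil => rfl
  | emp .nil => rfl
  | emp (emp p) =>
    simp only [hinit, HR_evm_pre, pow_zero, one_mul]
    simp only [ev, evm, Sv, SS, if_true, List.nil_append]
  | emp (arc p q) =>
    simp only [hinit, ev, Sv, SS, reduceCtorEq, if_false, mul_zero, add_zero, HR_ev_zero]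
  | arc .nil q =>
    simp only [hinit, ev, Sv, SS, List.nil_append, if_true]
    have : ∀ l2 : List Sp, -(x * s) * F (l2 ++ [a, b]) + s * (x * F (l2 ++ [a, b])) = 0 := fun l2 => by ring
    simp only [this, HR_ev_zero]
  | arc (emp p) q =>
    simp only [hinit, ev, Sv, SS, List.cons_append, reduceCtorEq, if_false, mul_zero, add_zero, HR_ev_zero]
  | arc (arc b1 b2) b3 =>
    simp only [hinit, HR_evm_pre, HR_ev_app, pow_one]
    simp only [ev, evm]
    rw [← HR_ev_mul]
    congr 1
    funext l1
    rw [← HR_ev_mul]
    congr 1
    funext l2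
    rw [← HR_ev_mul, ← HR_ev_mul, ← HR_ev_add]
    congr 1
    funext l3
    simp only [Sv, SS, List.cons_append, List.append_assoc, List.nil_append, if_true]
    linear_combination (-x * F (l1 ++ SignType.pos :: (l2 ++ SignType.neg :: (l3 ++ [a, b])))) * hs

theorem HR_core_ap {s x : A} (eP eM : A) (p : Pat) (F : List Sp → A) :
    ev s p (Sv s x .pos (fun c => F (c ++ [.pos, .zero]))) =
      match hinit .a p with
      | none => 0
      | some m => x ^ m.2 * evm s eP eM .neg .pos m.1 F := by
  match p with
  | .nil => rfl
  | emp .nil => rfl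
  | emp (emp p) =>
    simp only [hinit, ev, Sv, SS, reduceCtorEq, if_false, HR_ev_zero]
  | emp (arc p q) =>
    simp only [hinit, HR_evm_pre, pow_one]
    simp only [ev, evm, Sv, SS, if_true, reduceCtorEq, if_false, mul_zero, add_zero]
    simp only [HR_ev_mul, List.append_assoc, List.cons_append]
  | arc .nil q =>
    simp only [hinit, ev, Sv, SS, List.nil_append, reduceCtorEq, if_false, mul_zero, add_zero, HR_ev_zero]
  | arc (emp p) q =>
    simp only [hinit, HR_evm_pre, pow_one]
    simp only [ev, evm, Sv, SS, if_true, reduceCtorEq, if_false, mul_zero, add_zero, List.cons_append]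
    simp only [HR_ev_mul, List.append_assoc, List.cons_append]
  | arc (arc b1 b2) b3 =>
    simp only [hinit, ev, Sv, SS, List.cons_append, reduceCtorEq, if_false, mul_zero, add_zero, HR_ev_zero]

theorem HR_core_an {s x : A} (eP eM : A) (p : Pat) (F : List Sp → A) :
    ev s p (Sv s x .neg (fun c => F (c ++ [.neg, .zero]))) =
      match hinit .a p with
      | none => 0
      | some m => x ^ m.2 * (s * evm s eP eM .pos .neg m.1 F) := by
  match p with
  | .nil => rfl
  | emp .nil => rfl
  | emp (emp p) =>
    simp only [hinit, ev, Sv, SS, reduceCtorEq, if_false, HR_ev_zero]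
  | emp (arc p q) =>
    simp only [hinit, HR_evm_pre, pow_one]
    simp only [ev, evm, Sv, SS, if_true, reduceCtorEq, if_false, mul_zero, zero_add]
    simp only [HR_ev_mul, List.append_assoc, List.cons_append]
    ring
  | arc .nil q =>
    simp only [hinit, ev, Sv, SS, List.nil_append, reduceCtorEq, if_false, mul_zero, add_zero, HR_ev_zero]
  | arc (emp p) q =>
    simp only [hinit, HR_evm_pre, pow_one]
    simp only [ev, evm, Sv, SS, if_true, reduceCtorEq, if_false, mul_zero, zero_add, List.cons_append]
    simp only [HR_ev_mul, List.append_assoc, List.cons_append]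
    ring
  | arc (arc b1 b2) b3 =>
    simp only [hinit, ev, Sv, SS, List.cons_append, reduceCtorEq, if_false, mul_zero, add_zero, HR_ev_zero]

theorem HR_core_bp {s x : A} (eP eM : A) (p : Pat) (F : List Sp → A) :
    ev s p (Sv s x .pos (fun c => F (c ++ [.zero, .pos]))) =
      match hinit .b p with
      | none => 0
      | some m => x ^ m.2 * evm s eP eM .neg .pos m.1 F := by
  match p with
  | .nil => rfl
  | emp .nil => rfl
  | emp (emp p) =>
    simp only [hinit, ev, Sv, SS, reduceCtorEq, if_false, HR_ev_zero]
  | emp (arc p q) =>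
    simp only [hinit, HR_evm_pre, pow_one]
    simp only [ev, evm, Sv, SS, if_true, reduceCtorEq, if_false, mul_zero, add_zero, HR_ev_app]
    simp only [HR_ev_mul, List.append_assoc, List.cons_append, List.nil_append]
  | arc .nil q =>
    simp only [hinit, ev, Sv, SS, List.nil_append, reduceCtorEq, if_false, mul_zero, add_zero, HR_ev_zero]
  | arc (emp p) q =>
    simp only [hinit, HR_evm_pre, pow_one]
    simp only [ev, evm, Sv, SS, if_true, reduceCtorEq, if_false, mul_zero, add_zero, List.cons_append, HR_ev_app]
    simp only [HR_ev_mul, List.append_assoc, List.cons_append, List.nil_append]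
  | arc (arc b1 b2) b3 =>
    simp only [hinit, ev, Sv, SS, List.cons_append, reduceCtorEq, if_false, mul_zero, add_zero, HR_ev_zero]

theorem HR_core_bn {s x : A} (eP eM : A) (p : Pat) (F : List Sp → A) :
    ev s p (Sv s x .neg (fun c => F (c ++ [.zero, .neg]))) =
      match hinit .b p with
      | none => 0
      | some m => x ^ m.2 * (s * evm s eP eM .pos .neg m.1 F) := by
  match p with
  | .nil => rfl
  | emp .nil => rfl
  | emp (emp p) =>
    simp only [hinit, ev, Sv, SS, reduceCtorEq, if_false, HR_ev_zero]
  | emp (arc p q) =>
    simp only [hinit, HR_evm_pre, pow_one]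
    simp only [ev, evm, Sv, SS, if_true, reduceCtorEq, if_false, mul_zero, zero_add, HR_ev_app]
    simp only [HR_ev_mul, List.append_assoc, List.cons_append, List.nil_append]
    ring
  | arc .nil q =>
    simp only [hinit, ev, Sv, SS, List.nil_append, reduceCtorEq, if_false, mul_zero, add_zero, HR_ev_zero]
  | arc (emp p) q =>
    simp only [hinit, HR_evm_pre, pow_one]
    simp only [ev, evm, Sv, SS, if_true, reduceCtorEq, if_false, mul_zero, zero_add, List.cons_append, HR_ev_app]
    simp only [HR_ev_mul, List.append_assoc, List.cons_append, List.nil_append]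
    ring
  | arc (arc b1 b2) b3 =>
    simp only [hinit, ev, Sv, SS, List.cons_append, reduceCtorEq, if_false, mul_zero, add_zero, HR_ev_zero]

theorem HR_pre_len (p : Pat) (m : MPat) : (MPat.pre p m).forget.len = p.len + m.forget.len := by
  induction p with
  | nil => simp [MPat.pre, Pat.len]
  | emp p ih => simp only [MPat.pre, MPat.forget, Pat.len, ih]; omega
  | arc p r _ ih => simp only [MPat.pre, MPat.forget, Pat.len, ih]; omega

theorem HR_hinit_len (ty : Ty) (p : Pat) (m : MPat × ℕ) (h : hinit ty p = some m) : m.1.forget.len = p.len := by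
  match p with
  | .nil => cases ty <;> simp [hinit] at h
  | emp .nil => cases ty <;> simp [hinit] at h
  | emp (emp p) =>
    cases ty <;> simp only [hinit, reduceCtorEq, Option.some.injEq] at h
    obtain rfl := h
    simp only [HR_pre_len, MPat.forget, Pat.len]
  | emp (arc p q) =>
    cases ty <;> simp only [hinit, reduceCtorEq, Option.some.injEq] at h
    · obtain rfl := h
      simp only [HR_pre_len, MPat.forget, Pat.len]
      omega
    · obtain rfl := h
      simp only [HR_pre_len, MPat.forget, Pat.len, HR_app_len]
      omega
  | arc .nil q => cases ty <;> simp [hinit] at h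
  | arc (emp p) q =>
    cases ty <;> simp only [hinit, reduceCtorEq, Option.some.injEq] at h
    · obtain rfl := h
      simp only [HR_pre_len, MPat.forget, Pat.len]
      omega
    · obtain rfl := h
      simp only [HR_pre_len, MPat.forget, Pat.len, HR_app_len]
      omega
  | arc (arc b1 b2) b3 =>
    cases ty <;> simp only [hinit, reduceCtorEq, Option.some.injEq] at h
    obtain rfl := h
    simp only [HR_pre_len, MPat.forget, Pat.len, HR_app_len]
    omega

theorem HR_HV {s x : A} (hs : s * s = -1) (n : ℕ) (hn : 3 ≤ n) (F1 F2 : List O) (v α β : Sp) :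
    HV s x n F1 F2 v α β =
      match run F1 (zeros n) with
      | none => 0
      | some r => x ^ r.2 * ev s r.1 (Sv s x v (fun c => PC s x F2 (dl (vac n)) (c ++ [α, β]))) := by
  unfold HV
  exact (ev_zeros s n _).symm.trans (ev_PS hs F1 (zeros n) (by rw [HR_zeros_len]; omega) _)

theorem HR_run_len (F1 : List O) (n : ℕ) (r : Pat × ℕ) (h : run F1 (zeros n) = some r) : r.1.len = n := by
  rw [run_len F1 (zeros n) r h, HR_zeros_len]

theorem HR_main {s x : A} (hs : s * s = -1) (n : ℕ) (hn : 3 ≤ n) (F1 F2 : List O) (v α β : Sp) (ty : Ty) (a : Sp)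
    (ha : a ≠ 0) (w z : A) (hz : w * (if a = 1 then -s else 1) = z)
    (hcore : ∀ (p : Pat) (F : List Sp → A), ev s p (Sv s x v (fun c => F (c ++ [α, β]))) =
      match hinit ty p with
      | none => 0
      | some m => x ^ m.2 * (w * evm s (-1) (-s) a (-a) m.1 F)) :
    HV s x n F1 F2 v α β = z * hw x ty n F1 F2 := by
  rw [HR_HV hs n hn]
  unfold hw hcost
  cases h1 : run F1 (zeros n) with
  | none => simp
  | some r =>
    simp only
    rw [hcore r.1 (PC s x F2 (dl (vac n)))]
    cases h2 : hinit ty r.1 with
    | none => simp
    | some m =>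
      simp only
      have hl : m.1.forget.len = n := by rw [HR_hinit_len ty r.1 m h2, HR_run_len F1 n r h1]
      have h3 := evm_PC hs ha F2 m.1 (x := x)
      rw [hl] at h3
      rw [h3, ← mul_assoc w, hz]
      cases h4 : hrun F2 m.1 with
      | none => simp
      | some c =>
        simp only
        ring

theorem HV_c1 {s x : A} (hs : s * s = -1) (n : ℕ) (hn : 3 ≤ n) (F1 F2 : List O) :
    HV s x n F1 F2 .zero .neg .pos = hw x .c n F1 F2 := by
  rw [HR_main hs n hn F1 F2 .zero .neg .pos .c .neg (by decide) 1 1
    (by rw [if_neg (by decide), mul_one]) fun p F => ?_, one_mul]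
  rw [HR_core_c hs (-1) (-s) .neg .pos p F]
  simp only [one_mul]
  rfl

theorem HV_c2 {s x : A} (hs : s * s = -1) (n : ℕ) (hn : 3 ≤ n) (F1 F2 : List O) :
    HV s x n F1 F2 .zero .pos .neg = -s * hw x .c n F1 F2 := by
  rw [HR_main hs n hn F1 F2 .zero .pos .neg .c .pos (by decide) 1 (-s)
    (by rw [if_pos (by decide), one_mul]) fun p F => ?_]
  rw [HR_core_c hs (-1) (-s) .pos .neg p F]
  simp only [one_mul]
  rfl

theorem HV_a1 {s x : A} (hs : s * s = -1) (n : ℕ) (hn : 3 ≤ n) (F1 F2 : List O) :
    HV s x n F1 F2 .pos .pos .zero = hw x .a n F1 F2 := by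
  rw [HR_main hs n hn F1 F2 .pos .pos .zero .a .neg (by decide) 1 1
    (by rw [if_neg (by decide), mul_one]) fun p F => ?_, one_mul]
  rw [HR_core_ap (-1) (-s) p F]
  simp only [one_mul]
  rfl

theorem HV_a2 {s x : A} (hs : s * s = -1) (n : ℕ) (hn : 3 ≤ n) (F1 F2 : List O) :
    HV s x n F1 F2 .neg .neg .zero = hw x .a n F1 F2 := by
  rw [HR_main hs n hn F1 F2 .neg .neg .zero .a .pos (by decide) s 1
    (by rw [if_pos (by decide), mul_neg, hs, neg_neg]) fun p F => ?_, one_mul]
  rw [HR_core_an (-1) (-s) p F]
  rfl

theorem HV_b1 {s x : A} (hs : s * s = -1) (n : ℕ) (hn : 3 ≤ n) (F1 F2 : List O) :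
    HV s x n F1 F2 .pos .zero .pos = hw x .b n F1 F2 := by
  rw [HR_main hs n hn F1 F2 .pos .zero .pos .b .neg (by decide) 1 1
    (by rw [if_neg (by decide), mul_one]) fun p F => ?_, one_mul]
  rw [HR_core_bp (-1) (-s) p F]
  simp only [one_mul]
  rfl

theorem HV_b2 {s x : A} (hs : s * s = -1) (n : ℕ) (hn : 3 ≤ n) (F1 F2 : List O) :
    HV s x n F1 F2 .neg .zero .neg = hw x .b n F1 F2 := by
  rw [HR_main hs n hn F1 F2 .neg .zero .neg .b .pos (by decide) s 1
    (by rw [if_pos (by decide), mul_neg, hs, neg_neg]) fun p F => ?_, one_mul]
  rw [HR_core_bn (-1) (-s) p F]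
  rfl

/-- The runs from the empty pattern to the empty pattern. -/
def HR_Z (x : A) (n : ℕ) (F : List O) : A :=
  match run F (zeros n) with
  | none => 0
  | some r => if r.1 = zeros n then x ^ r.2 else 0

theorem HR_app_zeros (a b : ℕ) : app (zeros a) (zeros b) = zeros (a + b) := by
  induction a with
  | zero => rw [Nat.zero_add]; rfl
  | succ a ih => rw [Nat.succ_add]; exact congrArg emp ih

theorem HR_Z_sum (x : A) (n : ℕ) (hn : 2 ≤ n) (N : ℕ) : ∑ F ∈ LL O N, HR_Z x n F = 1 := by
  induction N with
  | zero => simp [LL, HR_Z, run]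
  | succ N ih =>
    rw [HR_sum_LL]
    obtain ⟨k, rfl⟩ := Nat.exists_eq_add_of_le' hn
    have h0 : ∀ o : O, ∀ F : List O, HR_Z x (k + 2) (o :: F) = if o = (false, false) then HR_Z x (k + 2) F else 0 := by
      intro o F
      by_cases ho : o = (false, false)
      · rw [if_pos ho, ho]
        have h1 : step (false, false) (zeros (k + 2)) = some (zeros (k + 2)) := by
          show some (app (zeros k) (zeros 2)) = _
          rw [HR_app_zeros]
        have h2 : cost (false, false) (zeros (k + 2)) = 0 := rfl
        unfold HR_Z
        simp only [run, h1, h2]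
        cases run F (zeros (k + 2)) <;> rfl
      · rw [if_neg ho]
        unfold HR_Z
        simp only [run]
        cases h2 : step o (zeros (k + 2)) with
        | none => rfl
        | some p' =>
          simp only
          cases h3 : run F p' with
          | none => rfl
          | some r =>
            simp only
            rw [if_neg]
            intro h4
            have := HR_he_run F p' r h3 (HR_he_vert o _ p' h2 ho)
            rw [h4] at this
            exact HR_he_zeros _ this
    simp only [h0]
    rw [Finset.sum_eq_single ((false, false) : O)]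
    · simpa using ih
    · intro o _ ho
      simp [ho]
    · intro h
      exact absurd (Finset.mem_univ _) h

theorem HR_he_PC {s x : A} (hs : s * s = -1) (F : List O) (p : Pat) (hp : 2 ≤ p.len) (n : ℕ) (hn : p.len = n)
    (hh : HR_he p) : ev s p (PC s x F (dl (vac n))) = 0 := by
  rw [HR_ev_PC hs F p hp n hn]
  cases h3 : run F p with
  | none => rfl
  | some r =>
    simp only
    rw [if_neg]
    intro h4
    have := HR_he_run F p r h3 hh
    rw [h4] at this
    exact HR_he_zeros _ this

theorem HR_HV_zero {s x : A} (hs : s * s = -1) (n : ℕ) (hn : 3 ≤ n) (F1 F2 : List O) :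
    HV s x n F1 F2 .zero .zero .zero = HR_Z x n F1 * HR_Z x n F2 := by
  rw [HR_HV hs n hn]
  conv_rhs => enter [1]; unfold HR_Z
  cases h1 : run F1 (zeros n) with
  | none => simp
  | some r =>
    simp only
    have hl := HR_run_len F1 n r h1
    by_cases h4 : r.1 = zeros n
    · rw [if_pos h4, h4]
      congr 1
      obtain ⟨k, rfl⟩ := Nat.exists_eq_add_of_le' (show 2 ≤ n by omega)
      have h5 : ev s (zeros (k + 2)) (Sv s x .zero (fun c => PC s x F2 (dl (vac (k + 2))) (c ++ [.zero, .zero]))) =
          ev s (zeros (k + 2)) (PC s x F2 (dl (vac (k + 2)))) := by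
        have h6 : zeros (k + 2) = app (zeros k) (zeros 2) := (HR_app_zeros k 2).symm
        conv_rhs => rw [h6, HR_ev_app]
        show ev s (zeros k) _ = ev s (zeros k) _
        congr 1
      rw [h5, HR_ev_PC hs F2 (zeros (k + 2)) (by rw [HR_zeros_len]; omega) (k + 2) (HR_zeros_len _)]
      rfl
    · rw [if_neg h4, zero_mul]
      have hh : HR_he r.1 := by
        by_contra h
        exact h4 (by rw [← hl]; exact HR_not_he _ h)
      suffices h : ev s r.1 (Sv s x .zero (fun c => PC s x F2 (dl (vac n)) (c ++ [.zero, .zero]))) = 0 by
        rw [h, mul_zero]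
      generalize r.1 = p at hl hh
      match p, hl, hh with
      | emp (emp p), hl, hh =>
        have h7 := HR_he_PC hs F2 (x := x) (app p (emp (emp .nil)))
          (by rw [HR_app_len]; simp only [Pat.len]; omega) n
          (by rw [HR_app_len]; simp only [Pat.len] at hl ⊢; omega) ((HR_he_app _ _).mpr (Or.inl hh))
        rw [HR_ev_app] at h7
        simpa only [ev, Sv, SS, if_true] using h7
      | emp (arc p q), _, _ =>
        simp only [ev, Sv, SS, reduceCtorEq, if_false, mul_zero, add_zero, HR_ev_zero]
      | arc .nil q, _, _ =>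
        simp only [ev, Sv, SS, List.nil_append, if_true]
        have : ∀ y : A, -(x * s) * y + s * (x * y) = 0 := fun y => by ring
        simp only [this, HR_ev_zero]
      | arc (emp p) q, _, _ =>
        simp only [ev, Sv, SS, List.cons_append, reduceCtorEq, if_false, mul_zero, add_zero, HR_ev_zero]
      | arc (arc b1 b2) b3, hl, _ =>
        have h7 := HR_he_PC hs F2 (x := x) (app (app b1 (arc b2 b3)) (emp (emp .nil)))
          (by rw [HR_app_len]; simp only [Pat.len]; omega) n
          (by rw [HR_app_len, HR_app_len]; simp only [Pat.len] at hl ⊢; omega)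
          ((HR_he_app _ _).mpr (Or.inl ((HR_he_app _ _).mpr (Or.inr trivial))))
        have h8 := HR_core_c hs (x := x) 0 0 .zero .zero (arc (arc b1 b2) b3) (PC s x F2 (dl (vac n)))
        simp only [hinit, HR_evm_pre] at h8
        rw [h8]
        rw [HR_ev_app] at h7
        simp only [ev] at h7
        simp only [evm, ev, List.nil_append]
        rw [h7, mul_zero]

/-- The hole with unused edges: total value `1`. -/
theorem HV_0 {s x : A} (hs : s * s = -1) (n N1 N2 : ℕ) (hn : 3 ≤ n) :
    ∑ F1 ∈ LL O N1, ∑ F2 ∈ LL O N2, HV s x n F1 F2 .zero .zero .zero = 1 := by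
  simp only [HR_HV_zero hs n hn, ← Finset.mul_sum, ← Finset.sum_mul]
  rw [HR_Z_sum x n (by omega) N2, HR_Z_sum x n (by omega) N1, mul_one]

end Vec

end Pool.Agent.DEN
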