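import Pool.Agent.DEN.Pat

/-!
Project DEN: patterns with two marked strands.
-/

namespace Pool.Agent.DEN

open Pat

/-- A pattern with two marked strands: `here p q` = the word `| p | q`, `arcL m q` = `( m ) q` (an arc around the
marks), `arcR p m` = `( p ) m`. -/
inductive MPat
  | here (p q : Pat) : MPat
  | emp (m : MPat) : MPat
  | arcL (m : MPat) (q : Pat) : MPat
  | arcR (p : Pat) (m : MPat) : MPat
  deriving DecidableEq

namespace MPat

/-- Append a pattern. -/
def app : MPat → Pat → MPat
  | here p q, r => here p (Pat.app q r)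
  | emp m, r => emp (app m r)
  | arcL m q, r => arcL m (Pat.app q r)
  | arcR p m, r => arcR p (app m r)

/-- Prepend a pattern. -/
def pre : Pat → MPat → MPat
  | .nil, m => m
  | .emp p, m => emp (pre p m)
  | .arc p q, m => arcR p (pre q m)

/-- The marks become an arc. -/
def forget : MPat → Pat
  | here p q => .arc p q
  | emp m => .emp (forget m)
  | arcL m q => .arc (forget m) q
  | arcR p m => .arc p (forget m)

end MPat

/-- Result of a step of a marked pattern: impossible or a loop closes; a marked pattern and whether the order of the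
strands has changed; the strands have been joined. -/
inductive Res
  | fail : Res
  | go (m : MPat) (sw : Bool) : Res
  | join (p : Pat) : Res

/-- One step of a marked pattern. -/
def mstep (o : O) : MPat → Res
  | .emp (.emp m) => if o.1 = o.2 then .go (m.app (outp o)) false else .fail
  | .emp (.here p q) =>
    match o with
    | (true, false) => .go (.pre p (.here q (emp nil))) true
    | (false, true) => .go (.pre p (.here (app q (emp nil)) nil)) true
    | _ => .fail
  | .emp (.arcL m q) =>
    match o with
    | (true, false) => .go (m.app (arc q (emp nil))) false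
    | (false, true) => .go (m.app (arc (app q (emp nil)) nil)) false
    | _ => .fail
  | .emp (.arcR p m) =>
    match o with
    | (true, false) => .go (.pre p (.arcL m (emp nil))) false
    | (false, true) => .go (.pre p (.arcL (m.app (emp nil)) nil)) false
    | _ => .fail
  | .here nil q => if o.1 = o.2 then .join (app q (outp o)) else .fail
  | .here (emp p) q =>
    match o with
    | (true, false) => .go (.pre p (.here q (emp nil))) true
    | (false, true) => .go (.pre p (.here (app q (emp nil)) nil)) true
    | _ => .fail
  | .here (arc b1 b2) q =>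
    if o.1 = o.2 then .go (.pre b1 (.here b2 (app q (outp o)))) false else .fail
  | .arcL (.emp m) q =>
    match o with
    | (true, false) => .go (m.app (arc q (emp nil))) false
    | (false, true) => .go (m.app (arc (app q (emp nil)) nil)) false
    | _ => .fail
  | .arcL (.here p r) q =>
    if o.1 = o.2 then .go (.pre p (.here r (app q (outp o)))) true else .fail
  | .arcL (.arcL m r) q =>
    if o.1 = o.2 then .go (m.app (arc r (app q (outp o)))) false else .fail
  | .arcL (.arcR p m) q =>
    if o.1 = o.2 then .go (.pre p (.arcL m (app q (outp o)))) false else .fail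
  | .arcR nil _ => .fail
  | .arcR (emp p) m =>
    match o with
    | (true, false) => .go (.pre p (.arcL m (emp nil))) false
    | (false, true) => .go (.pre p (.arcL (m.app (emp nil)) nil)) false
    | _ => .fail
  | .arcR (arc b1 b2) m =>
    if o.1 = o.2 then .go (.pre b1 (.arcR b2 (m.app (outp o)))) false else .fail

section Vec

variable {A : Type*} [CommRing A]

/-- The spin vector of a marked pattern; the first strand has spin `a`, the second one `b`; an arc around the marks
has the coefficient `eP` on `(+,-)` and `eM` on `(-,+)`. -/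
def evm (s eP eM : A) (a b : Sp) : MPat → (List Sp → A) → A
  | .here p q, f => ev s p (fun l1 => ev s q (fun l2 => f (a :: (l1 ++ b :: l2))))
  | .emp m, f => evm s eP eM a b m (fun l => f (.zero :: l))
  | .arcL m q, f => evm s eP eM a b m (fun l1 => ev s q (fun l2 =>
      eP * f (.pos :: (l1 ++ .neg :: l2)) + eM * f (.neg :: (l1 ++ .pos :: l2))))
  | .arcR p m, f => ev s p (fun l1 => evm s eP eM a b m (fun l2 =>
      f (.pos :: (l1 ++ .neg :: l2)) + s * f (.neg :: (l1 ++ .pos :: l2))))

/-! ### linearity and concatenation -/

private theorem mp_ev_smul (s c : A) (p : Pat) (f : List Sp → A) :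
    ev s p (fun l => c * f l) = c * ev s p f := by
  induction p generalizing f with
  | nil => rfl
  | emp p ih => exact ih _
  | arc p q ihp ihq =>
    simp only [ev]
    rw [← ihp]
    congr 1
    funext l1
    rw [← ihq]
    congr 1
    funext l2
    ring

private theorem mp_ev_add (s : A) (p : Pat) (f g : List Sp → A) :
    ev s p (fun l => f l + g l) = ev s p f + ev s p g := by
  induction p generalizing f g with
  | nil => rfl
  | emp p ih => exact ih _ _
  | arc p q ihp ihq =>
    simp only [ev]
    rw [← ihp]
    congr 1
    funext l1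
    rw [← ihq]
    congr 1
    funext l2
    ring

private theorem mp_ev_zero (s : A) (p : Pat) : ev s p (fun _ => (0 : A)) = 0 := by
  have h := mp_ev_smul s 0 p (fun _ => (0 : A))
  simpa using h

private theorem mp_ev_app (s : A) (p q : Pat) (f : List Sp → A) :
    ev s (Pat.app p q) f = ev s p (fun l1 => ev s q (fun l2 => f (l1 ++ l2))) := by
  induction p generalizing f with
  | nil => rfl
  | emp p ih =>
    simp only [Pat.app, ev]
    rw [ih]
    rfl
  | arc p r ihp ihr =>
    simp only [Pat.app, ev]
    congr 1
    funext l1
    rw [ihr]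
    congr 1
    funext l2
    rw [← mp_ev_smul, ← mp_ev_add]
    simp only [List.cons_append, List.append_assoc]

private theorem mp_evm_smul (s eP eM c : A) (a b : Sp) (m : MPat) (f : List Sp → A) :
    evm s eP eM a b m (fun l => c * f l) = c * evm s eP eM a b m f := by
  induction m generalizing f with
  | here p q =>
    simp only [evm]
    simp only [mp_ev_smul]
  | emp m ih => exact ih _
  | arcL m q ih =>
    simp only [evm]
    rw [← ih]
    congr 1
    funext l1
    rw [← mp_ev_smul]
    congr 1
    funext l2
    ring
  | arcR p m ih =>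
    simp only [evm]
    rw [← mp_ev_smul]
    congr 1
    funext l1
    rw [← ih]
    congr 1
    funext l2
    ring

private theorem mp_evm_add (s eP eM : A) (a b : Sp) (m : MPat) (f g : List Sp → A) :
    evm s eP eM a b m (fun l => f l + g l) = evm s eP eM a b m f + evm s eP eM a b m g := by
  induction m generalizing f g with
  | here p q =>
    simp only [evm]
    simp only [mp_ev_add]
  | emp m ih => exact ih _ _
  | arcL m q ih =>
    simp only [evm]
    rw [← ih]
    congr 1
    funext l1
    rw [← mp_ev_add]
    congr 1
    funext l2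
    ring
  | arcR p m ih =>
    simp only [evm]
    rw [← mp_ev_add]
    congr 1
    funext l1
    rw [← ih]
    congr 1
    funext l2
    ring

private theorem mp_evm_zero (s eP eM : A) (a b : Sp) (m : MPat) :
    evm s eP eM a b m (fun _ => (0 : A)) = 0 := by
  have h := mp_evm_smul s eP eM 0 a b m (fun _ => (0 : A))
  simpa using h

private theorem mp_evm_app (s eP eM : A) (a b : Sp) (m : MPat) (r : Pat) (f : List Sp → A) :
    evm s eP eM a b (m.app r) f =
      evm s eP eM a b m (fun l1 => ev s r (fun l2 => f (l1 ++ l2))) := by
  induction m generalizing f with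
  | here p q =>
    simp only [MPat.app, evm, mp_ev_app, List.cons_append, List.append_assoc]
  | emp m ih =>
    simp only [MPat.app, evm]
    rw [ih]
    rfl
  | arcL m q ih =>
    simp only [MPat.app, evm, mp_ev_app]
    congr 1
    funext l1
    congr 1
    funext l2
    rw [← mp_ev_smul, ← mp_ev_smul, ← mp_ev_add]
    simp only [List.cons_append, List.append_assoc]
  | arcR p m ih =>
    simp only [MPat.app, evm]
    congr 1
    funext l1
    rw [ih]
    congr 1
    funext l2
    rw [← mp_ev_smul, ← mp_ev_add]
    simp only [List.cons_append, List.append_assoc]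

private theorem mp_evm_pre (s eP eM : A) (a b : Sp) (p : Pat) (m : MPat) (f : List Sp → A) :
    evm s eP eM a b (.pre p m) f =
      ev s p (fun l1 => evm s eP eM a b m (fun l2 => f (l1 ++ l2))) := by
  induction p generalizing f with
  | nil => rfl
  | emp p ih =>
    simp only [MPat.pre, evm, ev]
    rw [ih]
    rfl
  | arc p q ihp ihq =>
    simp only [MPat.pre, evm, ev]
    congr 1
    funext l1
    rw [ihq]
    congr 1
    funext l2
    rw [← mp_evm_smul, ← mp_evm_add]
    simp only [List.cons_append, List.append_assoc]

private theorem mp_ev_congr {s : A} {p : Pat} {f g : List Sp → A} (h : ∀ l, f l = g l) :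
    ev s p f = ev s p g := congrArg _ (funext h)

private theorem mp_evm_congr {s eP eM : A} {a b : Sp} {m : MPat} {f g : List Sp → A}
    (h : ∀ l, f l = g l) : evm s eP eM a b m f = evm s eP eM a b m g := congrArg _ (funext h)

private theorem mp_npos : -SignType.pos = SignType.neg := rfl

private theorem mp_nneg : -SignType.neg = SignType.pos := rfl

private theorem mp_one : (SignType.pos = (1 : Sp)) = True := by simp

private theorem mp_negone : (SignType.neg = (1 : Sp)) = False := by
  simp only [eq_iff_iff, iff_false]
  decide

/-- Closure, no twist, two parallel strands. -/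
theorem evm_TO_1 {s x : A} (hs : s * s = -1) {a : Sp} (ha : a ≠ 0) (m : MPat) (o : O) (f : List Sp → A) :
    evm s s 1 a a m (TO s x tw1 o f) =
      match mstep o m with
      | .go m' _ => x ^ cost o m.forget * evm s s 1 a a m' f
      | _ => 0 := by
  rcases o with ⟨o1, o2⟩
  obtain rfl | rfl : a = .pos ∨ a = .neg := by
    cases a
    · exact absurd rfl ha
    · exact Or.inr rfl
    · exact Or.inl rfl
  all_goals
    rcases m with ⟨_ | p | ⟨b1, b2⟩, q⟩ | ⟨⟨p, q⟩ | ⟨m⟩ | ⟨m, q⟩ | ⟨p, m⟩⟩ |
      ⟨⟨p, r⟩ | ⟨m⟩ | ⟨m, r⟩ | ⟨p, m⟩, q⟩ | ⟨_ | p | ⟨b1, b2⟩, m⟩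
  all_goals
    cases o1 <;> cases o2
  all_goals
    try simp only [mstep, cost, MPat.forget, outp, evm, ev, TO, SS, UO, tw1,
      if_true, if_false, reduceCtorEq, Prod.mk.injEq, and_true, and_false,
      Bool.false_eq_true]
  all_goals
    try simp only [← mp_ev_smul, ← mp_evm_smul, ← mp_ev_add, ← mp_evm_add]
  all_goals
    try simp only [mp_ev_app, mp_evm_app, mp_evm_pre, evm, ev, List.cons_append,
      List.append_assoc, List.nil_append]
  all_goals
    try simp only [mul_zero, add_zero, zero_add, mp_ev_zero, mp_evm_zero]
  all_goals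
    try exact (mp_evm_congr (g := fun _ => 0) fun _ => by ring).trans (mp_evm_zero _ _ _ _ _ _)
  all_goals
    repeat (first | (refine mp_ev_congr fun _ => ?_) | (refine mp_evm_congr fun _ => ?_))
  all_goals
    grind

/-- Closure, twist `1/s`, two opposite strands. -/
theorem evm_TO_C {s x : A} (hs : s * s = -1) {a : Sp} (ha : a ≠ 0) (m : MPat) (o : O) (f : List Sp → A) :
    evm s (-1) (-s) a (-a) m (TO s x (twC s) o f) =
      match mstep o m with
      | .fail => 0
      | .go m' sw => x ^ cost o m.forget *
          (if sw then twC s a * evm s (-1) (-s) (-a) a m' f else evm s (-1) (-s) a (-a) m' f)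
      | .join p => x ^ cost o m.forget * ((if a = 1 then -s else 1) * ev s p f) := by
  rcases o with ⟨o1, o2⟩
  obtain rfl | rfl : a = .pos ∨ a = .neg := by
    cases a
    · exact absurd rfl ha
    · exact Or.inr rfl
    · exact Or.inl rfl
  all_goals
    rcases m with ⟨_ | p | ⟨b1, b2⟩, q⟩ | ⟨⟨p, q⟩ | ⟨m⟩ | ⟨m, q⟩ | ⟨p, m⟩⟩ |
      ⟨⟨p, r⟩ | ⟨m⟩ | ⟨m, r⟩ | ⟨p, m⟩, q⟩ | ⟨_ | p | ⟨b1, b2⟩, m⟩
  all_goals
    cases o1 <;> cases o2
  all_goals
    try simp only [mstep, cost, MPat.forget, outp, evm, ev, TO, SS, UO, twC, mp_npos, mp_nneg,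
      mp_one, mp_negone, if_true, if_false, reduceCtorEq, Prod.mk.injEq, and_true, and_false,
      Bool.false_eq_true]
  all_goals
    try simp only [← mp_ev_smul, ← mp_evm_smul, ← mp_ev_add, ← mp_evm_add]
  all_goals
    try simp only [mp_ev_app, mp_evm_app, mp_evm_pre, evm, ev, List.cons_append,
      List.append_assoc, List.nil_append]
  all_goals
    try simp only [mul_zero, add_zero, zero_add, mp_ev_zero, mp_evm_zero]
  all_goals
    try exact (mp_evm_congr (g := fun _ => 0) fun _ => by ring).trans (mp_evm_zero _ _ _ _ _ _)
  all_goals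
    repeat (first | (refine mp_ev_congr fun _ => ?_) | (refine mp_evm_congr fun _ => ?_))
  all_goals
    grind

end Vec

private theorem mp_forget_app (m : MPat) (q : Pat) :
    (m.app q).forget = Pat.app m.forget q := by
  induction m with
  | here p r => rfl
  | emp m ih => simp only [MPat.app, MPat.forget, Pat.app, ih]
  | arcL m r ih => rfl
  | arcR p m ih => simp only [MPat.app, MPat.forget, Pat.app, ih]

private theorem mp_forget_pre (p : Pat) (m : MPat) :
    (MPat.pre p m).forget = Pat.app p m.forget := by
  induction p with
  | nil => rfl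
  | emp p ih => simp only [MPat.pre, MPat.forget, Pat.app, ih]
  | arc p q ihp ihq => simp only [MPat.pre, MPat.forget, Pat.app, ihq]

/-- Forgetting the marks commutes with the steps. -/
theorem step_forget (o : O) (m : MPat) :
    step o m.forget =
      match mstep o m with
      | .go m' _ => some m'.forget
      | _ => none := by
  rcases o with ⟨o1, o2⟩
  rcases m with ⟨p, q⟩ | ⟨m⟩ | ⟨m, q⟩ | ⟨p, m⟩
  · rcases p with _ | p | ⟨b1, b2⟩ <;> cases o1 <;> cases o2 <;>
      simp [mstep, step, MPat.forget, mp_forget_pre]
  · rcases m with ⟨p, q⟩ | ⟨m⟩ | ⟨m, q⟩ | ⟨p, m⟩ <;> cases o1 <;> cases o2 <;>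
      simp [mstep, step, MPat.forget, mp_forget_app, mp_forget_pre]
  · rcases m with ⟨p, r⟩ | ⟨m⟩ | ⟨m, r⟩ | ⟨p, m⟩ <;> cases o1 <;> cases o2 <;>
      simp [mstep, step, MPat.forget, mp_forget_app, mp_forget_pre]
  · rcases p with _ | p | ⟨b1, b2⟩ <;> cases o1 <;> cases o2 <;>
      simp [mstep, step, MPat.forget, mp_forget_app, mp_forget_pre]

end Pool.Agent.DEN
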