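import Pool.Agent.DEN.Event
import Pool.Agent.DEN.Cyl

/-!
Project DEN: the final statements.
-/

namespace Pool.Agent.DEN

open Pool.Agent.Hhelper14.Honeycomb Pool.Agent.Hhelper14.SAW

lemma EP_sum_le (M : ℕ) : ∑ n ∈ Finset.Icc 1 M, ((EP n).ncard : ℝ) / mu ^ (2 * n) ≤ 2 := by
  have h := event_bound M
  have hmu : muL = mu := muL_eq hw_quant
  refine le_trans (le_of_eq ?_) h
  refine Finset.sum_congr rfl fun n _ => ?_
  have hp := a_pos n
  have hmp := mu_pos
  rw [hmu, pow_mul']
  field_simp

/-- Given the event of Q1, the probability that the two end points have a common unvisited neighbour is summable. -/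
theorem cond_bound (M : ℕ) :
    ∑ n ∈ Finset.Icc 1 M, ((EP n).ncard : ℝ) / ((Pairs n).ncard : ℝ) ≤ 2 := by
  refine le_trans (Finset.sum_le_sum fun n hn => ?_) (EP_sum_le M)
  have hn1 := (Finset.mem_Icc.1 hn).1
  have hmp := mu_pos
  rw [pairs_eq]
  exact div_le_div_of_nonneg_left (by positivity) (by positivity) (mu_pow_le (2 * n) (by omega))

end Pool.Agent.DEN
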