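import Pool.Agent.DEN.Defs

/-!
Project DEN: flows on a cubic network (abstract). Vertices `V`, edges `E`, the three edges of `v` are `inc v 0`,
`inc v 1`, `inc v 2`, with signs `sg v i = ± 1`. A flow gives every edge a spin in `{0, 1, -1}` such that the signed
sum at every vertex of `V0` is `0` (so `0` or `2` edges of every vertex are used). An odd number of flows with a given
support means that the support is a self-avoiding path.
-/

namespace Pool.Agent.DEN

section Net

variable {V E : Type} [DecidableEq V] [DecidableEq E]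

/-- The flows on the vertices `V0` with support `S` and the values `a`, `b` at `e0`, `e1`. -/
def FLs (inc : V → Fin 3 → E) (sg : V → Fin 3 → ℤ) (V0 : Finset V) (S : Finset E) (e0 e1 : E) (a b : Sp) :
    Set (E → Sp) :=
  {σ | (∀ v ∈ V0, ∑ i, sg v i * ch (σ (inc v i)) = 0) ∧ (∀ e, σ e ≠ 0 ↔ e ∈ S) ∧ σ e0 = a ∧ σ e1 = b}

/-- A path given by its vertices together with the entrance port and the exit port. -/
def Chn (inc : V → Fin 3 → E) : E → List (V × Fin 3 × Fin 3) → E → Prop
  | e0, [], e1 => e0 = e1
  | e0, p :: γ, e1 => inc p.1 p.2.1 = e0 ∧ p.2.1 ≠ p.2.2 ∧ Chn inc (inc p.1 p.2.2) γ e1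

/-- The edges of a path. -/
def pedges (inc : V → Fin 3 → E) (e0 : E) (γ : List (V × Fin 3 × Fin 3)) : List E :=
  e0 :: γ.map (fun p => inc p.1 p.2.2)

/-- Number of the vertices of `V0` which are incident to `S`. -/
def usedV (inc : V → Fin 3 → E) (V0 : Finset V) (S : Finset E) : ℕ :=
  (V0.filter (fun v => ∃ i, inc v i ∈ S)).card

/-- The network is a graph: distinct ports of a vertex are distinct edges, no edge has three vertices, and the signs at
the two ends of an edge are opposite. -/
structure NetOK (inc : V → Fin 3 → E) (sg : V → Fin 3 → ℤ) : Prop where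
  inj : ∀ v, Function.Injective (inc v)
  two : ∀ v w z i j l, inc v i = inc w j → inc v i = inc z l → v = w ∨ v = z ∨ w = z
  sgn : ∀ v i, sg v i = 1 ∨ sg v i = -1
  opp : ∀ v w i j, v ≠ w → inc v i = inc w j → sg v i = -sg w j

lemma sum3 (f : Fin 3 → ℤ) (i j l : Fin 3) (h1 : i ≠ j) (h2 : l ≠ i) (h3 : l ≠ j) :
    ∑ m, f m = f i + f j + f l := by
  rw [Fin.sum_univ_three]
  fin_cases i <;> fin_cases j <;> fin_cases l <;> simp at h1 h2 h3 ⊢ <;> ring

lemma third (i j : Fin 3) : ∃ l : Fin 3, l ≠ i ∧ l ≠ j := by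
  revert i j; decide

lemma ch_inj {a b : Sp} (h : ch a = ch b) : a = b := by
  cases a <;> cases b <;> simp_all [ch]

lemma ch_zero {a : Sp} : ch a = 0 ↔ a = 0 := by
  cases a <;> simp [ch]

lemma ch_neg (a : Sp) : ch (-a) = -ch a := by
  cases a <;> rfl

lemma ch_cases {a : Sp} (h : a ≠ 0) : ch a = 1 ∨ ch a = -1 := by
  cases a
  · exact absurd rfl h
  · exact Or.inr rfl
  · exact Or.inl rfl

/-- Peeling the first vertex of the path. -/
lemma peel (inc : V → Fin 3 → E) (sg : V → Fin 3 → ℤ) (hN : NetOK inc sg) (V0 : Finset V) (S : Finset E)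
    (e0 e1 : E) (a b a' : Sp) (ha : a ≠ 0) (hne : e0 ≠ e1) (v : V) (hv : v ∈ V0) (i j l : Fin 3)
    (hij : i ≠ j) (hli : l ≠ i) (hlj : l ≠ j) (hi : inc v i = e0) (hl : inc v l ∉ S) (he0 : e0 ∈ S)
    (hother : ∀ w ∈ V0, w ≠ v → ∀ m, inc w m ≠ e0)
    (haa : sg v i * ch a + sg v j * ch a' = 0) :
    (FLs inc sg V0 S e0 e1 a b).ncard = (FLs inc sg (V0.erase v) (S.erase e0) (inc v j) e1 a' b).ncard := by
  have hj0 : inc v j ≠ e0 := by
    intro h; exact hij (hN.inj v (hi.trans h.symm))
  have himg : (fun σ : E → Sp => Function.update σ e0 0) '' (FLs inc sg V0 S e0 e1 a b) =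
      FLs inc sg (V0.erase v) (S.erase e0) (inc v j) e1 a' b := by
    ext τ
    constructor
    · rintro ⟨σ, ⟨h1, h2, h3, h4⟩, rfl⟩
      refine ⟨?_, ?_, ?_, ?_⟩
      · intro w hw
        rw [Finset.mem_erase] at hw
        have := h1 w hw.2
        rw [← this]
        refine Finset.sum_congr rfl fun m _ => ?_
        simp only [Function.update_of_ne (hother w hw.2 hw.1 m)]
      · intro e
        by_cases he : e = e0
        · subst he; simp
        · simp only [Function.update_of_ne he, Finset.mem_erase]
          rw [h2 e]; tauto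
      · simp only [Function.update_of_ne hj0]
        have h5 := h1 v hv
        rw [sum3 _ i j l hij hli hlj, hi, h3] at h5
        have h6 : σ (inc v l) = 0 := by
          by_contra hc; exact hl ((h2 _).1 hc)
        rw [h6] at h5
        have h7 : sg v j * ch (σ (inc v j)) = sg v j * ch a' := by
          have : ch 0 = 0 := rfl
          rw [this] at h5; linarith
        rcases hN.sgn v j with h8 | h8 <;> rw [h8] at h7 <;> exact ch_inj (by linarith)
      · simp only [Function.update_of_ne hne.symm]; exact h4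
    · rintro ⟨h1, h2, h3, h4⟩
      have hτ0 : τ e0 = 0 := by
        by_contra hc
        have := (h2 e0).1 hc
        simp at this
      refine ⟨Function.update τ e0 a, ⟨?_, ?_, ?_, ?_⟩, ?_⟩
      · intro w hw
        by_cases hwv : w = v
        · subst hwv
          rw [sum3 _ i j l hij hli hlj, hi, Function.update_self, Function.update_of_ne hj0, h3]
          have hl0 : inc w l ≠ e0 := by
            intro h; exact hli (hN.inj w (h.trans hi.symm))
          have h6 : τ (inc w l) = 0 := by
            by_contra hc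
            exact hl (Finset.mem_of_mem_erase ((h2 _).1 hc))
          rw [Function.update_of_ne hl0, h6]
          have : ch 0 = 0 := rfl
          rw [this]; linarith
        · have := h1 w (Finset.mem_erase.2 ⟨hwv, hw⟩)
          rw [← this]
          refine Finset.sum_congr rfl fun m _ => ?_
          rw [Function.update_of_ne (hother w hw hwv m)]
      · intro e
        by_cases he : e = e0
        · subst he; simp [ha, he0]
        · rw [Function.update_of_ne he, h2 e, Finset.mem_erase]; tauto
      · simp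
      · rw [Function.update_of_ne hne.symm]; exact h4
      · simp only [Function.update_idem]
        rw [← hτ0, Function.update_eq_self]
  rw [← himg, Set.InjOn.ncard_image]
  intro σ hσ σ' hσ' h
  funext e
  by_cases he : e = e0
  · subst he; rw [hσ.2.2.1, hσ'.2.2.1]
  · have := congrFun h e
    simpa only [Function.update_of_ne he] using this

/-- The closed part of the support gives an even number of flows. -/
lemma loops (inc : V → Fin 3 → E) (sg : V → Fin 3 → ℤ) (V0 : Finset V) (S : Finset E)
    (e0 e1 : E) (a b : Sp) (v : V) (i j l : Fin 3)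
    (hij : i ≠ j) (hli : l ≠ i) (hlj : l ≠ j) (hi : inc v i = e0) (hj : inc v j = e1) (hl : inc v l ∉ S)
    (hother : ∀ w ∈ V0, w ≠ v → ∀ m, inc w m ≠ e0 ∧ inc w m ≠ e1)
    (hodd : Odd (FLs inc sg V0 S e0 e1 a b).ncard) : ∀ e ∈ S, e = e0 ∨ e = e1 := by
  by_contra hcon
  push Not at hcon
  obtain ⟨e, heS, hee0, hee1⟩ := hcon
  have hfin : (FLs inc sg V0 S e0 e1 a b).Finite := by
    apply Set.finite_of_ncard_ne_zero
    intro h; rw [h] at hodd; exact absurd hodd (by decide)
  rw [Set.ncard_eq_toFinset_card _ hfin] at hodd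
  set g : (E → Sp) → (E → Sp) := fun σ f => if f = e0 ∨ f = e1 then σ f else -σ f with hg
  have hgmem : ∀ σ ∈ FLs inc sg V0 S e0 e1 a b, g σ ∈ FLs inc sg V0 S e0 e1 a b := by
    rintro σ ⟨h1, h2, h3, h4⟩
    refine ⟨?_, ?_, ?_, ?_⟩
    · intro w hw
      by_cases hwv : w = v
      · subst hwv
        have h5 := h1 w hw
        have h6 : σ (inc w l) = 0 := by
          by_contra hc; exact hl ((h2 _).1 hc)
        rw [sum3 _ i j l hij hli hlj] at h5 ⊢
        have g1 : g σ (inc w i) = σ (inc w i) := by simp [hg, hi]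
        have g2 : g σ (inc w j) = σ (inc w j) := by simp [hg, hj]
        have g3 : g σ (inc w l) = σ (inc w l) := by simp [hg, h6]
        rw [g1, g2, g3]; exact h5
      · have h5 := h1 w hw
        have h6 : ∀ m, sg w m * ch (g σ (inc w m)) = -(sg w m * ch (σ (inc w m))) := by
          intro m
          obtain ⟨k1, k2⟩ := hother w hw hwv m
          simp only [hg, k1, k2, or_self, if_false, ch_neg]
          ring
        simp only [h6, Finset.sum_neg_distrib, h5, neg_zero]
    · intro f
      rw [← h2 f]
      simp only [hg]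
      split_ifs
      · rfl
      · constructor
        · intro h h'; rw [h'] at h; exact h rfl
        · intro h h'
          apply h
          cases hs : σ f <;> rw [hs] at h' <;> first | rfl | exact absurd h' (by decide)
    · simp [hg, h3]
    · simp [hg, h4]
  have hz : ((hfin.toFinset.card : ℕ) : ZMod 2) = 0 := by
    rw [← nsmul_one, ← Finset.sum_const]
    refine Finset.sum_involution (fun σ _ => g σ) ?_ ?_ ?_ ?_
    · intro σ _; decide
    · intro σ hσ _ h
      rw [Set.Finite.mem_toFinset] at hσ
      have h1 := congrFun h e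
      simp only [hg, hee0, hee1, or_self, if_false] at h1
      have h2 := (hσ.2.1 e).2 heS
      apply h2
      cases hs : σ e <;> rw [hs] at h1 <;> first | rfl | exact absurd h1 (by decide)
    · intro σ hσ
      rw [Set.Finite.mem_toFinset] at hσ ⊢
      exact hgmem σ hσ
    · intro σ _
      funext f
      simp only [hg]
      split_ifs <;> simp
  rw [ZMod.natCast_eq_zero_iff_even] at hz
  exact (Nat.not_even_iff_odd.2 hodd) hz

/-- The number of used vertices after peeling. -/
lemma usedV_erase (inc : V → Fin 3 → E) (V0 : Finset V) (S : Finset E) (e0 : E) (v : V) (hv : v ∈ V0)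
    (i : Fin 3) (hi : inc v i = e0) (he0 : e0 ∈ S) (hother : ∀ w ∈ V0, w ≠ v → ∀ m, inc w m ≠ e0) :
    usedV inc V0 S = usedV inc (V0.erase v) (S.erase e0) + 1 := by
  unfold usedV
  have h : V0.filter (fun v => ∃ i, inc v i ∈ S) =
      insert v ((V0.erase v).filter (fun v => ∃ i, inc v i ∈ S.erase e0)) := by
    ext w
    simp only [Finset.mem_filter, Finset.mem_insert, Finset.mem_erase]
    constructor
    · rintro ⟨hw, m, hm⟩
      by_cases hwv : w = v
      · exact Or.inl hwv
      · exact Or.inr ⟨⟨hwv, hw⟩, m, hother w hw hwv m, hm⟩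
    · rintro (rfl | ⟨⟨-, hw⟩, m, -, hm⟩)
      · exact ⟨hv, i, by rw [hi]; exact he0⟩
      · exact ⟨hw, m, hm⟩
  rw [h, Finset.card_insert_of_notMem]
  simp

/-- Exactly one other port of a vertex is used. -/
lemma other_port (inc : V → Fin 3 → E) (sg : V → Fin 3 → ℤ) (hN : NetOK inc sg) (v : V) (σ : E → Sp)
    (h : ∑ m, sg v m * ch (σ (inc v m)) = 0) (i : Fin 3) (hi : σ (inc v i) ≠ 0) :
    ∃ j l : Fin 3, i ≠ j ∧ l ≠ i ∧ l ≠ j ∧ σ (inc v j) ≠ 0 ∧ σ (inc v l) = 0 ∧
      sg v i * ch (σ (inc v i)) + sg v j * ch (σ (inc v j)) = 0 := by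
  have key : ∀ j l : Fin 3, i ≠ j → l ≠ i → l ≠ j → σ (inc v l) = 0 →
      σ (inc v j) ≠ 0 ∧ sg v i * ch (σ (inc v i)) + sg v j * ch (σ (inc v j)) = 0 := by
    intro j l hij hli hlj hl
    have h' := h
    rw [sum3 _ i j l hij hli hlj, hl] at h'
    have h0 : ch 0 = 0 := rfl
    rw [h0, mul_zero, add_zero] at h'
    refine ⟨?_, h'⟩
    intro hj
    rw [hj, h0, mul_zero, add_zero] at h'
    rcases ch_cases hi with h1 | h1 <;> rcases hN.sgn v i with h2 | h2 <;> rw [h1, h2] at h' <;>
      norm_num at h'
  obtain ⟨j, hji, -⟩ := third i i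
  obtain ⟨l, hli, hlj⟩ := third i j
  by_cases hl : σ (inc v l) = 0
  · obtain ⟨h1, h2⟩ := key j l hji.symm hli hlj hl
    exact ⟨j, l, hji.symm, hli, hlj, h1, hl, h2⟩
  by_cases hj : σ (inc v j) = 0
  · obtain ⟨h1, h2⟩ := key l j hli.symm hji hlj.symm hj
    exact ⟨l, j, hli.symm, hji, hlj.symm, h1, hj, h2⟩
  · exfalso
    rw [sum3 _ i j l hji.symm hli hlj] at h
    rcases ch_cases hi with h1 | h1 <;> rcases ch_cases hj with h2 | h2 <;>
      rcases ch_cases hl with h3 | h3 <;> rcases hN.sgn v i with h4 | h4 <;>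
      rcases hN.sgn v j with h5 | h5 <;> rcases hN.sgn v l with h6 | h6 <;>
      rw [h1, h2, h3, h4, h5, h6] at h <;> norm_num at h

/-- An odd number of flows: the support is a path. -/
theorem net_A (inc : V → Fin 3 → E) (sg : V → Fin 3 → ℤ) (hN : NetOK inc sg) (V0 : Finset V) (S : Finset E)
    (e0 e1 : E) (a b : Sp) (ha : a ≠ 0) (hb : b ≠ 0) (hne : e0 ≠ e1)
    (h0 : ∃! v, v ∈ V0 ∧ ∃ i, inc v i = e0) (h1 : ∃! v, v ∈ V0 ∧ ∃ i, inc v i = e1)
    (hS : ∀ e ∈ S, e ≠ e0 → e ≠ e1 → ∃ v ∈ V0, ∃ w ∈ V0, v ≠ w ∧ (∃ i, inc v i = e) ∧ (∃ j, inc w j = e))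
    (hodd : Odd (FLs inc sg V0 S e0 e1 a b).ncard) :
    ∃ γ : List (V × Fin 3 × Fin 3), γ ≠ [] ∧ Chn inc e0 γ e1 ∧ (γ.map (fun p => p.1)).Nodup ∧ (∀ p ∈ γ, p.1 ∈ V0) ∧
      (∀ e, e ∈ S ↔ e ∈ pedges inc e0 γ) ∧ γ.length = usedV inc V0 S := by
  obtain ⟨n, hn⟩ : ∃ n, V0.card = n := ⟨_, rfl⟩
  induction n generalizing V0 S e0 a with
  | zero =>
    obtain ⟨v, ⟨hv, -⟩, -⟩ := h0
    rw [Finset.card_eq_zero] at hn
    rw [hn] at hv
    simp at hv
  | succ n ih =>
    obtain ⟨v, ⟨hv, i, hi⟩, huv⟩ := h0
    obtain ⟨σ, hσ⟩ : (FLs inc sg V0 S e0 e1 a b).Nonempty := by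
      by_contra hc
      rw [Set.not_nonempty_iff_eq_empty] at hc
      rw [hc] at hodd
      simp at hodd
    obtain ⟨k1, k2, k3, k4⟩ := hσ
    have he0 : e0 ∈ S := (k2 e0).1 (by rw [k3]; exact ha)
    have he1 : e1 ∈ S := (k2 e1).1 (by rw [k4]; exact hb)
    obtain ⟨j, l, hij, hli, hlj, hj, hl, haa⟩ := other_port inc sg hN v σ (k1 v hv) i (by rw [hi, k3]; exact ha)
    rw [hi, k3] at haa
    have hlS : inc v l ∉ S := fun h => (k2 _).2 h hl
    have hjS : inc v j ∈ S := (k2 _).1 hj
    have hj0 : inc v j ≠ e0 := fun h => hij (hN.inj v (hi.trans h.symm))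
    have hother : ∀ w ∈ V0, w ≠ v → ∀ m, inc w m ≠ e0 := by
      intro w hw hwv m hm
      exact hwv (huv w ⟨hw, m, hm⟩)
    by_cases hj1 : inc v j = e1
    · -- the path has one vertex
      obtain ⟨z, hz, huz⟩ := h1
      have hvz : v = z := huz v ⟨hv, j, hj1⟩
      have hother' : ∀ w ∈ V0, w ≠ v → ∀ m, inc w m ≠ e0 ∧ inc w m ≠ e1 := by
        intro w hw hwv m
        refine ⟨hother w hw hwv m, ?_⟩
        intro hm
        exact hwv ((huz w ⟨hw, m, hm⟩).trans hvz.symm)
      have hlp := loops inc sg V0 S e0 e1 a b v i j l hij hli hlj hi hj1 hlS hother' hodd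
      refine ⟨[(v, i, j)], by simp, ⟨hi, hij, hj1⟩, by simp, by simp [hv], ?_, ?_⟩
      · intro e
        simp only [pedges, List.map_cons, List.map_nil, List.mem_cons, List.not_mem_nil, or_false, hj1]
        constructor
        · exact hlp e
        · rintro (rfl | rfl)
          · exact he0
          · exact he1
      · unfold usedV
        have : V0.filter (fun v => ∃ i, inc v i ∈ S) = {v} := by
          ext w
          simp only [Finset.mem_filter, Finset.mem_singleton]
          constructor
          · rintro ⟨hw, m, hm⟩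
            by_contra hwv
            rcases hlp _ hm with h | h
            · exact (hother' w hw hwv m).1 h
            · exact (hother' w hw hwv m).2 h
          · rintro rfl
            exact ⟨hv, i, by rw [hi]; exact he0⟩
        rw [this]; simp
    · -- peel
      have hpeel := peel inc sg hN V0 S e0 e1 a b (σ (inc v j)) ha hne v hv i j l hij hli hlj hi hlS he0
        hother haa
      have hvS : ∀ m, inc v m ∈ S → inc v m = e0 ∨ inc v m = inc v j := by
        intro m hm
        by_cases h1 : m = i
        · left; rw [h1, hi]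
        by_cases h2 : m = j
        · right; rw [h2]
        · exfalso
          have : m = l := by
            revert h1 h2 hij hli hlj
            clear * -
            revert m i j l
            decide
          rw [this] at hm
          exact hlS hm
      obtain ⟨v1, hv1, v2, hv2, hv12, ⟨m1, hm1⟩, ⟨m2, hm2⟩⟩ := hS _ hjS hj0 hj1
      obtain ⟨w, hw, hwv, mw, hmw⟩ : ∃ w ∈ V0, w ≠ v ∧ ∃ m, inc w m = inc v j := by
        by_cases h : v1 = v
        · exact ⟨v2, hv2, fun h2 => hv12 (h.trans h2.symm), m2, hm2⟩
        · exact ⟨v1, hv1, h, m1, hm1⟩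
      have H0 : ∃! y, y ∈ V0.erase v ∧ ∃ m, inc y m = inc v j := by
        refine ⟨w, ⟨Finset.mem_erase.2 ⟨hwv, hw⟩, mw, hmw⟩, ?_⟩
        rintro y ⟨hy, my, hmy⟩
        rw [Finset.mem_erase] at hy
        rcases hN.two v w y j mw my hmw.symm hmy.symm with h | h | h
        · exact absurd h.symm hwv
        · exact absurd h.symm hy.1
        · exact h.symm
      have H1 : ∃! y, y ∈ V0.erase v ∧ ∃ m, inc y m = e1 := by
        obtain ⟨z, ⟨hz, mz, hmz⟩, huz⟩ := h1
        refine ⟨z, ⟨Finset.mem_erase.2 ⟨?_, hz⟩, mz, hmz⟩, ?_⟩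
        · rintro rfl
          rcases hvS mz (by rw [hmz]; exact he1) with h | h
          · exact hne (h.symm.trans hmz)
          · exact hj1 (h.symm.trans hmz)
        · rintro y ⟨hy, my⟩
          exact huz y ⟨Finset.mem_of_mem_erase hy, my⟩
      have HS : ∀ e ∈ S.erase e0, e ≠ inc v j → e ≠ e1 → ∃ x ∈ V0.erase v, ∃ y ∈ V0.erase v, x ≠ y ∧
          (∃ i, inc x i = e) ∧ (∃ j, inc y j = e) := by
        intro e he hej hee1
        rw [Finset.mem_erase] at he
        obtain ⟨x, hx, y, hy, hxy, ⟨mx, hmx⟩, ⟨my, hmy⟩⟩ := hS e he.2 he.1 hee1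
        have hne' : ∀ z m, inc z m = e → z ≠ v := by
          rintro z m hm rfl
          rcases hvS m (by rw [hm]; exact he.2) with h | h
          · exact he.1 (hm.symm.trans h)
          · exact hej (hm.symm.trans h)
        exact ⟨x, Finset.mem_erase.2 ⟨hne' x mx hmx, hx⟩, y, Finset.mem_erase.2 ⟨hne' y my hmy, hy⟩, hxy,
          ⟨mx, hmx⟩, ⟨my, hmy⟩⟩
      obtain ⟨γ, g1, g2, g3, g4, g5, g6⟩ := ih (V0.erase v) (S.erase e0) (inc v j) (σ (inc v j)) hj hj1
        H0 H1 HS (by rw [← hpeel]; exact hodd) (by rw [Finset.card_erase_of_mem hv, hn]; rfl)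
      refine ⟨(v, i, j) :: γ, by simp, ⟨hi, hij, g2⟩, ?_, ?_, ?_, ?_⟩
      · rw [List.map_cons, List.nodup_cons]
        refine ⟨?_, g3⟩
        intro hm
        obtain ⟨p, hp, hpv⟩ := List.mem_map.1 hm
        have := g4 p hp
        rw [hpv] at this
        simp at this
      · intro p hp
        rcases List.mem_cons.1 hp with rfl | hp
        · exact hv
        · exact Finset.mem_of_mem_erase (g4 p hp)
      · intro e
        have h2 := g5 e
        rw [Finset.mem_erase] at h2
        simp only [pedges, List.map_cons, List.mem_cons] at h2 ⊢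
        by_cases he : e = e0
        · simp [he, he0]
        · simp only [he, ne_eq, not_false_iff, true_and, false_or] at h2 ⊢
          exact h2
      · rw [List.length_cons, g6, usedV_erase inc V0 S e0 v hv i hi he0 hother]

lemma chn_last (inc : V → Fin 3 → E) (e0 e1 : E) (γ : List (V × Fin 3 × Fin 3)) (hγ : γ ≠ [])
    (hc : Chn inc e0 γ e1) : ∃ q ∈ γ, inc q.1 q.2.2 = e1 ∧ γ.getLast? = some q := by
  induction γ generalizing e0 with
  | nil => exact absurd rfl hγ
  | cons p γ ih =>
    obtain ⟨-, -, h3⟩ := hc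
    by_cases h : γ = []
    · subst h
      exact ⟨p, by simp, h3, by simp⟩
    · obtain ⟨q, hq, h4, h5⟩ := ih _ h h3
      refine ⟨q, List.mem_cons_of_mem _ hq, h4, ?_⟩
      rw [List.getLast?_cons, h5]; rfl

/-- An edge of a path is its first edge, its last edge or has two different vertices of the path. -/
lemma chn_edge (inc : V → Fin 3 → E) (e0 e1 : E) (γ : List (V × Fin 3 × Fin 3))
    (hc : Chn inc e0 γ e1) (hnd : (γ.map (fun p => p.1)).Nodup) :
    ∀ e ∈ pedges inc e0 γ, e = e0 ∨ e = e1 ∨ ∃ p ∈ γ, ∃ q ∈ γ, p.1 ≠ q.1 ∧ (∃ i, inc p.1 i = e) ∧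
      (∃ i, inc q.1 i = e) := by
  induction γ generalizing e0 with
  | nil =>
    intro e he
    simp only [pedges, List.map_nil, List.mem_cons, List.not_mem_nil, or_false] at he
    exact Or.inl he
  | cons p γ ih =>
    obtain ⟨h1, h2, h3⟩ := hc
    intro e he
    simp only [pedges, List.map_cons, List.mem_cons] at he
    rcases he with he | he | he
    · exact Or.inl he
    · -- the exit edge of `p`
      cases γ with
      | nil => right; left; rw [he]; exact h3
      | cons q γ =>
        right; right
        refine ⟨p, by simp, q, by simp, ?_, ⟨p.2.2, he.symm⟩, ⟨q.2.1, ?_⟩⟩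
        · intro h
          rw [List.map_cons, List.map_cons, List.nodup_cons] at hnd
          exact hnd.1 (by rw [h]; simp)
        · rw [he]; exact h3.1
    · have hnd' : (γ.map (fun p => p.1)).Nodup := by
        rw [List.map_cons, List.nodup_cons] at hnd; exact hnd.2
      rcases ih _ h3 hnd' e (by simp only [pedges, List.mem_cons]; exact Or.inr he) with h | h | h
      · -- first edge of the rest
        cases γ with
        | nil => simp at he
        | cons q γ =>
          right; right
          refine ⟨p, by simp, q, by simp, ?_, ⟨p.2.2, h.symm⟩, ⟨q.2.1, ?_⟩⟩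
          · intro h
            rw [List.map_cons, List.map_cons, List.nodup_cons] at hnd
            exact hnd.1 (by rw [h]; simp)
          · rw [h]; exact h3.1
      · exact Or.inr (Or.inl h)
      · obtain ⟨x, hx, y, hy, hxy⟩ := h
        exact Or.inr (Or.inr ⟨x, List.mem_cons_of_mem _ hx, y, List.mem_cons_of_mem _ hy, hxy⟩)

/-- The support is a path: there is exactly one flow. -/
theorem net_B (inc : V → Fin 3 → E) (sg : V → Fin 3 → ℤ) (hN : NetOK inc sg) (V0 : Finset V) (S : Finset E)
    (e0 e1 : E) (a b : Sp) (ha : a ≠ 0)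
    (h0 : ∃! v, v ∈ V0 ∧ ∃ i, inc v i = e0) (h1 : ∃! v, v ∈ V0 ∧ ∃ i, inc v i = e1)
    (γ : List (V × Fin 3 × Fin 3)) (hγ : γ ≠ []) (hc : Chn inc e0 γ e1) (hnd : (γ.map (fun p => p.1)).Nodup)
    (hV : ∀ p ∈ γ, p.1 ∈ V0) (hS : ∀ e, e ∈ S ↔ e ∈ pedges inc e0 γ)
    (hab : ∀ p q : V × Fin 3 × Fin 3, γ.head? = some p → γ.getLast? = some q →
      sg p.1 p.2.1 * ch a + sg q.1 q.2.2 * ch b = 0) :
    (FLs inc sg V0 S e0 e1 a b).ncard = 1 ∧ γ.length = usedV inc V0 S := by
  induction γ generalizing V0 S e0 a with
  | nil => exact absurd rfl hγ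
  | cons p γ ih =>
    obtain ⟨v, i, j⟩ := p
    obtain ⟨hi, hij, h3⟩ := hc
    simp only at hi hij h3
    have hv : v ∈ V0 := hV (v, i, j) (by simp)
    obtain ⟨v', -, huv'⟩ := h0
    have hvv : v = v' := huv' v ⟨hv, i, hi⟩
    have hother : ∀ w ∈ V0, w ≠ v → ∀ m, inc w m ≠ e0 := by
      intro w hw hwv m hm
      exact hwv ((huv' w ⟨hw, m, hm⟩).trans hvv.symm)
    have he0 : e0 ∈ S := (hS e0).2 (by simp [pedges])
    have hjS : inc v j ∈ S := (hS _).2 (by simp [pedges])
    have hj0 : inc v j ≠ e0 := fun h => hij (hN.inj v (hi.trans h.symm))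
    obtain ⟨l, hli, hlj⟩ := third i j
    have hl0 : inc v l ≠ e0 := fun h => hli (hN.inj v (h.trans hi.symm))
    have hljne : inc v l ≠ inc v j := fun h => hlj (hN.inj v h)
    cases hγ' : γ with
    | nil =>
      subst hγ'
      have hj1 : inc v j = e1 := h3
      obtain ⟨z, -, huz⟩ := h1
      have hvz : v = z := huz v ⟨hv, j, hj1⟩
      have hother1 : ∀ w ∈ V0, w ≠ v → ∀ m, inc w m ≠ e1 := by
        intro w hw hwv m hm
        exact hwv ((huz w ⟨hw, m, hm⟩).trans hvz.symm)
      have hne : e0 ≠ e1 := by rw [← hj1]; exact hj0.symm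
      have hS' : ∀ e, e ∈ S ↔ e = e0 ∨ e = e1 := by
        intro e
        rw [hS e]
        simp [pedges, hj1]
      have hab' : sg v i * ch a + sg v j * ch b = 0 := hab (v, i, j) (v, i, j) (by simp) (by simp)
      have hb : b ≠ 0 := by
        rintro rfl
        have h0' : ch 0 = 0 := rfl
        rw [h0', mul_zero, add_zero] at hab'
        rcases ch_cases ha with h1 | h1 <;> rcases hN.sgn v i with h2 | h2 <;> rw [h1, h2] at hab' <;>
          norm_num at hab'
      constructor
      · rw [Set.ncard_eq_one]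
        refine ⟨fun e => if e = e0 then a else if e = e1 then b else 0, ?_⟩
        ext σ
        constructor
        · rintro ⟨k1, k2, k3, k4⟩
          funext e
          by_cases h : e = e0
          · simp only [h, if_true]; exact k3
          by_cases h' : e = e1
          · simp only [h', if_true, if_neg hne.symm]; exact k4
          · simp only [h, h', if_false]
            by_contra hc
            rcases (hS' e).1 ((k2 e).1 hc) with g | g
            · exact h g
            · exact h' g
        · intro hσ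
          rw [Set.mem_singleton_iff] at hσ
          subst hσ
          refine ⟨?_, ?_, by simp, by simp [hne.symm]⟩
          · intro w hw
            by_cases hwv : w = v
            · subst hwv
              rw [sum3 _ i j l hij hli hlj]
              have hl1 : inc w l ≠ e1 := by rw [← hj1]; exact hljne
              simp only [hi, if_true, hj1, if_neg hne.symm, if_neg hl0, if_neg hl1]
              have h0' : ch 0 = 0 := rfl
              rw [h0', mul_zero, add_zero]; exact hab'
            · have : ∀ m, sg w m * ch (if inc w m = e0 then a else if inc w m = e1 then b else 0) = 0 := by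
                intro m
                rw [if_neg (hother w hw hwv m), if_neg (hother1 w hw hwv m)]
                exact mul_zero _
              simp only [this, Finset.sum_const_zero]
          · intro e
            rw [hS' e]
            by_cases h : e = e0
            · simp [h, ha]
            by_cases h' : e = e1
            · simp [h', hne.symm, hb]
            · simp [h, h']
      · unfold usedV
        have : V0.filter (fun v => ∃ i, inc v i ∈ S) = {v} := by
          ext w
          simp only [Finset.mem_filter, Finset.mem_singleton]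
          constructor
          · rintro ⟨hw, m, hm⟩
            by_contra hwv
            rcases (hS' _).1 hm with h | h
            · exact hother w hw hwv m h
            · exact hother1 w hw hwv m h
          · rintro rfl
            exact ⟨hv, i, by rw [hi]; exact he0⟩
        rw [this]; simp
    | cons q γ2 =>
      have hγne : γ ≠ [] := by rw [hγ']; simp
      rw [List.map_cons, List.nodup_cons] at hnd
      have hvγ : ∀ r ∈ γ, r.1 ≠ v := by
        intro r hr h
        exact hnd.1 (List.mem_map.2 ⟨r, hr, h⟩)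
      obtain ⟨qq, hqq, hqe, hql⟩ := chn_last inc _ e1 γ hγne h3
      obtain ⟨z, ⟨hz, mz, hmz⟩, huz⟩ := h1
      have hqz : qq.1 = z := huz qq.1 ⟨hV qq (by simp [hqq]), qq.2.2, hqe⟩
      have hzv : z ≠ v := by rw [← hqz]; exact hvγ qq hqq
      have hv1 : ∀ m, inc v m ≠ e1 := by
        intro m hm
        exact hzv (huz v ⟨hv, m, hm⟩).symm
      have hne : e0 ≠ e1 := by rw [← hi]; exact hv1 i
      -- edges of the rest
      have hrest : ∀ m, inc v m ∈ pedges inc (inc v j) γ → m = j := by
        intro m hm
        rcases chn_edge inc _ e1 γ h3 hnd.2 _ hm with h | h | ⟨x, hx, y, hy, hxy, ⟨mx, hmx⟩, ⟨my, hmy⟩⟩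
        · exact hN.inj v h
        · exact absurd h (hv1 m)
        · rcases hN.two v x.1 y.1 m mx my hmx.symm hmy.symm with h | h | h
          · exact absurd h.symm (hvγ x hx)
          · exact absurd h.symm (hvγ y hy)
          · exact absurd h hxy
      have hSe : ∀ e, e ∈ S.erase e0 ↔ e ∈ pedges inc (inc v j) γ := by
        intro e
        rw [Finset.mem_erase, hS e]
        simp only [pedges, List.map_cons, List.mem_cons]
        constructor
        · rintro ⟨h, h' | h'⟩
          · exact absurd h' h
          · exact h'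
        · intro h
          refine ⟨?_, Or.inr h⟩
          rintro rfl
          have := hrest i (by rw [hi]; simpa only [pedges, List.mem_cons] using h)
          exact hij this
      have hlS : inc v l ∉ S := by
        intro h
        have h' : inc v l ∈ S.erase e0 := Finset.mem_erase.2 ⟨hl0, h⟩
        exact hlj (hrest l ((hSe _).1 h'))
      -- the value on the second edge
      obtain ⟨a', haa⟩ : ∃ a' : Sp, sg v i * ch a + sg v j * ch a' = 0 := by
        rcases ch_cases ha with g1 | g1 <;> rcases hN.sgn v i with g2 | g2 <;>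
          rcases hN.sgn v j with g3 | g3 <;> rw [g1, g2, g3]
        all_goals first
          | exact ⟨1, by decide⟩
          | exact ⟨-1, by decide⟩
      have ha' : a' ≠ 0 := by
        rintro rfl
        have h0' : ch 0 = 0 := rfl
        rw [h0', mul_zero, add_zero] at haa
        rcases ch_cases ha with h1 | h1 <;> rcases hN.sgn v i with h2 | h2 <;> rw [h1, h2] at haa <;>
          norm_num at haa
      have hpeel := peel inc sg hN V0 S e0 e1 a b a' ha hne v hv i j l hij hli hlj hi hlS he0 hother haa
      have hq : q ∈ γ := by rw [hγ']; simp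
      have hqin : inc q.1 q.2.1 = inc v j := by
        rw [hγ'] at h3; exact h3.1
      have H0 : ∃! y, y ∈ V0.erase v ∧ ∃ m, inc y m = inc v j := by
        refine ⟨q.1, ⟨Finset.mem_erase.2 ⟨hvγ q hq, hV q (by simp [hq])⟩, q.2.1, hqin⟩, ?_⟩
        rintro y ⟨hy, my, hmy⟩
        rw [Finset.mem_erase] at hy
        rcases hN.two v q.1 y j q.2.1 my hqin.symm hmy.symm with h | h | h
        · exact absurd h.symm (hvγ q hq)
        · exact absurd h.symm hy.1
        · exact h.symm
      have H1 : ∃! y, y ∈ V0.erase v ∧ ∃ m, inc y m = e1 := by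
        refine ⟨z, ⟨Finset.mem_erase.2 ⟨hzv, hz⟩, mz, hmz⟩, ?_⟩
        rintro y ⟨hy, my⟩
        exact huz y ⟨Finset.mem_of_mem_erase hy, my⟩
      obtain ⟨r1, r2⟩ := ih (V0.erase v) (S.erase e0) (inc v j) a' ha' H0 H1 hγne h3 hnd.2
        (fun r hr => Finset.mem_erase.2 ⟨hvγ r hr, hV r (by simp [hr])⟩) hSe (by
          intro x y hx hy
          rw [hγ', List.head?_cons, Option.some.injEq] at hx
          subst hx
          have hy' : ((v, i, j) :: γ).getLast? = some y := by
            rw [List.getLast?_cons, hy]; rfl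
          have h5 := hab (v, i, j) y (by simp) hy'
          have h6 := hN.opp v q.1 j q.2.1 (hvγ q hq).symm hqin.symm
          simp only at h5
          rw [h6] at haa
          linarith)
      refine ⟨by rw [hpeel]; exact r1, ?_⟩
      rw [← hγ', List.length_cons, r2, usedV_erase inc V0 S e0 v hv i hi he0 hother]

end Net

end Pool.Agent.DEN
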