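import Pool.Agent.DEN.Defs

/-!
Project DEN: patterns (noncrossing arc systems on the queue) and their spin vectors, as functionals.
-/

namespace Pool.Agent.DEN

/-- A pattern on the queue, read from the front: `emp p` = unused leg followed by `p`, `arc p q` = the word
`( p ) q`. -/
inductive Pat
  | nil : Pat
  | emp (p : Pat) : Pat
  | arc (p q : Pat) : Pat
  deriving DecidableEq

namespace Pat

/-- Concatenation. -/
def app : Pat → Pat → Pat
  | nil, r => r
  | emp p, r => emp (app p r)
  | arc p q, r => arc p (app q r)

/-- Number of legs. -/
def len : Pat → ℕ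
  | nil => 0
  | emp p => len p + 1
  | arc p q => len p + len q + 2

/-- `n` unused legs. -/
def zeros : ℕ → Pat
  | 0 => nil
  | n + 1 => emp (zeros n)

/-- The pattern with one arc between the positions `i` and `i + d + 1`, followed by `r` unused legs. -/
def single (i d r : ℕ) : Pat := app (zeros i) (arc (zeros d) (zeros r))

end Pat

open Pat

/-- What is appended when the vertical edge is not used. -/
def outp : O → Pat
  | (false, false) => emp (emp nil)
  | _ => arc nil nil

/-- One step of the pattern with the choice `o`; `none` if the choice is impossible or a loop closes. -/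
def step (o : O) : Pat → Option Pat
  | emp (emp p) => if o.1 = o.2 then some (app p (outp o)) else none
  | emp (arc p q) =>
    match o with
    | (true, false) => some (app p (arc q (emp nil)))
    | (false, true) => some (app p (arc (app q (emp nil)) nil))
    | _ => none
  | arc (emp p) q =>
    match o with
    | (true, false) => some (app p (arc q (emp nil)))
    | (false, true) => some (app p (arc (app q (emp nil)) nil))
    | _ => none
  | arc (arc b1 b2) b3 => if o.1 = o.2 then some (app b1 (arc b2 (app b3 (outp o)))) else none
  | _ => none

/-- Number of used vertices in one step. -/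
def cost (o : O) (p : Pat) : ℕ :=
  (match p with
    | emp (emp _) => 0
    | _ => 1) + (if o = (false, false) then 0 else 1)

section Vec

variable {A : Type*} [CommRing A]

/-- The spin vector of a pattern, as a functional: an arc is `(+,-)` with coefficient `1` or `(-,+)` with `s`. -/
def ev (s : A) : Pat → (List Sp → A) → A
  | nil, f => f []
  | emp p, f => ev s p (fun l => f (.zero :: l))
  | arc p q, f => ev s p (fun l1 => ev s q (fun l2 =>
      f (.pos :: (l1 ++ .neg :: l2)) + s * f (.neg :: (l1 ++ .pos :: l2))))

private theorem ev_congr (s : A) (p : Pat) {f g : List Sp → A} (h : ∀ l, f l = g l) : ev s p f = ev s p g := by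
  have : f = g := funext h
  rw [this]

private theorem ev_zero (s : A) (p : Pat) : ∀ (f : List Sp → A), (∀ l, f l = 0) → ev s p f = 0 := by
  induction p with
  | nil => intro f h; simp only [ev, h]
  | emp p ih => intro f h; simp only [ev]; exact ih _ (fun l => h _)
  | arc p q ihp ihq =>
    intro f h
    simp only [ev]
    refine ihp _ (fun l1 => ihq _ (fun l2 => ?_))
    rw [h, h]; ring

private theorem ev_mul (s : A) (p : Pat) (a : A) :
    ∀ (f : List Sp → A), ev s p (fun l => a * f l) = a * ev s p f := by
  induction p with
  | nil => intro f; simp only [ev]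
  | emp p ih => intro f; simp only [ev]; exact ih _
  | arc p q ihp ihq =>
    intro f
    simp only [ev]
    rw [← ihp]
    refine ev_congr s p (fun l1 => ?_)
    rw [← ihq]
    refine ev_congr s q (fun l2 => ?_)
    ring

private theorem ev_app (s : A) (p r : Pat) :
    ∀ (f : List Sp → A), ev s (app p r) f = ev s p (fun l1 => ev s r (fun l2 => f (l1 ++ l2))) := by
  induction p with
  | nil => intro f; simp only [ev, app, List.nil_append]
  | emp p ih => intro f; simp only [ev, app, ih, List.cons_append]
  | arc p q ihp ihq =>
    intro f
    have hadd : ∀ (g h : List Sp → A), ev s r (fun l => g l + s * h l) = ev s r g + s * ev s r h := by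
      clear ihp ihq
      induction r with
      | nil => intro g h; simp only [ev]
      | emp p ih => intro g h; simp only [ev]; exact ih _ _
      | arc p q ihp ihq =>
        intro g h
        simp only [ev]
        rw [← ihp]
        refine ev_congr s p (fun l1 => ?_)
        rw [← ihq]
        refine ev_congr s q (fun l2 => ?_)
        ring
    simp only [ev, app]
    refine ev_congr s p (fun l1 => ?_)
    rw [ihq]
    refine ev_congr s q (fun l2 => ?_)
    rw [← hadd]
    refine ev_congr s r (fun l3 => ?_)
    simp only [List.cons_append, List.append_assoc]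

private theorem ev_TO_gen {s x c : A} (hs : s * s = -1) (tw : Sp → A) (h0 : tw .zero = 1) (h1 : tw .pos = c * s)
    (h2 : tw .neg = -(c * s)) (p : Pat) (hp : 2 ≤ p.len) (o : O) (f : List Sp → A) :
    ev s p (TO s x tw o f) =
      match step o p with
      | none => 0
      | some p' => (if o.1 = o.2 then 1 else c) * x ^ cost o p * ev s p' f := by
  match p, hp with
  | nil, hp => simp [len] at hp
  | emp nil, hp => simp [len] at hp
  | emp (emp p), _ =>
    obtain ⟨o1, o2⟩ := o
    cases o1 <;> cases o2
    · simp only [step, outp, cost, ev, ev_app, if_true, TO, SS, UO, h0, one_mul]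
      simp
    · simp only [step, outp, cost, ev, TO, SS, UO, h0, one_mul]
      simp
      exact ev_zero s p _ (fun l => rfl)
    · simp only [step, outp, cost, ev, TO, SS, UO, h0, one_mul]
      simp
      exact ev_zero s p _ (fun l => rfl)
    · simp only [step, outp, cost, ev, ev_app, if_true, TO, SS, UO, h0, one_mul]
      simp
      rw [← ev_mul]
      refine ev_congr s p (fun l => ?_)
      ring
  | emp (arc p q), _ =>
    obtain ⟨o1, o2⟩ := o
    cases o1 <;> cases o2
    · simp only [step, ev, TO, SS, UO]
      refine ev_zero s p _ (fun l1 => ev_zero s q _ (fun l2 => ?_))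
      ring
    · simp only [step, cost, ev, TO, SS, UO, ev_app, h1, h2]
      rw [← ev_mul]
      refine ev_congr s p (fun l1 => ?_)
      rw [← ev_mul]
      refine ev_congr s q (fun l2 => ?_)
      simp
      linear_combination (-(c * x ^ 2 * f (l1 ++ .pos :: (l2 ++ [.zero, .neg])))) * hs
    · simp only [step, cost, ev, TO, SS, UO, ev_app, h1, h2]
      rw [← ev_mul]
      refine ev_congr s p (fun l1 => ?_)
      rw [← ev_mul]
      refine ev_congr s q (fun l2 => ?_)
      simp
      linear_combination (-(c * x ^ 2 * f (l1 ++ .pos :: (l2 ++ [.neg, .zero])))) * hs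
    · simp only [step, ev, TO, SS, UO]
      refine ev_zero s p _ (fun l1 => ev_zero s q _ (fun l2 => ?_))
      ring
  | arc nil q, _ =>
    simp only [step, ev, TO, SS, List.nil_append]
    refine ev_zero s q _ (fun l => ?_)
    ring
  | arc (emp p) q, _ =>
    obtain ⟨o1, o2⟩ := o
    cases o1 <;> cases o2
    · simp only [step, ev, TO, SS, UO, List.cons_append]
      refine ev_zero s p _ (fun l1 => ev_zero s q _ (fun l2 => ?_))
      ring
    · simp only [step, cost, ev, TO, SS, UO, ev_app, h1, h2, List.cons_append]
      rw [← ev_mul]
      refine ev_congr s p (fun l1 => ?_)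
      rw [← ev_mul]
      refine ev_congr s q (fun l2 => ?_)
      simp
      linear_combination (-(c * x ^ 2 * f (l1 ++ .pos :: (l2 ++ [.zero, .neg])))) * hs
    · simp only [step, cost, ev, TO, SS, UO, ev_app, h1, h2, List.cons_append]
      rw [← ev_mul]
      refine ev_congr s p (fun l1 => ?_)
      rw [← ev_mul]
      refine ev_congr s q (fun l2 => ?_)
      simp
      linear_combination (-(c * x ^ 2 * f (l1 ++ .pos :: (l2 ++ [.neg, .zero])))) * hs
    · simp only [step, ev, TO, SS, UO, List.cons_append]
      refine ev_zero s p _ (fun l1 => ev_zero s q _ (fun l2 => ?_))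
      ring
  | arc (arc b1 b2) b3, _ =>
    have key : ∀ (g : List Sp → A), ev s (arc (arc b1 b2) b3)
        (fun l => match l with
          | a :: b :: c' => SS s x (fun v => if v = .zero then g c' else tw v * UO s x o f c' v) a b
          | _ => 0) = x * ev s b1 (fun m1 => ev s b2 (fun m2 => ev s b3 (fun m3 =>
            g (m1 ++ .pos :: (m2 ++ .neg :: m3)) + s * g (m1 ++ .neg :: (m2 ++ .pos :: m3))))) := by
      intro g
      simp only [ev]
      rw [← ev_mul]
      refine ev_congr s b1 (fun m1 => ?_)
      rw [← ev_mul]
      refine ev_congr s b2 (fun m2 => ?_)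
      rw [← ev_mul, ← ev_mul]
      have hadd : ∀ (p : Pat) (g h : List Sp → A), ev s p g + ev s p h = ev s p (fun l => g l + h l) := by
        intro r
        induction r with
        | nil => intro g h; simp only [ev]
        | emp p ih => intro g h; simp only [ev]; exact ih _ _
        | arc p q ihp ihq =>
          intro g h
          simp only [ev]
          rw [ihp]
          refine ev_congr s p (fun l1 => ?_)
          rw [ihq]
          refine ev_congr s q (fun l2 => ?_)
          ring
      rw [hadd]
      refine ev_congr s b3 (fun m3 => ?_)
      simp only [SS, List.cons_append, List.append_assoc, if_true]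
      linear_combination (-(x * g (m1 ++ .pos :: (m2 ++ .neg :: m3)))) * hs
    have hTO : TO s x tw o f = (fun l => match l with
          | a :: b :: c' => SS s x (fun v => if v = .zero then UO s x o f c' .zero else tw v * UO s x o f c' v) a b
          | _ => 0) := by
      funext l
      match l with
      | [] => rfl
      | [a] => rfl
      | a :: b :: c' =>
        have : (fun v => tw v * UO s x o f c' v) =
            (fun v => if v = .zero then UO s x o f c' .zero else tw v * UO s x o f c' v) := by
          funext v
          by_cases hv : v = .zero
          · subst hv; rw [if_pos rfl, h0, one_mul]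
          · rw [if_neg hv]
        simp only [TO]
        rw [this]
    rw [hTO, key (fun c' => UO s x o f c' .zero)]
    obtain ⟨o1, o2⟩ := o
    cases o1 <;> cases o2
    · simp only [step, outp, cost, ev, ev_app, if_true, UO]
      simp
    · simp only [step, UO]
      simp
      rw [ev_zero s b1 _ (fun l => ev_zero s b2 _ (fun l => ev_zero s b3 _ (fun l => rfl)))]
      ring
    · simp only [step, UO]
      simp
      rw [ev_zero s b1 _ (fun l => ev_zero s b2 _ (fun l => ev_zero s b3 _ (fun l => rfl)))]
      ring
    · simp only [step, outp, cost, ev, ev_app, if_true, UO]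
      rw [← ev_mul, ← ev_mul]
      refine ev_congr s b1 (fun m1 => ?_)
      rw [← ev_mul, ← ev_mul]
      refine ev_congr s b2 (fun m2 => ?_)
      rw [← ev_mul, ← ev_mul]
      refine ev_congr s b3 (fun m3 => ?_)
      simp
      ring

/-- Closure, twist `s`. -/
theorem ev_TO {s x : A} (hs : s * s = -1) (p : Pat) (hp : 2 ≤ p.len) (o : O) (f : List Sp → A) :
    ev s p (TO s x (twS s) o f) =
      match step o p with
      | none => 0
      | some p' => x ^ cost o p * ev s p' f := by
  have h := ev_TO_gen (x := x) (c := (1 : A)) hs (twS s) rfl (by simp [twS]) (by simp [twS]) p hp o f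
  rw [h]
  cases step o p with
  | none => rfl
  | some p' => simp

/-- Closure, twist `1/s`: the sign `-1` whenever the vertical edge is used. -/
theorem ev_TO_C {s x : A} (hs : s * s = -1) (p : Pat) (hp : 2 ≤ p.len) (o : O) (f : List Sp → A) :
    ev s p (TO s x (twC s) o f) =
      match step o p with
      | none => 0
      | some p' => (if o.1 = o.2 then 1 else -1) * x ^ cost o p * ev s p' f :=
  ev_TO_gen (x := x) (c := (-1 : A)) hs (twC s) rfl (by simp [twC]) (by simp [twC]) p hp o f

end Vec

private theorem app_len (p r : Pat) : (app p r).len = p.len + r.len := by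
  induction p with
  | nil => simp [app, len]
  | emp p ih => simp only [app, len, ih]; omega
  | arc p q _ ihq => simp only [app, len, ihq]; omega

theorem step_len (o : O) (p p' : Pat) (h : step o p = some p') : p'.len = p.len := by
  match p, h with
  | nil, h => simp [step] at h
  | emp nil, h => simp [step] at h
  | emp (emp p), h =>
    obtain ⟨o1, o2⟩ := o
    cases o1 <;> cases o2 <;> simp [step, outp] at h <;> subst h <;> simp [app_len, len]
  | emp (arc p q), h =>
    obtain ⟨o1, o2⟩ := o
    cases o1 <;> cases o2 <;> simp [step] at h <;> subst h <;> simp [app_len, len] <;> omega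
  | arc nil q, h => simp [step] at h
  | arc (emp p) q, h =>
    obtain ⟨o1, o2⟩ := o
    cases o1 <;> cases o2 <;> simp [step] at h <;> subst h <;> simp [app_len, len] <;> omega
  | arc (arc b1 b2) b3, h =>
    obtain ⟨o1, o2⟩ := o
    cases o1 <;> cases o2 <;> simp [step, outp] at h <;> subst h <;> simp [app_len, len] <;> omega

end Pool.Agent.DEN
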