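import Pool.Agent.DEN.MPat

/-!
Project DEN: sums over the choices (runs of patterns).
-/

namespace Pool.Agent.DEN

open Pat

/-- The lists of length `n`. -/
def LL (α : Type) [Fintype α] [DecidableEq α] : ℕ → Finset (List α)
  | 0 => {[]}
  | n + 1 => (Finset.univ ×ˢ LL α n).image (fun p : α × List α => p.1 :: p.2)

/-- Run of a pattern, with the number of used vertices. -/
def run : List O → Pat → Option (Pat × ℕ)
  | [], p => some (p, 0)
  | o :: F, p =>
    match step o p with
    | none => none
    | some p' =>
      match run F p' with
      | none => none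
      | some r => some (r.1, r.2 + cost o p)

/-- Run of a marked pattern (the strands must not be joined). -/
def mrun : List O → MPat → Option (MPat × ℕ)
  | [], m => some (m, 0)
  | o :: F, m =>
    match mstep o m with
    | .go m' _ =>
      match mrun F m' with
      | none => none
      | some r => some (r.1, r.2 + cost o m.forget)
    | _ => none

/-- Run of a marked pattern until the strands are joined and nothing is left, number of used vertices. -/
def hrun : List O → MPat → Option ℕ
  | [], _ => none
  | o :: F, m =>
    match mstep o m with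
    | .fail => none
    | .go m' _ =>
      match hrun F m' with
      | none => none
      | some c => some (c + cost o m.forget)
    | .join p =>
      match run F p with
      | none => none
      | some r => if r.1 = zeros p.len then some (r.2 + cost o m.forget) else none

/-- Mass of all successful runs of `N` steps from the pattern `p`. -/
noncomputable def Y (x : ℝ) (N : ℕ) (p : Pat) : ℝ :=
  ∑ F ∈ LL O N,
    match run F p with
    | none => 0
    | some r => x ^ r.2

/-- Mass of the runs of `N` steps from `p` to `q`. -/
noncomputable def Rm (x : ℝ) (N : ℕ) (p q : Pat) : ℝ :=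
  ∑ F ∈ LL O N,
    match run F p with
    | none => 0
    | some r => if r.1 = q then x ^ r.2 else 0

theorem mem_LL {α : Type} [Fintype α] [DecidableEq α] (n : ℕ) (l : List α) : l ∈ LL α n ↔ l.length = n := by
  induction n generalizing l with
  | zero => simp [LL]
  | succ n ih =>
    rw [LL, Finset.mem_image]
    constructor
    · rintro ⟨⟨a, l'⟩, h, rfl⟩
      rw [Finset.mem_product] at h
      have := (ih l').1 h.2
      simp [this]
    · intro h
      cases l with
      | nil => simp at h
      | cons a l' =>
        refine ⟨(a, l'), ?_, rfl⟩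
        rw [Finset.mem_product]
        refine ⟨Finset.mem_univ _, (ih l').2 ?_⟩
        simpa using h

theorem Runs_sum_LL {α : Type} {β : Type*} [Fintype α] [DecidableEq α] [AddCommMonoid β] (n : ℕ)
    (f : List α → β) :
    ∑ l ∈ LL α (n + 1), f l = ∑ a : α, ∑ l ∈ LL α n, f (a :: l) := by
  rw [LL, Finset.sum_image, Finset.sum_product]
  rintro ⟨a, l⟩ _ ⟨b, m⟩ _ h
  simp only [List.cons.injEq] at h
  exact Prod.ext h.1 h.2

theorem sum_LL {α β : Type} [Fintype α] [DecidableEq α] [AddCommMonoid β] (n : ℕ) (f : List α → β) :
    ∑ l ∈ LL α (n + 1), f l = ∑ a : α, ∑ l ∈ LL α n, f (a :: l) := Runs_sum_LL n f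

theorem Y_zero (x : ℝ) (p : Pat) : Y x 0 p = 1 := by
  rw [Y, LL, Finset.sum_singleton]
  simp [run]

theorem Y_succ (x : ℝ) (N : ℕ) (p : Pat) :
    Y x (N + 1) p = ∑ o : O,
      match step o p with
      | none => 0
      | some p' => x ^ cost o p * Y x N p' := by
  rw [Y, sum_LL]
  refine Finset.sum_congr rfl fun o _ => ?_
  rcases h : step o p with _ | p'
  · refine Finset.sum_eq_zero fun F _ => ?_
    simp only [run, h]
  · dsimp only
    rw [Y, Finset.mul_sum]
    refine Finset.sum_congr rfl fun F _ => ?_
    rcases h2 : run F p' with _ | r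
    · simp only [run, h, h2, mul_zero]
    · simp only [run, h, h2]
      rw [pow_add, mul_comm]

section Vec

variable {A : Type*} [CommRing A]

theorem TT_sum (s x : A) (tw : Sp → A) (f : List Sp → A) (l : List Sp) :
    TT s x tw f l = ∑ o : O, TO s x tw o f l := by
  rcases l with _ | ⟨a, _ | ⟨b, c⟩⟩
  · simp [TT, TO]
  · simp [TT, TO]
  · rw [Fintype.sum_prod_type]
    simp only [Fintype.sum_bool, TT, TO]
    cases a <;> cases b <;> simp only [SS, UU] <;> ring

theorem Runs_ev_zero (s : A) (p : Pat) : ev s p (fun _ => 0) = 0 := by
  induction p with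
  | nil => rfl
  | emp p ih => exact ih
  | arc p q ihp ihq =>
    simp only [ev, mul_zero, add_zero]
    rw [ihq, ihp]

theorem Runs_ev_add (s : A) (p : Pat) (f g : List Sp → A) :
    ev s p (fun l => f l + g l) = ev s p f + ev s p g := by
  induction p generalizing f g with
  | nil => rfl
  | emp p ih => exact ih _ _
  | arc p q ihp ihq =>
    simp only [ev]
    rw [← ihp]
    congr 1
    funext l1
    rw [← ihq]
    congr 1
    funext l2
    ring

theorem Runs_ev_smul (s : A) (p : Pat) (r : A) (f : List Sp → A) :
    ev s p (fun l => r * f l) = r * ev s p f := by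
  induction p generalizing f with
  | nil => rfl
  | emp p ih => exact ih _
  | arc p q ihp ihq =>
    simp only [ev]
    rw [← ihp]
    congr 1
    funext l1
    rw [← ihq]
    congr 1
    funext l2
    ring

theorem Runs_ev_sum {ι : Type*} (s : A) (p : Pat) (S : Finset ι) (f : ι → List Sp → A) :
    ev s p (fun l => ∑ i ∈ S, f i l) = ∑ i ∈ S, ev s p (f i) := by
  classical
  induction S using Finset.induction_on with
  | empty => simpa using Runs_ev_zero s p
  | insert i S hi ih =>
    simp only [Finset.sum_insert hi]
    rw [Runs_ev_add, ih]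

theorem Runs_evm_zero (s eP eM : A) (a b : Sp) (m : MPat) :
    evm s eP eM a b m (fun _ => 0) = 0 := by
  induction m with
  | here p q =>
    simp only [evm]
    rw [Runs_ev_zero, Runs_ev_zero]
  | emp m ih => exact ih
  | arcL m q ih =>
    simp only [evm, mul_zero, add_zero]
    rw [Runs_ev_zero, ih]
  | arcR p m ih =>
    simp only [evm, mul_zero, add_zero]
    rw [ih, Runs_ev_zero]

theorem Runs_evm_add (s eP eM : A) (a b : Sp) (m : MPat) (f g : List Sp → A) :
    evm s eP eM a b m (fun l => f l + g l) = evm s eP eM a b m f + evm s eP eM a b m g := by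
  induction m generalizing f g with
  | here p q =>
    simp only [evm]
    rw [← Runs_ev_add]
    congr 1
    funext l1
    rw [← Runs_ev_add]
  | emp m ih => exact ih _ _
  | arcL m q ih =>
    simp only [evm]
    rw [← ih]
    congr 1
    funext l1
    rw [← Runs_ev_add]
    congr 1
    funext l2
    ring
  | arcR p m ih =>
    simp only [evm]
    rw [← Runs_ev_add]
    congr 1
    funext l1
    rw [← ih]
    congr 1
    funext l2
    ring

theorem Runs_evm_sum {ι : Type*} (s eP eM : A) (a b : Sp) (m : MPat) (S : Finset ι)
    (f : ι → List Sp → A) :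
    evm s eP eM a b m (fun l => ∑ i ∈ S, f i l) = ∑ i ∈ S, evm s eP eM a b m (f i) := by
  classical
  induction S using Finset.induction_on with
  | empty => simpa using Runs_evm_zero s eP eM a b m
  | insert i S hi ih =>
    simp only [Finset.sum_insert hi]
    rw [Runs_evm_add, ih]

/-- the marked functional vanishes if the function vanishes on the lists with the letter `a` -/
theorem Runs_evm_van (s eP eM : A) (a b : Sp) (m : MPat) (f : List Sp → A)
    (hf : ∀ l, a ∈ l → f l = 0) : evm s eP eM a b m f = 0 := by
  induction m generalizing f with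
  | here p q =>
    simp only [evm]
    have : (fun l1 : List Sp => ev s q (fun l2 => f (a :: (l1 ++ b :: l2)))) = fun _ => 0 := by
      funext l1
      have : (fun l2 : List Sp => f (a :: (l1 ++ b :: l2))) = fun _ => 0 := by
        funext l2
        exact hf _ (by simp)
      rw [this, Runs_ev_zero]
    rw [this, Runs_ev_zero]
  | emp m ih => exact ih _ fun l hl => hf _ (List.mem_cons_of_mem _ hl)
  | arcL m q ih =>
    simp only [evm]
    apply ih
    intro l1 h1
    have : (fun l2 : List Sp => eP * f (.pos :: (l1 ++ .neg :: l2)) + eM * f (.neg :: (l1 ++ .pos :: l2)))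
        = fun _ => 0 := by
      funext l2
      rw [hf _ (by simp [h1]), hf _ (by simp [h1]), mul_zero, mul_zero, add_zero]
    rw [this, Runs_ev_zero]
  | arcR p m ih =>
    simp only [evm]
    have : (fun l1 : List Sp => evm s eP eM a b m (fun l2 =>
        f (.pos :: (l1 ++ .neg :: l2)) + s * f (.neg :: (l1 ++ .pos :: l2)))) = fun _ => 0 := by
      funext l1
      apply ih
      intro l2 h2
      rw [hf _ (by simp [h2]), hf _ (by simp [h2]), mul_zero, add_zero]
    rw [this, Runs_ev_zero]

/-- no arc in the pattern -/
def Runs_noarc : Pat → Bool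
  | .nil => true
  | .emp p => Runs_noarc p
  | .arc _ _ => false

theorem Runs_noarc_app (p q : Pat) : Runs_noarc (app p q) = (Runs_noarc p && Runs_noarc q) := by
  induction p with
  | nil => simp [app, Runs_noarc]
  | emp p ih => simpa [app, Runs_noarc] using ih
  | arc p r _ _ => simp [app, Runs_noarc]

theorem Runs_noarc_iff (p : Pat) : p = zeros p.len ↔ Runs_noarc p = true := by
  induction p with
  | nil => simp [zeros, Pat.len, Runs_noarc]
  | emp p ih => simpa [zeros, Pat.len, Runs_noarc] using ih
  | arc p r _ _ => simp [zeros, Pat.len, Runs_noarc]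

theorem Runs_noarc_zeros (n : ℕ) : Runs_noarc (zeros n) = true := by
  induction n with
  | zero => rfl
  | succ n ih => exact ih

theorem Runs_len_zeros (n : ℕ) : (zeros n).len = n := by
  induction n with
  | zero => rfl
  | succ n ih => simp [zeros, Pat.len, ih]

/-- a step produces an empty pattern only from an empty pattern by the empty choice -/
theorem Runs_step_noarc (o : O) (p p' : Pat) (h : step o p = some p') :
    Runs_noarc p' = (Runs_noarc p && decide (o = (false, false))) := by
  obtain ⟨o1, o2⟩ := o
  rcases p with _ | p | ⟨p, q⟩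
  · simp [step] at h
  · rcases p with _ | p | ⟨p, q⟩
    · simp [step] at h
    · cases o1 <;> cases o2 <;> simp [step, outp] at h <;> subst h <;>
        simp [Runs_noarc_app, Runs_noarc]
    · cases o1 <;> cases o2 <;> simp [step] at h <;> subst h <;>
        simp [Runs_noarc_app, Runs_noarc]
  · rcases p with _ | p | ⟨p, r⟩
    · simp [step] at h
    · cases o1 <;> cases o2 <;> simp [step] at h <;> subst h <;>
        simp [Runs_noarc_app, Runs_noarc]
    · cases o1 <;> cases o2 <;> simp [step, outp] at h <;> subst h <;>
        simp [Runs_noarc_app, Runs_noarc]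

theorem Runs_step_zeros (p : Pat) (hp : 2 ≤ p.len) (h : Runs_noarc p = true) :
    ∃ p', step (false, false) p = some p' ∧ cost (false, false) p = 0 := by
  rcases p with _ | p | ⟨p, q⟩
  · simp [Pat.len] at hp
  · rcases p with _ | p | ⟨p, q⟩
    · simp [Pat.len] at hp
    · exact ⟨app p (outp (false, false)), by simp [step], by simp [cost]⟩
    · simp [Runs_noarc] at h
  · simp [Runs_noarc] at h

/-- the contribution of one choice to the sums over the runs which end empty -/
theorem Runs_sum_o {B : Type*} [AddCommMonoid B] (p : Pat) (hp : 2 ≤ p.len) (c : B) (g : O → Pat → B)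
    (h0 : ∀ p', step (false, false) p = some p' → cost (false, false) p = 0 →
      Runs_noarc p' = true → g (false, false) p' = c)
    (h1 : ∀ o p', step o p = some p' → Runs_noarc p' = false → g o p' = 0) :
    (∑ o : O, match step o p with
      | none => 0
      | some p' => g o p') = if Runs_noarc p = true then c else 0 := by
  by_cases hn : Runs_noarc p = true
  · rw [if_pos hn]
    rw [Finset.sum_eq_single (false, false)]
    · obtain ⟨p', h, hc⟩ := Runs_step_zeros p hp hn
      rw [h]
      have h2 := Runs_step_noarc _ _ _ h
      exact h0 p' h hc (by rw [h2, hn]; rfl)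
    · intro o _ ho
      rcases h : step o p with _ | p'
      · rfl
      · have h2 := Runs_step_noarc _ _ _ h
        rw [hn, Bool.true_and, decide_eq_false ho] at h2
        exact h1 o p' h h2
    · intro h
      exact absurd (Finset.mem_univ _) h
  · rw [if_neg hn]
    refine Finset.sum_eq_zero fun o _ => ?_
    rcases h : step o p with _ | p'
    · rfl
    · have h2 := Runs_step_noarc _ _ _ h
      rw [Bool.not_eq_true] at hn
      rw [hn, Bool.false_and] at h2
      exact h1 o p' h h2

/-- the vacuum component of a pattern -/
theorem Runs_ev_dl (s : A) (p : Pat) :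
    ev s p (dl (vac p.len)) = if Runs_noarc p = true then 1 else 0 := by
  induction p with
  | nil => simp [ev, dl, vac, Pat.len, Runs_noarc]
  | emp p ih =>
    have : (fun l : List Sp => (dl (vac (Pat.emp p).len) : List Sp → A) (.zero :: l)) = dl (vac p.len) := by
      funext l
      have h : (SignType.zero :: l = vac (Pat.emp p).len) ↔ l = vac p.len := by
        simp [vac, Pat.len, List.replicate_succ]
      simp only [dl]
      exact if_congr h rfl rfl
    change ev s p (fun l : List Sp => (dl (vac (Pat.emp p).len) : List Sp → A) (.zero :: l)) = _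
    rw [this, ih]
    rfl
  | arc p q _ _ =>
    have h1 : ∀ (l1 l2 : List Sp) , (dl (vac (Pat.arc p q).len) : List Sp → A)
        (.pos :: (l1 ++ .neg :: l2)) = 0 := by
      intro l1 l2
      simp only [dl]
      apply if_neg
      simp [vac, Pat.len, List.replicate_succ]
    have h2 : ∀ (l1 l2 : List Sp) , (dl (vac (Pat.arc p q).len) : List Sp → A)
        (.neg :: (l1 ++ .pos :: l2)) = 0 := by
      intro l1 l2
      simp only [dl]
      apply if_neg
      simp [vac, Pat.len, List.replicate_succ]
    simp only [ev, h1, h2, mul_zero, add_zero]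
    rw [Runs_ev_zero, Runs_ev_zero]
    simp [Runs_noarc]

theorem Runs_TT_fun (s x : A) (tw : Sp → A) (f : List Sp → A) :
    TT s x tw f = fun l => ∑ o : O, TO s x tw o f l := funext fun l => TT_sum s x tw f l

/-- iterated closure with the twist `1/s` from the vacuum -/
theorem Runs_ev_C {s x : A} (hs : s * s = -1) (N : ℕ) (p : Pat) (hp : 2 ≤ p.len) :
    ev s p ((TT s x (twC s))^[N] (dl (vac p.len))) = if Runs_noarc p = true then 1 else 0 := by
  induction N generalizing p with
  | zero => exact Runs_ev_dl s p
  | succ N ih =>
    rw [Function.iterate_succ_apply', Runs_TT_fun, Runs_ev_sum]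
    rw [Finset.sum_congr rfl (fun o _ => ev_TO_C hs p hp o _)]
    apply Runs_sum_o p hp 1
      (g := fun o p' => (if o.1 = o.2 then 1 else -1) * x ^ cost o p *
        ev s p' ((TT s x (twC s))^[N] (dl (vac p.len))))
    · intro p' h hc hn
      have hl := step_len _ _ _ h
      have h2 := ih p' (by omega)
      rw [hl, hn] at h2
      rw [h2, hc]
      simp
    · intro o p' h hn
      have hl := step_len _ _ _ h
      have h2 := ih p' (by omega)
      rw [hl, hn] at h2
      rw [h2]
      simp

/-- the runs which end empty -/
theorem Runs_sum_run (x : A) (N : ℕ) (p : Pat) (hp : 2 ≤ p.len) :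
    (∑ F ∈ LL O N, match run F p with
      | none => 0
      | some r => if r.1 = zeros p.len then x ^ r.2 else 0) = if Runs_noarc p = true then 1 else 0 := by
  induction N generalizing p with
  | zero =>
    rw [LL, Finset.sum_singleton]
    simp only [run, pow_zero]
    exact if_congr (Runs_noarc_iff p) rfl rfl
  | succ N ih =>
    rw [Runs_sum_LL]
    rw [← Runs_sum_o p hp (1 : A) (g := fun o p' => x ^ cost o p *
      ∑ F ∈ LL O N, match run F p' with
        | none => 0
        | some r => if r.1 = zeros p.len then x ^ r.2 else 0)]
    · refine Finset.sum_congr rfl fun o _ => ?_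
      rcases h : step o p with _ | p'
      · refine Finset.sum_eq_zero fun F _ => ?_
        simp only [run, h]
      · dsimp only
        rw [Finset.mul_sum]
        refine Finset.sum_congr rfl fun F _ => ?_
        rcases h2 : run F p' with _ | r
        · simp only [run, h, h2, mul_zero]
        · simp only [run, h, h2]
          split_ifs
          · rw [pow_add, mul_comm]
          · rw [mul_zero]
    · intro p' h hc hn
      have hl := step_len _ _ _ h
      have h2 := ih p' (by omega)
      rw [hl, if_pos hn] at h2
      rw [h2, hc]
      simp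
    · intro o p' h hn
      have hl := step_len _ _ _ h
      have h2 := ih p' (by omega)
      rw [hl, hn] at h2
      rw [h2]
      simp

/-- Iterated closure, twist `s`. -/
theorem ev_iter {s x : A} (hs : s * s = -1) (N : ℕ) (p : Pat) (hp : 2 ≤ p.len) (f : List Sp → A) :
    ev s p ((TT s x (twS s))^[N] f) = ∑ F ∈ LL O N,
      match run F p with
      | none => 0
      | some r => x ^ r.2 * ev s r.1 f := by
  induction N generalizing p with
  | zero =>
    rw [LL, Finset.sum_singleton]
    simp [run]
  | succ N ih =>
    rw [Function.iterate_succ_apply', Runs_TT_fun, Runs_ev_sum, Runs_sum_LL]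
    refine Finset.sum_congr rfl fun o _ => ?_
    rw [ev_TO hs p hp o]
    rcases h : step o p with _ | p'
    · dsimp only
      symm
      refine Finset.sum_eq_zero fun F _ => ?_
      simp only [run, h]
    · dsimp only
      rw [ih p' (by rw [step_len _ _ _ h]; exact hp), Finset.mul_sum]
      refine Finset.sum_congr rfl fun F _ => ?_
      rcases h2 : run F p' with _ | r
      · simp only [run, h, h2, mul_zero]
      · simp only [run, h, h2]
        rw [pow_add]
        ring

/-- Iterated closure, two parallel strands. -/
theorem evm_iter {s x : A} (hs : s * s = -1) {a : Sp} (ha : a ≠ 0) (N : ℕ) (m : MPat) (f : List Sp → A) :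
    evm s s 1 a a m ((TT s x tw1)^[N] f) = ∑ F ∈ LL O N,
      match mrun F m with
      | none => 0
      | some r => x ^ r.2 * evm s s 1 a a r.1 f := by
  induction N generalizing m with
  | zero =>
    rw [LL, Finset.sum_singleton]
    simp [mrun]
  | succ N ih =>
    rw [Function.iterate_succ_apply', Runs_TT_fun, Runs_evm_sum, Runs_sum_LL]
    refine Finset.sum_congr rfl fun o _ => ?_
    rw [evm_TO_1 hs ha m o]
    rcases h : mstep o m with _ | ⟨m', sw⟩ | p
    · dsimp only
      symm
      refine Finset.sum_eq_zero fun F _ => ?_
      simp only [mrun, h]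
    · dsimp only
      rw [ih m', Finset.mul_sum]
      refine Finset.sum_congr rfl fun F _ => ?_
      rcases h2 : mrun F m' with _ | r
      · simp only [mrun, h, h2, mul_zero]
      · simp only [mrun, h, h2]
        rw [pow_add]
        ring
    · dsimp only
      symm
      refine Finset.sum_eq_zero fun F _ => ?_
      simp only [mrun, h]

theorem Runs_len_app (p q : Pat) : (app p q).len = p.len + q.len := by
  induction p with
  | nil => simp [app, Pat.len]
  | emp p ih => simp only [app, Pat.len, ih]; omega
  | arc p r _ ih => simp only [app, Pat.len, ih]; omega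

theorem Runs_join_len (o : O) (m : MPat) (p : Pat) (h : mstep o m = .join p) :
    p.len = m.forget.len ∧ 2 ≤ p.len := by
  have hout : (outp o).len = 2 := by
    obtain ⟨o1, o2⟩ := o
    cases o1 <;> cases o2 <;> rfl
  rcases m with ⟨p1, q⟩ | m | ⟨m, q⟩ | ⟨p1, m⟩
  · rcases p1 with _ | p1 | ⟨b1, b2⟩
    · simp only [mstep] at h
      split_ifs at h
      cases h
      rw [Runs_len_app, hout]
      simp only [MPat.forget, Pat.len]
      omega
    · simp only [mstep] at h
      split at h <;> cases h
    · simp only [mstep] at h
      split_ifs at h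
  · rcases m with ⟨p1, q⟩ | m | ⟨m, q⟩ | ⟨p1, m⟩
    · simp only [mstep] at h
      split at h <;> cases h
    · simp only [mstep] at h
      split_ifs at h
    · simp only [mstep] at h
      split at h <;> cases h
    · simp only [mstep] at h
      split at h <;> cases h
  · rcases m with ⟨p1, q⟩ | m | ⟨m, q⟩ | ⟨p1, m⟩
    · simp only [mstep] at h
      split_ifs at h
    · simp only [mstep] at h
      split at h <;> cases h
    · simp only [mstep] at h
      split_ifs at h
    · simp only [mstep] at h
      split_ifs at h
  · rcases p1 with _ | p1 | ⟨b1, b2⟩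
    · simp only [mstep] at h
      cases h
    · simp only [mstep] at h
      split at h <;> cases h
    · simp only [mstep] at h
      split_ifs at h

theorem Runs_mstep_len (o : O) (m m' : MPat) (sw : Bool) (h : mstep o m = .go m' sw) :
    m'.forget.len = m.forget.len := by
  have h2 := step_forget o m
  rw [h] at h2
  exact step_len _ _ _ h2

/-- Iterated closure for the hole: two opposite strands which have to be joined. -/
theorem evm_hole {s x : A} (hs : s * s = -1) {a : Sp} (ha : a ≠ 0) (N : ℕ) (m : MPat) :
    evm s (-1) (-s) a (-a) m ((TT s x (twC s))^[N] (dl (vac m.forget.len))) =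
      (if a = 1 then -s else 1) * ∑ F ∈ LL O N,
        match hrun F m with
        | none => 0
        | some c => x ^ c := by
  induction N generalizing m a with
  | zero =>
    rw [LL, Finset.sum_singleton]
    simp only [hrun, mul_zero]
    apply Runs_evm_van
    intro l hl
    change (if l = vac m.forget.len then (1 : A) else 0) = 0
    apply if_neg
    intro h
    rw [h, vac, List.mem_replicate] at hl
    exact ha hl.2
  | succ N ih =>
    rw [Function.iterate_succ_apply', Runs_TT_fun, Runs_evm_sum, Runs_sum_LL, Finset.mul_sum]
    refine Finset.sum_congr rfl fun o _ => ?_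
    rw [evm_TO_C hs ha m o]
    rcases h : mstep o m with _ | ⟨m', sw⟩ | p
    · dsimp only
      symm
      rw [Finset.sum_eq_zero, mul_zero]
      intro F _
      simp only [hrun, h]
    · dsimp only
      have hl := Runs_mstep_len o m m' sw h
      have hsum : (∑ F ∈ LL O N, match hrun (o :: F) m with
          | none => 0
          | some c => x ^ c) = x ^ cost o m.forget * ∑ F ∈ LL O N, match hrun F m' with
          | none => 0
          | some c => x ^ c := by
        rw [Finset.mul_sum]
        refine Finset.sum_congr rfl fun F _ => ?_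
        rcases h2 : hrun F m' with _ | c
        · simp only [hrun, h, h2, mul_zero]
        · simp only [hrun, h, h2]
          rw [pow_add, mul_comm]
      rw [hsum]
      cases sw
      · have h3 := ih ha m'
        rw [hl] at h3
        simp only [Bool.false_eq_true, if_false]
        rw [h3]
        ring
      · have hna : -a ≠ 0 := by
          intro h0
          apply ha
          revert h0
          cases a <;> decide
        have h3 := ih hna m'
        rw [hl, neg_neg] at h3
        simp only [if_true]
        rw [h3]
        have h4 : twC s a * (if -a = 1 then -s else 1) = (if a = 1 then -s else 1) := by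
          cases a
          · exact absurd rfl ha
          · have e1 : (-(SignType.neg) : SignType) = 1 := by decide
            have e2 : ¬ ((SignType.neg : SignType) = 1) := by decide
            rw [if_pos e1, if_neg e2]
            simp only [twC]
            rw [mul_neg, hs, neg_neg]
          · have e1 : ¬ ((-(SignType.pos) : SignType) = 1) := by decide
            have e2 : (SignType.pos : SignType) = 1 := by decide
            rw [if_neg e1, if_pos e2]
            simp only [twC]
            rw [mul_one]
        rw [← h4]
        ring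
    · dsimp only
      obtain ⟨hl, hl2⟩ := Runs_join_len o m p h
      have h3 := Runs_ev_C (x := x) hs N p hl2
      rw [hl] at h3
      rw [h3]
      have h4 := Runs_sum_run x N p hl2
      have hsum : (∑ F ∈ LL O N, match hrun (o :: F) m with
          | none => 0
          | some c => x ^ c) = x ^ cost o m.forget * (if Runs_noarc p = true then 1 else 0) := by
        rw [← h4, Finset.mul_sum]
        refine Finset.sum_congr rfl fun F _ => ?_
        rcases h2 : run F p with _ | r
        · simp only [hrun, h, h2, mul_zero]
        · simp only [hrun, h, h2]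
          by_cases h5 : r.1 = zeros p.len
          · rw [if_pos h5, if_pos h5]
            dsimp only
            rw [pow_add, mul_comm]
          · rw [if_neg h5, if_neg h5, mul_zero]
      rw [hsum]
      ring

/-- Without strands nothing can happen. -/
theorem ev_hole_zero {s x : A} (hs : s * s = -1) (N n : ℕ) (hn : 2 ≤ n) :
    ev s (zeros n) ((TT s x (twC s))^[N] (dl (vac n))) = 1 := by
  have h := Runs_ev_C (x := x) hs N (zeros n) (by rw [Runs_len_zeros]; exact hn)
  rw [Runs_len_zeros, if_pos (Runs_noarc_zeros n)] at h
  exact h

end Vec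

theorem mrun_forget (F : List O) (m : MPat) :
    run F m.forget = (mrun F m).map (fun r => (r.1.forget, r.2)) := by
  induction F generalizing m with
  | nil => rfl
  | cons o F ih =>
    have h1 := step_forget o m
    rcases h : mstep o m with _ | ⟨m', sw⟩ | p
    · rw [h] at h1
      dsimp only at h1
      simp only [run, mrun, h, h1, Option.map_none]
    · rw [h] at h1
      dsimp only at h1
      simp only [run, mrun, h, h1, ih m']
      rcases mrun F m' with _ | r
      · rfl
      · rfl
    · rw [h] at h1
      dsimp only at h1
      simp only [run, mrun, h, h1, Option.map_none]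

theorem run_len (F : List O) (p : Pat) (r : Pat × ℕ) (h : run F p = some r) : r.1.len = p.len := by
  induction F generalizing p r with
  | nil =>
    simp only [run, Option.some.injEq] at h
    rw [← h]
  | cons o F ih =>
    rcases h1 : step o p with _ | p'
    · simp [run, h1] at h
    · rcases h2 : run F p' with _ | r'
      · simp [run, h1, h2] at h
      · simp only [run, h1, h2, Option.some.injEq] at h
        rw [← h]
        dsimp only
        rw [ih p' r' h2, step_len _ _ _ h1]

theorem Runs_B_nonneg (n : ℕ) (f : List Sp → ℂ) (B : ℝ) (hf : ∀ l : List Sp, l.length = n → ‖f l‖ ≤ B) :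
    0 ≤ B := (norm_nonneg _).trans (hf (List.replicate n .zero) (List.length_replicate))

/-- Bound of the spin vector of a pattern. -/
theorem ev_bound (p : Pat) (f : List Sp → ℂ) (B : ℝ) (hf : ∀ l : List Sp, l.length = p.len → ‖f l‖ ≤ B) :
    ‖ev (-Complex.I) p f‖ ≤ 2 ^ p.len * B := by
  have hB := Runs_B_nonneg _ f B hf
  induction p generalizing f B with
  | nil =>
    simp only [ev, Pat.len, pow_zero, one_mul]
    exact hf [] rfl
  | emp p ih =>
    have h1 := ih (fun l => f (.zero :: l)) B (fun l hl => hf _ (by simp [hl, Pat.len])) hB
    refine h1.trans ?_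
    apply mul_le_mul_of_nonneg_right _ hB
    apply pow_le_pow_right₀ one_le_two
    simp [Pat.len]
  | arc p q ihp ihq =>
    have h1 : ∀ l1 : List Sp, l1.length = p.len → ‖ev (-Complex.I) q (fun l2 =>
        f (.pos :: (l1 ++ .neg :: l2)) + -Complex.I * f (.neg :: (l1 ++ .pos :: l2)))‖ ≤
        2 ^ q.len * (2 * B) := by
      intro l1 hl1
      apply ihq _ _ _ (by linarith)
      intro l2 hl2
      refine (norm_add_le _ _).trans ?_
      rw [norm_mul, norm_neg, Complex.norm_I, one_mul]
      have e1 := hf (.pos :: (l1 ++ .neg :: l2)) (by
        simp only [List.length_cons, List.length_append, hl1, hl2, Pat.len]; omega)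
      have e2 := hf (.neg :: (l1 ++ .pos :: l2)) (by
        simp only [List.length_cons, List.length_append, hl1, hl2, Pat.len]; omega)
      linarith
    have h2 := ihp (fun l1 => ev (-Complex.I) q (fun l2 =>
        f (.pos :: (l1 ++ .neg :: l2)) + -Complex.I * f (.neg :: (l1 ++ .pos :: l2)))) _ h1
      (by positivity)
    refine h2.trans ?_
    have h3 : (2 : ℝ) ^ p.len * (2 ^ q.len * (2 * B)) = 2 ^ (p.len + q.len + 1) * B := by
      rw [pow_succ, pow_add]; ring
    rw [h3]
    apply mul_le_mul_of_nonneg_right _ hB
    apply pow_le_pow_right₀ one_le_two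
    simp [Pat.len]

theorem evm_bound (a : Sp) (m : MPat) (f : List Sp → ℂ) (B : ℝ)
    (hf : ∀ l : List Sp, l.length = m.forget.len → ‖f l‖ ≤ B) :
    ‖evm (-Complex.I) (-Complex.I) 1 a a m f‖ ≤ 2 ^ m.forget.len * B := by
  have hB := Runs_B_nonneg _ f B hf
  induction m generalizing f B with
  | here p q =>
    have h1 : ∀ l1 : List Sp, l1.length = p.len → ‖ev (-Complex.I) q (fun l2 =>
        f (a :: (l1 ++ a :: l2)))‖ ≤ 2 ^ q.len * B := by
      intro l1 hl1
      apply ev_bound
      intro l2 hl2
      apply hf
      simp only [List.length_cons, List.length_append, hl1, hl2, Pat.len, MPat.forget]; omega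
    have h2 := ev_bound p (fun l1 => ev (-Complex.I) q (fun l2 => f (a :: (l1 ++ a :: l2)))) _ h1
    refine h2.trans ?_
    rw [← mul_assoc, ← pow_add]
    apply mul_le_mul_of_nonneg_right _ hB
    apply pow_le_pow_right₀ one_le_two
    simp only [MPat.forget, Pat.len]; omega
  | emp m ih =>
    have h1 := ih (fun l => f (.zero :: l)) B (fun l hl => hf _ (by simp [hl, Pat.len, MPat.forget])) hB
    refine h1.trans ?_
    apply mul_le_mul_of_nonneg_right _ hB
    apply pow_le_pow_right₀ one_le_two
    simp [Pat.len, MPat.forget]
  | arcL m q ih =>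
    have h1 : ∀ l1 : List Sp, l1.length = m.forget.len → ‖ev (-Complex.I) q (fun l2 =>
        -Complex.I * f (.pos :: (l1 ++ .neg :: l2)) + 1 * f (.neg :: (l1 ++ .pos :: l2)))‖ ≤
        2 ^ q.len * (2 * B) := by
      intro l1 hl1
      apply ev_bound
      intro l2 hl2
      refine (norm_add_le _ _).trans ?_
      rw [norm_mul, norm_neg, Complex.norm_I, one_mul, one_mul]
      have e1 := hf (.pos :: (l1 ++ .neg :: l2)) (by
        simp only [List.length_cons, List.length_append, hl1, hl2, Pat.len, MPat.forget]; omega)
      have e2 := hf (.neg :: (l1 ++ .pos :: l2)) (by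
        simp only [List.length_cons, List.length_append, hl1, hl2, Pat.len, MPat.forget]; omega)
      linarith
    have h2 := ih (fun l1 => ev (-Complex.I) q (fun l2 =>
        -Complex.I * f (.pos :: (l1 ++ .neg :: l2)) + 1 * f (.neg :: (l1 ++ .pos :: l2)))) _ h1
      (by positivity)
    refine h2.trans ?_
    have h3 : (2 : ℝ) ^ m.forget.len * (2 ^ q.len * (2 * B)) = 2 ^ (m.forget.len + q.len + 1) * B := by
      rw [pow_succ, pow_add]; ring
    rw [h3]
    apply mul_le_mul_of_nonneg_right _ hB
    apply pow_le_pow_right₀ one_le_two
    simp only [MPat.forget, Pat.len]; omega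
  | arcR p m ih =>
    have h1 : ∀ l1 : List Sp, l1.length = p.len → ‖evm (-Complex.I) (-Complex.I) 1 a a m (fun l2 =>
        f (.pos :: (l1 ++ .neg :: l2)) + -Complex.I * f (.neg :: (l1 ++ .pos :: l2)))‖ ≤
        2 ^ m.forget.len * (2 * B) := by
      intro l1 hl1
      apply ih _ _ _ (by linarith)
      intro l2 hl2
      refine (norm_add_le _ _).trans ?_
      rw [norm_mul, norm_neg, Complex.norm_I, one_mul]
      have e1 := hf (.pos :: (l1 ++ .neg :: l2)) (by
        simp only [List.length_cons, List.length_append, hl1, hl2, Pat.len, MPat.forget]; omega)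
      have e2 := hf (.neg :: (l1 ++ .pos :: l2)) (by
        simp only [List.length_cons, List.length_append, hl1, hl2, Pat.len, MPat.forget]; omega)
      linarith
    have h2 := ev_bound p (fun l1 => evm (-Complex.I) (-Complex.I) 1 a a m (fun l2 =>
        f (.pos :: (l1 ++ .neg :: l2)) + -Complex.I * f (.neg :: (l1 ++ .pos :: l2)))) _ h1
    refine h2.trans ?_
    have h3 : (2 : ℝ) ^ p.len * (2 ^ m.forget.len * (2 * B)) = 2 ^ (p.len + m.forget.len + 1) * B := by
      rw [pow_succ, pow_add]; ring
    rw [h3]
    apply mul_le_mul_of_nonneg_right _ hB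
    apply pow_le_pow_right₀ one_le_two
    simp only [MPat.forget, Pat.len]; omega

/-- The functional of the empty queue. -/
theorem ev_zeros {A : Type*} [CommRing A] (s : A) (n : ℕ) (f : List Sp → A) : ev s (zeros n) f = f (vac n) := by
  induction n generalizing f with
  | zero => rfl
  | succ n ih =>
    simp only [zeros, ev]
    rw [ih]
    rfl

theorem Runs_negI : (-Complex.I) * (-Complex.I) = -1 := by
  rw [neg_mul_neg, Complex.I_mul_I]

/-- Bound of the evolution of the vacuum. -/
theorem vac_bound (x : ℝ) (hx : 0 ≤ x) (n : ℕ) (hn : 2 ≤ n) (N : ℕ) (f : List Sp → ℂ) (B : ℝ)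
    (hf : ∀ l : List Sp, l.length = n → ‖f l‖ ≤ B) :
    ‖((TT (-Complex.I) (x : ℂ) (twS (-Complex.I)))^[N] f) (vac n)‖ ≤ Y x N (zeros n) * (2 ^ n * B) := by
  rw [← ev_zeros (-Complex.I) n ((TT (-Complex.I) (x : ℂ) (twS (-Complex.I)))^[N] f), ev_iter Runs_negI N (zeros n) (by rw [Runs_len_zeros]; exact hn) f, Y,
    Finset.sum_mul]
  refine (norm_sum_le _ _).trans (Finset.sum_le_sum fun F _ => ?_)
  rcases h : run F (zeros n) with _ | r
  · simp
  · dsimp only
    have hl := run_len F _ r h
    rw [Runs_len_zeros] at hl
    rw [norm_mul, norm_pow, Complex.norm_real, Real.norm_of_nonneg hx]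
    apply mul_le_mul_of_nonneg_left _ (pow_nonneg hx _)
    have h2 := ev_bound r.1 f B (fun l hl' => hf l (by rw [hl', hl]))
    rw [hl] at h2
    exact h2

theorem Runs_evm_pre {A : Type*} [CommRing A] (s eP eM : A) (a b : Sp) (i : ℕ) (m : MPat)
    (f : List Sp → A) : evm s eP eM a b (MPat.pre (zeros i) m) f = evm s eP eM a b m (fun l => f (vac i ++ l)) := by
  induction i generalizing f with
  | zero => rfl
  | succ i ih =>
    simp only [zeros, MPat.pre, evm]
    rw [ih]
    rfl

theorem Runs_forget_pre (i : ℕ) (m : MPat) :
    (MPat.pre (zeros i) m).forget = app (zeros i) m.forget := by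
  induction i with
  | zero => rfl
  | succ i ih =>
    simp only [zeros, MPat.pre, MPat.forget, Pat.app, ih]

/-- Two parallel strands at the positions `i` and `i + d + 1`. -/
def two (a : Sp) (i d r : ℕ) : List Sp := vac i ++ a :: (vac d ++ a :: vac r)

/-- Bound of the evolution of two parallel strands. -/
theorem two_bound (x : ℝ) (hx : 0 ≤ x) (i d r : ℕ) (N : ℕ) (a : Sp) (ha : a ≠ 0) (f : List Sp → ℂ) (B : ℝ)
    (hf : ∀ l : List Sp, l.length = i + d + r + 2 → ‖f l‖ ≤ B) :
    ‖((TT (-Complex.I) (x : ℂ) tw1)^[N] f) (two a i d r)‖ ≤ Y x N (single i d r) * (2 ^ (i + d + r + 2) * B) := by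
  set m : MPat := MPat.pre (zeros i) (.here (zeros d) (zeros r)) with hm
  have hfor : m.forget = single i d r := by
    rw [hm, Runs_forget_pre]
    rfl
  have hlen : (single i d r).len = i + d + r + 2 := by
    rw [single, Runs_len_app, Runs_len_zeros]
    simp only [Pat.len, Runs_len_zeros]
    omega
  have hev : ((TT (-Complex.I) (x : ℂ) tw1)^[N] f) (two a i d r) =
      evm (-Complex.I) (-Complex.I) 1 a a m ((TT (-Complex.I) (x : ℂ) tw1)^[N] f) := by
    rw [hm, Runs_evm_pre]
    simp only [evm]
    rw [ev_zeros, ev_zeros]
    rfl
  rw [hev, evm_iter Runs_negI ha N m f, Y, Finset.sum_mul, ← hfor]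
  refine (norm_sum_le _ _).trans (Finset.sum_le_sum fun F _ => ?_)
  rw [mrun_forget]
  rcases h : mrun F m with _ | r'
  · simp
  · dsimp only [Option.map_some]
    have hl := run_len F m.forget (r'.1.forget, r'.2) (by rw [mrun_forget, h]; rfl)
    rw [hfor, hlen] at hl
    dsimp only at hl
    rw [norm_mul, norm_pow, Complex.norm_real, Real.norm_of_nonneg hx]
    apply mul_le_mul_of_nonneg_left _ (pow_nonneg hx _)
    have h2 := evm_bound a r'.1 f B (fun l hl' => hf l (by rw [hl', hl]))
    rw [hl] at h2
    exact h2

end Pool.Agent.DEN
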