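import Pool.Agent.Hhelper14.SAW.Strip

/-!
Project DEN: the half plane below a slanted line. In the coordinates of the SAW library the lower vertices `s` of `G_k`
have type `0` (`a - b = 0` mod `3`), the upper vertices `u` have type `2`, and the time is `- FF / 3`. The walks start
at `o` (type `0`) coming from `o' = (-1, 0)`. All exits of the domain `Hp k d` have turning number `3`, `-3` (a vertex
of type `0` and the step `(-1, 0)`), `2` or `-4` (a vertex of type `2` and the step `(-1, 1)`), so the real parts of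
all phases are nonnegative.
-/

namespace Pool.Agent.DEN

open Pool.Agent.Hhelper14.SAW

/-- Minus three times the time. -/
def FF (k : ℕ) (z : ℤ × ℤ) : ℤ := (2 * (k : ℤ) + 1) * z.1 + ((k : ℤ) - 1) * z.2

/-- The slanted half plane. -/
def Hp (k d : ℕ) (z : ℤ × ℤ) : Prop :=
  ((z.1 - z.2) % 3 = 0 ∧ 3 - 3 * (d : ℤ) ≤ FF k z) ∨ ((z.1 - z.2) % 3 = 2 ∧ (k : ℤ) + 2 - 3 * d ≤ FF k z)

instance (k d : ℕ) : DecidablePred (Hp k d) := fun z => by unfold Hp; infer_instance

lemma FF_mul (k : ℕ) (a b : ℤ) : FF k (a, b) = 2 * ((k : ℤ) * a) + a + (k : ℤ) * b - b := by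
  simp only [FF]; ring

theorem Hp_dom (k d : ℕ) (h1 : 1 ≤ d) (h2 : d ≤ k) : Dom (Hp k d) := by
  refine ⟨?_, ?_, ?_⟩
  · left
    refine ⟨by decide, ?_⟩
    simp only [FF, o]
    omega
  · intro x h
    unfold hon
    rcases h with h | h <;> omega
  · rintro ⟨a, b⟩ h ⟨hs1, hs2⟩
    simp only at hs1 hs2
    subst hs1
    unfold Hp at h
    rw [FF_mul] at h
    simp only [sub_zero, mul_zero, add_zero] at h
    have hk : (1 : ℤ) ≤ k := by exact_mod_cast le_trans h1 h2
    have hd : (d : ℤ) ≤ k := by exact_mod_cast h2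
    have hp1 : (k : ℤ) * a ≤ (k : ℤ) * (-1) := mul_le_mul_of_nonneg_left (by omega) (by omega)
    rcases h with ⟨h3, h4⟩ | ⟨h3, h4⟩
    · have ha : a ≤ -3 := by omega
      have hp2 : (k : ℤ) * a ≤ (k : ℤ) * (-3) := mul_le_mul_of_nonneg_left (by omega) (by omega)
      generalize (k : ℤ) * a = ka at *
      omega
    · generalize (k : ℤ) * a = ka at *
      omega

/-- No vertex of the half plane except `o` is adjacent to the slit. -/
lemma Hp_slit_adj {k d : ℕ} (h1 : 1 ≤ d) (h2 : d ≤ k) {u v : ℤ × ℤ} (hv : Hp k d v) (hadj : Adj u v) (hu : slit u) :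
    v = o := by
  obtain ⟨a, b⟩ := u
  obtain ⟨x, y⟩ := v
  obtain ⟨hu1, hv1, hU⟩ := hadj
  obtain ⟨hb, ha⟩ := hu
  simp only at hb ha
  subst hb
  have hns := (Hp_dom k d h1 h2).off _ hv
  unfold Hp at hv
  rw [FF_mul] at hv
  simp only [U, hon, slit, Prod.mk_sub_mk] at hU hu1 hv1 hns
  have hk : (1 : ℤ) ≤ k := by exact_mod_cast le_trans h1 h2
  have hd : (d : ℤ) ≤ k := by exact_mod_cast h2
  simp only [o, Prod.mk.injEq]
  have hp1 : (a % 3 = 0 ∧ a ≤ -3 ∧ (k : ℤ) * a ≤ -3 * k) ∨ (a % 3 = 2 ∧ (k : ℤ) * a ≤ -k) := by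
    rcases (show (a % 3 = 0 ∧ a ≤ -3) ∨ a % 3 = 2 by omega) with h | h
    · left
      have : (k : ℤ) * a ≤ (k : ℤ) * (-3) := mul_le_mul_of_nonneg_left h.2 (by omega)
      exact ⟨h.1, h.2, by linarith⟩
    · right
      have : (k : ℤ) * a ≤ (k : ℤ) * (-1) := mul_le_mul_of_nonneg_left (by omega) (by omega)
      exact ⟨h, by linarith⟩
  have key : ∀ e f : ℤ, x = a + e → y = f → (k : ℤ) * x = (k : ℤ) * a + (k : ℤ) * e ∧ (k : ℤ) * y = (k : ℤ) * f := by
    intro e f h3 h4
    rw [h3, h4]; constructor <;> ring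
  have h3' : (x = a - 1 ∧ y = 0) ∨ (x = a ∧ y = -1) ∨ (x = a + 1 ∧ y = -1) ∨ (x = a + 1 ∧ y = 0) ∨
      (x = a ∧ y = 1) ∨ (x = a - 1 ∧ y = 1) := by
    rcases hU with hU | hU | hU | hU | hU | hU <;> omega
  rcases h3' with ⟨hx, hy⟩ | ⟨hx, hy⟩ | ⟨hx, hy⟩ | ⟨hx, hy⟩ | ⟨hx, hy⟩ | ⟨hx, hy⟩
  · exfalso; omega
  · exfalso
    obtain ⟨e1, e2⟩ := key 0 (-1) (by omega) hy
    rw [e1, e2] at hv
    generalize (k : ℤ) * a = ka at *
    rcases hv with hv | hv
    · omega
    · omega
  · exfalso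
    obtain ⟨e1, e2⟩ := key 1 (-1) (by omega) hy
    rw [e1, e2] at hv
    generalize (k : ℤ) * a = ka at *
    rcases hv with hv | hv
    · omega
    · omega
  · omega
  · exfalso
    obtain ⟨e1, e2⟩ := key 0 1 (by omega) hy
    rw [e1, e2] at hv
    generalize (k : ℤ) * a = ka at *
    rcases hv with hv | hv
    · omega
    · omega
  · exfalso
    obtain ⟨e1, e2⟩ := key (-1) 1 (by omega) hy
    rw [e1, e2] at hv
    generalize (k : ℤ) * a = ka at *
    rcases hv with hv | hv
    · omega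
    · omega

/-- Products with the slope. -/
lemma Hp_shift {k d : ℕ} (hk : 2 ≤ k) {x u : ℤ × ℤ} (hu : ¬ Hp k d u) (hon_u : hon u) (hx : Hp k d x)
    (h1 : x.1 - u.1 < 0) (h2 : x.2 - u.2 ≤ 0) : False := by
  obtain ⟨a, b⟩ := u
  obtain ⟨x, y⟩ := x
  have hk' : (2 : ℤ) ≤ k := by exact_mod_cast hk
  simp only at h1 h2
  unfold Hp at hu hx
  rw [FF_mul] at hu hx
  unfold hon at hon_u
  simp only at hu hx hon_u
  have e1 : (k : ℤ) * (x - a) ≤ (k : ℤ) * (-1) := mul_le_mul_of_nonneg_left (by omega) (by omega)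
  have e2 : ((k : ℤ) - 1) * (y - b) ≤ 0 := mul_nonpos_of_nonneg_of_nonpos (by omega) h2
  have e3 : (k : ℤ) * x - (k : ℤ) * a ≤ -k := by linarith
  have e4 : ((k : ℤ) * y - (k : ℤ) * b) - (y - b) ≤ 0 := by linarith
  generalize (k : ℤ) * x = kx at *
  generalize (k : ℤ) * y = ky at *
  generalize (k : ℤ) * a = ka at *
  generalize (k : ℤ) * b = kb at *
  omega

/-- A point of the first sector is in the half plane. -/
lemma Hp_sec0 {k d : ℕ} (hk : 2 ≤ k) (hd : 1 ≤ d) {u : ℤ × ℤ} (hon_u : hon u) (h1 : 0 < u.1) (h2 : 0 ≤ u.2) :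
    Hp k d u := by
  obtain ⟨a, b⟩ := u
  have hk' : (2 : ℤ) ≤ k := by exact_mod_cast hk
  have hd' : (1 : ℤ) ≤ d := by exact_mod_cast hd
  simp only at h1 h2
  unfold Hp
  rw [FF_mul]
  unfold hon at hon_u
  simp only at hon_u ⊢
  have e1 : (k : ℤ) * 1 ≤ (k : ℤ) * a := mul_le_mul_of_nonneg_left (by omega) (by omega)
  have e2 : 0 ≤ ((k : ℤ) - 1) * b := mul_nonneg (by omega) h2
  have e4 : 0 ≤ (k : ℤ) * b - b := by linarith
  generalize (k : ℤ) * a = ka at *
  generalize (k : ℤ) * b = kb at *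
  omega

/-- The steps which leave the half plane. -/
lemma Hp_exit {k d : ℕ} (hk : 2 ≤ k) {u v : ℤ × ℤ} (hv : Hp k d v) (hadj : Adj u v)
    (hu : ¬ Hp k d u) : u - v = (-1, 0) ∨ u - v = (-1, 1) := by
  obtain ⟨a, b⟩ := u
  obtain ⟨x, y⟩ := v
  obtain ⟨hu1, hv1, hU⟩ := hadj
  have hk' : (2 : ℤ) ≤ k := by exact_mod_cast hk
  unfold Hp at hu hv
  rw [FF_mul] at hu hv
  simp only [U, hon, Prod.mk_sub_mk] at hU hu1 hv1
  simp only at hu hv
  simp only [Prod.mk_sub_mk, Prod.mk.injEq]
  have key : ∀ e f : ℤ, a = x + e → b = y + f → (k : ℤ) * a = (k : ℤ) * x + (k : ℤ) * e ∧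
      (k : ℤ) * b = (k : ℤ) * y + (k : ℤ) * f := by
    intro e f h3 h4
    rw [h3, h4]; constructor <;> ring
  rcases hU with hU | hU | hU | hU | hU | hU
  · exfalso
    obtain ⟨e1, e2⟩ := key 1 0 (by omega) (by omega)
    rw [e1, e2] at hu
    generalize (k : ℤ) * x = kx at *
    generalize (k : ℤ) * y = ky at *
    omega
  · exfalso
    obtain ⟨e1, e2⟩ := key 0 1 (by omega) (by omega)
    rw [e1, e2] at hu
    generalize (k : ℤ) * x = kx at *
    generalize (k : ℤ) * y = ky at *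
    omega
  · right; exact hU
  · left; exact hU
  · exfalso
    obtain ⟨e1, e2⟩ := key 0 (-1) (by omega) (by omega)
    rw [e1, e2] at hu
    generalize (k : ℤ) * x = kx at *
    generalize (k : ℤ) * y = ky at *
    omega
  · exfalso
    obtain ⟨e1, e2⟩ := key 1 (-1) (by omega) (by omega)
    rw [e1, e2] at hu
    generalize (k : ℤ) * x = kx at *
    generalize (k : ℤ) * y = ky at *
    omega

/-- Turning numbers of the exits through the slanted line. -/
lemma slant_turn {k d : ℕ} (hk : 2 ≤ k) (h1 : 1 ≤ d) (h2 : d ≤ k) {p : ℤ × ℤ → Prop} (hp : Dom p)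
    (hpH : ∀ x, p x → Hp k d x) {n : ℕ} {u v w : ℤ × ℤ} {r : List (ℤ × ℤ)} (hP : IsSaw p n (v :: w :: r))
    (hadj : Adj u v) (huw : u ≠ w) (hu : ¬ Hp k d u) :
    (u - v = (-1, 0) ∧ (Tn (u :: v :: w :: r) = 3 ∨ Tn (u :: v :: w :: r) = -3)) ∨
    (u - v = (-1, 1) ∧ (Tn (u :: v :: w :: r) = 2 ∨ Tn (u :: v :: w :: r) = -4)) := by
  have hv : Hp k d v := hpH v hP.head_mem
  have hus : ¬ slit u := fun hs => (exit_slit hp hP hadj huw hs).1 (Hp_slit_adj h1 h2 hv hadj hs)
  have hT := exit_side hp hP hadj huw (fun h => hu (hpH u h)) hus 4 (by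
    intro x hx
    have h3 : ¬ (x.1 - u.1 < 0 ∧ x.2 - u.2 ≤ 0) := fun h => Hp_shift hk hu hadj.1 (hpH x hx) h.1 h.2
    unfold sec
    simp only [Prod.fst_sub, Prod.snd_sub]
    split_ifs <;> omega)
  have h0 : ¬ (0 < u.1 ∧ 0 ≤ u.2) := fun h => hu (Hp_sec0 hk h1 hadj.1 h.1 h.2)
  have huo : u ≠ o := by rintro rfl; exact hu (Hp_dom k d h1 h2).start
  generalize Tn (u :: v :: w :: r) = q at *
  rcases Hp_exit hk hv hadj hu with he | he
  · left
    refine ⟨he, ?_⟩
    rw [vsub he] at hT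
    have e1 : sec (-(-1, 0)) = 0 := by decide
    rw [e1] at hT
    clear hP hadj huw hu hv he hpH hp
    obtain ⟨a, b⟩ := u
    simp only [slit, o, ne_eq, Prod.mk.injEq] at hus huo h0
    unfold S sec at hT
    simp only [Prod.fst_neg, Prod.snd_neg] at hT
    split_ifs at hT <;> omega
  · right
    refine ⟨he, ?_⟩
    rw [vsub he] at hT
    have e1 : sec (-(-1, 1)) = 5 := by decide
    rw [e1] at hT
    clear hP hadj huw hu hv he hpH hp
    obtain ⟨a, b⟩ := u
    simp only [slit, o, ne_eq, Prod.mk.injEq] at hus huo h0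
    unfold S sec at hT
    simp only [Prod.fst_neg, Prod.snd_neg] at hT
    split_ifs at hT <;> omega

/-- The real part of the phase of every exit of the truncated half plane is nonnegative. -/
lemma trunc_cos {k d M : ℕ} (hk : 2 ≤ k) (h1 : 1 ≤ d) (h2 : d ≤ k) {p : ℤ × ℤ → Prop} (hp : Dom p)
    (hpH : ∀ x, p x ↔ Hp k d x ∧ D (Par.all M) x) {n : ℕ} {u v w : ℤ × ℤ} {r : List (ℤ × ℤ)}
    (hP : IsSaw p n (v :: w :: r)) (hadj : Adj u v) (huw : u ≠ w) (hu : ¬ p u) :
    0 ≤ Real.cos (Tn (u :: v :: w :: r) * (Real.pi / 8)) := by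
  by_cases hH : Hp k d u
  · have hD : ¬ D (Par.all M) u := fun h => hu ((hpH u).2 ⟨hH, h⟩)
    have hk := exit_class (hP.mono (fun x hx => ((hpH x).1 hx).2)) hadj huw hD
    have hs : ¬ slit u := (Hp_dom k d h1 h2).off u hH
    generalize Tn (u :: v :: w :: r) = q at hk
    have : -3 ≤ q ∧ q ≤ 3 := by
      rcases hk with hk | hk | hk | hk | hk | hk | hk | hk | hk | hk | hk
      · omega
      · omega
      · omega
      · omega
      · omega
      · omega
      · omega
      · exact absurd hk.2.1 hs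
      · exact absurd hk.2.1 hs
      · exact absurd hk.2.1 hs
      · exact absurd hk.2.1 hs
    exact cos_nonneg_of this.1 this.2
  · rcases slant_turn hk h1 h2 hp (fun x hx => ((hpH x).1 hx).1) hP hadj huw hH with ⟨-, h | h⟩ | ⟨-, h | h⟩
    · rw [h]; exact cos_nonneg_of (by norm_num) (by norm_num)
    · rw [h]; exact cos_nonneg_of (by norm_num) (by norm_num)
    · rw [h]; exact cos_nonneg_of (by norm_num) (by norm_num)
    · rw [h]
      have : (((-4 : ℤ) : ℝ) * (Real.pi / 8)) = -(Real.pi / 2) := by push_cast; ring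
      rw [this, Real.cos_neg, Real.cos_pi_div_two]

/-- The value `cos (3 π / 8)`. -/
lemma cos38 : 1 / 3 ≤ Real.cos (3 * (Real.pi / 8)) := by
  have e : 3 * (Real.pi / 8) = Real.pi / 2 - Real.pi / 8 := by ring
  rw [e, Real.cos_pi_div_two_sub, Real.sin_pi_div_eight]
  have h2 : Real.sqrt 2 ≤ 1.5 := by
    rw [Real.sqrt_le_left (by norm_num)]; norm_num
  have : 0.7 ≤ Real.sqrt (2 - Real.sqrt 2) := by
    apply Real.le_sqrt_of_sq_le; nlinarith
  linarith

/-- The walks which end at a vertex `s ≠ o` of the boundary have total mass at most `3` (`1 / cos (3 π / 8)`). -/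
theorem slant_sum (k d : ℕ) (hk : 2 ≤ k) (h1 : 1 ≤ d) (h2 : d ≤ k) (P : Finset (List (ℤ × ℤ)))
    (hP : ∀ l ∈ P, (∃ n, IsSaw (Hp k d) n l) ∧ l.headI ≠ o ∧ (l.headI.1 - l.headI.2) % 3 = 0 ∧
      FF k l.headI ≤ 3 * (k : ℤ) - 3 * d) :
    ∑ l ∈ P, xc ^ (l.length - 1) ≤ 3 := by
  classical
  have hdom := Hp_dom k d h1 h2
  -- the box
  set M : ℕ := P.sup List.length + 1 with hM
  set p : ℤ × ℤ → Prop := fun z => Hp k d z ∧ D (Par.all M) z with hpdef
  have hpd : DecidablePred p := fun z => by rw [hpdef]; infer_instance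
  have hp : Dom p := ⟨⟨hdom.start, (D_dom (Par.all M)).start⟩, fun x hx => hdom.hon x hx.1, fun x hx => hdom.off x hx.1⟩
  have hpH : ∀ x, p x ↔ Hp k d x ∧ D (Par.all M) x := fun x => Iff.rfl
  set N : ℕ := (4 * M + 1) ^ 2 with hN
  have hempty : saw p N = ∅ := by
    have h := saw_empty (M := M) (n := N) le_rfl
    rw [Finset.eq_empty_iff_forall_notMem] at h ⊢
    intro Q hQ
    rw [mem_saw hp] at hQ
    apply h Q
    rw [mem_saw (D_dom _)]
    exact hQ.mono (fun x hx => hx.2)
  have htel := telescope hp N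
  have hT : Tsum p N = 0 := by unfold Tsum; rw [hempty]; simp
  rw [hT, mul_zero, sub_zero] at htel
  have hre := congrArg Complex.re htel
  rw [Complex.re_sum, Complex.one_re] at hre
  have e : ∀ n ∈ Finset.range N, ((xc : ℂ) ^ (n + 1) * ∑ Q ∈ exits p n, zt (Tn Q)).re =
      xc ^ (n + 1) * ∑ Q ∈ exits p n, Real.cos (Tn Q * (Real.pi / 8)) := by
    intro n _
    rw [← Complex.ofReal_pow, Complex.re_ofReal_mul, Complex.re_sum]
    simp_rw [zt_re]
  rw [Finset.sum_congr rfl e] at hre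
  have hx := xc_pos
  -- the walks in the box
  have hin : ∀ l ∈ P, ∀ n, IsSaw (Hp k d) n l → IsSaw p n l := by
    intro l hl n hs
    have hnear := saw_near hdom n l hs
    have hlen : n + 2 ≤ M := by
      have h3 : l.length ≤ P.sup List.length := Finset.le_sup (f := List.length) hl
      rw [hs.1] at h3
      omega
    obtain ⟨g1, g2, g3, t, g4, g5⟩ := hs
    refine ⟨g1, g2, g3, t, g4, fun x hx => ⟨g5 x hx, ?_⟩⟩
    have g6 := hnear x (by
      rw [g4]; simp only [List.mem_append, List.mem_cons, List.not_mem_nil, or_false] at hx ⊢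
      tauto)
    refine ⟨hdom.hon x (g5 x hx), hdom.off x (g5 x hx), ?_⟩
    simp only [Par.all, F0, F1, F2, F3, F4, F5]
    have hlen' : (n : ℤ) + 2 ≤ M := by exact_mod_cast hlen
    refine ⟨?_, ?_, ?_, ?_, ?_⟩ <;> omega
  have hmaps : ∀ l ∈ P, l.length - 2 ∈ Finset.range N := by
    intro l hl
    have h3 : l.length ≤ P.sup List.length := Finset.le_sup (f := List.length) hl
    rw [Finset.mem_range, hN]
    have : M ≤ (4 * M + 1) ^ 2 := by nlinarith
    omega
  set c3 : ℝ := Real.cos (3 * (Real.pi / 8)) with hc3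
  have hc3' := cos38
  rw [← hc3] at hc3'
  have hmain : ∑ l ∈ P, xc ^ (l.length - 1) * c3 ≤ 1 := by
    rw [← hre, ← Finset.sum_fiberwise_of_maps_to hmaps]
    refine Finset.sum_le_sum fun n _ => ?_
    have hfib : ∀ l ∈ P.filter (fun l => l.length - 2 = n), IsSaw (Hp k d) n l := by
      intro l hl
      rw [Finset.mem_filter] at hl
      obtain ⟨⟨m, hm⟩, -⟩ := hP l hl.1
      have h3 := hm.1
      have : m = n := by omega
      rw [← this]; exact hm
    have e1 : ∑ l ∈ P.filter (fun l => l.length - 2 = n), xc ^ (l.length - 1) * c3 =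
        xc ^ (n + 1) * ∑ l ∈ P.filter (fun l => l.length - 2 = n), c3 := by
      rw [Finset.mul_sum]
      refine Finset.sum_congr rfl fun l hl => ?_
      have h3 := (hfib l hl).1
      have : l.length - 1 = n + 1 := by omega
      rw [this]
    rw [e1]
    refine mul_le_mul_of_nonneg_left ?_ (by positivity)
    -- the extension
    have hext : ∀ l ∈ P.filter (fun l => l.length - 2 = n), ((l.headI + (-1, 0)) :: l) ∈ exits p n ∧
        Real.cos (Tn ((l.headI + (-1, 0)) :: l) * (Real.pi / 8)) = c3 := by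
      intro l hl
      have hs := hfib l hl
      rw [Finset.mem_filter] at hl
      obtain ⟨-, hho, hty, hFF⟩ := hP l hl.1
      have hs' := hin l hl.1 n hs
      obtain ⟨v, w, r, rfl, hvw, hv⟩ := hs'.cases
      simp only [List.headI_cons] at hho hty hFF ⊢
      have hadj : Adj (v + (-1, 0)) v := by
        refine ⟨?_, hvw.1, ?_⟩
        · unfold hon; simp only [Prod.fst_add, Prod.snd_add]; omega
        · simp [U]
      have hu : ¬ Hp k d (v + (-1, 0)) := by
        intro h
        obtain ⟨a, b⟩ := v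
        simp only [Prod.mk_add_mk, add_zero] at h
        simp only at hty
        unfold Hp at h
        rw [FF_mul] at h hFF
        have e2 : (k : ℤ) * (a + -1) = (k : ℤ) * a - k := by ring
        rw [e2] at h
        simp only at h
        generalize (k : ℤ) * a = ka at *
        generalize (k : ℤ) * b = kb at *
        omega
      have huw : v + (-1, 0) ≠ w := by
        intro h
        obtain ⟨g1, g2, g3, t, g4, g5⟩ := hs
        cases t with
        | nil =>
          simp only [List.nil_append, List.cons.injEq] at g4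
          exact hho g4.1
        | cons a t =>
          simp only [List.cons_append, List.cons.injEq] at g4
          have hw : w ∈ t ++ [o] := by
            cases t with
            | nil =>
              simp only [List.nil_append, List.cons.injEq] at g4
              rw [g4.2.1]; simp
            | cons b t =>
              simp only [List.cons_append, List.cons.injEq] at g4
              rw [g4.2.1]; simp
          apply hu
          rw [h]
          exact g5 w (List.mem_cons_of_mem _ hw)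
      refine ⟨(mem_exits hp).2 ⟨v + (-1, 0), v, w, r, rfl, hs', hadj, huw, fun h => hu h.1⟩, ?_⟩
      have he : v + (-1, 0) - v = (-1, 0) := by ring
      rcases slant_turn hk h1 h2 hp (fun x hx => hx.1) hs' hadj huw hu with ⟨-, h | h⟩ | ⟨h, -⟩
      · rw [h, hc3]; push_cast; rfl
      · rw [h, hc3]
        have : (((-3 : ℤ) : ℝ) * (Real.pi / 8)) = -(3 * (Real.pi / 8)) := by push_cast; ring
        rw [this, Real.cos_neg]
      · rw [he] at h
        simp at h
    have e3 : ∑ l ∈ P.filter (fun l => l.length - 2 = n), c3 =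
        ∑ Q ∈ (P.filter (fun l => l.length - 2 = n)).image (fun l => (l.headI + (-1, 0)) :: l),
          Real.cos (Tn Q * (Real.pi / 8)) := by
      rw [Finset.sum_image]
      · exact Finset.sum_congr rfl fun l hl => (hext l hl).2.symm
      · intro l _ l' _ h
        simp only [List.cons.injEq] at h
        exact h.2
    rw [e3]
    refine Finset.sum_le_sum_of_subset_of_nonneg ?_ ?_
    · intro Q hQ
      rw [Finset.mem_image] at hQ
      obtain ⟨l, hl, rfl⟩ := hQ
      exact (hext l hl).1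
    · intro Q hQ _
      obtain ⟨u, v, w, r, rfl, g1, g2, g3, g4⟩ := (mem_exits hp).1 hQ
      exact trunc_cos hk h1 h2 hp hpH g1 g2 g3 g4
  rw [← Finset.sum_mul] at hmain
  have hS : 0 ≤ ∑ l ∈ P, xc ^ (l.length - 1) := Finset.sum_nonneg fun l _ => by positivity
  nlinarith

end Pool.Agent.DEN
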